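import Pool.Agent.StarkRQ.Oct.Fix

/-!
# The fixed fields of `B` and of `⁅B, B⁆`

`kF B`, `LF B` are the fixed fields of `B` and of `⁅B, B⁆` as abstract fields.
-/

open NumberField Module
open scoped commutatorElement

namespace Pool.Agent.StarkRQ.Oct

variable {Ω : Type} [Field Ω] [NumberField Ω]

/-- the fixed field of `B` -/
def kF (B : Subgroup Gal(Ω/ℚ)) : Type := ↥(IntermediateField.fixedField B)

/-- the fixed field of `⁅B, B⁆` -/
def LF (B : Subgroup Gal(Ω/ℚ)) : Type := ↥(IntermediateField.fixedField ⁅B, B⁆)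

variable (B : Subgroup Gal(Ω/ℚ))

noncomputable instance : Field (kF B) := inferInstanceAs (Field ↥(IntermediateField.fixedField B))

noncomputable instance : Field (LF B) :=
  inferInstanceAs (Field ↥(IntermediateField.fixedField ⁅B, B⁆))

instance : NumberField (kF B) := inferInstanceAs (NumberField ↥(IntermediateField.fixedField B))

instance : NumberField (LF B) :=
  inferInstanceAs (NumberField ↥(IntermediateField.fixedField ⁅B, B⁆))

noncomputable instance : Algebra (kF B) Ω :=
  inferInstanceAs (Algebra ↥(IntermediateField.fixedField B) Ω)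

noncomputable instance : Algebra (LF B) Ω :=
  inferInstanceAs (Algebra ↥(IntermediateField.fixedField ⁅B, B⁆) Ω)

lemma fixed_le : IntermediateField.fixedField B ≤ IntermediateField.fixedField ⁅B, B⁆ := by
  have h : (⁅B, B⁆ : Subgroup Gal(Ω/ℚ)) ≤ B := Subgroup.commutator_le.2 fun g hg g' hg' => by
    rw [commutatorElement_def]
    exact B.mul_mem (B.mul_mem (B.mul_mem hg hg') (B.inv_mem hg)) (B.inv_mem hg')
  intro x hx
  rw [IntermediateField.mem_fixedField_iff] at hx ⊢
  exact fun g hg => hx g (h hg)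

noncomputable instance : Algebra (kF B) (LF B) :=
  (IntermediateField.inclusion (fixed_le B)).toRingHom.toAlgebra

instance : IsScalarTower (kF B) (LF B) Ω := IsScalarTower.of_algebraMap_eq fun _ => rfl

variable [IsGalois ℚ Ω]

lemma fixG_kF : fixG (kF B) Ω = B := by
  ext g
  rw [mem_fixG]
  have h := IntermediateField.fixingSubgroup_fixedField B
  constructor
  · intro hg
    rw [← h, IntermediateField.mem_fixingSubgroup_iff]
    intro x hx
    exact hg ⟨x, hx⟩
  · intro hg x
    rw [← h, IntermediateField.mem_fixingSubgroup_iff] at hg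
    exact hg _ x.2

lemma fixG_LF : fixG (LF B) Ω = ⁅B, B⁆ := by
  ext g
  rw [mem_fixG]
  have h := IntermediateField.fixingSubgroup_fixedField (⁅B, B⁆ : Subgroup Gal(Ω/ℚ))
  constructor
  · intro hg
    rw [← h, IntermediateField.mem_fixingSubgroup_iff]
    intro x hx
    exact hg ⟨x, hx⟩
  · intro hg x
    rw [← h, IntermediateField.mem_fixingSubgroup_iff] at hg
    exact hg _ x.2

instance [B.Normal] : IsGalois ℚ (LF B) :=
  isGalois_of_normal (Ω := Ω) (by rw [fixG_LF]; infer_instance)

instance : IsAbelianGalois (kF B) (LF B) :=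
  isAbelian_of (Ω := Ω) (by rw [fixG_kF, fixG_LF])

lemma ker_res_LF [B.Normal] : (res (LF B) Ω).ker = ⁅B, B⁆ := by
  rw [← fixG_eq_ker, fixG_LF]

lemma finrank_kF (hB : B.index = 2) : finrank ℚ (kF B) = 2 := by
  rw [finrank_eq_index (Ω := Ω), fixG_kF, hB]

lemma totallyComplex_kF (hB : B.index = 2) {ι : Ω →+* ℂ} {c : Gal(Ω/ℚ)}
    (hc : ∀ x, ι (c x) = starRingEnd ℂ (ι x)) (hcB : c ∉ B) : IsTotallyComplex (kF B) :=
  isTotallyComplex_of (finrank_kF B hB) hc (by rw [fixG_kF]; exact hcB)

end Pool.Agent.StarkRQ.Oct
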