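import Pool.Agent.StarkRQ.Defs

/-!
# Functions on the Galois group: logarithms of the absolute values of the conjugates

`Γ = Gal(Ω/ℚ)`, `ι : Ω → ℂ`. `logF ι u g = log |ι (g u)|`. `SF ι` is the group of all functions
`logF ι u`, `u ≠ 0`, such that all `g u / u` are algebraic integers (hence units). It is stable under
right translations `tr h φ = (g ↦ φ (g h))`.
-/

open NumberField

namespace Pool.Agent.StarkRQ.Oct

/-- right translation of functions on a group -/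
def tr {G : Type*} [Mul G] (h : G) (φ : G → ℝ) : G → ℝ := fun g => φ (g * h)

@[simp] lemma tr_apply {G : Type*} [Mul G] (h : G) (φ : G → ℝ) (g : G) : tr h φ g = φ (g * h) := rfl

variable {Ω : Type} [Field Ω] [NumberField Ω]

/-- the logarithms of the absolute values of the conjugates of `u` -/
noncomputable def logF (ι : Ω →+* ℂ) (u : Ω) : Gal(Ω/ℚ) → ℝ := fun g => Real.log ‖ι (g u)‖

lemma logF_apply (ι : Ω →+* ℂ) (u : Ω) (g : Gal(Ω/ℚ)) : logF ι u g = Real.log ‖ι (g u)‖ := rfl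

lemma norm_ne_zero_of (ι : Ω →+* ℂ) {u : Ω} (hu : u ≠ 0) (g : Gal(Ω/ℚ)) : ‖ι (g u)‖ ≠ 0 := by
  rw [norm_ne_zero_iff]
  exact (map_ne_zero ι).2 ((map_ne_zero_iff g g.injective).2 hu)

lemma logF_mul (ι : Ω →+* ℂ) {u v : Ω} (hu : u ≠ 0) (hv : v ≠ 0) :
    logF ι (u * v) = logF ι u + logF ι v := by
  ext g
  rw [Pi.add_apply, logF, logF, logF, map_mul, map_mul, norm_mul,
    Real.log_mul (norm_ne_zero_of ι hu g) (norm_ne_zero_of ι hv g)]

lemma logF_inv (ι : Ω →+* ℂ) (u : Ω) : logF ι u⁻¹ = - logF ι u := by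
  ext g
  rw [Pi.neg_apply, logF, logF, map_inv₀, map_inv₀, norm_inv, Real.log_inv]

lemma logF_one (ι : Ω →+* ℂ) : logF ι 1 = 0 := by
  ext g
  simp [logF]

lemma logF_smul (ι : Ω →+* ℂ) (u : Ω) (h : Gal(Ω/ℚ)) : logF ι (h u) = tr h (logF ι u) := rfl

/-- the group of the functions `logF ι u` for which all `g u / u` are integral -/
def SF (ι : Ω →+* ℂ) : AddSubgroup (Gal(Ω/ℚ) → ℝ) where
  carrier := {φ | ∃ u : Ω, u ≠ 0 ∧ (∀ g : Gal(Ω/ℚ), IsIntegral ℤ (g u / u)) ∧ φ = logF ι u}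
  zero_mem' := ⟨1, one_ne_zero, fun g => by simpa using isIntegral_one, (logF_one ι).symm⟩
  add_mem' := by
    rintro _ _ ⟨u, hu, hui, rfl⟩ ⟨v, hv, hvi, rfl⟩
    refine ⟨u * v, mul_ne_zero hu hv, fun g => ?_, (logF_mul ι hu hv).symm⟩
    rw [map_mul, mul_div_mul_comm]
    exact (hui g).mul (hvi g)
  neg_mem' := by
    rintro _ ⟨u, hu, hui, rfl⟩
    refine ⟨u⁻¹, inv_ne_zero hu, fun g => ?_, (logF_inv ι u).symm⟩
    have h1 : g u⁻¹ / u⁻¹ = g (g⁻¹ u / u) := by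
      have h2 : g (g⁻¹ u) = u := by
        change (g * g⁻¹) u = u
        rw [mul_inv_cancel]; rfl
      rw [map_div₀, h2, map_inv₀]
      have hgu : g u ≠ 0 := (map_ne_zero_iff g g.injective).2 hu
      field_simp
    rw [h1]
    exact (hui g⁻¹).map (g : Ω →ₐ[ℚ] Ω).toRingHom.toIntAlgHom

lemma mem_SF {ι : Ω →+* ℂ} {φ : Gal(Ω/ℚ) → ℝ} :
    φ ∈ SF ι ↔ ∃ u : Ω, u ≠ 0 ∧ (∀ g : Gal(Ω/ℚ), IsIntegral ℤ (g u / u)) ∧ φ = logF ι u :=
  Iff.rfl

lemma tr_mem_SF {ι : Ω →+* ℂ} (h : Gal(Ω/ℚ)) {φ : Gal(Ω/ℚ) → ℝ} (hφ : φ ∈ SF ι) :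
    tr h φ ∈ SF ι := by
  obtain ⟨u, hu, hui, rfl⟩ := hφ
  refine ⟨h u, (map_ne_zero_iff h h.injective).2 hu, fun g => ?_, rfl⟩
  have h1 : g (h u) / h u = h ((h⁻¹ * g * h) u / u) := by
    rw [map_div₀]
    congr 1
    change (g * h) u = (h * (h⁻¹ * g * h)) u
    congr 1
    group
  rw [h1]
  exact (hui _).map (h : Ω →ₐ[ℚ] Ω).toRingHom.toIntAlgHom

end Pool.Agent.StarkRQ.Oct
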