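import Pool.Agent.StarkRQ.Oct.SumC
import Pool.Agent.StarkRQ.Oct.Defs
import Pool.Agent.StarkRQ.ContLin
import Pool.Agent.StarkRQ.LinDeriv

/-!
# Equality of the twisted sums of `ψ₁` and `ψ₂`

Write `S₁ g = ∑_t κ t ψ₁ (g t)`, `S₂ g = ∑_t κ t ψ₂ (g t)`, sums over the commutator subgroup `C` (central,
contained in `q₁.ker` and `q₂.ker`, so `g t ∈ qᵢ.ker ↔ g ∈ qᵢ.ker`). `Sᵢ (g c) = Sᵢ g` (`g c t = g t c`, `hᵢc`).

* `q₁ g = q₂ g = 1`: `hcontᵢ` for all `g t`; the relation `hrel` between the coefficients gives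
  `∑_t κ t (-2 ψ₁ (g t)) = ∑_t κ t (-2 ψ₂ (g t))` (`deriv_lin`).
* `q₁ g = q₂ g = -1`: replace `g` by `g c` (`qᵢ c = -1`).
* `q₁ g = 1`, `q₂ g = -1`: `hvan` and `hcont₁` give `S₁ g = 0`. For `g' = g c`: `q₂ g' = 1`, `q₁ g' = -1`, by
  `hrel` and `hvan` `∑_t κ t c₂ n (g' t) = 0`, so `S₂ g = S₂ g' = 0`.
* `q₁ g = -1`, `q₂ g = 1`: the same for `g c`.

`pair_psi_delta`: the sums over `δ.range`: apply `Big.sum_eq` (for `q₁` and for `q₂`) to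
`φ t = κ t * ψᵢ (g t)`; `|⁅q₁.ker, q₁.ker⁆| = |⁅q₂.ker, q₂.ker⁆|` by `card_eq`, and this is not `0`.
-/

open scoped commutatorElement

namespace Pool.Agent.StarkRQ.Oct

variable {G : Type*} [Group G] [Finite G]

private lemma PairPsi_lin {T : Type*} [Fintype T] (w : T → ℤ) (a : T → ℕ → ℕ) (v : T → ℝ)
    (h : ∀ t, ∃ Z : ℂ → ℂ, IsCont (fun n => (a t n : ℂ)) Z ∧ deriv Z 0 = ((-2 * v t : ℝ) : ℂ))
    (h0 : ∀ n : ℕ, n ≠ 0 → ∑ t, w t * (a t n : ℤ) = 0) : ∑ t, (w t : ℝ) * v t = 0 := by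
  choose Z hZ hdZ using h
  have h1 := deriv_lin (Finset.univ : Finset T) (fun t => (w t : ℂ)) (fun t n => (a t n : ℂ)) Z
    (fun t _ => (hZ t).diff) (fun t _ => (hZ t).eq) (fun t _ => (hZ t).summable) (by
      intro n hn
      have h2 := congrArg (fun x : ℤ => (x : ℂ)) (h0 n hn)
      push_cast at h2
      exact h2)
  have h2 : (((-2 : ℝ) * ∑ t, (w t : ℝ) * v t : ℝ) : ℂ) = 0 := by
    rw [← h1, Finset.mul_sum]
    push_cast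
    refine Finset.sum_congr rfl fun t _ => ?_
    rw [hdZ]
    push_cast
    ring
  have h3 : (-2 : ℝ) * ∑ t, (w t : ℝ) * v t = 0 := by exact_mod_cast h2
  linarith

omit [Finite G] in
private lemma PairPsi_q {q : G →* ℤˣ} {t : G} (ht : t ∈ commutator G) : q t = 1 := by
  have h1 : commutator G ≤ q.ker := by
    rw [commutator_def, Subgroup.commutator_le]
    intro x _ y _
    rw [MonoidHom.mem_ker, commutatorElement_def, map_mul, map_mul, map_mul, map_inv, map_inv]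
    rw [mul_comm (q x) (q y), mul_assoc (q y), mul_inv_cancel, mul_one, mul_inv_cancel]
  exact h1 ht

theorem pair_psi (hG : Big G) {c : G} {q₁ q₂ : G →* ℤˣ} (hq₁c : q₁ c = -1) (hq₂c : q₂ c = -1)
    (κ : commutator G →* ℤˣ) {c₁ c₂ : ℕ → G → ℕ} {ψ₁ ψ₂ : G → ℝ}
    (hcont₁ : ∀ g, q₁ g = 1 → ∃ Z : ℂ → ℂ, IsCont (fun n => (c₁ n g : ℂ)) Z ∧
      deriv Z 0 = ((-2 * ψ₁ g : ℝ) : ℂ))
    (hcont₂ : ∀ g, q₂ g = 1 → ∃ Z : ℂ → ℂ, IsCont (fun n => (c₂ n g : ℂ)) Z ∧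
      deriv Z 0 = ((-2 * ψ₂ g : ℝ) : ℂ))
    (h₁c : tr c ψ₁ = ψ₁) (h₂c : tr c ψ₂ = ψ₂)
    (hrel : ∀ n : ℕ, n ≠ 0 → ∀ g, ∑ᶠ t : commutator G, ((κ t : ℤˣ) : ℤ) * (c₁ n (g * t) : ℤ) =
      ∑ᶠ t : commutator G, ((κ t : ℤˣ) : ℤ) * (c₂ n (g * t) : ℤ))
    (hvan : ∀ n : ℕ, n ≠ 0 → ∀ g, ¬ (q₁ g = 1 ∧ q₂ g = 1) →
      ∑ᶠ t : commutator G, ((κ t : ℤˣ) : ℤ) * (c₁ n (g * t) : ℤ) = 0) (g : G) :
    (∑ᶠ t : commutator G, (((κ t : ℤˣ) : ℤ) : ℝ) * ψ₁ (g * t) =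
      ∑ᶠ t : commutator G, (((κ t : ℤˣ) : ℤ) : ℝ) * ψ₂ (g * t)) ∧
    (q₁ g ≠ q₂ g → ∑ᶠ t : commutator G, (((κ t : ℤˣ) : ℤ) : ℝ) * ψ₁ (g * t) = 0) := by
  classical
  have : Fintype (commutator G) := Fintype.ofFinite _
  -- translation by `c`
  have htr : ∀ {ψ : G → ℝ}, tr c ψ = ψ → ∀ g : G,
      ∑ᶠ t : commutator G, (((κ t : ℤˣ) : ℤ) : ℝ) * ψ (g * c * t) =
        ∑ᶠ t : commutator G, (((κ t : ℤˣ) : ℤ) : ℝ) * ψ (g * t) := by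
    intro ψ hψ g
    refine finsum_congr fun t => ?_
    congr 1
    have h1 : g * c * t = g * t * c := by
      rw [mul_assoc, ← hG.central t.2 c, mul_assoc]
    rw [h1]
    exact congrFun hψ (g * t)
  -- vanishing
  have hzero : ∀ {q : G →* ℤˣ} {cc : ℕ → G → ℕ} {ψ : G → ℝ},
      (∀ g, q g = 1 → ∃ Z : ℂ → ℂ, IsCont (fun n => (cc n g : ℂ)) Z ∧
        deriv Z 0 = ((-2 * ψ g : ℝ) : ℂ)) → ∀ g, q g = 1 →
      (∀ n : ℕ, n ≠ 0 → ∑ᶠ t : commutator G, ((κ t : ℤˣ) : ℤ) * (cc n (g * t) : ℤ) = 0) →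
      ∑ᶠ t : commutator G, (((κ t : ℤˣ) : ℤ) : ℝ) * ψ (g * t) = 0 := by
    intro q cc ψ hcont g hg h0
    rw [finsum_eq_sum_of_fintype]
    refine PairPsi_lin (fun t : commutator G => ((κ t : ℤˣ) : ℤ)) (fun t n => cc n (g * t))
      (fun t => ψ (g * t)) (fun t => hcont _ ?_) (fun n hn => ?_)
    · rw [map_mul, hg, one_mul]
      exact PairPsi_q t.2
    · rw [← h0 n hn, finsum_eq_sum_of_fintype]
  -- both equal to one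
  have hboth : ∀ g, q₁ g = 1 → q₂ g = 1 →
      ∑ᶠ t : commutator G, (((κ t : ℤˣ) : ℤ) : ℝ) * ψ₁ (g * t) =
        ∑ᶠ t : commutator G, (((κ t : ℤˣ) : ℤ) : ℝ) * ψ₂ (g * t) := by
    intro g h1 h2
    have h3 := PairPsi_lin (T := commutator G ⊕ commutator G)
      (Sum.elim (fun t => ((κ t : ℤˣ) : ℤ)) (fun t => -((κ t : ℤˣ) : ℤ)))
      (Sum.elim (fun t n => c₁ n (g * t)) (fun t n => c₂ n (g * t)))
      (Sum.elim (fun t => ψ₁ (g * t)) (fun t => ψ₂ (g * t))) (by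
        rintro (t | t)
        · refine hcont₁ _ ?_
          rw [map_mul, h1, one_mul]
          exact PairPsi_q t.2
        · refine hcont₂ _ ?_
          rw [map_mul, h2, one_mul]
          exact PairPsi_q t.2) (by
        intro n hn
        have h4 := hrel n hn g
        rw [finsum_eq_sum_of_fintype, finsum_eq_sum_of_fintype] at h4
        rw [Fintype.sum_sum_type]
        simp only [Sum.elim_inl, Sum.elim_inr, neg_mul, Finset.sum_neg_distrib]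
        rw [h4]
        ring)
    rw [Fintype.sum_sum_type] at h3
    simp only [Sum.elim_inl, Sum.elim_inr, Int.cast_neg, neg_mul, Finset.sum_neg_distrib] at h3
    rw [finsum_eq_sum_of_fintype, finsum_eq_sum_of_fintype]
    linarith
  have hgc₁ : ∀ g, q₁ (g * c) = - q₁ g := fun g => by rw [map_mul, hq₁c, mul_neg, mul_one]
  have hgc₂ : ∀ g, q₂ (g * c) = - q₂ g := fun g => by rw [map_mul, hq₂c, mul_neg, mul_one]
  have hne1 : (-1 : ℤˣ) ≠ 1 := by decide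
  rcases Int.units_eq_one_or (q₁ g) with h1 | h1 <;> rcases Int.units_eq_one_or (q₂ g) with h2 | h2
  · exact ⟨hboth g h1 h2, fun h => absurd (h1.trans h2.symm) h⟩
  · have hv : ¬ (q₁ g = 1 ∧ q₂ g = 1) := fun h => hne1 (h2.symm.trans h.2)
    have hv' : ¬ (q₁ (g * c) = 1 ∧ q₂ (g * c) = 1) := fun h => by
      have := h.1
      rw [hgc₁, h1] at this
      exact hne1 this
    have e1 := hzero hcont₁ g h1 fun n hn => hvan n hn g hv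
    have e2 := hzero hcont₂ (g * c) (by rw [hgc₂, h2, neg_neg]) fun n hn => by
      rw [← hrel n hn (g * c)]
      exact hvan n hn (g * c) hv'
    rw [htr h₂c] at e2
    exact ⟨e1.trans e2.symm, fun _ => e1⟩
  · have hv : ¬ (q₁ g = 1 ∧ q₂ g = 1) := fun h => hne1 (h1.symm.trans h.1)
    have hv' : ¬ (q₁ (g * c) = 1 ∧ q₂ (g * c) = 1) := fun h => by
      have := h.2
      rw [hgc₂, h2] at this
      exact hne1 this
    have e1 := hzero hcont₁ (g * c) (by rw [hgc₁, h1, neg_neg]) fun n hn =>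
      hvan n hn (g * c) hv'
    rw [htr h₁c] at e1
    have e2 := hzero hcont₂ g h2 fun n hn => by
      rw [← hrel n hn g]
      exact hvan n hn g hv
    exact ⟨e1.trans e2.symm, fun _ => e1⟩
  · refine ⟨?_, fun h => absurd (h1.trans h2.symm) h⟩
    have e1 := hboth (g * c) (by rw [hgc₁, h1, neg_neg]) (by rw [hgc₂, h2, neg_neg])
    rwa [htr h₁c, htr h₂c] at e1

theorem pair_psi_delta (hG : Big G) {c : G} {δ : G →* G} (hδ : ∀ g, δ g = ⁅g, c⁆)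
    {q₁ q₂ : G →* ℤˣ} (hq₁ : ∀ x ∈ Subgroup.center G, q₁ x = 1)
    (hq₂ : ∀ x ∈ Subgroup.center G, q₂ x = 1) (hq₁c : q₁ c = -1) (hq₂c : q₂ c = -1)
    (κ : commutator G →* ℤˣ)
    (hκ₁ : ∀ t : commutator G, (t : G) ∈ ⁅q₁.ker, q₁.ker⁆ → κ t = 1)
    (hκ₂ : ∀ t : commutator G, (t : G) ∈ ⁅q₂.ker, q₂.ker⁆ → κ t = 1)
    {c₁ c₂ : ℕ → G → ℕ} {ψ₁ ψ₂ : G → ℝ}
    (hcont₁ : ∀ g, q₁ g = 1 → ∃ Z : ℂ → ℂ, IsCont (fun n => (c₁ n g : ℂ)) Z ∧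
      deriv Z 0 = ((-2 * ψ₁ g : ℝ) : ℂ))
    (hcont₂ : ∀ g, q₂ g = 1 → ∃ Z : ℂ → ℂ, IsCont (fun n => (c₂ n g : ℂ)) Z ∧
      deriv Z 0 = ((-2 * ψ₂ g : ℝ) : ℂ))
    (h₁c : tr c ψ₁ = ψ₁) (h₂c : tr c ψ₂ = ψ₂)
    (h₁N : ∀ t ∈ ⁅q₁.ker, q₁.ker⁆, tr t ψ₁ = ψ₁) (h₂N : ∀ t ∈ ⁅q₂.ker, q₂.ker⁆, tr t ψ₂ = ψ₂)
    (hrel : ∀ n : ℕ, n ≠ 0 → ∀ g, ∑ᶠ t : commutator G, ((κ t : ℤˣ) : ℤ) * (c₁ n (g * t) : ℤ) =
      ∑ᶠ t : commutator G, ((κ t : ℤˣ) : ℤ) * (c₂ n (g * t) : ℤ))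
    (hvan : ∀ n : ℕ, n ≠ 0 → ∀ g, ¬ (q₁ g = 1 ∧ q₂ g = 1) →
      ∑ᶠ t : commutator G, ((κ t : ℤˣ) : ℤ) * (c₁ n (g * t) : ℤ) = 0) (g : G) :
    (∑ᶠ t : δ.range, (((κ ⟨t, range_le hδ t.2⟩ : ℤˣ) : ℤ) : ℝ) * ψ₁ (g * t) =
      ∑ᶠ t : δ.range, (((κ ⟨t, range_le hδ t.2⟩ : ℤˣ) : ℤ) : ℝ) * ψ₂ (g * t)) ∧
    (q₁ g ≠ q₂ g →
      ∑ᶠ t : δ.range, (((κ ⟨t, range_le hδ t.2⟩ : ℤˣ) : ℤ) : ℝ) * ψ₁ (g * t) = 0) := by
  obtain ⟨h1, h2⟩ := pair_psi hG hq₁c hq₂c κ hcont₁ hcont₂ h₁c h₂c hrel hvan g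
  have hsum : ∀ {q : G →* ℤˣ} {ψ : G → ℝ}, (∀ x ∈ Subgroup.center G, q x = 1) → q c = -1 →
      (∀ t : commutator G, (t : G) ∈ ⁅q.ker, q.ker⁆ → κ t = 1) →
      (∀ t ∈ ⁅q.ker, q.ker⁆, tr t ψ = ψ) →
      ∑ᶠ t : commutator G, (((κ t : ℤˣ) : ℤ) : ℝ) * ψ (g * t) =
        (Nat.card (⁅q.ker, q.ker⁆ : Subgroup G) : ℝ) *
          ∑ᶠ t : δ.range, (((κ ⟨t, range_le hδ t.2⟩ : ℤˣ) : ℤ) : ℝ) * ψ (g * t) := by
    intro q ψ hq hqc hκ hN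
    refine hG.sum_eq hδ hq hqc (fun t : commutator G => (((κ t : ℤˣ) : ℤ) : ℝ) * ψ (g * t)) ?_
    intro t u hu
    have e1 : ψ (g * ((t * u : commutator G) : G)) = ψ (g * t) := by
      rw [Subgroup.coe_mul, ← mul_assoc]
      exact congrFun (hN u hu) (g * t)
    rw [e1, map_mul, hκ u hu, mul_one]
  have hN : Nat.card (⁅q₁.ker, q₁.ker⁆ : Subgroup G) = Nat.card (⁅q₂.ker, q₂.ker⁆ : Subgroup G) := by
    have e1 := hG.card_eq hδ hq₁ hq₁c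
    rw [hG.card_eq hδ hq₂ hq₂c] at e1
    exact (Nat.eq_of_mul_eq_mul_left Nat.card_pos e1).symm
  have hN0 : (Nat.card (⁅q₁.ker, q₁.ker⁆ : Subgroup G) : ℝ) ≠ 0 := by
    have : Nat.card (⁅q₁.ker, q₁.ker⁆ : Subgroup G) ≠ 0 := Nat.card_pos.ne'
    exact_mod_cast this
  constructor
  · have e1 := hsum hq₁ hq₁c hκ₁ h₁N
    have e2 := hsum hq₂ hq₂c hκ₂ h₂N
    rw [← hN] at e2
    rw [e1, e2] at h1
    exact mul_left_cancel₀ hN0 h1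
  · intro hne
    have e1 := hsum hq₁ hq₁c hκ₁ h₁N
    rw [h2 hne] at e1
    exact (mul_eq_zero.1 e1.symm).resolve_left hN0

end Pool.Agent.StarkRQ.Oct
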