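import Pool.Agent.StarkRQ.Oct.PhiDefs
import Pool.Agent.StarkRQ.Galois

/-!
# First properties of `Phi`

`F e g = ∑_(t ∈ D) a(t) ψ_e (g t)`, `D = δ.range`, a central elementary abelian `2`-group.

* `phi_c`: `g c t = g t c`.
* `phi_zero`: for `g` with `a (δ g) = -1` and any `e` use `hvan` with `e' = a * e` (`e * e' = a`, as
  `e * e = 1`; `e ≠ e'` as `a ≠ 1`).
* `phi_sum`: there is `t₀ ∈ D` with `a t₀ = -1`, and `Phi (g t₀) = - Phi g` (substitution `t ↦ t₀ t`).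
* `phi_T`: let `A` be the kernel of `a ∘ δ`, `t' ∈ ⁅A, A⁆`. For fixed `e` take `κ` from
  `hG.big (a ∘ δ) (bch δ b₀ e)`; it is `1` on `⁅A, A⁆` (`wedge_of_ker_left`) and on `⁅B, B⁆`,
  `B = (bch δ b₀ e).ker` (`wedge_of_ker`), and `κ (δ g) = wedge _ _ g c = a (δ g)` (`bch δ b₀ e c = -1`,
  `a (δ c) = 1`). By `Big.sum_eq` for `φ t = κ t * ψ e (g t)` (`hψN`):
  `∑_(t ∈ C) κ t ψ_e (g t) = |⁅B, B⁆| * F e g`, and the left side is invariant under `g ↦ g t'`
  (substitution `t ↦ t' t`, `κ t' = 1`).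
* `phi_mem`: with `t₀` as above, `F e g = ∑_(t ∈ ker a) (ψ_e (g t) - ψ_e (g t t₀))`, so
  `F e = ∑_(t ∈ ker a) tr t (ψ_e - tr t₀ ψ_e) ∈ SF ι`: `t₀` is a commutator, it acts trivially on roots of
  unity (`commutator_fixes` in `Galois.lean`) and lies in `B` (`b (⁅g, h⁆) = 1` for `b : G →* ℤˣ`), so
  `hmem` with `τ = t₀`, `n = 1` applies; `tr_mem_SF`. And `|D|` is a power of `2` and at most `16`, so it
  divides `16` and `16 • Phi = (16 / |D|) • ∑_e F e`.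
-/

open NumberField
open scoped commutatorElement

namespace Pool.Agent.StarkRQ.Oct

variable {G : Type*} [Group G] [Finite G]

theorem phi_c (hG : Big G) {c : G} {δ : G →* G} (hδ : ∀ g, δ g = ⁅g, c⁆) (a : δ.range →* ℤˣ)
    {ψ : (δ.range →* ℤˣ) → G → ℝ} (hψc : ∀ e, tr c (ψ e) = ψ e) :
    tr c (Phi a ψ) = Phi a ψ := by
  ext g
  rw [tr_apply, Phi]
  congr 1
  refine finsum_congr fun e => finsum_congr fun t => ?_
  have h1 : g * c * t = g * t * c := by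
    rw [mul_assoc, mul_assoc, hG.central (range_le hδ t.2) c]
  rw [h1]
  have h2 := congrFun (hψc e) (g * t)
  rw [tr_apply] at h2
  rw [h2]

theorem phi_zero (hG : Big G) {c : G} {δ : G →* G} (hδ : ∀ g, δ g = ⁅g, c⁆)
    {a : δ.range →* ℤˣ} (ha : a ≠ 1) {ψ : (δ.range →* ℤˣ) → G → ℝ} (hvan : HVan δ ψ) {g : G}
    (hg : g ∉ (a.comp δ.rangeRestrict).ker) : Phi a ψ g = 0 := by
  have hag : a ⟨δ g, ⟨g, rfl⟩⟩ = -1 := by
    rcases Int.units_eq_one_or (a ⟨δ g, ⟨g, rfl⟩⟩) with h | h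
    · exact absurd (MonoidHom.mem_ker.2 h) hg
    · exact h
  rw [Phi]
  have h0 : ∀ e : δ.range →* ℤˣ, ∑ᶠ t : δ.range, (((a t : ℤˣ) : ℤ) : ℝ) * ψ e (g * t) = 0 := by
    intro e
    have hee : e * (a * e) = a := by
      ext t
      simp only [MonoidHom.mul_apply]
      rcases Int.units_eq_one_or (e t) with h | h <;> rw [h] <;> simp
    have hne : e ≠ a * e := by
      intro h
      apply ha
      have h1 : 1 * e = a * e := by rw [one_mul]; exact h
      exact (mul_right_cancel h1).symm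
    have h1 := hvan e (a * e) hne g (by rw [hee]; exact hag)
    rw [hee] at h1
    exact h1
  simp_rw [h0]
  rw [finsum_zero, mul_zero]

/-- `Phi (g t₀) = a t₀ * Phi g` -/
theorem phi_shift {D : Subgroup G} (a : D →* ℤˣ) (ψ : (D →* ℤˣ) → G → ℝ) (t₀ : D) (g : G) :
    Phi a ψ (g * t₀) = ((a t₀ : ℤ) : ℝ) * Phi a ψ g := by
  rw [Phi, Phi, mul_left_comm]
  congr 1
  rw [mul_finsum]
  refine finsum_congr fun e => ?_
  rw [mul_finsum]
  rw [← finsum_comp_equiv (Equiv.mulLeft t₀)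
    (f := fun t : D => ((a t₀ : ℤ) : ℝ) * (((a t : ℤ) : ℝ) * ψ e (g * t)))]
  refine finsum_congr fun t => ?_
  have h1 : ((a t₀ : ℤ) : ℝ) * ((a t₀ : ℤ) : ℝ) = 1 := by
    rcases Int.units_eq_one_or (a t₀) with h | h <;> rw [h] <;> norm_num
  rw [Equiv.coe_mulLeft, map_mul, Subgroup.coe_mul, ← mul_assoc g]
  push_cast
  linear_combination (-(((a t : ℤ) : ℝ) * ψ e (g * t₀ * t))) * h1

theorem exists_neg {D : Type*} [Group D] {a : D →* ℤˣ} (ha : a ≠ 1) : ∃ t₀ : D, a t₀ = -1 := by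
  by_contra hcon
  push Not at hcon
  apply ha
  ext t
  have h1 := (Int.units_eq_one_or (a t)).resolve_right (hcon t)
  rw [h1]; rfl

theorem phi_sum (hG : Big G) {c : G} {δ : G →* G} (hδ : ∀ g, δ g = ⁅g, c⁆)
    {a : δ.range →* ℤˣ} (ha : a ≠ 1) (ψ : (δ.range →* ℤˣ) → G → ℝ) [Fintype G] :
    ∑ g, Phi a ψ g = 0 := by
  obtain ⟨t₀, ht₀⟩ := exists_neg ha
  have h1 : ∑ g, Phi a ψ g = ∑ g, Phi a ψ (g * t₀) :=
    (Equiv.sum_comp (Equiv.mulRight (t₀ : G)) (fun g => Phi a ψ g)).symm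
  have h2 : ∀ g, Phi a ψ (g * t₀) = - Phi a ψ g := by
    intro g
    rw [phi_shift, ht₀]
    push_cast
    ring
  simp_rw [h2] at h1
  rw [Finset.sum_neg_distrib] at h1
  linarith

theorem phi_T (hG : Big G) {c : G} {δ : G →* G} (hδ : ∀ g, δ g = ⁅g, c⁆) {b₀ : G →* ℤˣ}
    (hb₀ : ∀ x ∈ Subgroup.center G, b₀ x = 1) (hb₀c : b₀ c = -1) (a : δ.range →* ℤˣ)
    {ψ : (δ.range →* ℤˣ) → G → ℝ}
    (hψN : ∀ e, ∀ t ∈ ⁅(bch δ b₀ e).ker, (bch δ b₀ e).ker⁆, tr t (ψ e) = ψ e) {t : G}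
    (ht : t ∈ ⁅(a.comp δ.rangeRestrict).ker, (a.comp δ.rangeRestrict).ker⁆) :
    tr t (Phi a ψ) = Phi a ψ := by
  set α : G →* ℤˣ := a.comp δ.rangeRestrict with hα
  have hδc : δ c = 1 := by rw [hδ, commutatorElement_self]
  have hαc : α c = 1 := by
    have h1 : δ.rangeRestrict c = 1 := Subtype.ext hδc
    rw [hα, MonoidHom.comp_apply, h1, map_one]
  have hδZ : ∀ x ∈ Subgroup.center G, δ x = 1 := by
    intro x hx
    rw [hδ, commutatorElement_eq_one_iff_mul_comm]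
    exact (Subgroup.mem_center_iff.1 hx c).symm
  have hαZ : ∀ x ∈ Subgroup.center G, α x = 1 := by
    intro x hx
    have h1 : δ.rangeRestrict x = 1 := Subtype.ext (hδZ x hx)
    rw [hα, MonoidHom.comp_apply, h1, map_one]
  have htc : t ∈ commutator G := by
    have : ⁅α.ker, α.ker⁆ ≤ commutator G := by
      rw [commutator_def]; exact Subgroup.commutator_mono le_top le_top
    exact this ht
  ext g
  rw [tr_apply, Phi, Phi]
  congr 1
  refine finsum_congr fun e => ?_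
  set q : G →* ℤˣ := bch δ b₀ e with hq
  have hqZ : ∀ x ∈ Subgroup.center G, q x = 1 := by
    intro x hx
    have h1 : (⟨δ x, ⟨x, rfl⟩⟩ : δ.range) = 1 := Subtype.ext (hδZ x hx)
    rw [hq, bch_apply, hb₀ x hx, h1, map_one, mul_one]
  have hqc : q c = -1 := by
    have h1 : (⟨δ c, ⟨c, rfl⟩⟩ : δ.range) = 1 := Subtype.ext hδc
    rw [hq, bch_apply, hb₀c, h1, map_one, mul_one]
  obtain ⟨κ, hκ⟩ := hG.big α q hαZ hqZ
  -- `κ` on `⁅A, A⁆` and on `⁅B, B⁆`
  have hκA : κ ⟨t, htc⟩ = 1 := by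
    have h1 : ⁅α.ker, α.ker⁆ ≤ Subgroup.map (commutator G).subtype κ.ker := by
      rw [Subgroup.commutator_le]
      intro g hg h hh
      refine ⟨⟨⁅g, h⁆, comm_mem g h⟩, ?_, rfl⟩
      change κ ⟨⁅g, h⁆, comm_mem g h⟩ = 1
      rw [hκ]
      exact wedge_of_ker_left (MonoidHom.mem_ker.1 hg) (MonoidHom.mem_ker.1 hh)
    obtain ⟨y, hy, hy'⟩ := h1 ht
    have h2 : y = ⟨t, htc⟩ := Subtype.ext hy'
    rw [← h2]
    exact hy
  have hκB : ∀ u : commutator G, (u : G) ∈ ⁅q.ker, q.ker⁆ → κ u = 1 := by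
    intro u hu
    have h1 : ⁅q.ker, q.ker⁆ ≤ Subgroup.map (commutator G).subtype κ.ker := by
      rw [Subgroup.commutator_le]
      intro g hg h hh
      refine ⟨⟨⁅g, h⁆, comm_mem g h⟩, ?_, rfl⟩
      change κ ⟨⁅g, h⁆, comm_mem g h⟩ = 1
      rw [hκ]
      exact wedge_of_ker (MonoidHom.mem_ker.1 hg) (MonoidHom.mem_ker.1 hh)
    obtain ⟨y, hy, hy'⟩ := h1 hu
    have h2 : y = u := Subtype.ext hy'
    rw [← h2]
    exact hy
  have hκD : ∀ s : δ.range, κ ⟨s, range_le hδ s.2⟩ = a s := by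
    rintro ⟨_, ⟨h, rfl⟩⟩
    have h1 : (⟨δ h, range_le hδ ⟨h, rfl⟩⟩ : commutator G) = ⟨⁅h, c⁆, comm_mem h c⟩ :=
      Subtype.ext (hδ h)
    rw [h1, hκ, wedge, if_neg (show ¬ α c = -1 by rw [hαc]; decide), mul_one, hqc]
    have h2 : α h = a ⟨δ h, ⟨h, rfl⟩⟩ := rfl
    rw [← h2]
    rcases Int.units_eq_one_or (α h) with h3 | h3
    · rw [h3, if_neg (by decide)]
    · rw [h3, if_pos rfl]
  have hsum : ∀ g : G, ∑ᶠ s : commutator G, ((κ s : ℤ) : ℝ) * ψ e (g * s) =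
      (Nat.card (⁅q.ker, q.ker⁆ : Subgroup G) : ℝ) *
        ∑ᶠ s : δ.range, (((a s : ℤˣ) : ℤ) : ℝ) * ψ e (g * s) := by
    intro g
    rw [hG.sum_eq hδ hqZ hqc (fun s : commutator G => ((κ s : ℤ) : ℝ) * ψ e (g * s)) ?_]
    · congr 1
      refine finsum_congr fun s => ?_
      rw [hκD]
    · intro s u hu
      have h1 : ψ e (g * ((s * u : commutator G) : G)) = ψ e (g * s) := by
        have h2 := congrFun (hψN e u hu) (g * s)
        rw [tr_apply] at h2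
        rw [Subgroup.coe_mul, ← mul_assoc, h2]
      simp only [map_mul, hκB u hu, mul_one, h1]
  have hinv : ∑ᶠ s : commutator G, ((κ s : ℤ) : ℝ) * ψ e (g * t * s) =
      ∑ᶠ s : commutator G, ((κ s : ℤ) : ℝ) * ψ e (g * s) := by
    rw [← finsum_comp_equiv (Equiv.mulLeft (⟨t, htc⟩ : commutator G))
      (f := fun s : commutator G => ((κ s : ℤ) : ℝ) * ψ e (g * s))]
    refine finsum_congr fun s => ?_
    rw [Equiv.coe_mulLeft, map_mul, hκA, one_mul, Subgroup.coe_mul, mul_assoc]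
  rw [hsum, hsum] at hinv
  refine mul_left_cancel₀ ?_ hinv
  have : (Nat.card (⁅q.ker, q.ker⁆ : Subgroup G)) ≠ 0 := Nat.card_pos.ne'
  exact_mod_cast this

theorem phi_mem {Ω : Type} [Field Ω] [NumberField Ω] [IsGalois ℚ Ω] {ι : Ω →+* ℂ}
    (hG : Big Gal(Ω/ℚ)) {c : Gal(Ω/ℚ)} {δ : Gal(Ω/ℚ) →* Gal(Ω/ℚ)} (hδ : ∀ g, δ g = ⁅g, c⁆)
    (hD : Nat.card δ.range ≤ 16) {b₀ : Gal(Ω/ℚ) →* ℤˣ} {a : δ.range →* ℤˣ} (ha : a ≠ 1)
    {ψ : (δ.range →* ℤˣ) → Gal(Ω/ℚ) → ℝ}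
    (hmem : ∀ e, ∀ τ ∈ (bch δ b₀ e).ker, ∀ n : ℕ,
      (∀ ξ : Ω, ∀ m : ℕ, 0 < m → ξ ^ m = 1 → τ ξ = ξ ^ n) → tr τ (ψ e) - n • ψ e ∈ SF ι) :
    16 • Phi a ψ ∈ SF ι := by
  classical
  obtain ⟨t₀, ht₀⟩ := exists_neg ha
  obtain ⟨h₀, hh₀⟩ := t₀.2
  have := Fintype.ofFinite δ.range
  have hfinE : Finite (δ.range →* ℤˣ) := Finite.of_injective _ DFunLike.coe_injective
  have := Fintype.ofFinite (δ.range →* ℤˣ)
  -- each difference is in `SF`
  have hdiff : ∀ e, ψ e - tr (t₀ : Gal(Ω/ℚ)) (ψ e) ∈ SF ι := by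
    intro e
    have h1 := hmem e (t₀ : Gal(Ω/ℚ)) (by
      rw [MonoidHom.mem_ker, ← hh₀, hδ, map_commutatorElement, commutatorElement_def,
        mul_comm (bch δ b₀ e h₀), mul_inv_cancel_right, mul_inv_cancel]) 1 (by
      intro ξ m hm hξ
      have : NeZero m := ⟨hm.ne'⟩
      rw [pow_one, ← hh₀, hδ, commutatorElement_def]
      exact commutator_fixes h₀ c ξ hξ)
    rw [one_smul] at h1
    have h2 := (SF ι).neg_mem h1
    rwa [neg_sub] at h2
  have hF : ∀ e, (fun g => ∑ t : δ.range, (((a t : ℤˣ) : ℤ) : ℝ) * ψ e (g * t)) ∈ SF ι := by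
    intro e
    have h1 : (fun g => ∑ t : δ.range, (((a t : ℤˣ) : ℤ) : ℝ) * ψ e (g * t)) =
        ∑ t ∈ Finset.univ.filter (fun t : δ.range => a t = 1),
          tr (t : Gal(Ω/ℚ)) (ψ e - tr (t₀ : Gal(Ω/ℚ)) (ψ e)) := by
      ext g
      rw [Finset.sum_apply]
      rw [← Finset.sum_filter_add_sum_filter_not Finset.univ (fun t : δ.range => a t = 1)]
      have e1 : ∑ t ∈ Finset.univ.filter (fun t : δ.range => ¬ a t = 1),
          (((a t : ℤˣ) : ℤ) : ℝ) * ψ e (g * t) =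
          ∑ t ∈ Finset.univ.filter (fun t : δ.range => a t = 1),
            (-(ψ e (g * t * t₀))) := by
        refine Finset.sum_bij' (fun t _ => t * t₀⁻¹) (fun t _ => t * t₀) ?_ ?_ ?_ ?_ ?_
        · intro t ht
          rw [Finset.mem_filter] at ht ⊢
          refine ⟨Finset.mem_univ _, ?_⟩
          rw [map_mul, map_inv, ht₀, (Int.units_eq_one_or (a t)).resolve_left ht.2]
          decide
        · intro t ht
          rw [Finset.mem_filter] at ht ⊢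
          refine ⟨Finset.mem_univ _, ?_⟩
          rw [map_mul, ht₀, ht.2]
          decide
        · intro t _
          rw [inv_mul_cancel_right]
        · intro t _
          rw [mul_inv_cancel_right]
        · intro t ht
          rw [Finset.mem_filter] at ht
          rw [(Int.units_eq_one_or (a t)).resolve_left ht.2, Subgroup.coe_mul, Subgroup.coe_inv,
            mul_assoc g, inv_mul_cancel_right]
          push_cast
          ring
      rw [e1, ← Finset.sum_add_distrib]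
      refine Finset.sum_congr rfl fun t ht => ?_
      rw [Finset.mem_filter] at ht
      rw [ht.2, tr_apply, Pi.sub_apply, tr_apply]
      push_cast
      ring
    rw [h1]
    exact sum_mem fun t _ => tr_mem_SF _ (hdiff e)
  -- the order of `D`
  have hdvd : Nat.card δ.range ∣ 16 := by
    have hp : IsPGroup 2 δ.range := by
      rintro ⟨s, hs⟩
      refine ⟨1, ?_⟩
      rw [pow_one, pow_two]
      exact Subtype.ext (hG.sq_eq_one (range_le hδ hs))
    have : Fact (Nat.Prime 2) := ⟨Nat.prime_two⟩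
    obtain ⟨n, hn⟩ := IsPGroup.iff_card.1 hp
    rw [hn] at hD ⊢
    have hn4 : n ≤ 4 := by
      by_contra h
      have h5 : 2 ^ 5 ≤ 2 ^ n := Nat.pow_le_pow_right (by norm_num) (by omega)
      omega
    exact (pow_dvd_pow 2 hn4).trans (by norm_num)
  obtain ⟨w, hw⟩ := hdvd
  have hcard0 : (Nat.card δ.range : ℝ) ≠ 0 := by
    have : Nat.card δ.range ≠ 0 := Nat.card_pos.ne'
    exact_mod_cast this
  have hfin : 16 • Phi a ψ = w • ∑ e : δ.range →* ℤˣ,
      (fun g => ∑ t : δ.range, (((a t : ℤˣ) : ℤ) : ℝ) * ψ e (g * t)) := by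
    ext g
    rw [Pi.smul_apply, Pi.smul_apply, Finset.sum_apply, Phi, finsum_eq_sum_of_fintype, hw]
    simp_rw [finsum_eq_sum_of_fintype]
    rw [nsmul_eq_mul, nsmul_eq_mul]
    push_cast
    field_simp
  rw [hfin]
  exact (SF ι).nsmul_mem (sum_mem fun e _ => hF e) w

end Pool.Agent.StarkRQ.Oct
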