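import Pool.Agent.StarkRQ.Oct.SumC

/-!
# The sum of the characters `κ e`

`G` is `Big`, `δ g = ⁅g, c⁆`, `c * c = 1`, `b₀` is trivial on the center, `b₀ c = -1`,
`D = δ.range`, `a : D →* ℤˣ`, `α = a ∘ δ`, `A = α.ker` (`c ∈ A`, as `δ c = 1`), `b ∉ A`, `z = ⁅b, c⁆`,
and `κ e` is the character of the commutator subgroup with
`κ e ⁅g, h⁆ = wedge α (bch δ b₀ e) g h`. Claim:
`∑_e κ e t = |D| * (1[t ∈ ⁅A, A⁆] - 1[t z ∈ ⁅A, A⁆])`.

Proof. `wedge p (q q') = wedge p q * wedge p q'` (pointwise), so `κ e = κ 1 * λ e` with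
`λ e ⁅g, h⁆ = wedge α (e ∘ δ) g h` and `λ (e e') = λ e * λ e'` (two homomorphisms on the commutator
subgroup which agree on all commutators are equal). So `∑_e κ e t = κ 1 t * ∑_e λ e t`, and
`∑_e λ e t` is `|D →* ℤˣ| = |D|` if `λ e t = 1` for all `e`, and `0` otherwise (as `e ↦ λ e t` is a
homomorphism to `ℤˣ`). (`|D →* ℤˣ| = |D|` as `D` is an elementary abelian `2`-group: `card_dual`.)

Write `t = t₁ * ⁅b, x⁆` with `t₁ ∈ ⁅A, A⁆`, `x ∈ A` (possible by bilinearity, as in `sup_eq`: every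
`g` is in `A` or in `A b`). `λ e t₁ = 1` (`wedge_of_ker_left`), `λ e t = wedge α (e ∘ δ) b x = e (δ x)`
as `α b = -1`, `α x = 1`. If this is `1` for all `e` then `δ x = 1` (`exists_sep` for `D`), so
`x ∈ Z ∪ Z c` (`centralizer`) and `⁅b, x⁆ ∈ {1, z}`. Conversely for `t ∈ ⁅A, A⁆ ∪ z ⁅A, A⁆` all
`λ e t = 1`. Finally `κ 1 = 1` on `⁅A, A⁆`, `κ 1 z = wedge α b₀ b c = b₀ c = -1` (so also
`z ∉ ⁅A, A⁆`, the two cases exclude each other).
-/

open scoped commutatorElement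

namespace Pool.Agent.StarkRQ.Oct

theorem card_dual {D : Type*} [Group D] [Finite D] (hD : ∀ s t : D, s * t = t * s)
    (h2 : ∀ t : D, t * t = 1) : Nat.card (D →* ℤˣ) = Nat.card D := by
  let inst : CommGroup D := { ‹Group D› with mul_comm := hD }
  have hexp : Monoid.exponent D ∣ 2 :=
    Monoid.exponent_dvd_of_forall_pow_eq_one fun t => by rw [pow_two]; exact h2 t
  have hroots : HasEnoughRootsOfUnity ℤ (Monoid.exponent D) := by
    rcases (Nat.dvd_prime Nat.prime_two).1 hexp with h | h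
    · rw [h]
      exact ⟨⟨1, IsPrimitiveRoot.one⟩, inferInstance⟩
    · rw [h]
      exact ⟨⟨-1, IsPrimitiveRoot.neg_one 0 (by norm_num)⟩, inferInstance⟩
  exact CommGroup.card_monoidHom_of_hasEnoughRootsOfUnity D ℤ

section

variable {G : Type*} [Group G] [Finite G]

/-- orthogonality -/
theorem sum_dual {D : Type*} [Group D] [Finite D] (hD : ∀ s t : D, s * t = t * s)
    (h2 : ∀ t : D, t * t = 1) (s : D) (hs : s ≠ 1) : ∑ᶠ e : D →* ℤˣ, ((e s : ℤ) : ℝ) = 0 := by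
  obtain ⟨p, -, hp⟩ := exists_sep (⊥ : Subgroup D) (fun g => by rw [h2]; exact one_mem _)
    (fun g h => by
      rw [commutatorElement_def, hD g h, mul_inv_cancel_right, mul_inv_cancel]; exact one_mem _)
    (x := s) (by rwa [Subgroup.mem_bot])
  have h1 : ∑ᶠ e : D →* ℤˣ, ((e s : ℤ) : ℝ) = ∑ᶠ e : D →* ℤˣ, (((p * e) s : ℤ) : ℝ) :=
    (finsum_comp_equiv (Equiv.mulLeft p)).symm
  have h3 : ∀ e : D →* ℤˣ, (((p * e) s : ℤ) : ℝ) = -((e s : ℤ) : ℝ) := by
    intro e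
    rw [MonoidHom.mul_apply, hp]
    push_cast
    ring
  simp_rw [h3] at h1
  rw [finsum_neg_distrib] at h1
  linarith

end

open scoped Classical in
theorem Big.char_sum {G : Type*} [Group G] [Finite G] (hG : Big G) {c : G} (hcc : c * c = 1)
    {δ : G →* G} (hδ : ∀ g, δ g = ⁅g, c⁆) {b₀ : G →* ℤˣ}
    (hb₀ : ∀ x ∈ Subgroup.center G, b₀ x = 1) (hb₀c : b₀ c = -1) {a : δ.range →* ℤˣ} {b : G}
    (hb : b ∉ (a.comp δ.rangeRestrict).ker) (κ : (δ.range →* ℤˣ) → (commutator G →* ℤˣ))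
    (hκ : ∀ e, ∀ (g h : G) (hm : ⁅g, h⁆ ∈ commutator G),
      κ e ⟨⁅g, h⁆, hm⟩ = wedge (a.comp δ.rangeRestrict) (bch δ b₀ e) g h) (t : commutator G) :
    ∑ᶠ e : δ.range →* ℤˣ, ((κ e t : ℤ) : ℝ) = (Nat.card δ.range : ℝ) *
      ((if (t : G) ∈ ⁅(a.comp δ.rangeRestrict).ker, (a.comp δ.rangeRestrict).ker⁆ then 1 else 0) -
        (if (t : G) * ⁅b, c⁆ ∈ ⁅(a.comp δ.rangeRestrict).ker, (a.comp δ.rangeRestrict).ker⁆
          then 1 else 0)) := by
  set α : G →* ℤˣ := a.comp δ.rangeRestrict with hα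
  have hunits : ∀ v : ℤˣ, v ≠ 1 → v = -1 := fun v hv => (Int.units_eq_one_or v).resolve_left hv
  have hαb : α b = -1 := hunits _ (fun h => hb (MonoidHom.mem_ker.2 h))
  -- `D` is elementary abelian
  have hDc : ∀ s u : δ.range, s * u = u * s := by
    rintro ⟨s, hs⟩ ⟨u, hu⟩
    exact Subtype.ext (hG.central (range_le hδ hs) u)
  have hD2 : ∀ s : δ.range, s * s = 1 := by
    rintro ⟨s, hs⟩
    exact Subtype.ext (hG.sq_eq_one (range_le hδ hs))
  have hδc : δ c = 1 := by rw [hδ, commutatorElement_self]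
  have hαc : α c = 1 := by
    have h1 : δ.rangeRestrict c = 1 := Subtype.ext hδc
    rw [hα, MonoidHom.comp_apply, h1, map_one]
  have hcZ : c ∉ Subgroup.center G := by
    intro h
    rw [hb₀ c h] at hb₀c
    exact absurd hb₀c (by decide)
  -- `κ e` is trivial on `⁅A, A⁆`
  have hκ1 : ∀ e, ∀ (g : G) (hm : g ∈ commutator G), g ∈ ⁅α.ker, α.ker⁆ → κ e ⟨g, hm⟩ = 1 := by
    intro e g hm hg
    have h1 : ⁅α.ker, α.ker⁆ ≤ Subgroup.map (commutator G).subtype (κ e).ker := by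
      rw [Subgroup.commutator_le]
      intro g hg h hh
      refine ⟨⟨⁅g, h⁆, comm_mem g h⟩, ?_, rfl⟩
      change κ e ⟨⁅g, h⁆, comm_mem g h⟩ = 1
      rw [hκ]
      exact wedge_of_ker_left (MonoidHom.mem_ker.1 hg) (MonoidHom.mem_ker.1 hh)
    obtain ⟨y, hy, hy'⟩ := h1 hg
    have h2 : y = ⟨g, hm⟩ := Subtype.ext hy'
    rw [← h2]
    exact hy
  -- the values on `⁅b, x⁆`
  have hκb : ∀ e, ∀ x ∈ α.ker, κ e ⟨⁅b, x⁆, comm_mem b x⟩ = b₀ x * e ⟨δ x, ⟨x, rfl⟩⟩ := by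
    intro e x hx
    rw [hκ, wedge, if_pos hαb, if_neg (by rw [MonoidHom.mem_ker.1 hx]; decide), mul_one, bch_apply]
  -- decomposition
  have hdec : ∃ t₁ ∈ ⁅α.ker, α.ker⁆, ∃ x ∈ α.ker, (t : G) = t₁ * ⁅b, x⁆ := by
    let β : G →* G :=
      { toFun := fun x => ⁅b, x⁆
        map_one' := by rw [commutatorElement_one_right]
        map_mul' := fun x y => hG.mul_right b x y }
    have hβ : ∀ x, β x = ⁅b, x⁆ := fun _ => rfl
    have hle : commutator G ≤ ⁅α.ker, α.ker⁆ ⊔ α.ker.map β := by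
      have hcase : ∀ g : G, g ∈ α.ker ∨ ∃ g' ∈ α.ker, g = b * g' := by
        intro g
        by_cases hg : g ∈ α.ker
        · exact Or.inl hg
        · right
          refine ⟨b⁻¹ * g, ?_, by group⟩
          rw [MonoidHom.mem_ker, map_mul, map_inv, hαb,
            hunits _ (fun h => hg (MonoidHom.mem_ker.2 h))]
          decide
      have hA : ∀ g ∈ α.ker, ∀ h ∈ α.ker, ⁅g, h⁆ ∈ ⁅α.ker, α.ker⁆ ⊔ α.ker.map β :=
        fun g hg h hh => Subgroup.mem_sup_left (Subgroup.commutator_mem_commutator hg hh)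
      have hB : ∀ h ∈ α.ker, ⁅b, h⁆ ∈ ⁅α.ker, α.ker⁆ ⊔ α.ker.map β :=
        fun h hh => Subgroup.mem_sup_right ⟨h, hh, rfl⟩
      have hC : ∀ h ∈ α.ker, ⁅h, b⁆ ∈ ⁅α.ker, α.ker⁆ ⊔ α.ker.map β := by
        intro h hh
        rw [hG.comm_symm]; exact hB h hh
      rw [commutator_def, Subgroup.commutator_le]
      rintro g - h -
      rcases hcase g with hg | ⟨g', hg', rfl⟩ <;> rcases hcase h with hh | ⟨h', hh', rfl⟩
      · exact hA g hg h hh
      · rw [hG.mul_right]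
        exact mul_mem (hC g hg) (hA g hg h' hh')
      · rw [hG.mul_left]
        exact mul_mem (hB h hh) (hA g' hg' h hh)
      · rw [hG.mul_left, hG.mul_right, hG.mul_right, commutatorElement_self, one_mul]
        exact mul_mem (hB h' hh') (mul_mem (hC g' hg') (hA g' hg' h' hh'))
    have h1 := hle t.2
    rw [Subgroup.mem_sup_of_normal_left] at h1
    obtain ⟨t₁, ht₁, y, ⟨x, hx, rfl⟩, h2⟩ := h1
    exact ⟨t₁, ht₁, x, hx, h2.symm⟩
  obtain ⟨t₁, ht₁, x, hx, htx⟩ := hdec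
  have ht₁c : t₁ ∈ commutator G := by
    have : ⁅α.ker, α.ker⁆ ≤ commutator G := by
      rw [commutator_def]; exact Subgroup.commutator_mono le_top le_top
    exact this ht₁
  have hval : ∀ e, κ e t = b₀ x * e ⟨δ x, ⟨x, rfl⟩⟩ := by
    intro e
    have h1 : t = ⟨t₁, ht₁c⟩ * ⟨⁅b, x⁆, comm_mem b x⟩ := Subtype.ext htx
    rw [h1, map_mul, hκ1 e t₁ ht₁c ht₁, one_mul, hκb e x hx]
  have hz : ∀ e, κ e ⟨⁅b, c⁆, comm_mem b c⟩ = -1 := by
    intro e
    rw [hκb e c (MonoidHom.mem_ker.2 hαc), hb₀c]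
    have h1 : (⟨δ c, ⟨c, rfl⟩⟩ : δ.range) = 1 := Subtype.ext hδc
    rw [h1, map_one, mul_one]
  have hzA : ⁅b, c⁆ ∉ ⁅α.ker, α.ker⁆ := by
    intro h
    have h1 := hκ1 1 _ (comm_mem b c) h
    rw [hz] at h1
    exact absurd h1 (by decide)
  have hfinE : Finite (δ.range →* ℤˣ) := Finite.of_injective _ DFunLike.coe_injective
  have hsum : ∑ᶠ e : δ.range →* ℤˣ, ((κ e t : ℤ) : ℝ) = ((b₀ x : ℤ) : ℝ) *
      ∑ᶠ e : δ.range →* ℤˣ, ((e ⟨δ x, ⟨x, rfl⟩⟩ : ℤ) : ℝ) := by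
    rw [mul_finsum]
    refine finsum_congr fun e => ?_
    rw [hval e]
    push_cast
    ring
  rw [hsum]
  by_cases hx1 : δ x = 1
  · have hs1 : (⟨δ x, ⟨x, rfl⟩⟩ : δ.range) = 1 := Subtype.ext hx1
    have hcard : ∑ᶠ e : δ.range →* ℤˣ, ((e ⟨δ x, ⟨x, rfl⟩⟩ : ℤ) : ℝ) = (Nat.card δ.range : ℝ) := by
      rw [← card_dual hDc hD2]
      simp only [hs1, map_one]
      have := Fintype.ofFinite (δ.range →* ℤˣ)
      rw [finsum_eq_sum_of_fintype, Nat.card_eq_fintype_card]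
      simp
    rw [hcard, mul_comm]
    congr 1
    have h1 : ⁅x, c⁆ = 1 := by rw [← hδ]; exact hx1
    rcases hG.centralizer hcZ h1 with h2 | h2
    · have h3 : ⁅b, x⁆ = 1 := by
        rw [commutatorElement_eq_one_iff_mul_comm]
        exact Subgroup.mem_center_iff.1 h2 b
      have h4 : (t : G) = t₁ := by rw [htx, h3, mul_one]
      rw [h4, if_pos ht₁, if_neg, hb₀ x h2]
      · norm_num
      · intro h5
        apply hzA
        have := mul_mem (inv_mem ht₁) h5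
        rwa [inv_mul_cancel_left] at this
    · have h3 : ⁅b, x⁆ = ⁅b, c⁆ := by
        have h4 : ⁅b, x * c⁆ = 1 := by
          rw [commutatorElement_eq_one_iff_mul_comm]
          exact Subgroup.mem_center_iff.1 h2 b
        rw [hG.mul_right] at h4
        rw [← hG.inv_comm b c]
        exact eq_inv_of_mul_eq_one_left h4
      have h4 : (t : G) = t₁ * ⁅b, c⁆ := by rw [htx, h3]
      have h5 : b₀ x = -1 := by
        have h6 := hb₀ _ h2
        rw [map_mul, hb₀c] at h6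
        rcases Int.units_eq_one_or (b₀ x) with h7 | h7
        · rw [h7] at h6; exact absurd h6 (by decide)
        · exact h7
      rw [h4, if_neg, mul_assoc, hG.comm_sq, mul_one, if_pos ht₁, h5]
      · norm_num
      · intro h6
        apply hzA
        have := mul_mem (inv_mem ht₁) h6
        rwa [inv_mul_cancel_left] at this
  · have hs1 : (⟨δ x, ⟨x, rfl⟩⟩ : δ.range) ≠ 1 := fun h => hx1 (congrArg Subtype.val h)
    rw [sum_dual hDc hD2 _ hs1, mul_zero]
    obtain ⟨p, -, hp⟩ := exists_sep (⊥ : Subgroup δ.range)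
      (fun g => by rw [hD2]; exact one_mem _)
      (fun g h => by
        rw [commutatorElement_def, hDc g h, mul_inv_cancel_right, mul_inv_cancel]; exact one_mem _)
      (x := ⟨δ x, ⟨x, rfl⟩⟩) (by rwa [Subgroup.mem_bot])
    have hv1 := hval 1
    have hvp := hval p
    rw [MonoidHom.one_apply, mul_one] at hv1
    rw [hp] at hvp
    rw [if_neg, if_neg]
    · ring
    · intro h
      have hm : (t : G) * ⁅b, c⁆ ∈ commutator G := mul_mem t.2 (comm_mem b c)
      have e1 : ∀ e, κ e t * κ e ⟨⁅b, c⁆, comm_mem b c⟩ = 1 := by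
        intro e
        rw [← map_mul]
        exact hκ1 e _ hm h
      have e2 := e1 1
      have e3 := e1 p
      rw [hz, hv1] at e2
      rw [hz, hvp] at e3
      rcases Int.units_eq_one_or (b₀ x) with h7 | h7
      · rw [h7] at e2; exact absurd e2 (by decide)
      · rw [h7] at e3; exact absurd e3 (by decide)
    · intro h
      have e2 := hκ1 1 _ t.2 h
      have e3 := hκ1 p _ t.2 h
      have e4 : κ 1 t = 1 := e2
      have e5 : κ p t = 1 := e3
      rw [hv1] at e4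
      rw [hvp, e4] at e5
      exact absurd e5 (by decide)

end Pool.Agent.StarkRQ.Oct
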