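import Mathlib

/-!
# The combinatorial lemma (quaternions and octonions)

`D` is an elementary abelian `2`-group of order `2^m`, `m ≤ 4`, `a ≠ 1` a character. Choose a basis of
`D` (an isomorphism `D ≃ (Fin m → ZMod 2)`, written multiplicatively) such that `a` is the character
`(-1)^(x 0)`. Then the characters are `x ↦ (-1)^(e·x)`, `e ∈ Fin m → ZMod 2`, `a` is `e = e_0`, and
with the numbering `e = ∑ e_i 2^i`, `x = ∑ x_i 2^i` one can take (for `m = 4`)
`l : 0 0 2 2 6 6 12 12 14 14 8 8 10 10 4 4`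
(for `m = 3`: `0 0 2 2 6 6 4 4`, for `m = 2`: `0 0 2 2`, for `m = 1`: `0 0`); the conditions are checked
by `decide`. (Equivalently `l (e) = 2 τ(e / 2)` with `τ = 0 1 3 6 7 4 5 2` on `Fin 3 → ZMod 2`,
`⟨τ s + τ s', s + s'⟩ = 1` for `s ≠ s'`: signs of the octonion multiplication.) It may be convenient
to embed the cases `m < 4` into `m = 4`, or to treat all four values of `m`.
-/

namespace Pool.Agent.StarkRQ.Oct

private theorem exists_step {D : Type*} [CommGroup D] [Finite D] {H W : Subgroup D} (hH : H ≤ W) :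
    ∃ d ∈ W, H ⊔ Subgroup.zpowers d = W ∨
      2 * Nat.card H ≤ Nat.card (H ⊔ Subgroup.zpowers d : Subgroup D) := by
  by_cases h : H = W
  · exact ⟨1, W.one_mem, Or.inl (by rw [Subgroup.zpowers_one_eq_bot, sup_bot_eq, h])⟩
  · obtain ⟨d, hdW, hdH⟩ := SetLike.exists_of_lt (lt_of_le_of_ne hH h)
    refine ⟨d, hdW, Or.inr ?_⟩
    have h1 : H ≤ H ⊔ Subgroup.zpowers d := le_sup_left
    obtain ⟨k, hk⟩ := Subgroup.card_dvd_of_le h1
    have h2 : Nat.card (H ⊔ Subgroup.zpowers d : Subgroup D) ≠ Nat.card H := by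
      intro h3
      have h4 := Subgroup.eq_of_le_of_card_ge h1 h3.le
      apply hdH
      rw [h4]
      exact (le_sup_right : Subgroup.zpowers d ≤ _) (Subgroup.mem_zpowers d)
    have h5 : 0 < Nat.card (H ⊔ Subgroup.zpowers d : Subgroup D) := Nat.card_pos
    rw [hk] at h2 h5 ⊢
    have h6 : 2 ≤ k := by
      rcases k with _ | _ | k
      · simp at h5
      · simp at h2
      · omega
    nlinarith

private theorem exists_gen {D : Type*} [CommGroup D] [Finite D] {W : Subgroup D}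
    (hW : Nat.card W ≤ 8) : ∃ d₁ ∈ W, ∃ d₂ ∈ W, ∃ d₃ ∈ W,
      W ≤ Subgroup.closure {d₁, d₂, d₃} := by
  obtain ⟨d₁, h1, h1'⟩ := exists_step (bot_le : (⊥ : Subgroup D) ≤ W)
  have g1 : (⊥ : Subgroup D) ⊔ Subgroup.zpowers d₁ ≤ W :=
    sup_le bot_le (Subgroup.zpowers_le.2 h1)
  obtain ⟨d₂, h2, h2'⟩ := exists_step g1
  have g2 : (⊥ : Subgroup D) ⊔ Subgroup.zpowers d₁ ⊔ Subgroup.zpowers d₂ ≤ W :=
    sup_le g1 (Subgroup.zpowers_le.2 h2)
  obtain ⟨d₃, h3, h3'⟩ := exists_step g2
  have g3 : (⊥ : Subgroup D) ⊔ Subgroup.zpowers d₁ ⊔ Subgroup.zpowers d₂ ⊔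
    Subgroup.zpowers d₃ ≤ W := sup_le g2 (Subgroup.zpowers_le.2 h3)
  have hle : (⊥ : Subgroup D) ⊔ Subgroup.zpowers d₁ ⊔ Subgroup.zpowers d₂ ⊔
      Subgroup.zpowers d₃ ≤ Subgroup.closure {d₁, d₂, d₃} := by
    refine sup_le (sup_le (sup_le bot_le ?_) ?_) ?_ <;>
    · rw [Subgroup.zpowers_le]
      exact Subgroup.subset_closure (by simp)
  refine ⟨d₁, h1, d₂, h2, d₃, h3, le_trans ?_ hle⟩
  rcases h3' with h | h3'
  · exact h.ge
  rcases h2' with h | h2'
  · exact le_trans h.ge le_sup_left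
  rcases h1' with h | h1'
  · exact le_trans h.ge (le_trans le_sup_left le_sup_left)
  have hb : Nat.card (⊥ : Subgroup D) = 1 := Subgroup.card_bot
  have h8 := Subgroup.eq_of_le_of_card_ge g3 (by omega)
  exact h8.ge

private theorem table : ∀ a b c a' b' c' : ZMod 2, ¬ (a = a' ∧ b = b' ∧ c = c') →
    ((a + b + c + b * c) + (a' + b' + c' + b' * c')) * (a + a') +
    ((b + c + a * c) + (b' + c' + a' * c')) * (b + b') +
    ((c + a * b) + (c' + a' * b')) * (c + c') = 1 := by
  decide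

/-- the sign as an element of `ZMod 2` -/
private def sg (u : ℤˣ) : ZMod 2 := if u = 1 then 0 else 1

private theorem sg_inj : ∀ u v : ℤˣ, sg u = sg v → u = v := by decide

private theorem sg_mul : ∀ u v : ℤˣ, sg (u * v) = sg u + sg v := by decide

private theorem sg_pow : ∀ (u : ℤˣ) (t : ZMod 2), sg (u ^ t.val) = sg u * t := by decide

theorem exists_oct {D : Type*} [CommGroup D] [Finite D] (h2 : ∀ t : D, t * t = 1)
    (hcard : Nat.card D ≤ 16) (a : D →* ℤˣ) (ha : a ≠ 1) :
    ∃ l : (D →* ℤˣ) → D, (∀ e, a (l e) = 1) ∧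
      ∀ e e' : D →* ℤˣ, e ≠ e' → e * e' ≠ a → (e * e') (l e * l e') = -1 := by
  obtain ⟨d₀, hd₀⟩ : ∃ d, a d ≠ 1 := by
    by_contra! h
    exact ha (MonoidHom.ext h)
  have hd₀' : a d₀ = -1 := (Int.units_eq_one_or _).resolve_left hd₀
  have hW : Nat.card a.ker ≤ 8 := by
    have h1 := a.ker.card_mul_index
    have h2 : a.ker.index ≠ 1 := by
      intro h
      rw [Subgroup.index_eq_one] at h
      exact hd₀ (by rw [← MonoidHom.mem_ker, h]; trivial)
    have h3 : a.ker.index ≠ 0 := Subgroup.index_ne_zero_of_finite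
    have h4 : 2 ≤ a.ker.index := by omega
    nlinarith
  obtain ⟨d₁, h₁, d₂, h₂, d₃, h₃, hgen⟩ := exists_gen hW
  rw [MonoidHom.mem_ker] at h₁ h₂ h₃
  have hker : ∀ f : D →* ℤˣ, f d₁ = 1 → f d₂ = 1 → f d₃ = 1 → f = 1 ∨ f = a := by
    intro f f1 f2 f3
    have hle : a.ker ≤ f.ker := by
      refine le_trans hgen ?_
      rw [Subgroup.closure_le]
      intro x hx
      simp only [Set.mem_insert_iff, Set.mem_singleton_iff] at hx
      rcases hx with rfl | rfl | rfl
      · exact f1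
      · exact f2
      · exact f3
    have hrest : ∀ x, a x ≠ 1 → f x = f d₀ := by
      intro x hx
      have h5 : a x = -1 := (Int.units_eq_one_or _).resolve_left hx
      have h6 : f (x * d₀) = 1 := by
        rw [← MonoidHom.mem_ker]
        apply hle
        rw [MonoidHom.mem_ker, map_mul, h5, hd₀']
        rfl
      rw [map_mul] at h6
      rcases Int.units_eq_one_or (f d₀) with h | h <;> rw [h] at h6 ⊢
      · simpa using h6
      · rcases Int.units_eq_one_or (f x) with h' | h'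
        · rw [h'] at h6
          exact absurd h6 (by decide)
        · exact h'
    rcases Int.units_eq_one_or (f d₀) with h | h
    · left
      ext1 x
      by_cases hx : a x = 1
      · exact hle hx
      · rw [hrest x hx, h]; rfl
    · right
      ext1 x
      by_cases hx : a x = 1
      · rw [hx]; exact hle hx
      · rw [hrest x hx, h, (Int.units_eq_one_or _).resolve_left hx]
  refine ⟨fun e => d₁ ^ (sg (e d₁) + sg (e d₂) + sg (e d₃) + sg (e d₂) * sg (e d₃)).val *
    d₂ ^ (sg (e d₂) + sg (e d₃) + sg (e d₁) * sg (e d₃)).val *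
    d₃ ^ (sg (e d₃) + sg (e d₁) * sg (e d₂)).val, ?_, ?_⟩
  · intro e
    simp only [map_mul, map_pow, h₁, h₂, h₃, one_pow, one_mul]
  · intro e e' hne hne'
    have hs : ¬ (sg (e d₁) = sg (e' d₁) ∧ sg (e d₂) = sg (e' d₂) ∧ sg (e d₃) = sg (e' d₃)) := by
      rintro ⟨k1, k2, k3⟩
      have hm : ∀ x, e x = e' x → (e * e') x = 1 := by
        intro x hx
        rw [MonoidHom.mul_apply, hx, ← sq, Int.units_sq]
      rcases hker (e * e') (hm _ (sg_inj _ _ k1)) (hm _ (sg_inj _ _ k2)) (hm _ (sg_inj _ _ k3))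
        with h | h
      · apply hne
        ext1 x
        have h5 : e x * e' x = 1 := by
          rw [← MonoidHom.mul_apply, h]; rfl
        rw [mul_eq_one_iff_eq_inv] at h5
        rw [h5, Int.units_inv_eq_self]
      · exact hne' h
    have h5 := table _ _ _ _ _ _ hs
    apply sg_inj
    simp only [MonoidHom.mul_apply, map_mul, map_pow, sg_mul, sg_pow]
    rw [show sg (-1) = 1 from rfl, ← h5]
    ring

end Pool.Agent.StarkRQ.Oct
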