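import Mathlib

/-!
# The closed formula

`F χ e g = ∑_t χ(t) ψ_e (g t)`; `F χ e (g t) = χ(t) F χ e g`, and by Fourier inversion on `D`
(`∑_χ χ(t) = 0` for `t ≠ 1`; the characters separate the elements of the elementary abelian
`2`-group `D`) `|D| ψ_e (g (l e)) = ∑_χ χ(l e) F χ e g`. Sum over `e`. For `χ ≠ 1, a` the terms of `e`
and `e' = χ e` cancel: `F χ e = F χ e'` by `hpair` (`e e' = χ`), and `χ(l e) χ(l e') = -1`. For
`χ = a`: `a (l e) = 1`.
-/

namespace Pool.Agent.StarkRQ.Oct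

private lemma char_sep {D : Type*} [CommGroup D] [Finite D] (h2 : ∀ t : D, t * t = 1) {t : D}
    (ht : t ≠ 1) : ∃ χ : D →* ℤˣ, χ t ≠ 1 := by
  have hexp : Monoid.exponent D ∣ 2 :=
    Monoid.exponent_dvd_of_forall_pow_eq_one fun t => by rw [pow_two]; exact h2 t
  have h : HasEnoughRootsOfUnity ℤ 2 :=
    { prim := ⟨-1, by
        have := IsPrimitiveRoot.neg_one (R := ℤ) 0 (by norm_num)
        exact this⟩
      cyc := rootsOfUnity.isCyclic ℤ 2 }
  have := HasEnoughRootsOfUnity.of_dvd ℤ hexp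
  exact CommGroup.exists_apply_ne_one_of_hasEnoughRootsOfUnity D ℤ ht

private lemma card_chars {D : Type*} [CommGroup D] [Finite D] (h2 : ∀ t : D, t * t = 1) :
    Nat.card (D →* ℤˣ) = Nat.card D := by
  have hexp : Monoid.exponent D ∣ 2 :=
    Monoid.exponent_dvd_of_forall_pow_eq_one fun t => by rw [pow_two]; exact h2 t
  have h : HasEnoughRootsOfUnity ℤ 2 :=
    { prim := ⟨-1, by
        have := IsPrimitiveRoot.neg_one (R := ℤ) 0 (by norm_num)
        exact this⟩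
      cyc := rootsOfUnity.isCyclic ℤ 2 }
  have := HasEnoughRootsOfUnity.of_dvd ℤ hexp
  exact CommGroup.card_monoidHom_of_hasEnoughRootsOfUnity D ℤ

private lemma sum_chars {D : Type*} [CommGroup D] [Finite D] (h2 : ∀ t : D, t * t = 1)
    [Fintype (D →* ℤˣ)] [DecidableEq D] (t : D) :
    ∑ χ : D →* ℤˣ, ((χ t : ℤ) : ℝ) = if t = 1 then (Nat.card D : ℝ) else 0 := by
  split_ifs with ht
  · subst ht
    simp only [map_one, Units.val_one, Int.cast_one, Finset.sum_const, nsmul_eq_mul, mul_one]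
    rw [Finset.card_univ, ← Nat.card_eq_fintype_card, card_chars h2]
  · obtain ⟨χ₀, hχ₀⟩ := char_sep h2 ht
    have h1 : χ₀ t = -1 := (Int.units_eq_one_or _).resolve_left hχ₀
    have h3 : ∑ χ : D →* ℤˣ, ((χ t : ℤ) : ℝ) = ∑ χ : D →* ℤˣ, (((χ₀ * χ) t : ℤ) : ℝ) :=
      (Fintype.sum_equiv (Equiv.mulLeft χ₀) _ _ fun χ => rfl).symm
    have h4 : ∑ χ : D →* ℤˣ, (((χ₀ * χ) t : ℤ) : ℝ) = -∑ χ : D →* ℤˣ, ((χ t : ℤ) : ℝ) := by
      rw [← Finset.sum_neg_distrib]
      refine Finset.sum_congr rfl fun χ _ => ?_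
      rw [MonoidHom.mul_apply, h1]
      push_cast
      ring
    linarith

theorem card_mul_sum_oct {G : Type*} [Group G] (D : Subgroup G) [Finite D]
    (hD : ∀ t ∈ D, ∀ t' ∈ D, t * t' = t' * t) (h2 : ∀ t ∈ D, t * t = 1) (a : D →* ℤˣ) (ha : a ≠ 1)
    (l : (D →* ℤˣ) → D) (hl1 : ∀ e, a (l e) = 1)
    (hl2 : ∀ e e' : D →* ℤˣ, e ≠ e' → e * e' ≠ a → (e * e') (l e * l e') = -1)
    (ψ : (D →* ℤˣ) → G → ℝ)
    (hpair : ∀ e e' : D →* ℤˣ, e ≠ e' → ∀ g : G, ∑ᶠ t : D, (((e * e') t : ℤ) : ℝ) * ψ e (g * t) =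
      ∑ᶠ t : D, (((e * e') t : ℤ) : ℝ) * ψ e' (g * t)) (g : G) :
    (Nat.card D : ℝ) * ∑ᶠ e : D →* ℤˣ, ψ e (g * l e) =
      (∑ᶠ e : D →* ℤˣ, ∑ᶠ t : D, ((a t : ℤ) : ℝ) * ψ e (g * t)) +
        ∑ᶠ e : D →* ℤˣ, ∑ᶠ t : D, ψ e (g * t) := by
  classical
  let _ : CommGroup D :=
    { (inferInstance : Group D) with mul_comm := fun x y => Subtype.ext (hD x x.2 y y.2) }
  have h2' : ∀ t : D, t * t = 1 := fun t => Subtype.ext (h2 t t.2)
  have := Fintype.ofFinite D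
  have : Finite (D →* ℤˣ) := Finite.of_injective (fun f : D →* ℤˣ => (f : D → ℤˣ))
    DFunLike.coe_injective
  have := Fintype.ofFinite (D →* ℤˣ)
  have hsq : ∀ e : D →* ℤˣ, e * e = 1 := fun e => MonoidHom.ext fun t => Int.units_mul_self _
  simp only [finsum_eq_sum_of_fintype] at hpair ⊢
  obtain ⟨F, hF⟩ : ∃ F : (D →* ℤˣ) → (D →* ℤˣ) → ℝ,
      ∀ χ e, F χ e = ∑ t : D, ((χ t : ℤ) : ℝ) * ψ e (g * t) := ⟨_, fun _ _ => rfl⟩
  -- Fourier inversion
  have hinv : ∀ e : D →* ℤˣ, (Nat.card D : ℝ) * ψ e (g * l e) =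
      ∑ χ : D →* ℤˣ, ((χ (l e) : ℤ) : ℝ) * F χ e := by
    intro e
    have h3 : ∑ χ : D →* ℤˣ, ((χ (l e) : ℤ) : ℝ) * F χ e =
        ∑ t : D, (∑ χ : D →* ℤˣ, ((χ (l e * t) : ℤ) : ℝ)) * ψ e (g * t) := by
      simp only [hF, Finset.mul_sum, Finset.sum_mul]
      rw [Finset.sum_comm]
      refine Finset.sum_congr rfl fun t _ => Finset.sum_congr rfl fun χ _ => ?_
      rw [map_mul]
      push_cast
      ring
    rw [h3, Finset.sum_eq_single (l e)]
    · rw [sum_chars h2', if_pos (h2' _)]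
    · intro t _ ht
      rw [sum_chars h2', if_neg, zero_mul]
      intro h4
      apply ht
      have h5 := congrArg (fun x => l e * x) h4
      simp only [mul_one, ← mul_assoc, h2', one_mul] at h5
      exact h5
    · intro h4
      exact absurd (Finset.mem_univ _) h4
  -- the terms of the characters other than `1`, `a` vanish
  have hvan : ∀ χ : D →* ℤˣ, χ ≠ 1 → χ ≠ a →
      ∑ e : D →* ℤˣ, ((χ (l e) : ℤ) : ℝ) * F χ e = 0 := by
    intro χ h1 ha'
    have h3 : ∀ e : D →* ℤˣ, ((χ (l (χ * e)) : ℤ) : ℝ) * F χ (χ * e) =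
        -(((χ (l e) : ℤ) : ℝ) * F χ e) := by
      intro e
      have hne : e ≠ χ * e := fun h => h1 (by simpa using h.symm)
      have hm : e * (χ * e) = χ := by rw [mul_comm χ e, ← mul_assoc, hsq, one_mul]
      have h4 : F χ e = F χ (χ * e) := by
        have := hpair e (χ * e) hne g
        rw [hm] at this
        rw [hF, hF]
        exact this
      have h5 := hl2 e (χ * e) hne (by rw [hm]; exact ha')
      rw [hm, map_mul] at h5
      have h6 : χ (l (χ * e)) = -χ (l e) := by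
        have h7 := congrArg (fun x => χ (l e) * x) h5
        simp only [← mul_assoc, Int.units_mul_self, one_mul, mul_neg, mul_one] at h7
        exact h7
      rw [← h4, h6]
      push_cast
      ring
    have h4 : ∑ e : D →* ℤˣ, ((χ (l e) : ℤ) : ℝ) * F χ e =
        ∑ e : D →* ℤˣ, ((χ (l (χ * e)) : ℤ) : ℝ) * F χ (χ * e) :=
      (Fintype.sum_equiv (Equiv.mulLeft χ) _ _ fun e => rfl).symm
    simp only [h3, Finset.sum_neg_distrib] at h4
    linarith
  calc (Nat.card D : ℝ) * ∑ e : D →* ℤˣ, ψ e (g * l e)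
      = ∑ χ : D →* ℤˣ, ∑ e : D →* ℤˣ, ((χ (l e) : ℤ) : ℝ) * F χ e := by
        rw [Finset.mul_sum, Finset.sum_comm]
        exact Finset.sum_congr rfl fun e _ => hinv e
    _ = (∑ e : D →* ℤˣ, ((a (l e) : ℤ) : ℝ) * F a e) +
          ∑ e : D →* ℤˣ, (((1 : D →* ℤˣ) (l e) : ℤ) : ℝ) * F 1 e := by
        rw [← Finset.sum_pair (f := fun χ : D →* ℤˣ =>
          ∑ e : D →* ℤˣ, ((χ (l e) : ℤ) : ℝ) * F χ e) ha]
        refine (Finset.sum_subset (Finset.subset_univ _) fun χ _ hχ => ?_).symm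
        rw [Finset.mem_insert, Finset.mem_singleton, not_or] at hχ
        exact hvan χ hχ.2 hχ.1
    _ = _ := by
        simp only [hl1, hF, MonoidHom.one_apply, Units.val_one, Int.cast_one, one_mul]

end Pool.Agent.StarkRQ.Oct
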