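import Pool.Agent.StarkRQ.Oct.Defs
import Pool.Agent.StarkRQ.CycDefs
import Pool.Agent.StarkRQ.Chars

/-!
# The cyclotomic part

`V g = 1/2 * ∑_u lam u * hh u * ell (χ g * u⁻¹)`. As `χ (g * h₀) = χ g * n₀`, the substitution
`u = n₀ u'` gives `V (g h₀) = 1/2 * ∑_u' lam u' * hh (n₀ u') * ell (χ g * u'⁻¹)`, so
`V (g h₀) - n₀ V g = 1/2 * ∑_u lam u * m u * ell (χ g * u⁻¹)` with `m u = hh (n₀ u) - n₀ * hh u`, an
integer (`n₀` odd: `m u = (1 - n₀)/2 + n₀ * (u.val/f) - (n₀ u).val/f`). The terms of `u` and `-u` are equal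
(`hh_neg`, `ell_neg`, `hlam1`), `u ≠ -u` as `2 < f`. So the sum is
`∑_(u ∈ P) lam u * m u * ell (χ g * u⁻¹)` for any set `P` of representatives of the units modulo `± 1`
(e.g. `P = {u | u.val < f / 2}`), and `ell (χ g * u⁻¹) = log |ι (g (1 - ζ ^ (u⁻¹).val))|`
(`hιζ`, `hζ.autToPow_spec`). So the function is `logF ι` of
`∏_(u ∈ P) (1 - ζ ^ (u⁻¹).val) ^ (lam u * m u)` (integer exponents), and all `g v / v` are integral for
`v = 1 - ζ ^ j`, `j` prime to `f` (`(1 - x ^ i) / (1 - x) = 1 + x + ... + x ^ (i - 1)`), and also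
their inverses. (`SF ι` is an additive group: it is enough to treat one factor.)
-/

open NumberField Module

namespace Pool.Agent.StarkRQ.Oct

private lemma theta_inv_neg {f : ℕ} (a : (ZMod f)ˣ) : (-a)⁻¹ = -a⁻¹ := by
  refine inv_eq_of_mul_eq_one_right ?_
  rw [neg_mul_neg, mul_inv_cancel]

/-- sum over half of the units -/
private lemma theta_half {f : ℕ} [NeZero f] (hf : 2 < f) (G : (ZMod f)ˣ → ℝ)
    (hG : ∀ a, G (-a) = G a) :
    ∑ a : (ZMod f)ˣ, G a =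
      2 * ∑ a ∈ Finset.univ.filter fun a : (ZMod f)ˣ => 2 * (a : ZMod f).val < f, G a := by
  classical
  have : Fact (1 < f) := ⟨by omega⟩
  have hval : ∀ a : (ZMod f)ˣ, ((-a : (ZMod f)ˣ) : ZMod f).val = f - (a : ZMod f).val := by
    intro a
    have : NeZero (a : ZMod f) := ⟨a.ne_zero⟩
    rw [Units.val_neg, ZMod.val_neg_of_ne_zero]
  have hlt : ∀ a : (ZMod f)ˣ, (a : ZMod f).val < f := fun a => ZMod.val_lt _
  have hne : ∀ a : (ZMod f)ˣ, 2 * (a : ZMod f).val ≠ f := by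
    intro a h
    have hcop : (a : ZMod f).val.Coprime f := ZMod.val_coe_unit_coprime a
    have h1 : (a : ZMod f).val ∣ f := Dvd.intro_left 2 h
    have h2 : (a : ZMod f).val = 1 := Nat.eq_one_of_dvd_coprimes hcop dvd_rfl h1
    rw [h2] at h
    omega
  rw [← Finset.sum_filter_add_sum_filter_not Finset.univ
    (fun a : (ZMod f)ˣ => 2 * (a : ZMod f).val < f) G, two_mul]
  congr 1
  refine Finset.sum_bij (fun a _ => -a) ?_ ?_ ?_ ?_
  · intro a ha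
    rw [Finset.mem_filter] at ha ⊢
    refine ⟨Finset.mem_univ _, ?_⟩
    rw [hval]
    have h1 := ha.2
    have h2 := hne a
    have h3 := hlt a
    omega
  · intro a _ b _ hab
    exact neg_injective hab
  · intro b hb
    rw [Finset.mem_filter] at hb
    refine ⟨-b, ?_, neg_neg b⟩
    rw [Finset.mem_filter]
    refine ⟨Finset.mem_univ _, ?_⟩
    rw [hval]
    have h1 := hb.2
    have h3 := hlt b
    omega
  · intro a _
    exact (hG a).symm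

/-- one factor -/
private lemma theta_factor {Ω : Type} [Field Ω] [NumberField Ω] [IsGalois ℚ Ω] {ι : Ω →+* ℂ}
    {f : ℕ} [NeZero f] (hf : 2 < f) {ζ : Ω} (hζ : IsPrimitiveRoot ζ f)
    (hιζ : ι ζ = Complex.exp (2 * Real.pi * Complex.I / f)) (b : (ZMod f)ˣ) :
    (fun g : Gal(Ω/ℚ) => ell f ((hζ.autToPow ℚ g * b : (ZMod f)ˣ) : ZMod f)) ∈ SF ι := by
  have : Fact (1 < f) := ⟨by omega⟩
  have hf0 : (f : ℂ) ≠ 0 := by exact_mod_cast NeZero.ne f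
  set j := (b : ZMod f).val with hj
  have hcop : j.Coprime f := ZMod.val_coe_unit_coprime b
  have hprim : IsPrimitiveRoot (ζ ^ j) f := hζ.pow_of_coprime _ hcop
  have hv0 : (1 : Ω) - ζ ^ j ≠ 0 := by
    intro h
    exact hprim.ne_one (by omega) (sub_eq_zero.1 h).symm
  have hg : ∀ g : Gal(Ω/ℚ), g (1 - ζ ^ j) =
      1 - (ζ ^ j) ^ ((hζ.autToPow ℚ g : (ZMod f)ˣ) : ZMod f).val := by
    intro g
    rw [map_sub, map_one, map_pow, ← hζ.autToPow_spec ℚ g, ← pow_mul, ← pow_mul, mul_comm]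
  refine ⟨1 - ζ ^ j, hv0, fun g => ?_, ?_⟩
  · rw [hg]
    set x := ζ ^ j with hx
    set i := ((hζ.autToPow ℚ g : (ZMod f)ˣ) : ZMod f).val with hi
    have h1 : (1 - x ^ i) / (1 - x) = ∑ t ∈ Finset.range i, x ^ t := by
      rw [div_eq_iff hv0, ← neg_sub (x ^ i), ← neg_sub x 1, ← geom_sum_mul]
      ring
    rw [h1]
    have hxi : IsIntegral ℤ x := by
      refine ⟨Polynomial.X ^ f - Polynomial.C 1, Polynomial.monic_X_pow_sub_C 1 (by omega), ?_⟩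
      simp [hprim.pow_eq_one]
    exact IsIntegral.sum _ fun t _ => hxi.pow t
  · funext g
    rw [logF_apply, hg, ← pow_mul]
    have h1 : ζ ^ (j * ((hζ.autToPow ℚ g : (ZMod f)ˣ) : ZMod f).val) =
        ζ ^ (((hζ.autToPow ℚ g * b : (ZMod f)ˣ) : ZMod f)).val := by
      rw [Units.val_mul, ZMod.val_mul, mul_comm j]
      exact pow_eq_pow_mod _ hζ.pow_eq_one
    rw [h1, map_sub, map_one, map_pow, hιζ, ← Complex.exp_nat_mul]
    unfold ell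
    congr 4
    field_simp

theorem theta_mem {Ω : Type} [Field Ω] [NumberField Ω] [IsGalois ℚ Ω] {ι : Ω →+* ℂ} {f : ℕ}
    [NeZero f] (hf : 2 < f) {ζ : Ω} (hζ : IsPrimitiveRoot ζ f)
    (hιζ : ι ζ = Complex.exp (2 * Real.pi * Complex.I / f)) {h₀ : Gal(Ω/ℚ)} {n₀ : ℕ}
    (hn₀ : Odd n₀) (hh₀ : h₀ ζ = ζ ^ n₀) {lam : (ZMod f)ˣ → ℤ} (hlam1 : ∀ u, lam (-u) = - lam u)
    (hlam2 : ∀ u, lam (hζ.autToPow ℚ h₀ * u) = lam u) :
    tr h₀ (fun g : Gal(Ω/ℚ) => 1 / 2 * ∑ a : (ZMod f)ˣ, (lam a : ℝ) * hh f (a : ZMod f) *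
        ell f ((hζ.autToPow ℚ g * a⁻¹ : (ZMod f)ˣ) : ZMod f)) -
      n₀ • (fun g : Gal(Ω/ℚ) => 1 / 2 * ∑ a : (ZMod f)ˣ, (lam a : ℝ) * hh f (a : ZMod f) *
        ell f ((hζ.autToPow ℚ g * a⁻¹ : (ZMod f)ˣ) : ZMod f)) ∈ SF ι := by
  classical
  have : Fact (1 < f) := ⟨by omega⟩
  have hf0 : (f : ℝ) ≠ 0 := by exact_mod_cast NeZero.ne f
  set u₀ := hζ.autToPow ℚ h₀ with hu₀
  obtain ⟨j, hj⟩ := hn₀
  have hu : (u₀ : ZMod f) = (n₀ : ZMod f) := by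
    have h1 := hζ.autToPow_spec ℚ h₀
    rw [hh₀, ← hu₀] at h1
    have h2 : ζ ^ n₀ = ζ ^ (n₀ % f) := pow_eq_pow_mod _ hζ.pow_eq_one
    rw [h2] at h1
    have h3 := hζ.pow_inj (ZMod.val_lt _) (Nat.mod_lt _ (by omega)) h1
    have h4 : ((u₀ : ZMod f).val : ZMod f) = ((n₀ % f : ℕ) : ZMod f) := by rw [h3]
    rwa [ZMod.natCast_val, ZMod.cast_id', id, ZMod.natCast_mod] at h4
  let m : (ZMod f)ˣ → ℤ := fun b => -(j : ℤ) + ((n₀ * (b : ZMod f).val / f : ℕ) : ℤ)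
  have hm : ∀ b : (ZMod f)ˣ, hh f ((u₀ * b : (ZMod f)ˣ) : ZMod f) - n₀ * hh f (b : ZMod f) =
      (m b : ℝ) := by
    intro b
    have h1 : ((u₀ * b : (ZMod f)ˣ) : ZMod f).val = (n₀ * (b : ZMod f).val) % f := by
      have h2 : ((u₀ * b : (ZMod f)ˣ) : ZMod f) = ((n₀ * (b : ZMod f).val : ℕ) : ZMod f) := by
        rw [Units.val_mul, hu, Nat.cast_mul, ZMod.natCast_val, ZMod.cast_id', id]
      rw [h2, ZMod.val_natCast]
    have h3 : (n₀ * (b : ZMod f).val) % f + f * (n₀ * (b : ZMod f).val / f) =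
        n₀ * (b : ZMod f).val := Nat.mod_add_div _ _
    have h4 : (((n₀ * (b : ZMod f).val) % f : ℕ) : ℝ) +
        f * ((n₀ * (b : ZMod f).val / f : ℕ) : ℝ) = n₀ * ((b : ZMod f).val : ℝ) := by
      exact_mod_cast h3
    have h5 : (n₀ : ℝ) = 2 * j + 1 := by rw [hj]; push_cast; ring
    unfold hh
    rw [h1]
    simp only [m]
    rw [Int.cast_add, Int.cast_neg, Int.cast_natCast, Int.cast_natCast]
    have h6 : (((n₀ * (b : ZMod f).val) % f : ℕ) : ℝ) / f =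
        n₀ * ((b : ZMod f).val : ℝ) / f - ((n₀ * (b : ZMod f).val / f : ℕ) : ℝ) := by
      rw [← h4]
      field_simp
      ring
    linear_combination (-1 : ℝ) * h6 - (1 / 2 : ℝ) * h5
  have hm_neg : ∀ b : (ZMod f)ˣ, (m (-b) : ℝ) = -(m b : ℝ) := by
    intro b
    rw [← hm, ← hm, mul_neg, Units.val_neg, Units.val_neg, hh_neg (u₀ * b).ne_zero,
      hh_neg b.ne_zero]
    ring
  have hmem : (∑ b ∈ Finset.univ.filter (fun b : (ZMod f)ˣ => 2 * (b : ZMod f).val < f),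
      (lam b * m b) • (fun g : Gal(Ω/ℚ) =>
        ell f ((hζ.autToPow ℚ g * b⁻¹ : (ZMod f)ˣ) : ZMod f))) ∈ SF ι :=
    AddSubgroup.sum_mem _ fun b _ =>
      AddSubgroup.zsmul_mem _ (theta_factor hf hζ hιζ b⁻¹) _
  convert hmem using 1
  funext g
  rw [Pi.sub_apply, Pi.smul_apply, tr_apply, Finset.sum_apply, nsmul_eq_mul]
  have h1 : ∑ a : (ZMod f)ˣ, (lam a : ℝ) * hh f (a : ZMod f) *
      ell f ((hζ.autToPow ℚ (g * h₀) * a⁻¹ : (ZMod f)ˣ) : ZMod f) =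
      ∑ b : (ZMod f)ˣ, (lam b : ℝ) * hh f ((u₀ * b : (ZMod f)ˣ) : ZMod f) *
        ell f ((hζ.autToPow ℚ g * b⁻¹ : (ZMod f)ˣ) : ZMod f) := by
    rw [← Equiv.sum_comp (Equiv.mulLeft u₀)]
    refine Finset.sum_congr rfl fun b _ => ?_
    rw [Equiv.coe_mulLeft, hlam2]
    congr 3
    rw [map_mul, ← hu₀, mul_inv_rev, mul_assoc, mul_comm b⁻¹, mul_inv_cancel_left]
  rw [h1]
  have h2 : ∑ b : (ZMod f)ˣ, (lam b : ℝ) * (m b : ℝ) *
      ell f ((hζ.autToPow ℚ g * b⁻¹ : (ZMod f)ˣ) : ZMod f) =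
      2 * ∑ b ∈ Finset.univ.filter (fun b : (ZMod f)ˣ => 2 * (b : ZMod f).val < f),
        (lam b : ℝ) * (m b : ℝ) * ell f ((hζ.autToPow ℚ g * b⁻¹ : (ZMod f)ˣ) : ZMod f) := by
    refine theta_half hf _ fun a => ?_
    have e3 : ell f ((hζ.autToPow ℚ g * (-a)⁻¹ : (ZMod f)ˣ) : ZMod f) =
        ell f ((hζ.autToPow ℚ g * a⁻¹ : (ZMod f)ˣ) : ZMod f) := by
      rw [theta_inv_neg, mul_neg, Units.val_neg, ell_neg]
    rw [hlam1, hm_neg, e3]
    push_cast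
    ring
  have h3 : 1 / 2 * ∑ b : (ZMod f)ˣ, (lam b : ℝ) * hh f ((u₀ * b : (ZMod f)ˣ) : ZMod f) *
        ell f ((hζ.autToPow ℚ g * b⁻¹ : (ZMod f)ˣ) : ZMod f) -
      n₀ * (1 / 2 * ∑ a : (ZMod f)ˣ, (lam a : ℝ) * hh f (a : ZMod f) *
        ell f ((hζ.autToPow ℚ g * a⁻¹ : (ZMod f)ˣ) : ZMod f)) =
      1 / 2 * ∑ b : (ZMod f)ˣ, (lam b : ℝ) * (m b : ℝ) *
        ell f ((hζ.autToPow ℚ g * b⁻¹ : (ZMod f)ˣ) : ZMod f) := by
    rw [← mul_assoc, mul_comm (n₀ : ℝ), mul_assoc, ← mul_sub, Finset.mul_sum,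
      ← Finset.sum_sub_distrib]
    congr 1
    refine Finset.sum_congr rfl fun b _ => ?_
    rw [← hm]
    ring
  rw [h3, h2, ← mul_assoc, one_div_mul_cancel two_ne_zero, one_mul]
  refine Finset.sum_congr rfl fun b _ => ?_
  rw [Pi.smul_apply, zsmul_eq_mul]
  push_cast
  ring

end Pool.Agent.StarkRQ.Oct
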