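import Pool.Agent.StarkRQ.Oct.PhiDefs
import Pool.Agent.StarkRQ.Oct.Comb
import Pool.Agent.StarkRQ.Oct.Fourier
import Pool.Agent.StarkRQ.Oct.Theta
import Pool.Agent.StarkRQ.Oct.CharSum
import Pool.Agent.StarkRQ.ThetaAbs

/-!
# `Phi (g h₀) - n₀ Phi g` is the logarithm of a unit

`D = δ.range` is commutative of exponent `2` and order at most `16`: take `l` from `exists_oct` (as an
abstract commutative group; transport, `D` with the commutative structure from `hG.central`), and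
`card_mul_sum_oct`:
`|D| ∑_e ψ_e (g l(e)) = ∑_e F_(a,e) (g) + ∑_e F_(1,e) (g)`, i.e.
`Phi = ∑_e tr (l e) (ψ_e) - V`, `V g = (1/|D|) ∑_e ∑_(t ∈ D) ψ_e (g t)`.

`hnorm` gives `V g = 1/2 * ∑_u lam₀ u * hh u * ell (χ g u⁻¹)` with `lam₀ u = (1/|D|) ∑_e lam e u`. For
`u = χ g` (`χ` is surjective, `chi_surjective`): `lam e u = b₀ g * e (δ g)`, and
`∑_e e (δ g) = |D|` if `δ g = 1` and `0` otherwise (`card_dual`, `exists_sep`). So `lam₀` is integer valued: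
`lam₀ (χ g) = b₀ g` if `δ g = 1`, and `0` otherwise.
`lam₀ (-u) = - lam₀ u` (`χ c = -1` by `chi_cc`, `b₀ c = -1`, `δ (c g) = δ g`),
`lam₀ (χ h₀ * u) = lam₀ u` (`h₀` is central: `b₀ h₀ = 1`, `δ h₀ = 1`). So `theta_mem` gives
`tr h₀ V - n₀ • V ∈ SF ι`. Finally
`tr h₀ (tr (l e) ψ_e) - n₀ • tr (l e) ψ_e = tr (l e) (tr h₀ ψ_e - n₀ • ψ_e) ∈ SF ι` (`hmem` with
`τ = h₀`, `bch δ b₀ e h₀ = 1`; `tr_mem_SF`).
-/

open NumberField
open scoped commutatorElement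

namespace Pool.Agent.StarkRQ.Oct

private lemma PhiH0_fin (D : Type*) [Group D] [Finite D] : Finite (D →* ℤˣ) :=
  Finite.of_injective (fun e : D →* ℤˣ => (e : D → ℤˣ)) DFunLike.coe_injective

private lemma PhiH0_dual {D : Type*} [Group D] [Finite D] [Fintype (D →* ℤˣ)]
    (hD : ∀ s t : D, s * t = t * s) (h2 : ∀ t : D, t * t = 1) {t : D} (ht : t ≠ 1) :
    ∑ e : D →* ℤˣ, ((e t : ℤˣ) : ℤ) = 0 := by
  obtain ⟨p, -, hp⟩ := exists_sep (G := D) ⊥ (fun g => by rw [h2]; exact Subgroup.one_mem _)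
    (fun g h => by
      rw [commutatorElement_def, hD g h, mul_assoc, mul_assoc, ← mul_assoc g, mul_inv_cancel,
        one_mul, mul_inv_cancel]
      exact Subgroup.one_mem _) (x := t) (fun h => ht (Subgroup.mem_bot.1 h))
  have h1 : ∑ e : D →* ℤˣ, ((e t : ℤˣ) : ℤ) = ∑ e : D →* ℤˣ, -((e t : ℤˣ) : ℤ) := by
    refine Fintype.sum_equiv (Equiv.mulLeft p) _ _ fun e => ?_
    simp only [Equiv.coe_mulLeft, MonoidHom.mul_apply]
    rw [hp, neg_one_mul, Units.val_neg, neg_neg]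
  rw [Finset.sum_neg_distrib] at h1
  linarith

theorem phi_h0 {Ω : Type} [Field Ω] [NumberField Ω] [IsGalois ℚ Ω] {ι : Ω →+* ℂ}
    (hG : Big Gal(Ω/ℚ)) {c h₀ : Gal(Ω/ℚ)} (hc : ∀ x, ι (c x) = starRingEnd ℂ (ι x))
    {δ : Gal(Ω/ℚ) →* Gal(Ω/ℚ)} (hδ : ∀ g, δ g = ⁅g, c⁆) (hD : Nat.card δ.range ≤ 16)
    {b₀ : Gal(Ω/ℚ) →* ℤˣ} (hb₀ : ∀ x ∈ Subgroup.center Gal(Ω/ℚ), b₀ x = 1) (hb₀c : b₀ c = -1)
    {a : δ.range →* ℤˣ} (ha : a ≠ 1) {f : ℕ} [NeZero f] (hf : 2 < f) {ζ : Ω}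
    (hζ : IsPrimitiveRoot ζ f) (hιζ : ι ζ = Complex.exp (2 * Real.pi * Complex.I / f))
    (hcen : ∀ g, h₀ * g = g * h₀) {n₀ : ℕ} (hn₀ : Odd n₀)
    (hroot : ∀ ξ : Ω, ∀ m : ℕ, 0 < m → ξ ^ m = 1 → h₀ ξ = ξ ^ n₀)
    {ψ : (δ.range →* ℤˣ) → Gal(Ω/ℚ) → ℝ} (hpair : HPair ψ)
    (hmem : ∀ e, ∀ τ ∈ (bch δ b₀ e).ker, ∀ n : ℕ,
      (∀ ξ : Ω, ∀ m : ℕ, 0 < m → ξ ^ m = 1 → τ ξ = ξ ^ n) → tr τ (ψ e) - n • ψ e ∈ SF ι)
    {lam : (δ.range →* ℤˣ) → (ZMod f)ˣ → ℤ}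
    (hlam : ∀ e g, lam e (hζ.autToPow ℚ g) = ((bch δ b₀ e g : ℤˣ) : ℤ))
    (hnorm : ∀ e g, ∑ᶠ t : δ.range, ψ e (g * t) =
      1 / 2 * ∑ u : (ZMod f)ˣ, (lam e u : ℝ) * hh f (u : ZMod f) *
        ell f ((hζ.autToPow ℚ g * u⁻¹ : (ZMod f)ˣ) : ZMod f)) :
    tr h₀ (Phi a ψ) - n₀ • Phi a ψ ∈ SF ι := by
  classical
  have : Finite (δ.range →* ℤˣ) := PhiH0_fin _
  have : Fintype (δ.range →* ℤˣ) := Fintype.ofFinite _
  have : Fintype δ.range := Fintype.ofFinite _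
  have hDC : ∀ t : δ.range, (t : Gal(Ω/ℚ)) ∈ commutator Gal(Ω/ℚ) := fun t => range_le hδ t.2
  have hDcomm : ∀ s t : δ.range, s * t = t * s := fun s t =>
    Subtype.ext (hG.central (hDC s) t)
  have hD2 : ∀ t : δ.range, t * t = 1 := fun t => Subtype.ext (hG.sq_eq_one (hDC t))
  set N : ℕ := Nat.card δ.range with hN
  have hN0 : N ≠ 0 := Nat.card_pos.ne'
  have hN0r : (N : ℝ) ≠ 0 := by exact_mod_cast hN0
  have hN0z : (N : ℤ) ≠ 0 := by exact_mod_cast hN0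
  -- the octonion function
  obtain ⟨l, hl1, hl2⟩ : ∃ l : (δ.range →* ℤˣ) → δ.range, (∀ e, a (l e) = 1) ∧
      ∀ e e' : δ.range →* ℤˣ, e ≠ e' → e * e' ≠ a → (e * e') (l e * l e') = -1 := by
    let i : CommGroup δ.range := { (inferInstance : Group δ.range) with mul_comm := hDcomm }
    exact @exists_oct δ.range i _ hD2 hD a ha
  have hoct := card_mul_sum_oct δ.range
    (fun t ht t' ht' => congrArg Subtype.val (hDcomm ⟨t, ht⟩ ⟨t', ht'⟩))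
    (fun t ht => congrArg Subtype.val (hD2 ⟨t, ht⟩)) a ha l hl1 hl2 ψ hpair
  -- the function `lam₀`
  have hcc : δ c = 1 := by rw [hδ, commutatorElement_self]
  have hh₀ : δ h₀ = 1 := by
    rw [hδ, commutatorElement_def, hcen, mul_inv_cancel_right, mul_inv_cancel]
  have hh₀Z : h₀ ∈ Subgroup.center Gal(Ω/ℚ) := Subgroup.mem_center_iff.2 fun g => (hcen g).symm
  have hS : ∀ g, ∑ e : δ.range →* ℤˣ, lam e (hζ.autToPow ℚ g) =
      if δ g = 1 then (N : ℤ) * ((b₀ g : ℤˣ) : ℤ) else 0 := by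
    intro g
    have e1 : ∀ e : δ.range →* ℤˣ, lam e (hζ.autToPow ℚ g) =
        ((b₀ g : ℤˣ) : ℤ) * ((e ⟨δ g, ⟨g, rfl⟩⟩ : ℤˣ) : ℤ) := by
      intro e
      rw [hlam, bch_apply, Units.val_mul]
    rw [Finset.sum_congr rfl fun e _ => e1 e, ← Finset.mul_sum]
    split_ifs with h
    · have e2 : (⟨δ g, ⟨g, rfl⟩⟩ : δ.range) = 1 := Subtype.ext h
      rw [e2]
      simp only [map_one, Units.val_one, Finset.sum_const, Finset.card_univ, nsmul_eq_mul, mul_one]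
      rw [← Nat.card_eq_fintype_card, card_dual hDcomm hD2, ← hN, mul_comm]
    · rw [PhiH0_dual hDcomm hD2 (fun h' => h (congrArg Subtype.val h')), mul_zero]
  have hsurj := chi_surjective hζ
  set lam₀ : (ZMod f)ˣ → ℤ := fun u => (∑ e : δ.range →* ℤˣ, lam e u) / (N : ℤ) with hlam₀
  have hlam₀g : ∀ g, lam₀ (hζ.autToPow ℚ g) = if δ g = 1 then ((b₀ g : ℤˣ) : ℤ) else 0 := by
    intro g
    rw [hlam₀]
    simp only
    rw [hS]
    split_ifs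
    · rw [Int.mul_ediv_cancel_left _ hN0z]
    · rw [Int.zero_ediv]
  have hlam₀N : ∀ u, (N : ℤ) * lam₀ u = ∑ e : δ.range →* ℤˣ, lam e u := by
    intro u
    obtain ⟨g, rfl⟩ := hsurj u
    rw [hlam₀g, hS]
    split_ifs
    · rfl
    · rw [mul_zero]
  have hχc : hζ.autToPow ℚ c = -1 := by
    ext
    rw [chi_cc hζ hc]
    rfl
  have hlam1 : ∀ u, lam₀ (-u) = - lam₀ u := by
    intro u
    obtain ⟨g, rfl⟩ := hsurj u
    have e1 : -(hζ.autToPow ℚ g) = hζ.autToPow ℚ (c * g) := by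
      rw [map_mul, hχc, neg_one_mul]
    rw [e1, hlam₀g, hlam₀g, map_mul δ, hcc, one_mul, map_mul b₀, hb₀c, neg_one_mul]
    split_ifs
    · rw [Units.val_neg]
    · rw [neg_zero]
  have hlam2 : ∀ u, lam₀ (hζ.autToPow ℚ h₀ * u) = lam₀ u := by
    intro u
    obtain ⟨g, rfl⟩ := hsurj u
    rw [← map_mul, hlam₀g, hlam₀g, map_mul δ, hh₀, one_mul, map_mul b₀, hb₀ h₀ hh₀Z, one_mul]
  have hθ := theta_mem (ι := ι) hf hζ hιζ hn₀ (hroot ζ f (by omega) hζ.pow_eq_one) hlam1 hlam2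
  set V : Gal(Ω/ℚ) → ℝ := fun g => 1 / 2 * ∑ a : (ZMod f)ˣ, (lam₀ a : ℝ) * hh f (a : ZMod f) *
    ell f ((hζ.autToPow ℚ g * a⁻¹ : (ZMod f)ˣ) : ZMod f) with hV
  have hVg : ∀ g, ∑ e : δ.range →* ℤˣ, ∑ᶠ t : δ.range, ψ e (g * t) = N * V g := by
    intro g
    have key : ∀ u, ∑ e : δ.range →* ℤˣ, (lam e u : ℝ) = N * (lam₀ u : ℝ) := by
      intro u
      have := congrArg (fun x : ℤ => (x : ℝ)) (hlam₀N u)
      push_cast at this
      exact this.symm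
    have key2 : ∀ u : (ZMod f)ˣ, ∑ e : δ.range →* ℤˣ, (lam e u : ℝ) * hh f (u : ZMod f) *
        ell f ((hζ.autToPow ℚ g * u⁻¹ : (ZMod f)ˣ) : ZMod f) =
        N * ((lam₀ u : ℝ) * hh f (u : ZMod f) *
          ell f ((hζ.autToPow ℚ g * u⁻¹ : (ZMod f)ˣ) : ZMod f)) := by
      intro u
      rw [← Finset.sum_mul, ← Finset.sum_mul, key]
      ring
    rw [Finset.sum_congr rfl fun e _ => hnorm e g, ← Finset.mul_sum, Finset.sum_comm,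
      Finset.sum_congr rfl fun u _ => key2 u, ← Finset.mul_sum]
    simp only [hV]
    ring
  have hPhi : ∀ g, Phi a ψ g = ∑ e : δ.range →* ℤˣ, ψ e (g * l e) - V g := by
    intro g
    have e1 := hoct g
    have f1 : ∑ᶠ e : δ.range →* ℤˣ, ψ e (g * l e) = ∑ e : δ.range →* ℤˣ, ψ e (g * l e) :=
      finsum_eq_sum_of_fintype _
    have f2 : ∑ᶠ e : δ.range →* ℤˣ, ∑ᶠ t : δ.range, ψ e (g * t) =
        ∑ e : δ.range →* ℤˣ, ∑ᶠ t : δ.range, ψ e (g * t) := finsum_eq_sum_of_fintype _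
    rw [f1, f2, hVg g] at e1
    unfold Phi
    rw [← hN] at e1 ⊢
    have e2 : (∑ᶠ e : δ.range →* ℤˣ, ∑ᶠ t : δ.range, (((a t : ℤˣ) : ℤ) : ℝ) * ψ e (g * t)) =
        N * ∑ e : δ.range →* ℤˣ, ψ e (g * l e) - N * V g := by
      rw [e1]
      ring
    rw [e2, ← mul_sub, ← mul_assoc, one_div, inv_mul_cancel₀ hN0r, one_mul]
  -- the conclusion
  have hfin : tr h₀ (Phi a ψ) - n₀ • Phi a ψ =
      ∑ e : δ.range →* ℤˣ, tr ((l e : δ.range) : Gal(Ω/ℚ)) (tr h₀ (ψ e) - n₀ • ψ e) -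
        (tr h₀ V - n₀ • V) := by
    ext g
    rw [Pi.sub_apply, Pi.sub_apply, Finset.sum_apply, Pi.sub_apply, Pi.smul_apply, Pi.smul_apply,
      tr_apply, tr_apply, hPhi, hPhi]
    have e1 : ∀ e : δ.range →* ℤˣ,
        tr ((l e : δ.range) : Gal(Ω/ℚ)) (tr h₀ (ψ e) - n₀ • ψ e) g =
        ψ e (g * h₀ * l e) - n₀ • ψ e (g * l e) := by
      intro e
      rw [tr_apply, Pi.sub_apply, tr_apply, Pi.smul_apply]
      congr 2
      rw [mul_assoc, mul_assoc, hcen]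
    rw [Finset.sum_congr rfl fun e _ => e1 e, Finset.sum_sub_distrib, ← Finset.smul_sum, smul_sub]
    ring
  rw [hfin]
  refine (SF ι).sub_mem ((SF ι).sum_mem fun e _ => tr_mem_SF _ (hmem e h₀ ?_ n₀ hroot)) hθ
  rw [MonoidHom.mem_ker, bch_apply, hb₀ h₀ hh₀Z, one_mul]
  have e2 : (⟨δ h₀, ⟨h₀, rfl⟩⟩ : δ.range) = 1 := Subtype.ext hh₀
  rw [e2, map_one]

end Pool.Agent.StarkRQ.Oct
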