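import Pool.Agent.StarkRQ.Oct.PDefs
import Pool.Agent.StarkRQ.CcEta
import Pool.Agent.StarkRQ.Analytic

/-!
# `psi` is invariant under complex conjugation; the derivative of the zeta functions

`psi_tr_c`: `|ι (g c η)| = |ι (g η)|` for all `g ∈ Gal(Ω/ℚ)`. Let `c₁ = res L Ω c` (complex conjugation
of `L`, `c₁ ∉ fixG k L` by `cc_notMem_fixG`). For `res L Ω g ∈ fixG k L` this is the block `hnorm` in the
proof of `cc_eta` (`CcEta.lean`; it uses only `L/k` and `c₁`, not the real field `K`: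
`cnt_conj` says that `n ↦ zcoeff f σ n` and `n ↦ zcoeff f (c₁⁻¹ σ c₁) n` agree, `deriv_sub_eq`). In
general replace `g` by `c g`: `res (c g) ∈ fixG k L` if `res g ∉ fixG k L`
(`mul_mem_of_index_two (fixG_index hk)`), and `|ι (c x)| = |ι x|`.

`psi_cont`: `res L Ω g = toG k L σ`, and for `n ≠ 0` one has `zcoeff f σ n = cN f k L Ω n g`
(`zcoeff_eq_cnt` if `n` is prime to `f`). Take `Z` from `hη.deriv_zeta σ` and `IsPartialZeta.isCont`;
`log (x ^ 2) = 2 log x`; `ι (σ η)` (with `ι.comp (algebraMap L Ω)`) is `ι (g η)`.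
-/

open NumberField Module

namespace Pool.Agent.StarkRQ.Oct

variable {Ω k L : Type} [Field Ω] [NumberField Ω] [IsGalois ℚ Ω] [Field k] [NumberField k]
  [Field L] [NumberField L] [IsGalois ℚ L] [Algebra k L] [Algebra L Ω]

omit [IsGalois ℚ Ω] in
private theorem psi_hram {f : ℕ} (hram : ∀ p : ℕ, p.Prime → (p : ℤ) ∣ discr Ω → p ∣ f) :
    ∀ p : ℕ, p.Prime → (p : ℤ) ∣ discr L → p ∣ f := fun p hp h =>
  hram p hp (h.trans (discr_dvd_discr L Ω))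

/-- The block `hnorm` of `cc_eta`. -/
private theorem psi_norm [IsAbelianGalois k L] (hk : finrank ℚ k = 2) {ι : L →+* ℂ} {f : ℕ}
    (hf : f ≠ 0) (hram : ∀ p : ℕ, p.Prime → (p : ℤ) ∣ discr L → p ∣ f) {η : L}
    (hη : IsStarkUnit k ι f η) {c : Gal(L/ℚ)} (hc : ∀ x, ι (c x) = starRingEnd ℂ (ι x))
    (σ : Gal(L/k)) : ‖ι (σ (c η))‖ = ‖ι (σ η)‖ := by
  classical
  have hB : ∀ σ τ : Gal(L/k), σ * τ = τ * σ := fun σ τ => mul_comm' σ τ
  set w := Units.torsionOrder L with hw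
  have : NeZero w := ⟨Units.torsionOrder_ne_zero L⟩
  have hη0 := hη.ne_zero
  have hnor : (fixG k L).Normal := Subgroup.normal_of_index_eq_two (fixG_index (M := L) hk)
  have hmem : c⁻¹ * toG k L σ * c ∈ fixG k L := by
    have := hnor.conj_mem (toG k L σ) ⟨σ, rfl⟩ c⁻¹
    rwa [inv_inv] at this
  obtain ⟨σ', hσ'⟩ := hmem
  have h1 : ∀ y : L, σ (c y) = c (σ' y) := by
    intro y
    have : toG k L σ * c = c * toG k L σ' := by rw [hσ']; group
    exact DFunLike.congr_fun this y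
  obtain ⟨Z₁, hZ₁, hd₁⟩ := hη.deriv_zeta σ
  obtain ⟨Z₂, hZ₂, hd₂⟩ := hη.deriv_zeta σ'
  have hcoef : ∀ n : ℕ, n ≠ 0 → (zcoeff f σ n : ℤ) - zcoeff f σ' n =
      (zcoeff f σ n : ℤ) - zcoeff f σ n := by
    intro n hn
    by_cases hco : n.Coprime f
    · rw [zcoeff_eq_cnt hB hram hn hco, zcoeff_eq_cnt hB hram hn hco, hσ']
      have := cnt_conj (M := L) hk hB hf hram n hn hco c⁻¹ (toG k L σ)
      rw [inv_inv] at this
      rw [this]
    · simp [zcoeff, hco]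
  have h2 := deriv_sub_eq hZ₁ hZ₂ hZ₁ hZ₁ hcoef
  rw [sub_self, sub_eq_zero, hd₁, hd₂] at h2
  have hwc : (w : ℂ) ≠ 0 := by exact_mod_cast NeZero.ne w
  have h3 := mul_left_cancel₀ (neg_ne_zero.2 (one_div_ne_zero hwc)) h2
  have h4 : Real.log (‖ι (σ η)‖ ^ 2) = Real.log (‖ι (σ' η)‖ ^ 2) := by exact_mod_cast h3
  have hp : ∀ τ : Gal(L/k), 0 < ‖ι (τ η)‖ := by
    intro τ
    rw [norm_pos_iff]
    exact fun h => hη0 (τ.injective (ι.injective (by rw [h, map_zero, map_zero])))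
  have h5 := Real.log_injOn_pos (Set.mem_Ioi.2 (pow_pos (hp σ) 2))
    (Set.mem_Ioi.2 (pow_pos (hp σ') 2)) h4
  have h6 : ‖ι (σ η)‖ = ‖ι (σ' η)‖ :=
    (pow_left_inj₀ (hp σ).le (hp σ').le two_ne_zero).1 h5
  rw [h1, hc, RCLike.norm_conj, h6]

theorem psi_tr_c [IsAbelianGalois k L] [IsTotallyComplex k] (hk : finrank ℚ k = 2)
    {ι : Ω →+* ℂ} {f : ℕ} (hf : f ≠ 0)
    (hram : ∀ p : ℕ, p.Prime → (p : ℤ) ∣ discr Ω → p ∣ f) {η : L}
    (hη : IsStarkUnit k (ι.comp (algebraMap L Ω)) f η) {c : Gal(Ω/ℚ)}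
    (hc : ∀ x, ι (c x) = starRingEnd ℂ (ι x)) : tr c (psi ι η) = psi ι η := by
  have hramL := psi_hram (L := L) hram
  set ι₁ := ι.comp (algebraMap L Ω) with hι₁
  set c₁ := res L Ω c with hc₁
  have hc' : ∀ x : L, ι₁ (c₁ x) = starRingEnd ℂ (ι₁ x) := by
    intro x
    rw [hι₁, RingHom.comp_apply, RingHom.comp_apply, hc₁, res_apply, hc]
  have hck : c₁ ∉ fixG k L := cc_notMem_fixG hc'
  have hall : ∀ γ : Gal(L/ℚ), ‖ι₁ (γ (c₁ η))‖ = ‖ι₁ (γ η)‖ := by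
    intro γ
    by_cases hγ : γ ∈ fixG k L
    · obtain ⟨σ, rfl⟩ := hγ
      exact psi_norm hk hf hramL hη hc' σ
    · have hmem : c₁ * γ ∈ fixG k L := mul_mem_of_index_two (fixG_index (M := L) hk) hck hγ
      obtain ⟨σ, hσ⟩ := hmem
      have h1 : ∀ y : L, ‖ι₁ (γ y)‖ = ‖ι₁ (σ y)‖ := by
        intro y
        have h2 : σ y = c₁ (γ y) := DFunLike.congr_fun hσ y
        rw [h2, hc', RCLike.norm_conj]
      rw [h1, h1]
      exact psi_norm hk hf hramL hη hc' σ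
  ext g
  rw [tr_apply, psi, psi]
  have h1 := hall (res L Ω g)
  rw [hι₁, RingHom.comp_apply, RingHom.comp_apply, res_apply, res_apply, res_apply] at h1
  have h2 : (g * c) (algebraMap L Ω η) = g (c (algebraMap L Ω η)) := rfl
  rw [h2, h1]

theorem psi_cont [IsAbelianGalois k L] {ι : Ω →+* ℂ} {f : ℕ}
    (hram : ∀ p : ℕ, p.Prime → (p : ℤ) ∣ discr Ω → p ∣ f) {η : L}
    (hη : IsStarkUnit k (ι.comp (algebraMap L Ω)) f η) {g : Gal(Ω/ℚ)}
    (hg : res L Ω g ∈ fixG k L) :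
    ∃ Z : ℂ → ℂ, IsCont (fun n => (cN f k L Ω n g : ℂ)) Z ∧
      deriv Z 0 = ((-2 * psi ι η g : ℝ) : ℂ) := by
  have hramL := psi_hram (L := L) hram
  have hB : ∀ σ τ : Gal(L/k), σ * τ = τ * σ := fun σ τ => mul_comm' σ τ
  obtain ⟨σ, hσ⟩ := hg
  obtain ⟨Z, hZ, hd⟩ := hη.deriv_zeta σ
  have hcont := hZ.isCont
  have hcoef : ∀ n : ℕ, n ≠ 0 → (zcoeff f σ n : ℂ) = (cN f k L Ω n g : ℂ) := by
    intro n hn
    unfold cN
    by_cases hco : n.Coprime f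
    · rw [if_pos hco, zcoeff_eq_cnt hB hramL hn hco, hσ]
    · rw [if_neg hco, zcoeff, if_neg hco]
  refine ⟨Z, ⟨hcont.diff, fun s hs => ?_, fun s hs => ?_⟩, ?_⟩
  · exact (LSeriesSummable_congr s fun {n} hn => hcoef n hn).1 (hcont.summable s hs)
  · rw [hcont.eq s hs]
    exact LSeries_congr (fun {n} hn => hcoef n hn) s
  · have h1 : (ι.comp (algebraMap L Ω)) (σ η) = ι (g (algebraMap L Ω η)) := by
      rw [RingHom.comp_apply, ← res_apply, ← hσ]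
      rfl
    rw [hd, h1, psi, Real.log_pow]
    push_cast
    ring

end Pool.Agent.StarkRQ.Oct
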