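import Pool.Agent.StarkRQ.Oct.PDefs
import Pool.Agent.StarkRQ.RootB

/-!
# `psi (g τ) - n psi g` is the logarithm of a unit

Let `τ₁ = res L Ω τ = toG k L s`. `exists_alpha` (`RootB.lean`, with `E`, `y` from `hη.abelian`) gives
`α ∈ L` with `α ^ w = τ₁ η / η ^ n`; `w psi (g τ) - n w psi g = log |ι (g (τ η / η ^ n))| =
w log |ι (g α)|`. So the function is `logF ι (algebraMap L Ω α)`. For `g ∈ Gal(Ω/ℚ)`, `g₁ = res L Ω g`:
`(g₁ α / α) ^ w = (g₁ τ₁ η / τ₁ η) * (η / g₁ η) ^ n` is integral, as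
`g₁ τ₁ η / τ₁ η = τ₁ ((τ₁⁻¹ g₁ τ₁) η / η)` and `η / g₁ η = g₁ (g₁⁻¹ η / η)` (`hη.isIntegral`); so
`g₁ α / α` is integral.
(The roots of unity: `τ ξ = ξ ^ n` for `ξ ∈ Ω` implies it for `ξ ∈ L`.)
-/

open NumberField Module

namespace Pool.Agent.StarkRQ.Oct

theorem psi_mem {Ω k L : Type} [Field Ω] [NumberField Ω] [IsGalois ℚ Ω] [Field k]
    [NumberField k] [Field L] [NumberField L] [IsGalois ℚ L] [Algebra k L] [Algebra L Ω]
    [IsAbelianGalois k L] {ι : Ω →+* ℂ} {f : ℕ} {η : L}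
    (hη : IsStarkUnit k (ι.comp (algebraMap L Ω)) f η) {τ : Gal(Ω/ℚ)}
    (hτ : res L Ω τ ∈ fixG k L) {n : ℕ}
    (hn : ∀ ξ : Ω, ∀ m : ℕ, 0 < m → ξ ^ m = 1 → τ ξ = ξ ^ n) :
    tr τ (psi ι η) - n • psi ι η ∈ SF ι := by
  have hw0 : Units.torsionOrder L ≠ 0 := Units.torsionOrder_ne_zero L
  have hinj : Function.Injective (algebraMap L Ω) := (algebraMap L Ω).injective
  have hη0 : η ≠ 0 := hη.ne_zero
  obtain ⟨s, hs⟩ := hτ
  have hsx : ∀ x : L, algebraMap L Ω (s x) = τ (algebraMap L Ω x) := by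
    intro x
    have h1 : s x = res L Ω τ x := by rw [← hs]; rfl
    rw [h1, res_apply]
  obtain ⟨E, iE1, iE2, iE3, iE4, hE, y, hy⟩ := hη.abelian
  have hab : ∀ σ ρ : Gal(E/k), σ * ρ = ρ * σ := fun σ ρ => mul_comm' σ ρ
  have hn' : ∀ ξ : L, ξ ^ Units.torsionOrder L = 1 → s ξ = ξ ^ n := by
    intro ξ hξ
    apply hinj
    rw [hsx, map_pow]
    refine hn _ (Units.torsionOrder L) (Nat.pos_of_ne_zero hw0) ?_
    rw [← map_pow, hξ, map_one]
  obtain ⟨α, hα⟩ := exists_alpha hab s n hn' hη0 hy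
  have hsη : s η ≠ 0 := (map_ne_zero_iff s s.injective).2 hη0
  have hα0 : α ≠ 0 := by
    rintro rfl
    rw [zero_pow hw0] at hα
    exact div_ne_zero hsη (pow_ne_zero n hη0) hα.symm
  have hu0 : algebraMap L Ω α ≠ 0 := (map_ne_zero _).2 hα0
  have hη'0 : algebraMap L Ω η ≠ 0 := (map_ne_zero _).2 hη0
  have huw : algebraMap L Ω α ^ Units.torsionOrder L =
      τ (algebraMap L Ω η) / algebraMap L Ω η ^ n := by
    rw [← map_pow, hα, map_div₀, hsx, map_pow]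
  refine ⟨algebraMap L Ω α, hu0, ?_, ?_⟩
  · intro g
    have h1 : g (algebraMap L Ω α) / algebraMap L Ω α =
        algebraMap L Ω (res L Ω g α / α) := by
      rw [map_div₀, res_apply]
    rw [h1]
    refine IsIntegral.map (algebraMap L Ω).toIntAlgHom ?_
    refine IsIntegral.of_pow (Nat.pos_of_ne_zero hw0) ?_
    obtain ⟨g₁, hg₁⟩ : ∃ g₁ : Gal(L/ℚ), g₁ = res L Ω g := ⟨_, rfl⟩
    rw [← hg₁]
    have hgη : g₁ η ≠ 0 := (map_ne_zero_iff g₁ g₁.injective).2 hη0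
    set t : Gal(L/ℚ) := toG k L s with ht
    have hts : s η = t η := rfl
    have e1 : (g₁ α / α) ^ Units.torsionOrder L =
        t ((t⁻¹ * g₁ * t) η / η) * g₁ (g₁⁻¹ η / η) ^ n := by
      have e2 : t ((t⁻¹ * g₁ * t) η) = g₁ (t η) := by
        change (t * (t⁻¹ * g₁ * t)) η = (g₁ * t) η
        congr 1
        group
      have e3 : g₁ (g₁⁻¹ η) = η := by
        change (g₁ * g₁⁻¹) η = η
        rw [mul_inv_cancel]
        rfl
      have htη : t η ≠ 0 := hsη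
      rw [div_pow, ← map_pow, hα, map_div₀, map_div₀, map_div₀, e2, e3, map_pow, hts, div_pow]
      field_simp
    rw [e1]
    refine IsIntegral.mul ?_ (IsIntegral.pow ?_ n)
    · exact (hη.isIntegral (t⁻¹ * g₁ * t : Gal(L/ℚ)).toRingEquiv).map
        (t : L →ₐ[ℚ] L).toRingHom.toIntAlgHom
    · exact (hη.isIntegral (g₁⁻¹ : Gal(L/ℚ)).toRingEquiv).map
        (g₁ : L →ₐ[ℚ] L).toRingHom.toIntAlgHom
  · ext g
    have hwR : (Units.torsionOrder L : ℝ) ≠ 0 := by exact_mod_cast hw0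
    rw [Pi.sub_apply, Pi.smul_apply, tr_apply, psi, psi, logF_apply, nsmul_eq_mul]
    have h1 : Real.log ‖ι (g (algebraMap L Ω α ^ Units.torsionOrder L))‖ =
        Units.torsionOrder L * Real.log ‖ι (g (algebraMap L Ω α))‖ := by
      rw [map_pow, map_pow, norm_pow, Real.log_pow]
    have h2 : Real.log ‖ι (g (algebraMap L Ω α ^ Units.torsionOrder L))‖ =
        Real.log ‖ι ((g * τ) (algebraMap L Ω η))‖ -
          n * Real.log ‖ι (g (algebraMap L Ω η))‖ := by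
      rw [huw, map_div₀, map_div₀, norm_div, Real.log_div, map_pow, map_pow, norm_pow,
        Real.log_pow]
      · rfl
      · exact norm_ne_zero_of ι ((map_ne_zero_iff τ τ.injective).2 hη'0) g
      · exact norm_ne_zero_of ι (pow_ne_zero n hη'0) g
    rw [h1] at h2
    field_simp
    linarith

end Pool.Agent.StarkRQ.Oct
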