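import Mathlib

/-!
# Groups with central squares and many commutators

`Big G`: squares are central, and for any two homomorphisms `p q : G →* ℤˣ` which are trivial on the
center there is a homomorphism `κ` of the commutator subgroup to `ℤˣ` with
`κ ⁅g, h⁆ = wedge p q g h`. (For finite `G` with center of index `2^d` this says that the commutator
subgroup has order `2^(d(d-1)/2)`.)
-/

open scoped commutatorElement

namespace Pool.Agent.StarkRQ.Oct

/-- the alternating form attached to two homomorphisms to `ℤˣ` -/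
def wedge {G : Type*} [Group G] (p q : G →* ℤˣ) (g h : G) : ℤˣ :=
  (if p g = -1 then q h else 1) * (if p h = -1 then q g else 1)

/-- squares are central, and there are all possible characters of the commutator subgroup -/
structure Big (G : Type*) [Group G] : Prop where
  sq : ∀ g x : G, g * g * x = x * (g * g)
  big : ∀ p q : G →* ℤˣ, (∀ x ∈ Subgroup.center G, p x = 1) →
    (∀ x ∈ Subgroup.center G, q x = 1) → ∃ κ : commutator G →* ℤˣ,
      ∀ (g h : G) (hm : ⁅g, h⁆ ∈ commutator G), κ ⟨⁅g, h⁆, hm⟩ = wedge p q g h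

/-- the character `b₀ * (e ∘ δ)` -/
def bch {G : Type*} [Group G] (δ : G →* G) (b₀ : G →* ℤˣ) (e : δ.range →* ℤˣ) : G →* ℤˣ :=
  b₀ * e.comp δ.rangeRestrict

section

variable {G : Type*} [Group G]

lemma comm_mem (g h : G) : ⁅g, h⁆ ∈ commutator G :=
  Subgroup.commutator_mem_commutator (Subgroup.mem_top g) (Subgroup.mem_top h)

lemma bch_apply (δ : G →* G) (b₀ : G →* ℤˣ) (e : δ.range →* ℤˣ) (g : G) :
    bch δ b₀ e g = b₀ g * e ⟨δ g, ⟨g, rfl⟩⟩ := rfl

variable (hG : Big G)

include hG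

lemma Big.comm (g h x : G) : ⁅g, h⁆ * x = x * ⁅g, h⁆ := by
  have hsq : ∀ g : G, g * g ∈ Subgroup.center G := fun g =>
    Subgroup.mem_center_iff.2 fun x => (hG.sq g x).symm
  have e1 : ⁅g, h⁆ = (g * h) * (g * h) * ((h⁻¹ * g⁻¹ * h) * (h⁻¹ * g⁻¹ * h)) *
      (h⁻¹ * h⁻¹) := by
    rw [commutatorElement_def]; group
  have hm : ⁅g, h⁆ ∈ Subgroup.center G := by
    rw [e1]
    exact Subgroup.mul_mem _ (Subgroup.mul_mem _ (hsq _) (hsq _)) (hsq _)
  exact (Subgroup.mem_center_iff.1 hm x).symm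

lemma Big.comm_mem_center (g h : G) : ⁅g, h⁆ ∈ Subgroup.center G :=
  Subgroup.mem_center_iff.2 fun x => (hG.comm g h x).symm

lemma Big.mul_left (g g' h : G) : ⁅g * g', h⁆ = ⁅g, h⁆ * ⁅g', h⁆ := by
  have h1 : ⁅g * g', h⁆ = g * ⁅g', h⁆ * g⁻¹ * ⁅g, h⁆ := by
    simp only [commutatorElement_def]; group
  rw [h1, ← hG.comm g' h g, mul_inv_cancel_right, hG.comm g' h]

lemma Big.mul_right (g h h' : G) : ⁅g, h * h'⁆ = ⁅g, h⁆ * ⁅g, h'⁆ := by
  have h1 : ⁅g, h * h'⁆ = ⁅g, h⁆ * (h * ⁅g, h'⁆ * h⁻¹) := by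
    simp only [commutatorElement_def]; group
  rw [h1, ← hG.comm g h' h, mul_inv_cancel_right]

lemma Big.comm_sq (g h : G) : ⁅g, h⁆ * ⁅g, h⁆ = 1 := by
  rw [← hG.mul_left]
  rw [commutatorElement_def, hG.sq, mul_assoc h, mul_inv_cancel, mul_one, mul_inv_cancel]

lemma Big.inv_comm (g h : G) : ⁅g, h⁆⁻¹ = ⁅g, h⁆ :=
  inv_eq_of_mul_eq_one_left (hG.comm_sq g h)

lemma Big.comm_symm (g h : G) : ⁅g, h⁆ = ⁅h, g⁆ := by
  rw [← hG.inv_comm g h, commutatorElement_inv]

lemma Big.center_of_mem {t : G} (ht : t ∈ commutator G) : t ∈ Subgroup.center G := by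
  have h1 : commutator G ≤ Subgroup.center G := by
    rw [commutator_def, Subgroup.commutator_le]
    intro g _ h _
    exact hG.comm_mem_center g h
  exact h1 ht

lemma Big.central {t : G} (ht : t ∈ commutator G) (x : G) : t * x = x * t :=
  (Subgroup.mem_center_iff.1 (hG.center_of_mem ht) x).symm

lemma Big.sq_eq_one {t : G} (ht : t ∈ commutator G) : t * t = 1 := by
  rw [commutator_def] at ht
  refine Subgroup.closure_induction (p := fun t _ => t * t = 1) ?_ ?_ ?_ ?_ ht
  · rintro x ⟨g, -, h, -, rfl⟩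
    exact hG.comm_sq g h
  · rw [mul_one]
  · intro x y hx _ h1 h2
    have hx' : x ∈ commutator G := by rw [commutator_def]; exact hx
    have h3 : x * y * (x * y) = (x * x) * (y * y) := by
      rw [mul_assoc, ← mul_assoc y x y, ← hG.central hx' y]
      group
    rw [h3, h1, h2, mul_one]
  · intro x _ h1
    rw [← mul_inv_rev, h1, inv_one]

/-- `g ↦ ⁅g, c⁆` is a homomorphism -/
lemma Big.exists_delta (c : G) : ∃ δ : G →* G, ∀ g, δ g = ⁅g, c⁆ :=
  ⟨{ toFun := fun g => ⁅g, c⁆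
     map_one' := by rw [commutatorElement_one_left]
     map_mul' := fun g h => hG.mul_left g h c }, fun _ => rfl⟩

end

section

variable {G : Type*} [Group G]

lemma wedge_of_ker {p q : G →* ℤˣ} {g h : G} (hg : q g = 1) (hh : q h = 1) : wedge p q g h = 1 := by
  unfold wedge
  rw [hg, hh]
  simp

lemma wedge_of_ker_left {p q : G →* ℤˣ} {g h : G} (hg : p g = 1) (hh : p h = 1) :
    wedge p q g h = 1 := by
  unfold wedge
  rw [if_neg (by rw [hg]; decide), if_neg (by rw [hh]; decide), one_mul]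

lemma range_le {c : G} {δ : G →* G} (hδ : ∀ g, δ g = ⁅g, c⁆) : δ.range ≤ commutator G := by
  rintro _ ⟨g, rfl⟩
  rw [hδ]
  exact comm_mem g c

end

end Pool.Agent.StarkRQ.Oct
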