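import Pool.Agent.StarkRQ.Oct.PDefs
import Pool.Agent.StarkRQ.Oct.GDefs
import Pool.Agent.StarkRQ.CycCount
import Pool.Agent.StarkRQ.ThetaAbs
import Pool.Agent.StarkRQ.Chars

/-!
# The sum of `psi` over the commutator subgroup

Let `C` be the commutator subgroup of `Γ = Gal(Ω/ℚ)`, the group fixing `ζ`; `χ g = hζ.autToPow ℚ g`.
This is `log_theta` (`ThetaAbs.lean`) for a group `C` of any order instead of `{1, z}`.

`ζ = algebraMap L Ω ζ₁` (the elements of `(res L Ω).ker ≤ C` fix `ζ`; `fixG_eq_ker` and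
`mem_range_iff_res` in `Klein.lean`), `ζ₁` is a primitive root, `χ₁ (res L Ω g) = χ g`
for `χ₁ = hζ₁.autToPow ℚ`. By `exists_kappa` (`Chars.lean`; the group `(fixG k Ω).comap`; the kernel
of `χ` is `C ≤ fixG k Ω`, as the index is `2`) there is a quadratic Dirichlet character `κ` with
`κ (χ g) = 1 ↔ g ∈ fixG k Ω`; so `κ u = lam u` for all units `u` (`χ` is surjective, values `± 1`), and
`κ (-1) = -1` (`chi_cc`, `hck`).

Let first `g ∈ fixG k Ω`. For `n` prime to `f`, `n ≠ 0`: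
`∑_(t ∈ C) cN f k L Ω n (g t) = |(res L Ω).ker| * (if n ≡ χ g then ∑_(d ∣ n) κ d else 0)`: the elements
`res L Ω (g t)` are those `x ∈ Gal(L/ℚ)` with `χ₁ x = χ g`, each of them `|(res L Ω).ker|` times, and
`CycCount_S` (private in `CycCount.lean`: copy it; or derive it) for `L/k`. If `n` is not prime to `f`
both sides are `0`. So, with the `Z` from `hcont` and `IsCont.sum`, `deriv_conv` gives
`∑_t (-2) psi (g t) = - |(res L Ω).ker| * ∑_a κ a hh a ell (χ g a⁻¹)`.

If `g ∉ fixG k Ω` use `c g`, `χ (c g) = - χ g`, `ell_neg` and `|ι (c x)| = |ι x|` (`psi (c g t) = psi (g t)`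
is clear from the definition of `psi`).
-/

open NumberField Module

namespace Pool.Agent.StarkRQ.Oct

section

variable {k M : Type*} [Field k] [NumberField k] [Field M] [NumberField M] [Algebra k M]
  [IsGalois ℚ M] [IsGalois k M]

private lemma psiNorm_sum_mul {f : ℕ} (κ : DirichletCharacter ℤ f) {a b : ℕ} (hab : a.Coprime b) :
    ∑ d ∈ (a * b).divisors, κ (d : ZMod f) =
      (∑ d ∈ a.divisors, κ (d : ZMod f)) * ∑ d ∈ b.divisors, κ (d : ZMod f) := by
  rw [Nat.divisors_mul, Finset.mul_def, Finset.sum_image hab.mul_injOn_divisors,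
    Finset.sum_mul_sum, Finset.sum_product]
  simp only [Nat.cast_mul, map_mul]

private lemma psiNorm_S (hk : finrank ℚ k = 2) (hB : ∀ σ τ : Gal(M/k), σ * τ = τ * σ) {f : ℕ}
    [NeZero f] (hram : ∀ p : ℕ, p.Prime → (p : ℤ) ∣ discr M → p ∣ f) {ζ : M}
    (hζ : IsPrimitiveRoot ζ f) (κ : DirichletCharacter ℤ f)
    (hκ : ∀ g : Gal(M/ℚ), κ ((hζ.autToPow ℚ g : (ZMod f)ˣ) : ZMod f) = 1 ↔ g ∈ fixG k M)
    (n : ℕ) (hn : n ≠ 0) (hnf : n.Coprime f) :
    ∀ u : (ZMod f)ˣ,
    (∑ g : Gal(M/ℚ), if hζ.autToPow ℚ g = u then (cnt k M n g : ℤ) else 0) =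
      if (u : ZMod f) = (n : ZMod f) then ∑ d ∈ n.divisors, κ (d : ZMod f) else 0 := by
  have hpp : ∀ p : ℕ, p.Prime → p.Coprime f → ∀ e : ℕ, ∀ u : (ZMod f)ˣ,
      (∑ g : Gal(M/ℚ), if hζ.autToPow ℚ g = u then (cnt k M (p ^ e) g : ℤ) else 0) =
      if (u : ZMod f) = ((p ^ e : ℕ) : ZMod f) then
        ∑ d ∈ (p ^ e).divisors, κ (d : ZMod f) else 0 := by
    intro p hp hpf e u
    rw [sum_cnt_primePow hk hB hram hζ κ hκ hp hpf e u, Nat.sum_divisors_prime_pow hp]
  induction n using Nat.recOnPosPrimePosCoprime with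
  | prime_pow p e hp he =>
      exact hpp p hp (Nat.Coprime.coprime_dvd_left (dvd_pow_self p he.ne') hnf) e
  | zero => exact absurd rfl hn
  | one =>
      obtain ⟨p, hpN, hp⟩ := Nat.exists_infinite_primes (f + 1)
      have hcop : p.Coprime f := by
        rw [hp.coprime_iff_not_dvd]
        intro h
        have := Nat.le_of_dvd (Nat.pos_of_ne_zero (NeZero.ne f)) h
        omega
      simpa using hpp p hp hcop 0
  | coprime a b ha hb hab iha ihb =>
      have ha0 : a ≠ 0 := by omega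
      have hb0 : b ≠ 0 := by omega
      have haf : a.Coprime f := Nat.Coprime.coprime_mul_right hnf
      have hbf : b.Coprime f := Nat.Coprime.coprime_mul_left hnf
      have iha' := iha ha0 haf
      have ihb' := ihb hb0 hbf
      intro u
      set χ := hζ.autToPow ℚ with hχ
      set b' : (ZMod f)ˣ := ZMod.unitOfCoprime b hbf with hb'
      have hbc : (b' : ZMod f) = (b : ZMod f) := ZMod.coe_unitOfCoprime b hbf
      have h1 : (∑ g : Gal(M/ℚ), if χ g = u then (cnt k M (a * b) g : ℤ) else 0) =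
          ∑ h : Gal(M/ℚ), (cnt k M a h : ℤ) *
            ∑ g : Gal(M/ℚ), if χ g = u then (cnt k M b (h⁻¹ * g) : ℤ) else 0 := by
        simp only [Finset.mul_sum]
        rw [Finset.sum_comm]
        refine Finset.sum_congr rfl fun g _ => ?_
        split_ifs with hg
        · rw [cnt_mul hB hram ha0 hb0 hab haf hbf]
          push_cast
          rfl
        · simp
      have h2 : ∀ h : Gal(M/ℚ), (∑ g : Gal(M/ℚ), if χ g = u then (cnt k M b (h⁻¹ * g) : ℤ) else 0) =
          if χ h = u * b'⁻¹ then ∑ d ∈ b.divisors, κ (d : ZMod f) else 0 := by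
        intro h
        have h3 : (∑ g : Gal(M/ℚ), if χ g = u then (cnt k M b (h⁻¹ * g) : ℤ) else 0) =
            ∑ g : Gal(M/ℚ), if χ g = (χ h)⁻¹ * u then (cnt k M b g : ℤ) else 0 := by
          refine Fintype.sum_equiv (Equiv.mulLeft h⁻¹) _ _ fun g => ?_
          simp only [Equiv.coe_mulLeft, map_mul, map_inv, mul_right_inj]
        rw [h3, ihb']
        have h4 : ((((χ h)⁻¹ * u : (ZMod f)ˣ) : ZMod f) = (b : ZMod f)) ↔ χ h = u * b'⁻¹ := by
          rw [← hbc, Units.val_inj]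
          constructor
          · intro h5
            rw [← h5]
            simp
          · intro h5
            rw [h5]
            simp [mul_comm]
        simp only [h4]
      rw [h1]
      simp only [h2]
      have h5 : (∑ h : Gal(M/ℚ), (cnt k M a h : ℤ) *
          if χ h = u * b'⁻¹ then ∑ d ∈ b.divisors, κ (d : ZMod f) else 0) =
          (∑ h : Gal(M/ℚ), if χ h = u * b'⁻¹ then (cnt k M a h : ℤ) else 0) *
            ∑ d ∈ b.divisors, κ (d : ZMod f) := by
        rw [Finset.sum_mul]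
        refine Finset.sum_congr rfl fun h _ => ?_
        split_ifs <;> simp
      rw [h5, iha', psiNorm_sum_mul κ hab]
      have h6 : (((u * b'⁻¹ : (ZMod f)ˣ) : ZMod f) = (a : ZMod f)) ↔
          (u : ZMod f) = ((a * b : ℕ) : ZMod f) := by
        rw [Nat.cast_mul, ← hbc]
        constructor
        · intro h7
          rw [← h7, ← Units.val_mul]
          simp
        · intro h7
          rw [Units.val_mul, h7, mul_assoc, ← Units.val_mul]
          simp
      simp only [h6]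
      split_ifs <;> simp

end

/-- Sums over the fibres of a surjective homomorphism. -/
private lemma psiNorm_comp {G H : Type*} [Group G] [Group H] [Fintype G] [Fintype H]
    (π : G →* H) (hπ : Function.Surjective π) (F : H → ℤ) :
    ∑ g : G, F (π g) = (Nat.card π.ker : ℤ) * ∑ x : H, F x := by
  classical
  rw [← Finset.sum_fiberwise Finset.univ π fun g => F (π g), Finset.mul_sum]
  refine Finset.sum_congr rfl fun x _ => ?_
  have h1 : ∀ g ∈ Finset.univ.filter (fun g => π g = x), F (π g) = F x := by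
    intro g hg
    rw [(Finset.mem_filter.1 hg).2]
  rw [Finset.sum_congr rfl h1, Finset.sum_const, nsmul_eq_mul]
  congr 2
  have h2 := MonoidHom.card_fiber_eq_of_mem_range π (x := x) (y := 1) (hπ x) ⟨1, map_one π⟩
  rw [h2, Nat.card_eq_fintype_card, Fintype.card_subtype]
  congr 1
  ext g
  simp only [Finset.mem_filter, Finset.mem_univ, true_and, MonoidHom.mem_ker]

/-- the value of the cyclotomic character is trivial iff the root of unity is fixed -/
private lemma psiNorm_one {M : Type*} [Field M] {f : ℕ} [NeZero f] [Algebra ℚ M] {ζ : M}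
    (hf : 2 < f) (hζ : IsPrimitiveRoot ζ f) (h : Gal(M/ℚ)) : hζ.autToPow ℚ h = 1 ↔ h ζ = ζ := by
  have hs := hζ.autToPow_spec ℚ h
  have : Fact (1 < f) := ⟨by omega⟩
  constructor
  · intro h3
    rw [← hs, h3, Units.val_one, ZMod.val_one, pow_one]
  · intro h3
    rw [h3] at hs
    have h4 : ζ ^ (hζ.autToPow ℚ h : ZMod f).val = ζ ^ 1 := by rw [hs, pow_one]
    have h5 := hζ.pow_inj (ZMod.val_lt _) this.1 h4
    refine Units.ext (ZMod.val_injective f ?_)
    rw [h5, Units.val_one, ZMod.val_one]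

theorem psi_norm {Ω k L : Type} [Field Ω] [NumberField Ω] [IsGalois ℚ Ω] [Field k]
    [NumberField k] [Field L] [NumberField L] [IsGalois ℚ L] [Algebra k L] [Algebra L Ω]
    [Algebra k Ω] [IsScalarTower k L Ω] [IsAbelianGalois k L] (hk : finrank ℚ k = 2)
    {ι : Ω →+* ℂ} {f : ℕ} [NeZero f] (hf : 2 < f)
    (hram : ∀ p : ℕ, p.Prime → (p : ℤ) ∣ discr Ω → p ∣ f) {ζ : Ω} (hζ : IsPrimitiveRoot ζ f)
    (hζC : ∀ g : Gal(Ω/ℚ), g ζ = ζ ↔ g ∈ commutator Gal(Ω/ℚ))
    (hL : (res L Ω).ker ≤ commutator Gal(Ω/ℚ)) {c : Gal(Ω/ℚ)}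
    (hc : ∀ x, ι (c x) = starRingEnd ℂ (ι x)) (hck : c ∉ fixG k Ω) {η : L}
    (hcont : ∀ g : Gal(Ω/ℚ), g ∈ fixG k Ω → ∃ Z : ℂ → ℂ,
      IsCont (fun n => (cN f k L Ω n g : ℂ)) Z ∧ deriv Z 0 = ((-2 * psi ι η g : ℝ) : ℂ))
    {q : Gal(Ω/ℚ) →* ℤˣ} (hq : ∀ g, g ∈ fixG k Ω ↔ q g = 1) {lam : (ZMod f)ˣ → ℤ}
    (hlam : ∀ g, lam (hζ.autToPow ℚ g) = ((q g : ℤˣ) : ℤ)) (g : Gal(Ω/ℚ)) :
    ∑ᶠ t : commutator Gal(Ω/ℚ), psi ι η (g * (t : Gal(Ω/ℚ))) =
      (Nat.card (res L Ω).ker : ℝ) * (1 / 2 * ∑ a : (ZMod f)ˣ, (lam a : ℝ) * hh f (a : ZMod f) *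
        ell f ((hζ.autToPow ℚ g * a⁻¹ : (ZMod f)ˣ) : ZMod f)) := by
  classical
  set χ := hζ.autToPow ℚ with hχ
  set π := res L Ω with hπ
  have hπs : Function.Surjective π := AlgEquiv.restrictNormalHom_surjective (F := ℚ) (K₁ := L) Ω
  have hinj := (algebraMap L Ω).injective
  -- the root of unity in `L`
  obtain ⟨ζ₁, hζ₁⟩ : ζ ∈ (algebraMap L Ω).range := by
    have : IsGalois L Ω := IsGalois.tower_top_of_isGalois ℚ L Ω
    rw [RingHom.mem_range]
    refine (InfiniteGalois.mem_range_algebraMap_iff_fixed ζ).mpr fun ρ => ?_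
    refine (hζC (ρ.restrictScalars ℚ)).2 (hL ?_)
    rw [MonoidHom.mem_ker]
    ext y
    apply hinj
    rw [hπ, res_apply]
    exact ρ.commutes y
  have hζp : IsPrimitiveRoot ζ₁ f := by
    refine IsPrimitiveRoot.of_map_of_injective (f := algebraMap L Ω) ?_ hinj
    rw [hζ₁]
    exact hζ
  set χ₁ := hζp.autToPow ℚ with hχ₁
  have hχχ : ∀ g, χ₁ (π g) = χ g := by
    intro g
    have h1 := hζ.autToPow_spec ℚ g
    have h2 := congrArg (algebraMap L Ω) (hζp.autToPow_spec ℚ (π g))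
    rw [map_pow, hζ₁, hπ, res_apply, hζ₁, ← h1] at h2
    exact Units.ext (ZMod.val_injective f (hζ.pow_inj (ZMod.val_lt _) (ZMod.val_lt _) h2))
  have hone := psiNorm_one hf hζ
  have hCk : commutator Gal(Ω/ℚ) ≤ fixG k Ω := by
    intro x hx
    rw [hq]
    exact MonoidHom.mem_ker.1 (Abelianization.commutator_subset_ker q hx)
  have hB : ∀ σ τ : Gal(L/k), σ * τ = τ * σ := fun σ τ => mul_comm' σ τ
  have hram' : ∀ p : ℕ, p.Prime → (p : ℤ) ∣ discr L → p ∣ f := fun p hp h =>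
    hram p hp (h.trans (discr_dvd_discr L Ω))
  obtain ⟨κ, hκ⟩ := exists_kappa χ₁ (chi_surjective hζp) (fixG k L) (fixG_index hk) (by
    intro x hx
    rw [MonoidHom.mem_ker] at hx
    obtain ⟨g, rfl⟩ := hπs x
    rw [hχχ, hχ, hone, hζC] at hx
    exact (mem_fixG_iff_res g).1 (hCk hx))
  have hκΩ : ∀ g, κ ((χ g : (ZMod f)ˣ) : ZMod f) = 1 ↔ g ∈ fixG k Ω := by
    intro g
    rw [← hχχ, hκ, mem_fixG_iff_res (M₁ := L) g]
  have hpm : ∀ u : (ZMod f)ˣ, κ (u : ZMod f) = 1 ∨ κ (u : ZMod f) = -1 := fun u =>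
    Int.isUnit_iff.1 (u.isUnit.map κ)
  have hχc := chi_cc hζ hc
  have hodd : κ (-1) = -1 := by
    rcases hpm (χ c) with h | h
    · exact absurd ((hκΩ c).1 h) hck
    · rwa [hχc] at h
  have hkl : ∀ u : (ZMod f)ˣ, κ (u : ZMod f) = lam u := by
    intro u
    obtain ⟨g, rfl⟩ := chi_surjective hζ u
    rw [hlam]
    by_cases hg : g ∈ fixG k Ω
    · rw [(hκΩ g).2 hg, (hq g).1 hg]
      rfl
    · have h1 : q g = -1 := (Int.units_eq_one_or (q g)).resolve_left fun h => hg ((hq g).2 h)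
      rw [h1]
      exact (hpm _).resolve_left fun h => hg ((hκΩ g).1 h)
  have hN : (Nat.card π.ker : ℂ) ≠ 0 := by
    exact_mod_cast Nat.card_pos.ne'
  -- the coefficients
  have hcoef : ∀ g : Gal(Ω/ℚ), ∀ n : ℕ, n ≠ 0 →
      (∑ t : commutator Gal(Ω/ℚ), (cN f k L Ω n (g * (t : Gal(Ω/ℚ))) : ℤ)) =
        (Nat.card π.ker : ℤ) * if (n : ZMod f) = ((χ g : (ZMod f)ˣ) : ZMod f) then
          ∑ d ∈ n.divisors, κ (d : ZMod f) else 0 := by
    intro g n hn
    by_cases hnf : n.Coprime f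
    · have h1 := psiNorm_S hk hB hram' hζp κ hκ n hn hnf (χ g)
      rw [if_congr eq_comm rfl rfl, ← h1, ← psiNorm_comp π hπs
        (fun x => if χ₁ x = χ g then (cnt k L n x : ℤ) else 0)]
      rw [← Finset.sum_filter_add_sum_filter_not Finset.univ
        (fun h : Gal(Ω/ℚ) => χ₁ (π h) = χ g)]
      rw [Finset.sum_eq_zero (s := Finset.univ.filter fun h : Gal(Ω/ℚ) => ¬ χ₁ (π h) = χ g)
        (fun h hh => if_neg (Finset.mem_filter.1 hh).2), add_zero]
      refine Finset.sum_bij (fun t _ => g * (t : Gal(Ω/ℚ))) ?_ ?_ ?_ ?_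
      · intro t _
        rw [Finset.mem_filter, hχχ, map_mul, (hone _).2 ((hζC _).2 t.2), mul_one]
        exact ⟨Finset.mem_univ _, rfl⟩
      · intro t _ t' _ htt
        exact Subtype.ext (mul_left_cancel htt)
      · intro h hh
        rw [Finset.mem_filter, hχχ] at hh
        refine ⟨⟨g⁻¹ * h, ?_⟩, Finset.mem_univ _, by simp⟩
        rw [← hζC, ← hone]
        change χ (g⁻¹ * h) = 1
        rw [map_mul, map_inv, hh.2, inv_mul_cancel]
      · intro t _
        rw [if_pos (by rw [hχχ, map_mul, (hone _).2 ((hζC _).2 t.2), mul_one]), cN, if_pos hnf]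
    · rw [if_neg, mul_zero]
      · refine Finset.sum_eq_zero fun t _ => ?_
        rw [cN, if_neg hnf]
        rfl
      · intro h3
        apply hnf
        rw [← ZMod.isUnit_iff_coprime, h3]
        exact Units.isUnit _
  rw [finsum_eq_sum_of_fintype]
  simp only [← hkl]
  -- the case of an element of the subgroup
  have main : ∀ g : Gal(Ω/ℚ), g ∈ fixG k Ω →
      ∑ t : commutator Gal(Ω/ℚ), psi ι η (g * (t : Gal(Ω/ℚ))) =
      (Nat.card π.ker : ℝ) * (1 / 2 * ∑ a : (ZMod f)ˣ, ((κ (a : ZMod f) : ℤ) : ℝ) *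
        hh f (a : ZMod f) * ell f ((χ g * a⁻¹ : (ZMod f)ˣ) : ZMod f)) := by
    intro g hg
    have hZ := fun t : commutator Gal(Ω/ℚ) =>
      hcont (g * (t : Gal(Ω/ℚ))) ((fixG k Ω).mul_mem hg (hCk t.2))
    choose Z hZc hZd using hZ
    have hsum := IsCont.sum (Finset.univ : Finset (commutator Gal(Ω/ℚ)))
      (a := fun t n => (cN f k L Ω n (g * (t : Gal(Ω/ℚ))) : ℂ)) (Z := Z) (fun t _ => hZc t)
    have hρ : κ ((χ g : (ZMod f)ˣ) : ZMod f) = 1 := (hκΩ g).2 hg
    have hconv := deriv_conv hf κ hodd (χ g) hρ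
      (W := fun s => (Nat.card π.ker : ℂ)⁻¹ * ∑ t, Z t s) (hsum.diff.const_mul _) (fun s hs => by
        rw [hsum.eq s hs, ← LSeries_smul]
        refine LSeries_congr (fun {n} hn => ?_) s
        have h4 := congrArg (fun m : ℤ => (m : ℂ)) (hcoef g n hn)
        simp only [Int.cast_sum, Int.cast_natCast, Int.cast_mul] at h4
        simp only [Pi.smul_apply, Finset.sum_apply, smul_eq_mul]
        rw [h4, ← mul_assoc, inv_mul_cancel₀ hN, one_mul])
    have hder : deriv (fun s => (Nat.card π.ker : ℂ)⁻¹ * ∑ t, Z t s) 0 =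
        (Nat.card π.ker : ℂ)⁻¹ * ∑ t, deriv (Z t) 0 := by
      rw [← IsCont.deriv_sum (Finset.univ : Finset (commutator Gal(Ω/ℚ)))
        (a := fun t n => (cN f k L Ω n (g * (t : Gal(Ω/ℚ))) : ℂ)) (Z := Z) (fun t _ => hZc t)]
      exact deriv_const_mul _ hsum.differentiableAt
    rw [hder] at hconv
    simp only [hZd] at hconv
    have hreal : (Nat.card π.ker : ℝ)⁻¹ *
        ∑ t : commutator Gal(Ω/ℚ), (-2 * psi ι η (g * (t : Gal(Ω/ℚ)))) =
        -(∑ a : (ZMod f)ˣ, ((κ (a : ZMod f) : ℤ) : ℝ) * hh f (a : ZMod f) *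
          ell f ((χ g * a⁻¹ : (ZMod f)ˣ) : ZMod f)) := by
      apply Complex.ofReal_injective
      rw [Complex.ofReal_neg, ← hconv]
      push_cast
      rfl
    have hNr : (Nat.card π.ker : ℝ) ≠ 0 := by
      exact_mod_cast Nat.card_pos.ne'
    rw [← Finset.mul_sum] at hreal
    generalize (∑ a : (ZMod f)ˣ, ((κ (a : ZMod f) : ℤ) : ℝ) * hh f (a : ZMod f) *
          ell f ((χ g * a⁻¹ : (ZMod f)ˣ) : ZMod f)) = T at hreal ⊢
    field_simp at hreal ⊢
    linarith
  by_cases hg : g ∈ fixG k Ω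
  · exact main g hg
  · have hcg : c * g ∈ fixG k Ω := by
      rw [hq] at hck hg ⊢
      rw [map_mul, (Int.units_eq_one_or (q c)).resolve_left hck,
        (Int.units_eq_one_or (q g)).resolve_left hg]
      decide
    have h1 := main (c * g) hcg
    have h2 : ∀ t : commutator Gal(Ω/ℚ), psi ι η (c * g * (t : Gal(Ω/ℚ))) =
        psi ι η (g * (t : Gal(Ω/ℚ))) := by
      intro t
      unfold psi
      rw [mul_assoc, AlgEquiv.mul_apply, hc, RCLike.norm_conj]
    simp only [h2] at h1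
    rw [h1]
    congr 2
    refine Finset.sum_congr rfl fun a _ => ?_
    congr 1
    rw [map_mul, mul_assoc, Units.val_mul, hχc, neg_one_mul, ell_neg]

end Pool.Agent.StarkRQ.Oct
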