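import Pool.Agent.StarkRQ.Oct.PDefs

/-!
# Galois correspondence with abstract fields

`Ω/ℚ` Galois. Hints: `x ∈ Ω` is fixed by `fixG F Ω` iff `x ∈ (algebraMap F Ω).range`
(`InfiniteGalois.mem_range_algebraMap_iff_fixed` for `Ω/F`, see `mem_range_iff_res` in
`Pool/Agent/StarkRQ/Klein.lean`).

* `exists_alg`: `F → E`: the range of `F` in `Ω` is contained in that of `E`.
* `fixG_eq_ker`: `g` fixes `L` iff its restriction is `1`.
* `exists_field`: `IntermediateField.fixedField N`.
* `isGalois_of_normal`: `IsGalois.of_fixedField_normal_subgroup` or directly `Normal`.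
* `isAbelian_of`: `Gal(L/k)` is a quotient of `fixG k Ω`; commutators of elements of `fixG k Ω` act
  trivially on `L`. (`L/k` is Galois as `L/ℚ` is, or as `fixG L Ω` is normal in `fixG k Ω`.)
* `comm_le_of_isAbelian`: the converse.
* `isTotallyComplex_of`: a quadratic field `k` with a complex embedding which is not real
  (`exists_comp`: all embeddings of `k` are `ι ∘ g`; if `ι ∘ g` is real on `k` then `g⁻¹ c g ∈ fixG k Ω`,
  which is normal of index `2`).
-/

open NumberField Module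
open scoped commutatorElement

namespace Pool.Agent.StarkRQ.Oct

variable {Ω : Type} [Field Ω] [NumberField Ω] [IsGalois ℚ Ω]

private lemma mem_range_iff_fixG {F : Type} [Field F] [NumberField F] [Algebra F Ω] (x : Ω) :
    x ∈ (algebraMap F Ω).range ↔ ∀ g ∈ fixG F Ω, g x = x := by
  have : IsGalois F Ω := IsGalois.tower_top_of_isGalois ℚ F Ω
  constructor
  · rintro ⟨y, rfl⟩ g hg
    exact mem_fixG.1 hg y
  · intro h
    rw [RingHom.mem_range]
    refine (InfiniteGalois.mem_range_algebraMap_iff_fixed x).mpr fun ρ => ?_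
    exact h (toG F Ω ρ) ⟨ρ, rfl⟩

private lemma isGalois_tower {k L M : Type} [Field k] [Field L] [Field M] [Algebra k L]
    [Algebra L M] [Algebra k M] [IsScalarTower k L M] [FiniteDimensional k M] [IsGalois k M]
    (h : ((IsScalarTower.toAlgHom k L M).fieldRange.fixingSubgroup).Normal) : IsGalois k L := by
  have h1 : IsGalois k (IntermediateField.fixedField
      ((IsScalarTower.toAlgHom k L M).fieldRange.fixingSubgroup)) :=
    IsGalois.of_fixedField_normal_subgroup _
  rw [IsGalois.fixedField_fixingSubgroup] at h1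
  exact ((AlgEquiv.ofBijective (IsScalarTower.toAlgHom k L M).rangeRestrict
      ⟨RingHom.injective _, AlgHom.rangeRestrict_surjective _⟩).transfer_galois
        (E' := (IsScalarTower.toAlgHom k L M).fieldRange)).mpr h1

theorem exists_alg {F E : Type} [Field F] [NumberField F] [Field E] [NumberField E] [Algebra F Ω]
    [Algebra E Ω] (h : fixG E Ω ≤ fixG F Ω) : ∃ _ : Algebra F E, IsScalarTower F E Ω := by
  have h1 : ∀ x : F, ∃ y : E, algebraMap E Ω y = algebraMap F Ω x := by
    intro x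
    exact (mem_range_iff_fixG (F := E) (algebraMap F Ω x)).2 fun g hg => mem_fixG.1 (h hg) x
  choose φ hφ using h1
  have hinj := (algebraMap E Ω).injective
  let φ' : F →+* E :=
    { toFun := φ
      map_one' := hinj (by rw [hφ, map_one, map_one])
      map_mul' := fun x y => hinj (by rw [hφ, map_mul, map_mul, hφ, hφ])
      map_zero' := hinj (by rw [hφ, map_zero, map_zero])
      map_add' := fun x y => hinj (by rw [hφ, map_add, map_add, hφ, hφ]) }
  refine ⟨φ'.toAlgebra, ?_⟩
  let _ : Algebra F E := φ'.toAlgebra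
  exact IsScalarTower.of_algebraMap_eq fun x => (hφ x).symm

theorem fixG_eq_ker {L : Type} [Field L] [NumberField L] [IsGalois ℚ L] [Algebra L Ω] :
    fixG L Ω = (res L Ω).ker := by
  ext g
  rw [mem_fixG, MonoidHom.mem_ker]
  constructor
  · intro h
    ext x
    apply (algebraMap L Ω).injective
    rw [res_apply, h x]
    rfl
  · intro h x
    rw [← res_apply, h]
    rfl

theorem exists_field (N : Subgroup Gal(Ω/ℚ)) :
    ∃ (M : Type) (_ : Field M) (_ : NumberField M) (_ : Algebra M Ω), fixG M Ω = N := by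
  refine ⟨IntermediateField.fixedField N, inferInstance, inferInstance, inferInstance, ?_⟩
  ext g
  rw [mem_fixG, ← IntermediateField.fixingSubgroup_fixedField N,
    IntermediateField.mem_fixingSubgroup_iff, IntermediateField.fixingSubgroup_fixedField N]
  constructor
  · intro h x hx
    exact h ⟨x, hx⟩
  · intro h x
    exact h x x.2

theorem isGalois_of_normal {M : Type} [Field M] [NumberField M] [Algebra M Ω]
    (h : (fixG M Ω).Normal) : IsGalois ℚ M := by
  have h1 : (IsScalarTower.toAlgHom ℚ M Ω).fieldRange.fixingSubgroup = fixG M Ω := by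
    ext g
    rw [mem_fixG, IntermediateField.mem_fixingSubgroup_iff]
    constructor
    · intro h x
      exact h _ ⟨x, rfl⟩
    · rintro h _ ⟨x, rfl⟩
      exact h x
  exact isGalois_tower (M := Ω) (by rw [h1]; exact h)

theorem isAbelian_of {k L : Type} [Field k] [NumberField k] [Field L] [NumberField L]
    [Algebra k L] [Algebra L Ω] [Algebra k Ω] [IsScalarTower k L Ω]
    (h : ⁅fixG k Ω, fixG k Ω⁆ ≤ fixG L Ω) : IsAbelianGalois k L := by
  have : IsGalois k Ω := IsGalois.tower_top_of_isGalois ℚ k Ω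
  have : FiniteDimensional k Ω := FiniteDimensional.right ℚ k Ω
  have hcomm : ∀ (σ τ : Gal(Ω/k)) (x : L), (σ * τ * σ⁻¹ * τ⁻¹) (algebraMap L Ω x) =
      algebraMap L Ω x := by
    intro σ τ x
    have h1 : ⁅toG k Ω σ, toG k Ω τ⁆ ∈ fixG L Ω :=
      h (Subgroup.commutator_mem_commutator ⟨σ, rfl⟩ ⟨τ, rfl⟩)
    have h2 := mem_fixG.1 h1 x
    rw [commutatorElement_def, ← map_inv, ← map_inv, ← map_mul, ← map_mul, ← map_mul] at h2
    exact h2
  have hGal : IsGalois k L := by
    refine isGalois_tower (M := Ω) ⟨fun σ hσ τ => ?_⟩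
    rw [IntermediateField.mem_fixingSubgroup_iff] at hσ ⊢
    rintro _ ⟨x, rfl⟩
    have h1 := hcomm τ σ x
    have h2 : σ (algebraMap L Ω x) = algebraMap L Ω x := hσ _ ⟨x, rfl⟩
    have h3 : (τ * σ * τ⁻¹) (algebraMap L Ω x) =
        (τ * σ * τ⁻¹ * σ⁻¹) (σ (algebraMap L Ω x)) := by
      change _ = (τ * σ * τ⁻¹ * σ⁻¹ * σ) (algebraMap L Ω x)
      rw [inv_mul_cancel_right]
    change (τ * σ * τ⁻¹) (algebraMap L Ω x) = algebraMap L Ω x
    rw [h3, h2, h1]
  refine { hGal with is_comm := ⟨fun σ τ => ?_⟩ }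
  obtain ⟨σ', hσ'⟩ := AlgEquiv.restrictNormalHom_surjective (F := k) (K₁ := L) Ω σ
  obtain ⟨τ', hτ'⟩ := AlgEquiv.restrictNormalHom_surjective (F := k) (K₁ := L) Ω τ
  have h1 : σ * τ * σ⁻¹ * τ⁻¹ = 1 := by
    rw [← hσ', ← hτ', ← map_inv, ← map_inv, ← map_mul, ← map_mul, ← map_mul]
    ext x
    apply (algebraMap L Ω).injective
    have h2 := AlgEquiv.restrictNormal_commutes (σ' * τ' * σ'⁻¹ * τ'⁻¹) L x
    exact h2.trans (hcomm σ' τ' x)
  have h2 : σ * τ = (σ * τ * σ⁻¹ * τ⁻¹) * (τ * σ) := by group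
  rw [h2, h1, one_mul]

theorem comm_le_of_isAbelian {k L : Type} [Field k] [NumberField k] [Field L] [NumberField L]
    [Algebra k L] [Algebra L Ω] [Algebra k Ω] [IsScalarTower k L Ω] [IsAbelianGalois k L] :
    ⁅fixG k Ω, fixG k Ω⁆ ≤ fixG L Ω := by
  rw [Subgroup.commutator_le]
  rintro _ ⟨σ, rfl⟩ _ ⟨τ, rfl⟩
  rw [commutatorElement_def, ← map_inv, ← map_inv, ← map_mul, ← map_mul, ← map_mul, mem_fixG]
  intro x
  have h2 := AlgEquiv.restrictNormal_commutes (σ * τ * σ⁻¹ * τ⁻¹) L x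
  have h3 : (σ * τ * σ⁻¹ * τ⁻¹).restrictNormal L = 1 := by
    have h4 : AlgEquiv.restrictNormalHom L (σ * τ * σ⁻¹ * τ⁻¹) = 1 := by
      rw [map_mul, map_mul, map_mul, map_inv, map_inv]
      have h5 := IsMulCommutative.is_comm.comm (AlgEquiv.restrictNormalHom (F := k) L σ)
        (AlgEquiv.restrictNormalHom (F := k) L τ)
      rw [h5]
      group
    exact h4
  rw [h3] at h2
  exact h2.symm

theorem finrank_eq_index {k : Type} [Field k] [NumberField k] [Algebra k Ω] :
    finrank ℚ k = (fixG k Ω).index := by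
  have : IsGalois k Ω := IsGalois.tower_top_of_isGalois ℚ k Ω
  have h1 := Subgroup.card_mul_index (fixG k Ω)
  have h2 : Nat.card (fixG k Ω) = Nat.card Gal(Ω/k) :=
    Nat.card_congr (MonoidHom.ofInjective (toG_injective (F := k) (M := Ω))).toEquiv.symm
  have hfin : FiniteDimensional k Ω := FiniteDimensional.right ℚ k Ω
  have h3 : Nat.card Gal(Ω/k) = finrank k Ω := IsGalois.card_aut_eq_finrank k Ω
  have h4 : Nat.card Gal(Ω/ℚ) = finrank ℚ Ω := IsGalois.card_aut_eq_finrank ℚ Ω
  have h5 : finrank ℚ k * finrank k Ω = finrank ℚ Ω := finrank_mul_finrank ℚ k Ω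
  rw [h2, h3, h4, ← h5, mul_comm] at h1
  exact (Nat.eq_of_mul_eq_mul_right finrank_pos h1).symm

theorem isTotallyComplex_of {k : Type} [Field k] [NumberField k] [Algebra k Ω]
    (hk : finrank ℚ k = 2) {ι : Ω →+* ℂ} {c : Gal(Ω/ℚ)}
    (hc : ∀ x, ι (c x) = starRingEnd ℂ (ι x)) (hck : c ∉ fixG k Ω) : IsTotallyComplex k := by
  have hnor : (fixG k Ω).Normal := Subgroup.normal_of_index_eq_two
    ((finrank_eq_index (Ω := Ω)).symm.trans hk)
  refine ⟨fun v => ?_⟩
  rw [← InfinitePlace.not_isReal_iff_isComplex]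
  intro hv
  rw [InfinitePlace.isReal_iff, ComplexEmbedding.isReal_iff] at hv
  set φ := v.embedding with hφ
  obtain ⟨γ, hγ⟩ : ∃ γ : Gal(Ω/ℚ), ∀ y : k, φ y = ι (γ (algebraMap k Ω y)) := by
    let _ : Algebra k ℂ := φ.toAlgebra
    have : Algebra.IsAlgebraic k Ω := Algebra.IsAlgebraic.of_finite k Ω
    obtain ⟨γ, hγ⟩ := exists_comp ι (IsAlgClosed.lift : Ω →ₐ[k] ℂ).toRingHom
    refine ⟨γ, fun y => ?_⟩
    rw [← hγ]
    exact ((IsAlgClosed.lift : Ω →ₐ[k] ℂ).commutes y).symm
  have h1 : γ⁻¹ * c * γ ∈ fixG k Ω := by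
    rw [mem_fixG]
    intro x
    have h2 : ι (c (γ (algebraMap k Ω x))) = ι (γ (algebraMap k Ω x)) := by
      rw [hc, ← hγ]
      have h3 := congrArg (fun f : k →+* ℂ => f x) hv
      simpa using h3
    have h3 : c (γ (algebraMap k Ω x)) = γ (algebraMap k Ω x) := ι.injective h2
    change γ⁻¹ (c (γ (algebraMap k Ω x))) = algebraMap k Ω x
    rw [h3]
    change (γ⁻¹ * γ) (algebraMap k Ω x) = _
    rw [inv_mul_cancel]
    rfl
  have h2 := hnor.conj_mem _ h1 γ
  apply hck
  have h3 : γ * (γ⁻¹ * c * γ) * γ⁻¹ = c := by group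
  rwa [h3] at h2

end Pool.Agent.StarkRQ.Oct
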