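import Pool.Agent.StarkRQ.Coeff
import Pool.Agent.StarkRQ.Comm

/-!
# `ZData` for two abelian subgroups of index two

`G/A` and `G/B` have order `2`, so commutators lie in `A ∩ B`; `z = ⁅x, y⁆ ∈ A ∩ B`. `A ∩ B` is central:
`s ∈ A ∩ B` commutes with `A` and with `B`, and `A`, `B` generate `G` (`A ≠ B` both of index `2`).
`z⁻¹ = ⁅y, x⁆ ∈ {1, z}`, so `z * z = 1`. `conjA`: let `g ∈ A`, `g ∉ B`, `γ ∉ A`. `⁅γ, g⁆ ∈ {1, z}`; if it is
`1` then `g` commutes with `A` and `γ`, so it is central, and `G = B ∪ g B` is abelian, contradicting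
`⁅x, y⁆ = z ≠ 1`. So `γ g γ⁻¹ = ⁅γ, g⁆ g = z g`.
-/

open scoped commutatorElement

namespace Pool.Agent.StarkRQ.Oct

private theorem comm_mem {G : Type*} [Group G] {A : Subgroup G} (hA : A.index = 2) (x y : G) :
    ⁅x, y⁆ ∈ A := by
  rw [commutatorElement_def, Subgroup.mul_mem_iff_of_index_two hA,
    Subgroup.mul_mem_iff_of_index_two hA, Subgroup.mul_mem_iff_of_index_two hA, inv_mem_iff,
    inv_mem_iff]
  tauto

private theorem exists_diff {G : Type*} [Group G] {A B : Subgroup G} (hA : A.index = 2)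
    (hB : B.index = 2) (hAB : A ≠ B) : ∃ a ∈ A, a ∉ B := by
  by_contra h
  push Not at h
  apply hAB
  refine le_antisymm h fun b hb => ?_
  by_contra hbA
  obtain ⟨c, hc⟩ : ∃ c, c ∉ B := by
    by_contra hc
    push Not at hc
    have h1 : B = ⊤ := (Subgroup.eq_top_iff' B).2 hc
    rw [h1, Subgroup.index_top] at hB
    norm_num at hB
  have hcA : c ∉ A := fun h1 => hc (h c h1)
  have h1 : c * b ∈ A := (Subgroup.mul_mem_iff_of_index_two hA).2 (by tauto)
  have h2 := (Subgroup.mul_mem_iff_of_index_two hB).1 (h _ h1)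
  exact hc (h2.2 hb)

private theorem conj_aux {G : Type*} [Group G] {A B : Subgroup G} (hA : A.index = 2)
    (hB : B.index = 2) (hAc : ∀ a ∈ A, ∀ a' ∈ A, a * a' = a' * a)
    (hBc : ∀ a ∈ B, ∀ a' ∈ B, a * a' = a' * a) {z : G} (hz : z ≠ 1)
    (hcomm : ∀ g h : G, ⁅g, h⁆ = 1 ∨ ⁅g, h⁆ = z) {x y : G} (hxy : ⁅x, y⁆ = z) {g : G}
    (hg : g ∈ A) (hgB : g ∉ B) {γ : G} (hγ : γ ∉ A) : γ * g * γ⁻¹ = z * g := by
  rcases hcomm γ g with h | h
  · exfalso
    have h1 : γ * g = g * γ := commutatorElement_eq_one_iff_mul_comm.1 h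
    have hc : ∀ w, g * w = w * g := by
      intro w
      by_cases hw : w ∈ A
      · exact hAc g hg w hw
      · have h2 : γ⁻¹ * w ∈ A := (Subgroup.mul_mem_iff_of_index_two hA).2 (by
          rw [inv_mem_iff]
          tauto)
        have h3 := hAc g hg _ h2
        have h4 : w = γ * (γ⁻¹ * w) := by group
        calc g * w = g * (γ * (γ⁻¹ * w)) := by rw [← h4]
          _ = (g * γ) * (γ⁻¹ * w) := by rw [mul_assoc]
          _ = γ * (g * (γ⁻¹ * w)) := by rw [← h1, mul_assoc]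
          _ = γ * (γ⁻¹ * w) * g := by rw [h3, ← mul_assoc]
          _ = w * g := by rw [← h4]
    have hrep : ∀ w : G, ∃ b ∈ B, w = b ∨ w = g * b := by
      intro w
      by_cases hw : w ∈ B
      · exact ⟨w, hw, Or.inl rfl⟩
      · refine ⟨g⁻¹ * w, (Subgroup.mul_mem_iff_of_index_two hB).2 (by
          rw [inv_mem_iff]
          tauto), Or.inr (by group)⟩
    have hab : x * y = y * x := by
      obtain ⟨b, hb, hx⟩ := hrep x
      obtain ⟨c, hcB, hy⟩ := hrep y
      have hbc := hBc b hb c hcB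
      rcases hx with rfl | rfl <;> rcases hy with rfl | rfl
      · exact hbc
      · rw [← mul_assoc, ← hc, mul_assoc, hbc, ← mul_assoc]
      · rw [mul_assoc, hbc, ← mul_assoc, hc, mul_assoc]
      · rw [mul_assoc g b, ← mul_assoc b g, ← hc b, mul_assoc g b c, hbc, mul_assoc g c,
          ← mul_assoc c g, ← hc c, mul_assoc g c b]
    have h5 : ⁅x, y⁆ = 1 := commutatorElement_eq_one_iff_mul_comm.2 hab
    exact hz (hxy.symm.trans h5)
  · rw [← h, commutatorElement_def]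
    group

theorem zdata_of {G : Type*} [Group G] {A B : Subgroup G} (hA : A.index = 2) (hB : B.index = 2)
    (hAB : A ≠ B) (hAc : ∀ a ∈ A, ∀ a' ∈ A, a * a' = a' * a)
    (hBc : ∀ a ∈ B, ∀ a' ∈ B, a * a' = a' * a) {z : G} (hz : z ≠ 1)
    (hcomm : ∀ g h : G, ⁅g, h⁆ = 1 ∨ ⁅g, h⁆ = z) {x y : G} (hxy : ⁅x, y⁆ = z) : ZData A B z where
  mem_A := hxy ▸ comm_mem hA x y
  mem_B := hxy ▸ comm_mem hB x y
  sq := by
    rcases hcomm y x with h | h
    · exfalso
      rw [← commutatorElement_inv, hxy, inv_eq_one] at h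
      exact hz h
    · rw [← commutatorElement_inv, hxy] at h
      conv_lhs => lhs; rw [← h]
      exact inv_mul_cancel z
  central := by
    intro s hsA hsB g
    by_cases hgA : g ∈ A
    · exact hAc s hsA g hgA
    by_cases hgB : g ∈ B
    · exact hBc s hsB g hgB
    obtain ⟨a, haA, haB⟩ := exists_diff hA hB hAB
    have h1 : a⁻¹ * g ∈ B := (Subgroup.mul_mem_iff_of_index_two hB).2 (by
      rw [inv_mem_iff]
      tauto)
    have h2 := hBc s hsB _ h1
    have h3 := hAc s hsA a haA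
    have h4 : g = a * (a⁻¹ * g) := by group
    calc s * g = s * (a * (a⁻¹ * g)) := by rw [← h4]
      _ = (s * a) * (a⁻¹ * g) := by rw [mul_assoc]
      _ = a * (s * (a⁻¹ * g)) := by rw [h3, mul_assoc]
      _ = a * (a⁻¹ * g) * s := by rw [h2, ← mul_assoc]
      _ = g * s := by rw [← h4]
  conjA := fun g hg hgB γ hγ => conj_aux hA hB hAc hBc hz hcomm hxy hg hgB hγ
  conjB := fun g hg hgA γ hγ => conj_aux hB hA hBc hAc hz hcomm hxy hg hgA hγ
  sq_mem := fun g => ⟨Subgroup.mul_self_mem_of_index_two hA g,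
    Subgroup.mul_self_mem_of_index_two hB g⟩

end Pool.Agent.StarkRQ.Oct
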