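import Pool.Agent.StarkRQ.Oct.Twist
import Pool.Agent.StarkRQ.Oct.Fix
import Pool.Agent.StarkRQ.Oct.ZOf

/-!
# The comparison of the twisted sums of two quadratic fields

Let `C` be the commutator subgroup of `Γ = Gal(Ω/ℚ)`, `κ : C →* ℤˣ` with `κ t₀ = -1`, trivial on the
kernels of the restrictions to `L₁` and to `L₂`. Let `M` be the fixed field of `κ.ker` (as a subgroup of
`Γ`, normal as `C` is central; `exists_field`, `isGalois_of_normal`). Then `fixG Lᵢ Ω ≤ fixG M Ω`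
(`fixG_eq_ker`, `hκᵢ`, `hᵢ`) and `fixG M Ω ≤ C ≤ fixG kᵢ Ω` (index `2`, so `Γ / fixG kᵢ Ω` is abelian), and
`exists_alg` gives the algebra structures `kᵢ → M → Lᵢ` with all the towers (towers over the injective
maps to `Ω`). `M/kᵢ` is abelian (`Mᵢ ≤ Lᵢ`, or `isAbelian_of`). In `G = Gal(M/ℚ)` let
`A = fixG k₁ M`, `B = fixG k₂ M` (index `2`, abelian, `A ≠ B` by `hne`: `mem_fixG_iff_res`), `z = res M Ω t₀ ≠ 1`.
Every commutator of `G` is the restriction of some `t ∈ C`, which is `1` if `κ t = 1` and `z` if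
`κ t = -1`; and `z` itself is a commutator: otherwise all commutators of `G` are `1`, `C` acts trivially
on `M`, `κ = 1`. So `zdata_of` gives `ZData A B z`, and the claim follows from `dcnt_eq` and `twist_one`
for `L₁` and for `L₂`.
-/

open NumberField Module
open scoped commutatorElement

namespace Pool.Agent.StarkRQ.Oct

section aux

variable {Ω : Type} [Field Ω] [NumberField Ω] [IsGalois ℚ Ω]

private lemma Twist2_res_surj {M : Type} [Field M] [NumberField M] [Algebra M Ω] [IsGalois ℚ M] :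
    Function.Surjective (res M Ω) :=
  AlgEquiv.restrictNormalHom_surjective (F := ℚ) (K₁ := M) Ω

private lemma Twist2_tower {k M L : Type} [Field k] [NumberField k] [Field M] [NumberField M]
    [Field L] [NumberField L] [Algebra k L] [Algebra k M] [Algebra M L] [Algebra k Ω]
    [Algebra M Ω] [Algebra L Ω] [IsScalarTower k L Ω] [IsScalarTower k M Ω]
    [IsScalarTower M L Ω] : IsScalarTower k M L := by
  refine IsScalarTower.of_algebraMap_eq fun x => ?_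
  apply (algebraMap L Ω).injective
  rw [← IsScalarTower.algebraMap_apply k L Ω, ← IsScalarTower.algebraMap_apply M L Ω,
    ← IsScalarTower.algebraMap_apply k M Ω]

private lemma Twist2_comm_le {G : Type*} [Group G] {H : Subgroup G} (hH : H.index = 2) :
    commutator G ≤ H := by
  rw [commutator_def, Subgroup.commutator_le]
  intro x _ y _
  rw [commutatorElement_def]
  have hxy : x * y * x⁻¹ * y⁻¹ = x * y * (y * x)⁻¹ := by group
  rw [hxy, Subgroup.mul_mem_iff_of_index_two hH, Subgroup.mul_mem_iff_of_index_two hH,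
    Subgroup.inv_mem_iff, Subgroup.mul_mem_iff_of_index_two hH]
  tauto

private lemma Twist2_abel {k M : Type} [Field k] [NumberField k] [Field M] [NumberField M]
    [Algebra k M] [IsAbelianGalois k M] : ∀ a ∈ fixG k M, ∀ a' ∈ fixG k M, a * a' = a' * a := by
  rintro _ ⟨σ, rfl⟩ _ ⟨τ, rfl⟩
  rw [← map_mul, ← map_mul, mul_comm' σ τ]

end aux

theorem cnt_twist {Ω k₁ k₂ L₁ L₂ : Type} [Field Ω] [NumberField Ω] [IsGalois ℚ Ω]
    [Field k₁] [NumberField k₁] [Field k₂] [NumberField k₂] [Field L₁] [NumberField L₁]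
    [Field L₂] [NumberField L₂] [IsGalois ℚ L₁] [IsGalois ℚ L₂] [Algebra k₁ L₁] [Algebra k₂ L₂]
    [Algebra L₁ Ω] [Algebra L₂ Ω] [Algebra k₁ Ω] [Algebra k₂ Ω] [IsScalarTower k₁ L₁ Ω]
    [IsScalarTower k₂ L₂ Ω] [IsAbelianGalois k₁ L₁] [IsAbelianGalois k₂ L₂]
    (hk₁ : finrank ℚ k₁ = 2) (hk₂ : finrank ℚ k₂ = 2) {f : ℕ} (hf : f ≠ 0)
    (hram : ∀ p : ℕ, p.Prime → (p : ℤ) ∣ discr Ω → p ∣ f) (hne : fixG k₁ Ω ≠ fixG k₂ Ω)
    (hcen : ∀ t ∈ commutator Gal(Ω/ℚ), ∀ x, t * x = x * t)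
    (κ : commutator Gal(Ω/ℚ) →* ℤˣ) {t₀ : commutator Gal(Ω/ℚ)} (ht₀ : κ t₀ = -1)
    (h₁ : (res L₁ Ω).ker ≤ commutator Gal(Ω/ℚ)) (h₂ : (res L₂ Ω).ker ≤ commutator Gal(Ω/ℚ))
    (hκ₁ : ∀ t : commutator Gal(Ω/ℚ), res L₁ Ω (t : Gal(Ω/ℚ)) = 1 → κ t = 1)
    (hκ₂ : ∀ t : commutator Gal(Ω/ℚ), res L₂ Ω (t : Gal(Ω/ℚ)) = 1 → κ t = 1)
    {n : ℕ} (hn : n ≠ 0) (g : Gal(Ω/ℚ)) :
    (Nat.card (res L₂ Ω).ker : ℤ) * ∑ᶠ t : commutator Gal(Ω/ℚ), ((κ t : ℤˣ) : ℤ) *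
        (cN f k₁ L₁ Ω n (g * (t : Gal(Ω/ℚ))) : ℤ) =
      (Nat.card (res L₁ Ω).ker : ℤ) * ∑ᶠ t : commutator Gal(Ω/ℚ), ((κ t : ℤˣ) : ℤ) *
        (cN f k₂ L₂ Ω n (g * (t : Gal(Ω/ℚ))) : ℤ) ∧
    (¬ (g ∈ fixG k₁ Ω ∧ g ∈ fixG k₂ Ω) →
      ∑ᶠ t : commutator Gal(Ω/ℚ), ((κ t : ℤˣ) : ℤ) *
        (cN f k₁ L₁ Ω n (g * (t : Gal(Ω/ℚ))) : ℤ) = 0) := by
  classical
  by_cases hnf : n.Coprime f
  swap
  · have e1 : ∀ x : Gal(Ω/ℚ), cN f k₁ L₁ Ω n x = 0 := fun x => if_neg hnf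
    have e2 : ∀ x : Gal(Ω/ℚ), cN f k₂ L₂ Ω n x = 0 := fun x => if_neg hnf
    simp only [e1, e2, Nat.cast_zero, mul_zero, finsum_zero, implies_true, and_self]
  have c1 : ∀ x : Gal(Ω/ℚ), cN f k₁ L₁ Ω n x = cnt k₁ L₁ n (res L₁ Ω x) := fun x => if_pos hnf
  have c2 : ∀ x : Gal(Ω/ℚ), cN f k₂ L₂ Ω n x = cnt k₂ L₂ n (res L₂ Ω x) := fun x => if_pos hnf
  simp only [c1, c2]
  -- the field `M`
  obtain ⟨M, _, _, _, hM⟩ := exists_field (κ.ker.map (commutator Gal(Ω/ℚ)).subtype)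
  have hmemN : ∀ t : commutator Gal(Ω/ℚ), (t : Gal(Ω/ℚ)) ∈ fixG M Ω ↔ κ t = 1 := by
    intro t
    rw [hM, Subgroup.mem_map]
    constructor
    · rintro ⟨t', h, h'⟩
      have : t' = t := Subtype.ext h'
      rw [← this]
      exact h
    · intro h
      exact ⟨t, h, rfl⟩
  have hMC : fixG M Ω ≤ commutator Gal(Ω/ℚ) := by
    rw [hM]
    rintro _ ⟨t, -, rfl⟩
    exact t.2
  have hnor : (fixG M Ω).Normal := by
    refine ⟨fun t ht x => ?_⟩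
    rw [← hcen t (hMC ht) x, mul_assoc, mul_inv_cancel, mul_one]
    exact ht
  have hGalM : IsGalois ℚ M := isGalois_of_normal hnor
  have hker : fixG M Ω = (res M Ω).ker := fixG_eq_ker
  have hle₁ : fixG L₁ Ω ≤ fixG M Ω := by
    intro t ht
    rw [fixG_eq_ker] at ht
    exact (hmemN ⟨t, h₁ ht⟩).2 (hκ₁ ⟨t, h₁ ht⟩ ht)
  have hle₂ : fixG L₂ Ω ≤ fixG M Ω := by
    intro t ht
    rw [fixG_eq_ker] at ht
    exact (hmemN ⟨t, h₂ ht⟩).2 (hκ₂ ⟨t, h₂ ht⟩ ht)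
  have hC₁ : commutator Gal(Ω/ℚ) ≤ fixG k₁ Ω :=
    Twist2_comm_le ((finrank_eq_index (Ω := Ω)).symm.trans hk₁)
  have hC₂ : commutator Gal(Ω/ℚ) ≤ fixG k₂ Ω :=
    Twist2_comm_le ((finrank_eq_index (Ω := Ω)).symm.trans hk₂)
  obtain ⟨_, _⟩ := exists_alg hle₁
  obtain ⟨_, _⟩ := exists_alg hle₂
  obtain ⟨_, _⟩ := exists_alg (hMC.trans hC₁)
  obtain ⟨_, _⟩ := exists_alg (hMC.trans hC₂)
  have tow₁ : IsScalarTower k₁ M L₁ := Twist2_tower (Ω := Ω)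
  have tow₂ : IsScalarTower k₂ M L₂ := Twist2_tower (Ω := Ω)
  have ab₁ : IsAbelianGalois k₁ M := isAbelian_of (Ω := Ω)
    ((comm_le_of_isAbelian (k := k₁) (L := L₁) (Ω := Ω)).trans hle₁)
  have ab₂ : IsAbelianGalois k₂ M := isAbelian_of (Ω := Ω)
    ((comm_le_of_isAbelian (k := k₂) (L := L₂) (Ω := Ω)).trans hle₂)
  set z : Gal(M/ℚ) := res M Ω (t₀ : Gal(Ω/ℚ)) with hz
  have hκM : ∀ t : commutator Gal(Ω/ℚ), κ t = 1 ↔ res M Ω (t : Gal(Ω/ℚ)) = 1 := by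
    intro t
    rw [← hmemN, hker]
    exact Iff.rfl
  have hneg1 : (-1 : ℤˣ) ≠ 1 := by decide
  have hz1 : z ≠ 1 := by
    intro h
    have h1 := (hκM t₀).2 h
    rw [ht₀] at h1
    exact hneg1 h1
  have hcomm : ∀ x y : Gal(M/ℚ), ⁅x, y⁆ = 1 ∨ ⁅x, y⁆ = z := by
    intro x y
    obtain ⟨x', rfl⟩ := Twist2_res_surj (Ω := Ω) x
    obtain ⟨y', rfl⟩ := Twist2_res_surj (Ω := Ω) y
    have hmem : ⁅x', y'⁆ ∈ commutator Gal(Ω/ℚ) :=
      Subgroup.commutator_mem_commutator (Subgroup.mem_top x') (Subgroup.mem_top y')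
    rw [← map_commutatorElement]
    rcases Int.units_eq_one_or (κ ⟨_, hmem⟩) with h | h
    · left
      exact (hκM ⟨_, hmem⟩).1 h
    · right
      have h1 : κ (⟨_, hmem⟩ * t₀⁻¹) = 1 := by
        rw [map_mul, map_inv, h, ht₀]
        decide
      have h2 := (hκM _).1 h1
      rw [Subgroup.coe_mul, Subgroup.coe_inv, map_mul, map_inv, mul_inv_eq_one] at h2
      exact h2
  obtain ⟨x, y, hxy⟩ : ∃ x y : Gal(M/ℚ), ⁅x, y⁆ = z := by
    by_contra hcon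
    push Not at hcon
    have h1 : ∀ x y : Gal(M/ℚ), ⁅x, y⁆ = 1 := fun x y => (hcomm x y).resolve_right (hcon x y)
    have h2 : commutator Gal(Ω/ℚ) ≤ (res M Ω).ker := by
      rw [commutator_def, Subgroup.commutator_le]
      intro x _ y _
      rw [MonoidHom.mem_ker, map_commutatorElement]
      exact h1 _ _
    exact hz1 (h2 t₀.2)
  have hAB : fixG k₁ M ≠ fixG k₂ M := by
    intro h
    apply hne
    ext x
    rw [mem_fixG_iff_res (M₁ := M) x, h, ← mem_fixG_iff_res]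
  have hZ : ZData (fixG k₁ M) (fixG k₂ M) z :=
    zdata_of (fixG_index hk₁) (fixG_index hk₂) hAB Twist2_abel Twist2_abel hz1 hcomm hxy
  have hramM : ∀ p : ℕ, p.Prime → (p : ℤ) ∣ discr M → p ∣ f := fun p hp h =>
    hram p hp (h.trans (discr_dvd_discr M Ω))
  have hMC' : (res M Ω).ker ≤ commutator Gal(Ω/ℚ) := hker ▸ hMC
  have t1 := twist_one (k := k₁) (L := L₁) (M := M) hram hcen κ hMC' hκM ht₀ hn hnf g
  have t2 := twist_one (k := k₂) (L := L₂) (M := M) hram hcen κ hMC' hκM ht₀ hn hnf g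
  obtain ⟨d1, d2⟩ := dcnt_eq hk₁ hk₂ (fun σ τ => mul_comm' σ τ) (fun σ τ => mul_comm' σ τ) hf
    hramM hZ n hn hnf
  rw [t1, t2]
  constructor
  · rw [d1]
    ring
  · intro hg
    rw [d2 _ (fun h => hg ⟨(mem_fixG_iff_res g).2 h.1, (mem_fixG_iff_res g).2 h.2⟩), mul_zero]

end Pool.Agent.StarkRQ.Oct
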