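import Pool.Agent.StarkRQ.Oct.Sup
import Pool.Agent.StarkRQ.Oct.Inst
import Pool.Agent.StarkRQ.Oct.PsiC
import Pool.Agent.StarkRQ.Oct.PsiMem
import Pool.Agent.StarkRQ.Oct.PsiNorm
import Pool.Agent.StarkRQ.Oct.Twist2
import Pool.Agent.StarkRQ.Oct.PairPsi
import Pool.Agent.StarkRQ.Oct.PhiBasic
import Pool.Agent.StarkRQ.Oct.PhiH0

/-!
# The branches: the functions `ψ e`
-/

open NumberField Module
open scoped commutatorElement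

namespace Pool.Agent.StarkRQ.Oct

section

variable {Ω : Type} [Field Ω] [NumberField Ω] [IsGalois ℚ Ω]

/-- what is needed of one branch -/
structure IsBranch (ι : Ω →+* ℂ) (f : ℕ) (c : Gal(Ω/ℚ)) (q : Gal(Ω/ℚ) →* ℤˣ)
    (cE : ℕ → Gal(Ω/ℚ) → ℕ) (ψ : Gal(Ω/ℚ) → ℝ) : Prop where
  tr_c : tr c ψ = ψ
  tr_N : ∀ t ∈ ⁅q.ker, q.ker⁆, tr t ψ = ψ
  mem : ∀ τ ∈ q.ker, ∀ n : ℕ,
      (∀ ξ : Ω, ∀ m : ℕ, 0 < m → ξ ^ m = 1 → τ ξ = ξ ^ n) → tr τ ψ - n • ψ ∈ SF ι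
  zero : ∀ n, ∀ g ∉ q.ker, cE n g = 0
  cont : ∀ g ∈ q.ker, ∃ Z : ℂ → ℂ, IsCont (fun n => (cE n g : ℂ)) Z ∧
      deriv Z 0 = ((-2 * ψ g : ℝ) : ℂ)

/-- the coefficients of the branch of `q` -/
noncomputable def cQ (f : ℕ) (q : Gal(Ω/ℚ) →* ℤˣ) (n : ℕ) (g : Gal(Ω/ℚ)) : ℕ :=
  cN f (kF q.ker) (LF q.ker) Ω n g

theorem exists_branch {ι : Ω →+* ℂ} {f : ℕ} (hf0 : f ≠ 0)
    (hram : ∀ p : ℕ, p.Prime → (p : ℤ) ∣ discr Ω → p ∣ f) {c : Gal(Ω/ℚ)}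
    (hc : ∀ x, ι (c x) = starRingEnd ℂ (ι x)) {q : Gal(Ω/ℚ) →* ℤˣ} (hqc : q c = -1)
    {η : LF q.ker} (hη : IsStarkUnit (kF q.ker) (ι.comp (algebraMap (LF q.ker) Ω)) f η) :
    IsBranch ι f c q (cQ f q) (psi ι η) := by
  have hidx := index_ker_of_neg hqc
  have hcq : c ∉ q.ker := by
    rw [MonoidHom.mem_ker, hqc]
    decide
  have hk := finrank_kF q.ker hidx
  have : IsTotallyComplex (kF q.ker) := totallyComplex_kF q.ker hidx hc hcq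
  have hres : ∀ g, res (LF q.ker) Ω g ∈ fixG (kF q.ker) (LF q.ker) ↔ g ∈ q.ker := by
    intro g
    rw [← mem_fixG_iff_res (K := kF q.ker) (M₁ := LF q.ker) g, fixG_kF]
  refine ⟨psi_tr_c hk hf0 hram hη hc, ?_, ?_, ?_, ?_⟩
  · intro t ht
    refine psi_tr_ker ι η ?_
    rw [← ker_res_LF] at ht
    exact ht
  · intro τ hτ n hn
    exact psi_mem hη ((hres τ).2 hτ) hn
  · intro n g hg
    exact cN_eq_zero f n (fun h => hg ((hres g).1 h))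
  · intro g hg
    exact psi_cont hram hη ((hres g).2 hg)

/-- the comparison of two branches -/
theorem branch_twist (hG : Big Gal(Ω/ℚ)) {f : ℕ} (hf0 : f ≠ 0)
    (hram : ∀ p : ℕ, p.Prime → (p : ℤ) ∣ discr Ω → p ∣ f) {c : Gal(Ω/ℚ)}
    {q₁ q₂ : Gal(Ω/ℚ) →* ℤˣ} (hq₁ : ∀ x ∈ Subgroup.center Gal(Ω/ℚ), q₁ x = 1)
    (hq₂ : ∀ x ∈ Subgroup.center Gal(Ω/ℚ), q₂ x = 1) (hq₁c : q₁ c = -1) (hq₂c : q₂ c = -1)
    (hne : q₁.ker ≠ q₂.ker) (κ : commutator Gal(Ω/ℚ) →* ℤˣ)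
    (hκ₁ : ∀ t : commutator Gal(Ω/ℚ), (t : Gal(Ω/ℚ)) ∈ ⁅q₁.ker, q₁.ker⁆ → κ t = 1)
    (hκ₂ : ∀ t : commutator Gal(Ω/ℚ), (t : Gal(Ω/ℚ)) ∈ ⁅q₂.ker, q₂.ker⁆ → κ t = 1)
    {t₀ : commutator Gal(Ω/ℚ)} (ht₀ : κ t₀ = -1) {n : ℕ} (hn : n ≠ 0) (g : Gal(Ω/ℚ)) :
    ∑ᶠ t : commutator Gal(Ω/ℚ), ((κ t : ℤˣ) : ℤ) * (cQ f q₁ n (g * t) : ℤ) =
      ∑ᶠ t : commutator Gal(Ω/ℚ), ((κ t : ℤˣ) : ℤ) * (cQ f q₂ n (g * t) : ℤ) ∧
    (¬ (q₁ g = 1 ∧ q₂ g = 1) →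
      ∑ᶠ t : commutator Gal(Ω/ℚ), ((κ t : ℤˣ) : ℤ) * (cQ f q₁ n (g * t) : ℤ) = 0) := by
  have hcen : ∀ t ∈ commutator Gal(Ω/ℚ), ∀ x, t * x = x * t := fun t ht x => hG.central ht x
  have hle : ∀ q : Gal(Ω/ℚ) →* ℤˣ, (⁅q.ker, q.ker⁆ : Subgroup Gal(Ω/ℚ)) ≤
      commutator Gal(Ω/ℚ) := by
    intro q
    rw [commutator_def]
    exact Subgroup.commutator_mono le_top le_top
  obtain ⟨h1, h2⟩ := cnt_twist (k₁ := kF q₁.ker) (k₂ := kF q₂.ker) (L₁ := LF q₁.ker)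
    (L₂ := LF q₂.ker) (finrank_kF _ (index_ker_of_neg hq₁c)) (finrank_kF _ (index_ker_of_neg hq₂c))
    hf0 hram (by rw [fixG_kF, fixG_kF]; exact hne) hcen κ ht₀
    (by rw [ker_res_LF]; exact hle q₁) (by rw [ker_res_LF]; exact hle q₂)
    (fun t ht => hκ₁ t (by rw [← ker_res_LF]; exact ht))
    (fun t ht => hκ₂ t (by rw [← ker_res_LF]; exact ht)) hn g
  constructor
  · rw [ker_res_LF, ker_res_LF, hG.card_comm_eq hq₁ hq₂ hq₁c hq₂c] at h1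
    have h3 : (Nat.card (⁅q₂.ker, q₂.ker⁆ : Subgroup Gal(Ω/ℚ)) : ℤ) ≠ 0 := by
      exact_mod_cast Nat.card_pos.ne'
    exact mul_left_cancel₀ h3 h1
  · intro h
    refine h2 ?_
    rw [fixG_kF, fixG_kF, MonoidHom.mem_ker, MonoidHom.mem_ker]
    exact h

end

section

variable {Ω : Type} [Field Ω] [NumberField Ω] [IsGalois ℚ Ω]

/-- `HPair` and `HVan` -/
theorem branches_pair (hG : Big Gal(Ω/ℚ)) {ι : Ω →+* ℂ} {f : ℕ} (hf0 : f ≠ 0)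
    (hram : ∀ p : ℕ, p.Prime → (p : ℤ) ∣ discr Ω → p ∣ f) {c : Gal(Ω/ℚ)}
    {δ : Gal(Ω/ℚ) →* Gal(Ω/ℚ)} (hδ : ∀ g, δ g = ⁅g, c⁆) {b₀ : Gal(Ω/ℚ) →* ℤˣ}
    (hb₀ : ∀ x ∈ Subgroup.center Gal(Ω/ℚ), b₀ x = 1) (hb₀c : b₀ c = -1)
    {ψ : (δ.range →* ℤˣ) → Gal(Ω/ℚ) → ℝ}
    (hψ : ∀ e, IsBranch ι f c (bch δ b₀ e) (cQ f (bch δ b₀ e)) (ψ e)) :
    HPair ψ ∧ HVan δ ψ := by
  have key : ∀ e e' : δ.range →* ℤˣ, e ≠ e' → ∀ g : Gal(Ω/ℚ),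
      (∑ᶠ t : δ.range, ((((e * e') t : ℤˣ) : ℤ) : ℝ) * ψ e (g * t) =
        ∑ᶠ t : δ.range, ((((e * e') t : ℤˣ) : ℤ) : ℝ) * ψ e' (g * t)) ∧
      ((e * e') ⟨δ g, ⟨g, rfl⟩⟩ = -1 →
        ∑ᶠ t : δ.range, ((((e * e') t : ℤˣ) : ℤ) : ℝ) * ψ e (g * t) = 0) := by
    intro e e' hee g
    set α : Gal(Ω/ℚ) →* ℤˣ := (e * e').comp δ.rangeRestrict with hα
    have hδ1 : ∀ x ∈ Subgroup.center Gal(Ω/ℚ), δ x = 1 := by
      intro x hx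
      rw [hδ, commutatorElement_eq_one_iff_mul_comm]
      exact (Subgroup.mem_center_iff.1 hx c).symm
    have hαZ : ∀ x ∈ Subgroup.center Gal(Ω/ℚ), α x = 1 := by
      intro x hx
      have : δ.rangeRestrict x = 1 := Subtype.ext (hδ1 x hx)
      rw [hα, MonoidHom.comp_apply, this, map_one]
    have hZ := fun e x hx => hG.bch_center hδ hb₀ e (x := x) hx
    have hC := bch_c hδ hb₀c
    obtain ⟨κ, hκ⟩ := hG.big α (bch δ b₀ e) hαZ (hZ e)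
    have hκ' : ∀ (g h : Gal(Ω/ℚ)) (hm : ⁅g, h⁆ ∈ commutator Gal(Ω/ℚ)),
        κ ⟨⁅g, h⁆, hm⟩ = wedge α (bch δ b₀ e') g h := by
      intro g h hm
      rw [hκ, hα, wedge_symm_of]
    have hαc : α c = 1 := by
      have : δ.rangeRestrict c = 1 := Subtype.ext (by
        change δ c = 1
        rw [hδ, commutatorElement_self])
      rw [hα, MonoidHom.comp_apply, this, map_one]
    have hκD : ∀ t : δ.range, κ ⟨t, range_le hδ t.2⟩ = (e * e') t := by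
      rintro ⟨_, x, rfl⟩
      have h1 : (⟨δ x, range_le hδ ⟨x, rfl⟩⟩ : commutator Gal(Ω/ℚ)) =
          ⟨⁅x, c⁆, comm_mem x c⟩ := Subtype.ext (hδ x)
      have h2 : α x = (e * e') ⟨δ x, ⟨x, rfl⟩⟩ := rfl
      rw [h1, hκ, ← h2]
      unfold wedge
      rw [hC e, hαc, if_neg (by decide : ¬ (1 : ℤˣ) = -1), mul_one]
      rcases Int.units_eq_one_or (α x) with h3 | h3 <;> rw [h3] <;> decide
    obtain ⟨t₁, ht₁⟩ : ∃ t : δ.range, (e * e') t = -1 := by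
      by_contra hcon
      push Not at hcon
      apply hee
      ext t
      have h1 : (e * e') t = 1 := by
        rcases Int.units_eq_one_or ((e * e') t) with h | h
        · exact h
        · exact absurd h (hcon t)
      rw [MonoidHom.mul_apply] at h1
      rcases Int.units_eq_one_or (e t) with h2 | h2 <;>
      rcases Int.units_eq_one_or (e' t) with h3 | h3 <;>
      rw [h2, h3] at h1 ⊢ <;> revert h1 <;> decide
    have ht₀ : κ ⟨t₁, range_le hδ t₁.2⟩ = -1 := by rw [hκD, ht₁]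
    have hne : (bch δ b₀ e).ker ≠ (bch δ b₀ e').ker := by
      intro h
      obtain ⟨x, hx⟩ := t₁.2
      have h1 : (e * e') ⟨δ x, ⟨x, rfl⟩⟩ = -1 := by
        rw [← ht₁]
        congr 1
        exact Subtype.ext hx
      have h2 : bch δ b₀ e x = 1 ↔ bch δ b₀ e' x = 1 := by
        rw [← MonoidHom.mem_ker, ← MonoidHom.mem_ker, h]
      rw [bch_apply, bch_apply] at h2
      rw [MonoidHom.mul_apply] at h1
      rcases Int.units_eq_one_or (e ⟨δ x, ⟨x, rfl⟩⟩) with h3 | h3 <;>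
      rcases Int.units_eq_one_or (e' ⟨δ x, ⟨x, rfl⟩⟩) with h4 | h4 <;>
      rcases Int.units_eq_one_or (b₀ x) with h5 | h5 <;>
      rw [h3, h4] at h1 <;> rw [h3, h4, h5] at h2 <;> revert h1 h2 <;> decide
    have htw := fun (n : ℕ) (hn : n ≠ 0) (g : Gal(Ω/ℚ)) =>
      branch_twist hG hf0 hram (hZ e) (hZ e') (hC e) (hC e') hne κ (kappa_ker hκ) (kappa_ker hκ')
        ht₀ hn g
    obtain ⟨h1, h2⟩ := pair_psi_delta hG hδ (hZ e) (hZ e') (hC e) (hC e') κ (kappa_ker hκ)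
      (kappa_ker hκ') (hψ e).cont (hψ e').cont (hψ e).tr_c (hψ e').tr_c (hψ e).tr_N (hψ e').tr_N
      (fun n hn g => (htw n hn g).1) (fun n hn g => (htw n hn g).2) g
    simp only [hκD] at h1 h2
    refine ⟨h1, fun hg => h2 ?_⟩
    rw [bch_apply, bch_apply]
    intro h
    have h3 := mul_left_cancel h
    rw [MonoidHom.mul_apply, h3] at hg
    rcases Int.units_eq_one_or (e' ⟨δ g, ⟨g, rfl⟩⟩) with h4 | h4 <;>
    rw [h4] at hg <;> revert hg <;> decide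
  exact ⟨fun e e' hee g => (key e e' hee g).1, fun e e' hee g => (key e e' hee g).2⟩

/-- the functions `lam e` and the sums over `δ.range` -/
theorem branches_norm (hG : Big Gal(Ω/ℚ)) {ι : Ω →+* ℂ} {f : ℕ} [NeZero f] (hf : 2 < f)
    (hram : ∀ p : ℕ, p.Prime → (p : ℤ) ∣ discr Ω → p ∣ f) {ζ : Ω} (hζ : IsPrimitiveRoot ζ f)
    (hζC : ∀ g : Gal(Ω/ℚ), g ζ = ζ ↔ g ∈ commutator Gal(Ω/ℚ)) {c : Gal(Ω/ℚ)}
    (hc : ∀ x, ι (c x) = starRingEnd ℂ (ι x))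
    {δ : Gal(Ω/ℚ) →* Gal(Ω/ℚ)} (hδ : ∀ g, δ g = ⁅g, c⁆) {q : Gal(Ω/ℚ) →* ℤˣ}
    (hq : ∀ x ∈ Subgroup.center Gal(Ω/ℚ), q x = 1) (hqc : q c = -1)
    {η : LF q.ker} (hψ : IsBranch ι f c q (cQ f q) (psi ι η)) :
    ∃ lam : (ZMod f)ˣ → ℤ, (∀ g, lam (hζ.autToPow ℚ g) = ((q g : ℤˣ) : ℤ)) ∧
      ∀ g, ∑ᶠ t : δ.range, psi ι η (g * (t : Gal(Ω/ℚ))) =
        1 / 2 * ∑ u : (ZMod f)ˣ, (lam u : ℝ) * hh f (u : ZMod f) *
          ell f ((hζ.autToPow ℚ g * u⁻¹ : (ZMod f)ˣ) : ZMod f) := by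
  have hidx := index_ker_of_neg hqc
  have hcq : c ∉ q.ker := by
    rw [MonoidHom.mem_ker, hqc]
    decide
  have hk := finrank_kF q.ker hidx
  have hsurj := chi_surjective hζ
  have hkerC : ∀ g, hζ.autToPow ℚ g = 1 → g ∈ commutator Gal(Ω/ℚ) := by
    intro g hg
    rw [← hζC]
    have h1 := hζ.autToPow_spec ℚ g
    rw [hg] at h1
    have : Fact (1 < f) := ⟨by omega⟩
    rw [Units.val_one, ZMod.val_one, pow_one] at h1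
    exact h1.symm
  set lam : (ZMod f)ˣ → ℤ := fun u => ((q (Function.surjInv hsurj u) : ℤˣ) : ℤ) with hlam
  have hlamg : ∀ g, lam (hζ.autToPow ℚ g) = ((q g : ℤˣ) : ℤ) := by
    intro g
    have h1 : hζ.autToPow ℚ (Function.surjInv hsurj (hζ.autToPow ℚ g) * g⁻¹) = 1 := by
      rw [map_mul, Function.surjInv_eq hsurj, map_inv, mul_inv_cancel]
    have h2 := char_commutator q (hkerC _ h1)
    rw [map_mul, map_inv, mul_inv_eq_one] at h2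
    rw [hlam]
    change ((q (Function.surjInv hsurj (hζ.autToPow ℚ g)) : ℤˣ) : ℤ) = _
    rw [h2]
  refine ⟨lam, hlamg, fun g => ?_⟩
  have hle : (⁅q.ker, q.ker⁆ : Subgroup Gal(Ω/ℚ)) ≤ commutator Gal(Ω/ℚ) := by
    rw [commutator_def]
    exact Subgroup.commutator_mono le_top le_top
  have h1 := psi_norm (k := kF q.ker) (L := LF q.ker) hk hf hram hζ hζC
    (by rw [ker_res_LF]; exact hle) hc (by rw [fixG_kF]; exact hcq) (η := η)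
    (fun g hg => hψ.cont g (by rw [fixG_kF] at hg; exact hg)) (q := q)
    (fun g => by rw [fixG_kF, MonoidHom.mem_ker]) hlamg g
  have h2 := hG.sum_eq hδ hq hqc (fun t : commutator Gal(Ω/ℚ) => psi ι η (g * (t : Gal(Ω/ℚ))))
    (by
      intro t u hu
      change psi ι η (g * ((t : Gal(Ω/ℚ)) * (u : Gal(Ω/ℚ)))) = psi ι η (g * (t : Gal(Ω/ℚ)))
      rw [← mul_assoc]
      exact congrFun (hψ.tr_N u hu) _)
  rw [h1, ker_res_LF] at h2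
  have h3 : (Nat.card (⁅q.ker, q.ker⁆ : Subgroup Gal(Ω/ℚ)) : ℝ) ≠ 0 := by
    exact_mod_cast Nat.card_pos.ne'
  exact (mul_left_cancel₀ h3 h2).symm

end

end Pool.Agent.StarkRQ.Oct
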