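import Pool.Agent.StarkRQ.Oct.GDefs

/-!
# The centralizer of a noncentral involution modulo the center

Let `G` be `Big`, `c ∉ Z` (`Z` the center). `G/Z` is an elementary abelian `2`-group (`hG.sq`), so for
`x ∉ Z` there is `q : G →* ℤˣ`, trivial on `Z`, with `q x = -1`, and for `g` outside of the subgroup
`Z ∪ Z c` (a subgroup as `c * c ∈ Z`) there is `p : G →* ℤˣ`, trivial on `Z` and with `p c = 1`,
`p g = -1` (`exists_sep`, see below).

`centralizer`: suppose `⁅g, c⁆ = 1` and `g ∉ Z ∪ Z c`. Take `p` as above, `q` with `q c = -1`, and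
`κ` from `hG.big p q`: `1 = κ ⁅g, c⁆ = wedge p q g c = q c = -1`, a contradiction.

`card_range`: the kernel of `δ` is `Z ∪ Z c`, so `|δ.range| = |G| / (2 |Z|)`.

`exists_sep`: `P` a normal subgroup (it is normal, as it contains `Z` and hence all commutators; or
assume it) containing all squares, `x ∉ P`: `G ⧸ P` is an elementary abelian `2`-group. Hint: among the
subgroups `Q ≥ P` not containing `x` choose a maximal one (`G` finite, or Zorn); it has index `2`
(if `y ∉ Q` then `x ∈ Q ∪ y Q` by maximality, as `Q ∪ y Q` is a subgroup: `y * y ∈ P`, `Q ⊇` all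
commutators; so `y ∈ x Q`). Then `p g = 1` for `g ∈ Q` and `-1` otherwise.
-/

open scoped commutatorElement

namespace Pool.Agent.StarkRQ.Oct

variable {G : Type*} [Group G]

private theorem cz_pow_even {P : Subgroup G} (hP : ∀ g : G, g * g ∈ P) (y : G) {k : ℤ}
    (hk : Even k) : y ^ k ∈ P := by
  obtain ⟨m, rfl⟩ := hk
  have h : y ^ (m + m) = y ^ m * y ^ m := zpow_add y m m
  rw [h]
  exact hP _

private theorem cz_normal {P : Subgroup G} (hP' : ∀ g h : G, ⁅g, h⁆ ∈ P) : P.Normal := by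
  constructor
  intro n hn g
  have h : g * n * g⁻¹ = ⁅g, n⁆ * n := by
    rw [commutatorElement_def]; group
  rw [h]
  exact P.mul_mem (hP' g n) hn

theorem exists_sep [Finite G] (P : Subgroup G) (hP : ∀ g : G, g * g ∈ P)
    (hP' : ∀ g h : G, ⁅g, h⁆ ∈ P) {x : G} (hx : x ∉ P) :
    ∃ p : G →* ℤˣ, (∀ g ∈ P, p g = 1) ∧ p x = -1 := by
  classical
  obtain ⟨Q, hPQ, hQ⟩ := Set.Finite.exists_le_maximal
    (Set.toFinite {Q : Subgroup G | P ≤ Q ∧ x ∉ Q}) (show P ∈ {Q : Subgroup G | P ≤ Q ∧ x ∉ Q} from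
      ⟨le_refl P, hx⟩)
  have hxQ : x ∉ Q := hQ.1.2
  have hsq : ∀ g : G, g * g ∈ Q := fun g => hPQ (hP g)
  have hcm : ∀ g h : G, ⁅g, h⁆ ∈ Q := fun g h => hPQ (hP' g h)
  have hN : Q.Normal := cz_normal hcm
  have key : ∀ y, y ∉ Q → x * y ∈ Q := by
    intro y hy
    have hx' : x ∈ Q ⊔ Subgroup.zpowers y := by
      by_contra hcon
      have hle : Q ⊔ Subgroup.zpowers y ≤ Q :=
        hQ.2 ⟨hPQ.trans le_sup_left, hcon⟩ le_sup_left
      exact hy (hle (Subgroup.mem_sup_right (Subgroup.mem_zpowers y)))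
    rw [← SetLike.mem_coe, Subgroup.normal_mul] at hx'
    obtain ⟨q, hq, z, hz, hqz⟩ := Set.mem_mul.1 hx'
    obtain ⟨k, rfl⟩ := Subgroup.mem_zpowers_iff.1 hz
    rcases Int.even_or_odd k with hk | hk
    · exact absurd (hqz ▸ Q.mul_mem hq (cz_pow_even hsq y hk)) hxQ
    · have h1 : x * y = q * y ^ (k + 1) := by
        rw [← hqz, zpow_add_one, mul_assoc]
      rw [h1]
      exact Q.mul_mem hq (cz_pow_even hsq y hk.add_one)
  refine ⟨{ toFun := fun g => if g ∈ Q then 1 else -1
            map_one' := if_pos Q.one_mem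
            map_mul' := ?_ }, ?_, ?_⟩
  · intro g h
    by_cases hg : g ∈ Q
    · by_cases hh : h ∈ Q
      · rw [if_pos hg, if_pos hh, if_pos (Q.mul_mem hg hh), one_mul]
      · rw [if_pos hg, if_neg hh, if_neg (fun h' => hh ((Q.mul_mem_cancel_left hg).1 h')), one_mul]
    · by_cases hh : h ∈ Q
      · rw [if_neg hg, if_pos hh, if_neg (fun h' => hg ((Q.mul_mem_cancel_right hh).1 h')), mul_one]
      · have h1 : g * h ∈ Q := by
          have h2 : g * h = (g * g) * ((x * g)⁻¹ * (x * h)) := by group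
          rw [h2]
          exact Q.mul_mem (hsq g) (Q.mul_mem (Q.inv_mem (key g hg)) (key h hh))
        rw [if_neg hg, if_neg hh, if_pos h1]
        rfl
  · intro g hg
    exact if_pos (hPQ hg)
  · exact if_neg hxQ

private theorem cz_sq (hG : Big G) (g : G) : g * g ∈ Subgroup.center G :=
  Subgroup.mem_center_iff.2 fun x => (hG.sq g x).symm

theorem Big.centralizer [Finite G] (hG : Big G) {c : G} (hc : c ∉ Subgroup.center G) {g : G}
    (h : ⁅g, c⁆ = 1) : g ∈ Subgroup.center G ∨ g * c ∈ Subgroup.center G := by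
  by_contra hcon
  push Not at hcon
  obtain ⟨hg, hgc⟩ := hcon
  obtain ⟨q, hq1, hqc⟩ := exists_sep (Subgroup.center G) (cz_sq hG) hG.comm_mem_center hc
  have hg' : g ∉ Subgroup.center G ⊔ Subgroup.zpowers c := by
    intro hg'
    rw [← SetLike.mem_coe, Subgroup.normal_mul] at hg'
    obtain ⟨z, hz, w, hw, hzw⟩ := Set.mem_mul.1 hg'
    obtain ⟨k, rfl⟩ := Subgroup.mem_zpowers_iff.1 hw
    rcases Int.even_or_odd k with hk | hk
    · exact hg (hzw ▸ Subgroup.mul_mem _ hz (cz_pow_even (cz_sq hG) c hk))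
    · apply hgc
      have h1 : g * c = z * c ^ (k + 1) := by
        rw [← hzw, zpow_add_one, mul_assoc]
      rw [h1]
      exact Subgroup.mul_mem _ hz (cz_pow_even (cz_sq hG) c hk.add_one)
  obtain ⟨p, hp1, hpg⟩ := exists_sep (Subgroup.center G ⊔ Subgroup.zpowers c)
    (fun g => Subgroup.mem_sup_left (cz_sq hG g))
    (fun g h => Subgroup.mem_sup_left (hG.comm_mem_center g h)) hg'
  obtain ⟨κ, hκ⟩ := hG.big p q (fun x hx => hp1 x (Subgroup.mem_sup_left hx)) hq1
  have hpc : p c = 1 := hp1 c (Subgroup.mem_sup_right (Subgroup.mem_zpowers c))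
  have h1 := hκ g c (comm_mem g c)
  have h2 : (⟨⁅g, c⁆, comm_mem g c⟩ : commutator G) = 1 := Subtype.ext h
  rw [h2, map_one] at h1
  unfold wedge at h1
  rw [if_pos hpg, if_neg (by rw [hpc]; decide), mul_one, hqc] at h1
  exact absurd h1 (by decide)

theorem Big.card_range [Finite G] (hG : Big G) {c : G} (hc : c ∉ Subgroup.center G) {δ : G →* G}
    (hδ : ∀ g, δ g = ⁅g, c⁆) : Nat.card δ.range * 2 = (Subgroup.center G).index := by
  have hle : Subgroup.center G ≤ δ.ker := by
    intro z hz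
    rw [MonoidHom.mem_ker, hδ, commutatorElement_eq_one_iff_mul_comm]
    exact (Subgroup.mem_center_iff.1 hz c).symm
  have h2 : (Subgroup.center G).relIndex δ.ker = 2 := by
    rw [Subgroup.relIndex_eq_two_iff]
    refine ⟨c, ?_, fun b hb => ?_⟩
    · rw [MonoidHom.mem_ker, hδ, commutatorElement_self]
    · rw [MonoidHom.mem_ker, hδ] at hb
      rcases hG.centralizer hc hb with h | h
      · exact Or.inr ⟨h, fun h' => hc ((Subgroup.mul_mem_cancel_left _ h).1 h')⟩
      · exact Or.inl ⟨h, fun h' => hc ((Subgroup.mul_mem_cancel_left _ h').1 h)⟩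
  rw [← Subgroup.relIndex_mul_index hle, h2, Subgroup.index_ker, mul_comm]

end Pool.Agent.StarkRQ.Oct
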