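import Pool.Agent.StarkRQ.Oct.Literal2
import Pool.Agent.EMB.Main

/-!
# Stark's conjecture over real quadratic fields for closures with central squares

The auxiliary field of `oct_final` exists (`Pool.Agent.EMB.exists_aux`).
-/

set_option autoImplicit false

noncomputable section

open NumberField Module Pool.Agent.StarkRQ
open scoped commutatorElement

namespace Pool.Agent.StarkRQ.Oct

/-- a finite group with central squares has a center of index a power of `2` -/
theorem index_center_of_sq {G : Type*} [Group G] [Finite G]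
    (hsq : ∀ g h : G, g * g * h = h * (g * g)) : ∃ d, (Subgroup.center G).index = 2 ^ d := by
  have hp : IsPGroup 2 (G ⧸ Subgroup.center G) := by
    intro x
    induction x using QuotientGroup.induction_on with
    | H g =>
      refine ⟨1, ?_⟩
      rw [pow_one, pow_two, ← QuotientGroup.mk_mul, QuotientGroup.eq_one_iff]
      rw [Subgroup.mem_center_iff]
      intro h
      exact (hsq g h).symm
  obtain ⟨d, hd⟩ := IsPGroup.iff_card.1 hp
  exact ⟨d, by rw [Subgroup.index_eq_card]; exact hd⟩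

theorem oct_complete {M : Type} [Field M] [NumberField M] [IsGalois ℚ M] {K H : Type} [Field K]
    [NumberField K] [Field H] [NumberField H] [Algebra K M] [Algebra K H] [Algebra H M]
    [IsScalarTower K H M] [IsTotallyReal K] (hK : finrank ℚ K = 2) [IsAbelianGalois K H]
    (hsq : ∀ g h : Gal(M/ℚ), g * g * h = h * (g * g))
    (hidx : (Subgroup.center Gal(M/ℚ)).index ≤ 32)
    (ι : M →+* ℂ) (hH : ∀ y : H, (ι (algebraMap H M y)).im = 0)
    {N : ℕ} (hN0 : N ≠ 0) (hN2 : 2 ∣ N)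
    (hram : ∀ p : ℕ, p.Prime → (p : ℤ) ∣ discr M → p ∣ N)
    (ι₂ : K →+* ℝ) (hι₂ : ∃ x : K, ((ι₂ x : ℝ) : ℂ) ≠ ι (algebraMap K M x))
    (hmodH : ∀ a : 𝓞 K, (N : 𝓞 K) ∣ a - 1 → 0 < ι₂ (a : K) →
      HasArtinSymbol (Ideal.span {a}) (1 : Gal(H/K))) :
    ∃ (Z : Gal(H/K) → ℂ → ℂ) (ε : Gal(H/K) → (𝓞 H)ˣ),
      (∀ σ, IsPartialZeta N σ (Z σ) ∧
        ι (algebraMap H M (ε σ : 𝓞 H)) = Complex.exp (-2 * deriv (Z σ) 0)) ∧
      (∀ ρ σ, ρ ((ε σ : 𝓞 H) : H) = ((ε (ρ * σ) : 𝓞 H) : H)) ∧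
      (∃ (E : Type) (_ : Field E) (_ : Algebra K E) (_ : Algebra H E) (_ : IsScalarTower K H E),
        IsAbelianGalois K E ∧ ∀ σ, ∃ y : E, y ^ 2 = algebraMap H E ((ε σ : 𝓞 H) : H)) ∧
      ∀ g : H →+* ℂ, (∃ x : K, g (algebraMap K H x) ≠ ι (algebraMap K M x)) →
        ∀ σ, ‖g ((ε σ : 𝓞 H) : H)‖ = 1 := by
  obtain ⟨d, hd⟩ := index_center_of_sq hsq
  have hd5 : d ≤ 5 := by
    rw [hd] at hidx
    by_contra h
    have h1 : 2 ^ 6 ≤ 2 ^ d := Nat.pow_le_pow_right (by norm_num) (by omega)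
    omega
  obtain ⟨M', _, _, _, _, f, ζ, hf0, hf8, hp, hζ, hmax, hram', hsq', hidx', hcard'⟩ :=
    Pool.Agent.EMB.exists_aux hN2 hN0 hram hsq hd
  let _ : Algebra H M' := ((algebraMap M M').comp (algebraMap H M)).toAlgebra
  let _ : Algebra K M' := ((algebraMap M M').comp (algebraMap K M)).toAlgebra
  have hKHM : IsScalarTower K H M' := IsScalarTower.of_algebraMap_eq fun x => by
    change algebraMap M M' (algebraMap K M x) = algebraMap M M' (algebraMap H M (algebraMap K H x))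
    rw [IsScalarTower.algebraMap_apply K H M]
  obtain ⟨ι', hι'⟩ : ∃ ι' : M' →+* ℂ, ∀ x : M, ι' (algebraMap M M' x) = ι x := by
    let _ : Algebra M ℂ := ι.toAlgebra
    have : FiniteDimensional M M' := FiniteDimensional.right ℚ M M'
    have : Algebra.IsAlgebraic M M' := Algebra.IsAlgebraic.of_finite M _
    exact ⟨(IsAlgClosed.lift : M' →ₐ[M] ℂ).toRingHom, fun x =>
      (IsAlgClosed.lift : M' →ₐ[M] ℂ).commutes x⟩
  have hιH : ∀ y : H, ι' (algebraMap H M' y) = ι (algebraMap H M y) := fun y => hι' _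
  have hιK : ∀ y : K, ι' (algebraMap K M' y) = ι (algebraMap K M y) := fun y => hι' _
  obtain ⟨Z, ε, h1, h2, h3, h4⟩ := oct_final (M := M') hK ι' (fun y => by rw [hιH]; exact hH y)
    hf8 hf0 hζ hmax hram' hsq' hd5 hidx' hcard' hp ι₂ (by simpa only [hιK] using hι₂) hmodH
  refine ⟨Z, ε, fun σ => ⟨?_, ?_⟩, h2, h3, fun g hg => h4 g (by simpa only [hιK] using hg)⟩
  · exact Pool.Agent.CMR.isPartialZeta_congr (fun p hp' => (hp p hp').symm) (h1 σ).1
  · rw [← hιH]
    exact (h1 σ).2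

end Pool.Agent.StarkRQ.Oct
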