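import Pool.Agent.StarkRQ.Oct.Defs
import Pool.Agent.StarkRQ.Final

/-!
# Descent to `H`

Write `A = fixG K Ω`, `T = ⁅A, A⁆`, `z = ⁅b, c⁆` with `b ∉ A`; `c ∈ A` (`K` is real). `H/K` is abelian,
so `T` acts trivially on `H`; so do `c` and `h₀`. `J = {h₀^i c^j t}` (`t ∈ T`) is a subgroup of `A`
(`h₀`, `T` are central), acts trivially on `H`, and has `64 |T|` elements (`hfree`). By `hcy`, `hty`,
`hhy` every element of `J` maps `y` to `± y`, so `g ↦ (g y)²` and (up to sign) `g ↦ g y` are functions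
on `Γ/J`.

Put `Y σ = ∏ (g y)`, over representatives `g` of the cosets `g J` in `A` with restriction `σ` to `H`,
and `ε σ = (Y σ)²`, a unit. For `γ ∈ A`: `γ (ε σ) = ε (γ|_H σ)`, so `ε σ` is fixed by `Gal(Ω/H)` and
comes from `H`. For `g ∈ A` the number `g y` is real: `c g y = g (g⁻¹ c g c⁻¹) c y = g t y = g y` with
`t = ⁅g⁻¹, c⁆ ∈ T`; so `ι (ε σ) > 0` and
`log ι (ε σ) = 2 ∑_{gJ} ∑_{i < 32} Φ (g h₀^i) = (1/|T|) ∑_{s ∈ A over σ} Φ s`
(`Φ` is invariant under `T` and `c`; every coset `g J` consists of the `64 |T|` elements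
`g h₀^i c^j t`). With `hG` this is `-(G σ)'(0) + (G (R σ))'(0)`.

For `t ∈ T`: `t (g y) = g t y = g y` (`t` central), so `Y σ` lies in the fixed field `E` of `T`, which is
abelian over `K`. (`E = IntermediateField.fixedField`, as an intermediate field of `Ω/K`, or of `Ω/ℚ`
containing `K`.)

If `f : H → ℂ` is an embedding which differs from `ι` on `K`, then `f = ι ∘ γ` on `H` with `γ ∈ Γ`,
`γ ∉ A` (see the end of the proof of `klein`, `exists_comp`). `|ι (γ g y)| = 1` for `g ∈ A` by `hΦ0`,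
as `γ g h₀^i ∉ A`. `f (R x) = ι (γ z x)`, `conj (f x) = ι (c γ x)`, and `c γ = γ (γ⁻¹ c γ c⁻¹) c` with
`⁅γ⁻¹, c⁆ ∈ z T` (write `γ⁻¹ = α b` with `α ∈ A`; commutators are central).
-/

open NumberField Module
open scoped commutatorElement

namespace Pool.Agent.StarkRQ.Oct

private theorem exists_J {Γ : Type*} [Group Γ] [Finite Γ] {h₀ c : Γ} {T : Subgroup Γ}
    (hh : ∀ g, h₀ * g = g * h₀) (hh32 : h₀ ^ 32 = 1) (hcc : c * c = 1)
    (hT : ∀ t ∈ T, ∀ x, t * x = x * t)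
    (hfree : ∀ i j : ℕ, h₀ ^ i * c ^ j ∈ T → 32 ∣ i ∧ 2 ∣ j) :
    ∃ J : Subgroup Γ, (∀ g, g ∈ J ↔ ∃ i j : ℕ, ∃ t ∈ T, g = h₀ ^ i * c ^ j * t) ∧
      Nat.card J = 64 * Nat.card T := by
  have hhp : ∀ (i : ℕ) (g : Γ), h₀ ^ i * g = g * h₀ ^ i := by
    intro i g
    have : Commute h₀ g := hh g
    exact (this.pow_left i)
  have hmul : ∀ (i j i' j' : ℕ) (t t' : Γ), t ∈ T →
      (h₀ ^ i * c ^ j * t) * (h₀ ^ i' * c ^ j' * t') = h₀ ^ (i + i') * c ^ (j + j') * (t * t') := by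
    intro i j i' j' t t' ht
    calc (h₀ ^ i * c ^ j * t) * (h₀ ^ i' * c ^ j' * t')
        = h₀ ^ i * c ^ j * (t * (h₀ ^ i' * c ^ j')) * t' := by group
      _ = h₀ ^ i * (c ^ j * h₀ ^ i') * c ^ j' * (t * t') := by rw [hT t ht]; group
      _ = h₀ ^ (i + i') * c ^ (j + j') * (t * t') := by
          rw [← hhp i' (c ^ j), pow_add, pow_add]; group
  have hc2 : ∀ j : ℕ, c ^ (2 * j) = 1 := by
    intro j
    rw [pow_mul, pow_two, hcc, one_pow]
  let J : Subgroup Γ :=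
    { carrier := {g | ∃ i j : ℕ, ∃ t ∈ T, g = h₀ ^ i * c ^ j * t}
      mul_mem' := by
        rintro _ _ ⟨i, j, t, ht, rfl⟩ ⟨i', j', t', ht', rfl⟩
        exact ⟨i + i', j + j', t * t', T.mul_mem ht ht', hmul _ _ _ _ _ _ ht⟩
      one_mem' := ⟨0, 0, 1, T.one_mem, by simp⟩
      inv_mem' := by
        rintro _ ⟨i, j, t, ht, rfl⟩
        refine ⟨31 * i, j, t⁻¹, T.inv_mem ht, ?_⟩
        rw [inv_eq_iff_mul_eq_one, hmul _ _ _ _ _ _ ht, mul_inv_cancel, mul_one,
          show i + 31 * i = 32 * i by ring, show j + j = 2 * j by ring, hc2, pow_mul, hh32,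
          one_pow, one_mul] }
  have hJ : ∀ g, g ∈ J ↔ ∃ i j : ℕ, ∃ t ∈ T, g = h₀ ^ i * c ^ j * t := fun g => Iff.rfl
  refine ⟨J, hJ, ?_⟩
  let f : Fin 32 × Fin 2 × T → J := fun p =>
    ⟨h₀ ^ (p.1 : ℕ) * c ^ (p.2.1 : ℕ) * p.2.2, ⟨_, _, _, p.2.2.2, rfl⟩⟩
  have hf : Function.Bijective f := by
    constructor
    · rintro ⟨⟨i, hi⟩, ⟨j, hj⟩, ⟨t, ht⟩⟩ ⟨⟨i', hi'⟩, ⟨j', hj'⟩, ⟨t', ht'⟩⟩ h
      have h1 : h₀ ^ i * c ^ j * t = h₀ ^ i' * c ^ j' * t' := congrArg Subtype.val h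
      have h2 : h₀ ^ (i + (32 - i')) * c ^ (j + (2 - j')) * (t * 1) =
          h₀ ^ (i' + (32 - i')) * c ^ (j' + (2 - j')) * (t' * 1) := by
        rw [← hmul _ _ _ _ _ _ ht, ← hmul _ _ _ _ _ _ ht', h1]
      rw [show i' + (32 - i') = 32 by omega, show j' + (2 - j') = 2 * 1 by omega, hh32, hc2,
        mul_one, mul_one, mul_one, one_mul] at h2
      have h3 : h₀ ^ (i + (32 - i')) * c ^ (j + (2 - j')) ∈ T := by
        have h4 : h₀ ^ (i + (32 - i')) * c ^ (j + (2 - j')) = t' * t⁻¹ := by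
          rw [← h2, mul_inv_cancel_right]
        rw [h4]
        exact T.mul_mem ht' (T.inv_mem ht)
      obtain ⟨h5, h6⟩ := hfree _ _ h3
      have h7 : i = i' := by omega
      have h8 : j = j' := by omega
      subst h7 h8
      have h9 : t = t' := mul_left_cancel h1
      subst h9
      rfl
    · rintro ⟨_, ⟨i, j, t, ht, rfl⟩⟩
      refine ⟨⟨⟨i % 32, Nat.mod_lt _ (by norm_num)⟩, ⟨j % 2, Nat.mod_lt _ (by norm_num)⟩,
        ⟨t, ht⟩⟩, ?_⟩
      apply Subtype.ext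
      change h₀ ^ (i % 32) * c ^ (j % 2) * t = h₀ ^ i * c ^ j * t
      congr 2
      · exact (pow_eq_pow_mod i hh32).symm
      · exact (pow_eq_pow_mod j (by rw [pow_two, hcc])).symm
  rw [← Nat.card_congr (Equiv.ofBijective f hf), Nat.card_prod, Nat.card_prod]
  simp only [Nat.card_eq_fintype_card, Fintype.card_fin]
  ring

private theorem sum_coset {B : Type*} [Group B] [Fintype B] (J : Subgroup B) [Fintype (B ⧸ J)]
    (F : B → ℝ) (hF : ∀ g, ∀ j ∈ J, F (g * j) = F g) :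
    ∑ g, F g = Nat.card J * ∑ q : B ⧸ J, F q.out := by
  classical
  have : Fintype J := Fintype.ofFinite J
  have hb : Function.Bijective (fun p : (B ⧸ J) × J => p.1.out * (p.2 : B)) := by
    constructor
    · rintro ⟨q, j, hj⟩ ⟨q', j', hj'⟩ h
      have h1 : q.out * j = q'.out * j' := h
      have h2 : q = q' := by
        have h3 : (QuotientGroup.mk (q.out * j) : B ⧸ J) = QuotientGroup.mk (q'.out * j') := by
          rw [h1]
        rwa [QuotientGroup.mk_mul_of_mem _ hj, QuotientGroup.mk_mul_of_mem _ hj',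
          QuotientGroup.out_eq', QuotientGroup.out_eq'] at h3
      subst h2
      have h3 : j = j' := mul_left_cancel h1
      subst h3
      rfl
    · intro g
      obtain ⟨j, hj⟩ := QuotientGroup.mk_out_eq_mul J g
      refine ⟨⟨QuotientGroup.mk g, j⁻¹⟩, ?_⟩
      change (QuotientGroup.mk g : B ⧸ J).out * ((j⁻¹ : J) : B) = g
      rw [hj, Subgroup.coe_inv, mul_inv_cancel_right]
  rw [← Fintype.sum_bijective _ hb (fun p => F (p.1.out * (p.2 : B))) F (fun _ => rfl),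
    Fintype.sum_prod_type]
  rw [Finset.mul_sum]
  refine Finset.sum_congr rfl fun q _ => ?_
  rw [Finset.sum_congr rfl (fun (j : J) _ => hF q.out j j.2), Finset.sum_const, nsmul_eq_mul,
    Finset.card_univ, Nat.card_eq_fintype_card]


theorem descend {Ω K H : Type} [Field Ω] [NumberField Ω] [IsGalois ℚ Ω] [Field K] [NumberField K]
    [Field H] [NumberField H] [Algebra K Ω] [Algebra K H] [Algebra H Ω] [IsScalarTower K H Ω]
    [IsTotallyReal K] (hK : finrank ℚ K = 2) [IsAbelianGalois K H] {ι : Ω →+* ℂ}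
    (hH : ∀ y : H, (ι (algebraMap H Ω y)).im = 0) {b c h₀ : Gal(Ω/ℚ)}
    (hc : ∀ x, ι (c x) = starRingEnd ℂ (ι x)) (hh : ∀ g, h₀ * g = g * h₀) (hh32 : h₀ ^ 32 = 1)
    (hhH : ∀ y : H, h₀ (algebraMap H Ω y) = algebraMap H Ω y) (hb : b ∉ fixG K Ω)
    (hcomm : ∀ g g' x : Gal(Ω/ℚ), ⁅g, g'⁆ * x = x * ⁅g, g'⁆)
    (hcomm2 : ∀ g g' : Gal(Ω/ℚ), ⁅g, g'⁆ * ⁅g, g'⁆ = 1)
    (hfree : ∀ i j : ℕ, h₀ ^ i * c ^ j ∈ ⁅fixG K Ω, fixG K Ω⁆ → 32 ∣ i ∧ 2 ∣ j)
    {Φ : Gal(Ω/ℚ) → ℝ} (hΦc : tr c Φ = Φ) (hΦT : ∀ t ∈ ⁅fixG K Ω, fixG K Ω⁆, tr t Φ = Φ)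
    (hΦ0 : ∀ g ∉ fixG K Ω, Φ g = 0) {y : (𝓞 Ω)ˣ}
    (hy : logF ι ((y : 𝓞 Ω) : Ω) = (fun g => ∑ i ∈ Finset.range 32, Φ (g * h₀ ^ i)))
    (hcy : c ((y : 𝓞 Ω) : Ω) = ((y : 𝓞 Ω) : Ω))
    (hty : ∀ t ∈ ⁅fixG K Ω, fixG K Ω⁆, t ((y : 𝓞 Ω) : Ω) = ((y : 𝓞 Ω) : Ω))
    (hhy : h₀ ((y : 𝓞 Ω) : Ω) = ((y : 𝓞 Ω) : Ω) ∨ h₀ ((y : 𝓞 Ω) : Ω) = -((y : 𝓞 Ω) : Ω))
    {R : Gal(H/K)} (hR : ∀ x : H, algebraMap H Ω (R x) = ⁅b, c⁆ (algebraMap H Ω x))
    {G : Gal(H/K) → ℂ → ℂ} (hG : ∀ σ : Gal(H/K),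
      ((∑ᶠ s : {s : Gal(Ω/K) // ∀ x : H, s (algebraMap H Ω x) = algebraMap H Ω (σ x)},
        Φ (toG K Ω s) : ℝ) : ℂ) = -(Nat.card (⁅fixG K Ω, fixG K Ω⁆ : Subgroup Gal(Ω/ℚ)) : ℂ) *
          (deriv (G σ) 0 - deriv (G (R * σ)) 0)) :
    ∃ ε : Gal(H/K) → (𝓞 H)ˣ,
      (∀ σ, ι (algebraMap H Ω (ε σ : 𝓞 H)) =
          Complex.exp (-(deriv (G σ) 0 - deriv (G (R * σ)) 0))) ∧
      (∀ ρ σ, ρ ((ε σ : 𝓞 H) : H) = ((ε (ρ * σ) : 𝓞 H) : H)) ∧
      (∃ (E : Type) (_ : Field E) (_ : Algebra K E) (_ : Algebra H E) (_ : IsScalarTower K H E),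
        IsAbelianGalois K E ∧ ∀ σ, ∃ y : E, y ^ 2 = algebraMap H E ((ε σ : 𝓞 H) : H)) ∧
      ∀ g : H →+* ℂ, (∃ x : K, g (algebraMap K H x) ≠ ι (algebraMap K Ω x)) →
        (∀ y, g (R y) = starRingEnd ℂ (g y)) ∧ ∀ σ, ‖g ((ε σ : 𝓞 H) : H)‖ = 1 := by
  classical
  have hKΩ : IsGalois K Ω := IsGalois.tower_top_of_isGalois ℚ K Ω
  have hHΩ : IsGalois H Ω := IsGalois.tower_top_of_isGalois ℚ H Ω
  have hcK : c ∈ fixG K Ω := cc_mem_fixG hc
  have hcc : c * c = 1 := by
    ext x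
    apply ι.injective
    change ι (c (c x)) = ι x
    rw [hc, hc, Complex.conj_conj]
  have hcH : ∀ x : H, c (algebraMap H Ω x) = algebraMap H Ω x := by
    intro x
    apply ι.injective
    rw [hc]
    exact Complex.conj_eq_iff_im.2 (hH x)
  have hh₀K : h₀ ∈ fixG K Ω := by
    rw [mem_fixG]
    intro x
    rw [IsScalarTower.algebraMap_apply K H Ω, hhH]
  -- the commutator subgroup
  set T : Subgroup Gal(Ω/ℚ) := ⁅fixG K Ω, fixG K Ω⁆ with hTdef
  have hTm : T = (commutator Gal(Ω/K)).map (toG K Ω) := by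
    rw [hTdef, commutator_def, Subgroup.map_commutator, ← MonoidHom.range_eq_map]
    rfl
  have hTc : ∀ t ∈ T, ∀ x, t * x = x * t := by
    have h1 : T ≤ Subgroup.center Gal(Ω/ℚ) := by
      rw [hTdef, Subgroup.commutator_le]
      intro g _ g' _
      exact Subgroup.mem_center_iff.2 fun x => (hcomm g g' x).symm
    intro t ht x
    exact (Subgroup.mem_center_iff.1 (h1 ht) x).symm
  have hTK : T ≤ fixG K Ω := by
    rw [hTdef, Subgroup.commutator_le]
    intro g hg g' hg'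
    rw [commutatorElement_def]
    exact Subgroup.mul_mem _ (Subgroup.mul_mem _ (Subgroup.mul_mem _ hg hg')
      (Subgroup.inv_mem _ hg)) (Subgroup.inv_mem _ hg')
  have hTres : ∀ s ∈ commutator Gal(Ω/K), AlgEquiv.restrictNormalHom H s = 1 := by
    have h1 : commutator Gal(Ω/K) ≤ (AlgEquiv.restrictNormalHom (F := K) (K₁ := Ω) H).ker := by
      rw [commutator_def, Subgroup.commutator_le]
      intro g _ g' _
      rw [MonoidHom.mem_ker, map_commutatorElement, commutatorElement_eq_one_iff_mul_comm]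
      exact mul_comm' _ _
    exact fun s hs => h1 hs
  have hTH : ∀ t ∈ T, ∀ x : H, t (algebraMap H Ω x) = algebraMap H Ω x := by
    intro t ht x
    rw [hTm] at ht
    obtain ⟨s, hs, rfl⟩ := ht
    rw [toG_apply, ← restrict_apply, hTres s hs]
    rfl
  obtain ⟨J, hJ, hJcard⟩ := exists_J hh hh32 hcc hTc hfree
  set y' : Ω := ((y : 𝓞 Ω) : Ω) with hy'
  have hy0 : y' ≠ 0 := by
    rw [hy']
    exact fun h => y.ne_zero (RingOfIntegers.ext h)
  -- `J` acts trivially on `H`, maps `y` to `± y`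
  have hpow : ∀ (g : Gal(Ω/ℚ)) (x : Ω), g x = x → ∀ n : ℕ, (g ^ n) x = x := by
    intro g x hx n
    induction n with
    | zero => rfl
    | succ n ih =>
      rw [pow_succ]
      change (g ^ n) (g x) = x
      rw [hx, ih]
  have hJH : ∀ g ∈ J, ∀ x : H, g (algebraMap H Ω x) = algebraMap H Ω x := by
    intro g hg x
    obtain ⟨i, j, t, ht, rfl⟩ := (hJ g).1 hg
    change (h₀ ^ i) ((c ^ j) (t (algebraMap H Ω x))) = _
    rw [hTH t ht, hpow c _ (hcH x), hpow h₀ _ (hhH x)]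
  have hhi : ∀ i : ℕ, (h₀ ^ i) y' = y' ∨ (h₀ ^ i) y' = - y' := by
    intro i
    induction i with
    | zero => left; rfl
    | succ i ih =>
      rw [pow_succ]
      change (h₀ ^ i) (h₀ y') = y' ∨ (h₀ ^ i) (h₀ y') = - y'
      rcases hhy with h | h <;> rw [h]
      · exact ih
      · rw [map_neg]
        rcases ih with h' | h' <;> rw [h']
        · right; rfl
        · left; rw [neg_neg]
  have hJy : ∀ g ∈ J, g y' = y' ∨ g y' = - y' := by
    intro g hg
    obtain ⟨i, j, t, ht, rfl⟩ := (hJ g).1 hg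
    change (h₀ ^ i) ((c ^ j) (t y')) = y' ∨ (h₀ ^ i) ((c ^ j) (t y')) = - y'
    rw [hty t ht, hpow c _ hcy]
    exact hhi i
  have hJK : J ≤ fixG K Ω := by
    intro g hg
    rw [mem_fixG]
    intro x
    rw [IsScalarTower.algebraMap_apply K H Ω, hJH g hg]
  -- everything in `B = Gal(Ω/K)`
  set res : Gal(Ω/K) →* Gal(H/K) := AlgEquiv.restrictNormalHom H with hres
  set J' : Subgroup Gal(Ω/K) := J.comap (toG K Ω) with hJ'
  have hJ'card : Nat.card J' = 64 * Nat.card T := by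
    rw [← hJcard]
    refine Nat.card_congr (Equiv.ofBijective (fun j => ⟨toG K Ω j, j.2⟩) ⟨?_, ?_⟩)
    · intro j j' h
      exact Subtype.ext (toG_injective (congrArg Subtype.val h))
    · rintro ⟨g, hg⟩
      obtain ⟨s, rfl⟩ := hJK hg
      exact ⟨⟨s, hg⟩, rfl⟩
  have hJ'res : ∀ j ∈ J', res j = 1 := by
    intro j hj
    ext x
    apply (algebraMap H Ω).injective
    rw [hres, restrict_apply]
    exact hJH _ hj x
  have hout : ∀ g : Gal(Ω/K), ∃ j ∈ J', (QuotientGroup.mk g : Gal(Ω/K) ⧸ J').out = g * j := by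
    intro g
    obtain ⟨j, hj⟩ := QuotientGroup.mk_out_eq_mul J' g
    exact ⟨j, j.2, hj⟩
  have hreal : ∀ g : Gal(Ω/K), c (g y') = g y' := by
    intro g
    have h1 : c * toG K Ω g = toG K Ω g * (⁅(toG K Ω g)⁻¹, c⁆ * c) := by
      rw [commutatorElement_def]; group
    have h2 : c (g y') = (c * toG K Ω g) y' := rfl
    rw [h2, h1]
    change g (⁅(toG K Ω g)⁻¹, c⁆ (c y')) = g y'
    rw [hcy, hty]
    exact Subgroup.commutator_mem_commutator (Subgroup.inv_mem _ ⟨g, rfl⟩) hcK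
  have hgy0 : ∀ g : Gal(Ω/K), g y' ≠ 0 := fun g h => hy0 (g.injective (by rw [h, map_zero]))
  have hyint : IsIntegral ℤ y' := RingOfIntegers.isIntegral_coe _
  have hyint' : IsIntegral ℤ y'⁻¹ := by
    have h1 : y'⁻¹ = (((y⁻¹ : (𝓞 Ω)ˣ) : 𝓞 Ω) : Ω) := by
      rw [inv_eq_iff_eq_inv, eq_comm]
      apply inv_eq_of_mul_eq_one_left
      have h2 : algebraMap (𝓞 Ω) Ω (y : 𝓞 Ω) * algebraMap (𝓞 Ω) Ω ((y⁻¹ : (𝓞 Ω)ˣ) : 𝓞 Ω) = 1 := by
        rw [← map_mul, Units.mul_inv, map_one]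
      exact h2
    rw [h1]
    exact RingOfIntegers.isIntegral_coe _
  have hmapint : ∀ (g : Gal(Ω/K)) {u : Ω}, IsIntegral ℤ u → IsIntegral ℤ (g u) := by
    intro g u hu
    exact hu.map (g : Ω →ₐ[K] Ω).toRingHom.toIntAlgHom
  -- the products
  set S : Gal(H/K) → Finset (Gal(Ω/K) ⧸ J') := fun σ =>
    Finset.univ.filter fun q => res q.out = σ with hS
  have hSm : ∀ σ q, q ∈ S σ ↔ res q.out = σ := by
    intro σ q
    simp [hS]
  set Y : Gal(H/K) → Ω := fun σ => ∏ q ∈ S σ, (q.out : Gal(Ω/K)) y' with hY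
  have hYdef : ∀ σ, Y σ = ∏ q ∈ S σ, (q.out : Gal(Ω/K)) y' := fun σ => rfl
  have hsqout : ∀ g : Gal(Ω/K), ((QuotientGroup.mk g : Gal(Ω/K) ⧸ J').out y') ^ 2 = (g y') ^ 2 := by
    intro g
    obtain ⟨j, hj, h⟩ := hout g
    rw [h]
    change (g (toG K Ω j y')) ^ 2 = _
    rcases hJy _ hj with h' | h' <;> rw [h']
    rw [map_neg, neg_sq]
  have hresout : ∀ g : Gal(Ω/K), res (QuotientGroup.mk g : Gal(Ω/K) ⧸ J').out = res g := by
    intro g
    obtain ⟨j, hj, h⟩ := hout g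
    rw [h, map_mul, hJ'res j hj, mul_one]
  have hequi : ∀ (τ : Gal(Ω/K)) (σ : Gal(H/K)), τ (Y σ ^ 2) = Y (res τ * σ) ^ 2 := by
    intro τ σ
    rw [hYdef, hYdef, ← Finset.prod_pow, ← Finset.prod_pow, map_prod]
    refine Finset.prod_bij (fun q _ => (QuotientGroup.mk (τ * q.out) : Gal(Ω/K) ⧸ J')) ?_ ?_ ?_ ?_
    · intro q hq
      rw [hSm] at hq ⊢
      rw [hresout, map_mul, hq]
    · intro q _ q' _ h
      rw [QuotientGroup.eq] at h
      have h1 : (τ * q.out)⁻¹ * (τ * q'.out) = q.out⁻¹ * q'.out := by group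
      rw [h1, ← QuotientGroup.eq, QuotientGroup.out_eq', QuotientGroup.out_eq'] at h
      exact h
    · intro q hq
      refine ⟨QuotientGroup.mk (τ⁻¹ * q.out), ?_, ?_⟩
      · rw [hSm] at hq ⊢
        rw [hresout, map_mul, hq, map_inv, inv_mul_cancel_left]
      · obtain ⟨j, hj, h⟩ := hout (τ⁻¹ * q.out)
        rw [h, ← mul_assoc, mul_inv_cancel_left, QuotientGroup.mk_mul_of_mem _ hj,
          QuotientGroup.out_eq']
    · intro q _
      rw [hsqout, map_pow]
      rfl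
  have hY0 : ∀ σ, Y σ ≠ 0 := fun σ => Finset.prod_ne_zero_iff.2 fun q _ => hgy0 _
  have hYint : ∀ σ, IsIntegral ℤ (Y σ) := fun σ => IsIntegral.prod _ fun q _ => hmapint _ hyint
  have hYint' : ∀ σ, IsIntegral ℤ (Y σ)⁻¹ := by
    intro σ
    rw [hYdef, ← Finset.prod_inv_distrib]
    refine IsIntegral.prod _ fun q _ => ?_
    rw [← map_inv₀]
    exact hmapint _ hyint'
  -- descent to `H`
  have hdesc : ∀ σ, ∃ u : (𝓞 H)ˣ, algebraMap H Ω (u : 𝓞 H) = Y σ ^ 2 := by
    intro σ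
    have h1 : ∀ ρ : Gal(Ω/H), ρ (Y σ ^ 2) = Y σ ^ 2 := by
      intro ρ
      have h2 := hequi (ρ.restrictScalars K) σ
      have h3 : res (ρ.restrictScalars K) = 1 := by
        ext y
        apply (algebraMap H Ω).injective
        rw [hres, restrict_apply]
        exact ρ.commutes y
      rw [h3, one_mul] at h2
      exact h2
    obtain ⟨v, hv'⟩ := (InfiniteGalois.mem_range_algebraMap_iff_fixed (Y σ ^ 2)).mpr h1
    have hinj : Function.Injective (algebraMap H Ω) := (algebraMap H Ω).injective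
    have hvint : IsIntegral ℤ v := by
      have := (hYint σ).pow 2
      rw [← hv'] at this
      exact (isIntegral_algebraMap_iff (A := H) (B := Ω) hinj).1 this
    have hvint' : IsIntegral ℤ v⁻¹ := by
      have := (hYint' σ).pow 2
      rw [inv_pow, ← hv', ← map_inv₀] at this
      exact (isIntegral_algebraMap_iff (A := H) (B := Ω) hinj).1 this
    have hv0 : v ≠ 0 := by
      rintro rfl
      rw [map_zero] at hv'
      exact pow_ne_zero 2 (hY0 σ) hv'.symm
    refine ⟨⟨⟨v, hvint⟩, ⟨v⁻¹, hvint'⟩, ?_, ?_⟩, hv'⟩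
    · apply RingOfIntegers.ext
      change v * v⁻¹ = 1
      exact mul_inv_cancel₀ hv0
    · apply RingOfIntegers.ext
      change v⁻¹ * v = 1
      exact inv_mul_cancel₀ hv0
  choose u hu using hdesc
  refine ⟨u, ?_, ?_, ?_, ?_⟩
  · -- the derivative formula
    intro σ
    set Ψ : Gal(Ω/K) → ℝ := fun g => Real.log ‖ι (g y')‖ with hΨ
    have hΨj : ∀ g, ∀ j ∈ J', Ψ (g * j) = Ψ g := by
      intro g j hj
      change Real.log ‖ι (g (toG K Ω j y'))‖ = Real.log ‖ι (g y')‖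
      rcases hJy _ hj with h' | h' <;> rw [h']
      rw [map_neg, map_neg, norm_neg]
    have hs1 := sum_coset J' (fun g => if res g = σ then Ψ g else 0) (by
      intro g j hj
      simp only [map_mul, hJ'res j hj, mul_one, hΨj g j hj])
    obtain ⟨k, hk⟩ := hh₀K
    have hkH : res k = 1 := by
      ext x
      apply (algebraMap H Ω).injective
      rw [hres, restrict_apply, ← toG_apply, hk, hhH]
      rfl
    set S₀ : ℝ := ∑ g : Gal(Ω/K), if res g = σ then Φ (toG K Ω g) else 0 with hS₀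
    have hs2 : ∑ g : Gal(Ω/K), (if res g = σ then Ψ g else 0) = 32 * S₀ := by
      have h1 : ∀ g : Gal(Ω/K), (if res g = σ then Ψ g else 0) =
          ∑ i ∈ Finset.range 32, if res (g * k ^ i) = σ then Φ (toG K Ω (g * k ^ i)) else 0 := by
        intro g
        have h2 : Ψ g = ∑ i ∈ Finset.range 32, Φ (toG K Ω g * h₀ ^ i) := congrFun hy (toG K Ω g)
        have h3 : ∀ i, res (g * k ^ i) = res g := by
          intro i
          rw [map_mul, map_pow, hkH, one_pow, mul_one]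
        by_cases h : res g = σ
        · rw [if_pos h, h2]
          refine Finset.sum_congr rfl fun i _ => ?_
          rw [h3, if_pos h, map_mul, map_pow, hk]
        · rw [if_neg h]
          symm
          refine Finset.sum_eq_zero fun i _ => ?_
          rw [h3, if_neg h]
      rw [Finset.sum_congr rfl fun g _ => h1 g, Finset.sum_comm]
      have h4 : ∀ i ∈ Finset.range 32, (∑ g : Gal(Ω/K),
          if res (g * k ^ i) = σ then Φ (toG K Ω (g * k ^ i)) else 0) = S₀ := by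
        intro i _
        exact Fintype.sum_equiv (Equiv.mulRight (k ^ i)) _ _ (fun g => rfl)
      rw [Finset.sum_congr rfl h4, Finset.sum_const, Finset.card_range, nsmul_eq_mul]
      norm_num
    have hs3 : (∑ᶠ s : {s : Gal(Ω/K) // ∀ x : H, s (algebraMap H Ω x) = algebraMap H Ω (σ x)},
        Φ (toG K Ω s)) = S₀ := by
      rw [finsum_eq_sum_of_fintype, hS₀, ← Finset.sum_filter]
      symm
      refine Finset.sum_subtype _ (fun s => ?_) _
      simp only [Finset.mem_filter, Finset.mem_univ, true_and]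
      constructor
      · intro h x
        rw [← restrict_apply, ← h]
      · intro h
        ext x
        apply (algebraMap H Ω).injective
        rw [hres, restrict_apply, h]
    have hs4 := hG σ
    rw [hs3] at hs4
    rw [hs2, hJ'card] at hs1
    have hT0 : (Nat.card T : ℂ) ≠ 0 := by
      have : 0 < Nat.card T := Nat.card_pos
      exact_mod_cast this.ne'
    have hs5 : ∑ q : Gal(Ω/K) ⧸ J', (if res q.out = σ then Ψ q.out else 0) =
        ∑ q ∈ S σ, Ψ q.out := by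
      rw [hS, Finset.sum_filter]
    rw [hs5] at hs1
    have hs6 : -(deriv (G σ) 0 - deriv (G (R * σ)) 0) = ((∑ q ∈ S σ, 2 * Ψ q.out : ℝ) : ℂ) := by
      apply mul_left_cancel₀ hT0
      rw [← Finset.mul_sum]
      have h1 : (Nat.card T : ℂ) * -(deriv (G σ) 0 - deriv (G (R * σ)) 0) = (S₀ : ℂ) := by
        rw [hs4]; ring
      rw [h1]
      have h2 := congrArg (fun r : ℝ => (r : ℂ)) hs1
      push_cast at h2 ⊢
      linear_combination (1 / 32 : ℂ) * h2
    rw [hs6, ← Complex.ofReal_exp, Real.exp_sum, hu, hYdef, map_pow, map_prod, ← Finset.prod_pow]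
    push_cast
    refine Finset.prod_congr rfl fun q _ => ?_
    have hre : ι ((q.out : Gal(Ω/K)) y') = ((ι ((q.out : Gal(Ω/K)) y')).re : ℂ) := by
      symm
      rw [← Complex.conj_eq_iff_re, ← hc, hreal]
    have hne : ‖ι ((q.out : Gal(Ω/K)) y')‖ ≠ 0 := by
      rw [norm_ne_zero_iff]
      exact fun h => hgy0 q.out (ι.injective (by rw [h, map_zero]))
    have hexp : Real.exp (2 * Ψ q.out) = (ι ((q.out : Gal(Ω/K)) y')).re ^ 2 := by
      have h1 : 2 * Ψ q.out = Real.log (‖ι ((q.out : Gal(Ω/K)) y')‖ ^ 2) := by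
        rw [Real.log_pow]
        push_cast
        rfl
      rw [h1, Real.exp_log (by positivity), hre, Complex.norm_real, Real.norm_eq_abs, sq_abs,
        Complex.ofReal_re]
    have h1 : Complex.exp (2 * (Ψ q.out : ℂ)) = ((Real.exp (2 * Ψ q.out) : ℝ) : ℂ) := by
      push_cast
      rfl
    rw [h1, hexp, hre]
    push_cast
    rw [Complex.ofReal_re]
  · -- equivariance
    intro ρ σ
    apply (algebraMap H Ω).injective
    change algebraMap H Ω (ρ ((u σ : (𝓞 H)ˣ) : 𝓞 H)) =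
      algebraMap H Ω ((u (ρ * σ) : (𝓞 H)ˣ) : 𝓞 H)
    obtain ⟨s, hs⟩ := AlgEquiv.restrictNormalHom_surjective (F := K) (K₁ := H) Ω ρ
    have h1 := restrict_apply (M := Ω) s (((u σ : (𝓞 H)ˣ) : 𝓞 H) : H)
    rw [hs] at h1
    rw [h1, hu, hu, hequi, hres, hs]
  · -- the square roots
    let E : IntermediateField K Ω := IntermediateField.fixedField (commutator Gal(Ω/K))
    have hE : ∀ x : Ω, x ∈ E ↔ ∀ s ∈ commutator Gal(Ω/K), s x = x := by
      intro x
      exact ⟨fun h s hs => h ⟨s, hs⟩, fun h s => h s s.2⟩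
    have hHE : ∀ x : H, algebraMap H Ω x ∈ E := by
      intro x
      rw [hE]
      intro s hs
      rw [← restrict_apply, hTres s hs]
      rfl
    let fE : H →+* E :=
      { toFun := fun x => ⟨algebraMap H Ω x, hHE x⟩
        map_one' := Subtype.ext (map_one _)
        map_zero' := Subtype.ext (map_zero _)
        map_mul' := fun a b => Subtype.ext (map_mul _ a b)
        map_add' := fun a b => Subtype.ext (map_add _ a b) }
    refine ⟨E, inferInstance, inferInstance, fE.toAlgebra, ?_, ?_, ?_⟩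
    · let _ := fE.toAlgebra
      refine IsScalarTower.of_algebraMap_eq fun x => ?_
      apply Subtype.ext
      change algebraMap K Ω x = algebraMap H Ω (algebraMap K H x)
      rw [IsScalarTower.algebraMap_apply K H Ω]
    · have hgal : IsGalois K E := IsGalois.of_fixedField_normal_subgroup _
      refine { hgal with is_comm := ⟨?_⟩ }
      intro s₁ s₂
      obtain ⟨r₁, rfl⟩ := AlgEquiv.restrictNormalHom_surjective (F := K) (K₁ := E) Ω s₁
      obtain ⟨r₂, rfl⟩ := AlgEquiv.restrictNormalHom_surjective (F := K) (K₁ := E) Ω s₂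
      rw [← commutatorElement_eq_one_iff_mul_comm, ← map_commutatorElement]
      ext x
      rw [AlgEquiv.restrictNormalHom_apply]
      have h1 := (hE x).1 x.2 ⁅r₁, r₂⁆ (by
        rw [commutator_def]
        exact Subgroup.commutator_mem_commutator (Subgroup.mem_top _) (Subgroup.mem_top _))
      rw [h1]
      rfl
    · intro σ
      have hYE : Y σ ∈ E := by
        rw [hE]
        intro s hs
        rw [hYdef, map_prod]
        refine Finset.prod_congr rfl fun q _ => ?_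
        have hsT : toG K Ω s ∈ T := by
          rw [hTm]
          exact ⟨s, hs, rfl⟩
        have h1 : s (q.out y') = (toG K Ω s * toG K Ω q.out) y' := rfl
        rw [h1, hTc _ hsT]
        change q.out (toG K Ω s y') = q.out y'
        rw [hty _ hsT]
      refine ⟨⟨Y σ, hYE⟩, ?_⟩
      apply Subtype.ext
      change Y σ ^ 2 = algebraMap H Ω ((u σ : 𝓞 H) : H)
      rw [hu]
  · -- the other embeddings
    intro g ⟨x₀, hx₀⟩
    obtain ⟨γ, hγ⟩ : ∃ γ : Gal(Ω/ℚ), ∀ y : H, g y = ι (γ (algebraMap H Ω y)) := by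
      let _ : Algebra H ℂ := g.toAlgebra
      have : Algebra.IsAlgebraic H Ω := Algebra.IsAlgebraic.of_finite H Ω
      obtain ⟨γ, hγ⟩ := exists_comp ι (IsAlgClosed.lift : Ω →ₐ[H] ℂ).toRingHom
      refine ⟨γ, fun y => ?_⟩
      rw [← hγ]
      exact ((IsAlgClosed.lift : Ω →ₐ[H] ℂ).commutes y).symm
    have hγK : γ ∉ fixG K Ω := by
      intro h
      rw [mem_fixG] at h
      apply hx₀
      rw [hγ, ← IsScalarTower.algebraMap_apply, h]
    constructor
    · intro x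
      rw [hγ, hγ, hR, ← hc]
      congr 1
      have hKidx : ∃ α ∈ fixG K Ω, γ⁻¹ = α * b := by
        refine ⟨γ⁻¹ * b⁻¹, ?_, by group⟩
        rw [Subgroup.mul_mem_iff_of_index_two (fixG_index (M := Ω) hK), inv_mem_iff, inv_mem_iff]
        exact ⟨fun h => absurd h hγK, fun h => absurd h hb⟩
      obtain ⟨α, hα, hγα⟩ := hKidx
      have h1 : ⁅γ⁻¹, c⁆ = ⁅b, c⁆ * ⁅α, c⁆ := by
        have h2 : ⁅γ⁻¹, c⁆ = α * ⁅b, c⁆ * α⁻¹ * ⁅α, c⁆ := by
          rw [hγα]
          simp only [commutatorElement_def]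
          group
        rw [h2, ← hcomm b c α, mul_inv_cancel_right]
      have h3 : c * γ = γ * (⁅γ⁻¹, c⁆ * c) := by
        rw [commutatorElement_def]; group
      have h4 : c (γ (algebraMap H Ω x)) = (c * γ) (algebraMap H Ω x) := rfl
      rw [h4, h3, h1]
      change γ (⁅b, c⁆ (algebraMap H Ω x)) = γ (⁅b, c⁆ (⁅α, c⁆ (c (algebraMap H Ω x))))
      rw [hcH, hTH _ (Subgroup.commutator_mem_commutator hα hcK)]
    · intro σ
      rw [hγ, hu, hYdef, ← Finset.prod_pow, map_prod, map_prod, norm_prod]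
      refine Finset.prod_eq_one fun q _ => ?_
      rw [map_pow, map_pow, norm_pow]
      have h1 : ‖ι (γ (q.out y'))‖ = 1 := by
        have h2 := congrFun hy (γ * toG K Ω q.out)
        have h3 : ∑ i ∈ Finset.range 32, Φ (γ * toG K Ω q.out * h₀ ^ i) = 0 := by
          refine Finset.sum_eq_zero fun i _ => hΦ0 _ ?_
          intro h4
          apply hγK
          have h5 : toG K Ω q.out * h₀ ^ i ∈ fixG K Ω :=
            Subgroup.mul_mem _ ⟨_, rfl⟩ (Subgroup.pow_mem _ hh₀K i)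
          rw [mul_assoc] at h4
          exact (Subgroup.mul_mem_cancel_right _ h5).1 h4
        rw [h3] at h2
        have h6 : Real.log ‖ι (γ (q.out y'))‖ = 0 := h2
        have h7 : ‖ι (γ (q.out y'))‖ ≠ 0 := by
          rw [norm_ne_zero_iff]
          exact fun h => hgy0 q.out (γ.injective (ι.injective (by rw [h, map_zero, map_zero])))
        exact Real.eq_one_of_pos_of_log_eq_zero (by positivity) h6
      rw [h1, one_pow]

end Pool.Agent.StarkRQ.Oct
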