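import Pool.Agent.StarkRQ.Oct.GDefs

/-!
# Groups with a commutator subgroup of maximal order are `Big`

Let `Z` be the center, `G/Z` elementary abelian of order `2^d`, `C` the commutator subgroup,
`|C| = 2^(d(d-1)/2)`. Commutators are central (see the proof of `Big.comm`, it uses `hsq` only),
`(g, h) ↦ ⁅g, h⁆` is bimultiplicative, alternating, of exponent `2`, so `C` is an elementary abelian
`2`-group, generated by the commutators.

Let `Alt` be the set of the functions `β : G → G → ℤˣ` which are bimultiplicative, with `β g g = 1`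
and `β x g = β g x = 1` for `x ∈ Z`. There are `x_1, ..., x_d ∈ G` such that `G` is generated by `Z` and
the `x_i` (a basis of the `ZMod 2`-vector space `G/Z`; or induction). So `β ↦ (β x_i x_j)_(i<j)` is
injective on `Alt` (`β h g = (β g h)⁻¹ = β g h`), and `|Alt| ≤ 2^(d(d-1)/2)`. The map
`(C →* ℤˣ) → Alt`, `κ ↦ (g, h) ↦ κ ⁅g, h⁆` is injective, and `|C →* ℤˣ| = |C| = 2^(d(d-1)/2)`. So it is
bijective, and `wedge p q ∈ Alt` (a finite check of signs).
-/

open scoped commutatorElement

namespace Pool.Agent.StarkRQ.Oct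

private theorem exists_gens {G : Type*} [Group G] [Finite G] (k : ℕ) :
    ∀ H : Subgroup G, H.index ≤ 2 ^ k → ∃ x : Fin k → G,
      Subgroup.closure ((H : Set G) ∪ Set.range x) = ⊤ := by
  induction k with
  | zero =>
    intro H hH
    refine ⟨Fin.elim0, ?_⟩
    have h0 : H.index ≠ 0 := Subgroup.index_ne_zero_of_finite
    have h1 : H.index = 1 := by
      rw [pow_zero] at hH; omega
    rw [Subgroup.index_eq_one] at h1
    rw [h1, eq_top_iff]
    intro g _
    exact Subgroup.subset_closure (Or.inl trivial)
  | succ k ih =>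
    intro H hH
    by_cases hT : H = ⊤
    · refine ⟨fun _ => 1, ?_⟩
      rw [hT, eq_top_iff]
      intro g _
      exact Subgroup.subset_closure (Or.inl trivial)
    · obtain ⟨y, -, hy⟩ := SetLike.exists_of_lt (lt_top_iff_ne_top.2 hT)
      have hle : H ≤ H ⊔ Subgroup.zpowers y := le_sup_left
      have hidx : (H ⊔ Subgroup.zpowers y).index ≤ 2 ^ k := by
        obtain ⟨m, hm⟩ := Subgroup.index_dvd_of_le hle
        have h0 : H.index ≠ 0 := Subgroup.index_ne_zero_of_finite
        have h1 : m ≠ 1 := by
          rintro rfl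
          rw [mul_one] at hm
          have h2 : H = H ⊔ Subgroup.zpowers y := by
            refine Subgroup.eq_of_le_of_card_ge hle ?_
            have h3 := H.card_mul_index
            have h4 := (H ⊔ Subgroup.zpowers y).card_mul_index
            rw [hm, ← h4] at h3
            exact (Nat.eq_of_mul_eq_mul_right (Nat.pos_of_ne_zero
              Subgroup.index_ne_zero_of_finite) h3).ge
          apply hy
          rw [h2]
          exact (le_sup_right : Subgroup.zpowers y ≤ _) (Subgroup.mem_zpowers y)
        have h2 : m ≠ 0 := by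
          rintro rfl
          exact h0 (by rw [hm, mul_zero])
        have h3 : 2 ≤ m := by omega
        have h4 : (H ⊔ Subgroup.zpowers y).index * 2 ≤ 2 ^ k * 2 := by
          rw [← pow_succ]
          refine le_trans ?_ hH
          rw [hm]
          exact Nat.mul_le_mul_left _ h3
        exact Nat.le_of_mul_le_mul_right h4 two_pos
      obtain ⟨x, hx⟩ := ih _ hidx
      refine ⟨Fin.cons y x, ?_⟩
      rw [eq_top_iff, ← hx, Subgroup.closure_le]
      rintro g (hg | ⟨i, rfl⟩)
      · revert hg
        change g ∈ H ⊔ Subgroup.zpowers y → g ∈ Subgroup.closure _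
        apply show H ⊔ Subgroup.zpowers y ≤ Subgroup.closure _ from ?_
        refine sup_le (fun z hz => Subgroup.subset_closure (Or.inl hz)) ?_
        rw [Subgroup.zpowers_le]
        exact Subgroup.subset_closure (Or.inr ⟨0, rfl⟩)
      · exact Subgroup.subset_closure (Or.inr ⟨i.succ, by simp⟩)

/-- an induction principle for properties of pairs -/
private theorem pair_induction {G : Type*} [Group G] {H : Subgroup G} {d : ℕ} {x : Fin d → G}
    (hx : Subgroup.closure ((H : Set G) ∪ Set.range x) = ⊤) {P : G → G → Prop}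
    (hmul : ∀ g g' h, P g h → P g' h → P (g * g') h) (hinv : ∀ g h, P g h → P g⁻¹ h)
    (hsymm : ∀ g h, P g h → P h g) (hH : ∀ z ∈ H, ∀ h, P z h) (hdiag : ∀ i, P (x i) (x i))
    (hlt : ∀ i j, i < j → P (x i) (x j)) (g h : G) : P g h := by
  have hxx : ∀ i j, P (x i) (x j) := by
    intro i j
    rcases lt_trichotomy i j with hij | rfl | hij
    · exact hlt i j hij
    · exact hdiag i
    · exact hsymm _ _ (hlt j i hij)
  have key : ∀ h, (∀ i, P (x i) h) → ∀ g, P g h := by
    intro h hh g
    have hg : g ∈ Subgroup.closure ((H : Set G) ∪ Set.range x) := by rw [hx]; trivial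
    refine Subgroup.closure_induction (p := fun g _ => P g h) ?_ ?_ ?_ ?_ hg
    · rintro g (hg | ⟨i, rfl⟩)
      · exact hH g hg h
      · exact hh i
    · exact hH 1 H.one_mem h
    · intro a b _ _ ha hb
      exact hmul _ _ _ ha hb
    · intro a _ ha
      exact hinv _ _ ha
  exact key h (fun i => hsymm _ _ (key (x i) (fun j => hxx j i) h)) g

private theorem w_mul : ∀ p p' q q' r s : ℤˣ,
    (if p * p' = -1 then s else 1) * (if r = -1 then q * q' else 1) =
      ((if p = -1 then s else 1) * (if r = -1 then q else 1)) *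
      ((if p' = -1 then s else 1) * (if r = -1 then q' else 1)) := by
  decide

private theorem wedge_mul {G : Type*} [Group G] (p q : G →* ℤˣ) (g g' h : G) :
    wedge p q (g * g') h = wedge p q g h * wedge p q g' h := by
  unfold wedge
  rw [map_mul, map_mul]
  exact w_mul _ _ _ _ _ _

private theorem wedge_symm {G : Type*} [Group G] (p q : G →* ℤˣ) (g h : G) :
    wedge p q h g = wedge p q g h := by
  unfold wedge
  rw [mul_comm]

private theorem wedge_one {G : Type*} [Group G] (p q : G →* ℤˣ) {g : G} (hp : p g = 1)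
    (hq : q g = 1) (h : G) : wedge p q g h = 1 := by
  unfold wedge
  rw [hp, hq, if_neg (by decide), ite_self, one_mul]

private theorem wedge_self {G : Type*} [Group G] (p q : G →* ℤˣ) (g : G) :
    wedge p q g g = 1 := by
  unfold wedge
  rw [← sq, Int.units_sq]

private theorem wedge_inv {G : Type*} [Group G] (p q : G →* ℤˣ) (g h : G) :
    wedge p q g⁻¹ h = (wedge p q g h)⁻¹ := by
  rw [eq_inv_iff_mul_eq_one, ← wedge_mul, inv_mul_cancel]
  exact wedge_one p q (map_one p) (map_one q) h

private theorem card_idx (d : ℕ) : Fintype.card (Σ j : Fin d, Fin j) = d * (d - 1) / 2 := by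
  rw [Fintype.card_sigma]
  simp only [Fintype.card_fin]
  rw [Fin.sum_univ_eq_sum_range (fun i => i) d, Finset.sum_range_id]

theorem big_of_card {G : Type*} [Group G] [Finite G] (hsq : ∀ g x : G, g * g * x = x * (g * g))
    {d : ℕ} (hidx : (Subgroup.center G).index = 2 ^ d)
    (hcard : Nat.card (commutator G) = 2 ^ (d * (d - 1) / 2)) : Big G := by
  have hsq' : ∀ g : G, g * g ∈ Subgroup.center G := fun g =>
    Subgroup.mem_center_iff.2 fun x => (hsq g x).symm
  have hcc : ∀ g h x : G, ⁅g, h⁆ * x = x * ⁅g, h⁆ := by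
    intro g h x
    have e1 : ⁅g, h⁆ = (g * h) * (g * h) * ((h⁻¹ * g⁻¹ * h) * (h⁻¹ * g⁻¹ * h)) *
        (h⁻¹ * h⁻¹) := by
      rw [commutatorElement_def]; group
    have hm : ⁅g, h⁆ ∈ Subgroup.center G := by
      rw [e1]
      exact Subgroup.mul_mem _ (Subgroup.mul_mem _ (hsq' _) (hsq' _)) (hsq' _)
    exact (Subgroup.mem_center_iff.1 hm x).symm
  have hml : ∀ g g' h : G, ⁅g * g', h⁆ = ⁅g, h⁆ * ⁅g', h⁆ := by
    intro g g' h
    have h1 : ⁅g * g', h⁆ = g * ⁅g', h⁆ * g⁻¹ * ⁅g, h⁆ := by
      simp only [commutatorElement_def]; group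
    rw [h1, ← hcc g' h g, mul_inv_cancel_right, hcc g' h]
  have hcsq : ∀ g h : G, ⁅g, h⁆ * ⁅g, h⁆ = 1 := by
    intro g h
    rw [← hml]
    rw [commutatorElement_def, hsq, mul_assoc h, mul_inv_cancel, mul_one, mul_inv_cancel]
  have hcinv : ∀ g h : G, ⁅g, h⁆⁻¹ = ⁅g, h⁆ := fun g h =>
    inv_eq_of_mul_eq_one_left (hcsq g h)
  have hcs : ∀ g h : G, ⁅g, h⁆ = ⁅h, g⁆ := fun g h => by
    rw [← hcinv g h, commutatorElement_inv]
  have hcz : ∀ z ∈ Subgroup.center G, ∀ h : G, ⁅z, h⁆ = 1 := by
    intro z hz h
    rw [commutatorElement_eq_one_iff_mul_comm]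
    exact (Subgroup.mem_center_iff.1 hz h).symm
  have hcinvl : ∀ g h : G, ⁅g⁻¹, h⁆ = ⁅g, h⁆⁻¹ := by
    intro g h
    rw [eq_inv_iff_mul_eq_one, ← hml, inv_mul_cancel, commutatorElement_one_left]
  have hcen : ∀ t ∈ commutator G, ∀ x : G, t * x = x * t := by
    intro t ht x
    have h1 : commutator G ≤ Subgroup.center G := by
      rw [commutator_def, Subgroup.commutator_le]
      intro g _ h _
      exact Subgroup.mem_center_iff.2 fun x => (hcc g h x).symm
    exact (Subgroup.mem_center_iff.1 (h1 ht) x).symm
  have hord : ∀ t ∈ commutator G, t * t = 1 := by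
    intro t ht
    rw [commutator_def] at ht
    refine Subgroup.closure_induction (p := fun t _ => t * t = 1) ?_ ?_ ?_ ?_ ht
    · rintro x ⟨g, -, h, -, rfl⟩
      exact hcsq g h
    · rw [mul_one]
    · intro x y hx _ h1 h2
      have hx' : x ∈ commutator G := by rw [commutator_def]; exact hx
      have h3 : x * y * (x * y) = (x * x) * (y * y) := by
        rw [mul_assoc, ← mul_assoc y x y, ← hcen x hx' y]
        group
      rw [h3, h1, h2, mul_one]
    · intro x _ h1
      rw [← mul_inv_rev, h1, inv_one]
  refine ⟨hsq, fun p q hp hq => ?_⟩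
  obtain ⟨x, hx⟩ := exists_gens d (Subgroup.center G) hidx.le
  let iC : CommGroup (commutator G) :=
    { (inferInstance : Group (commutator G)) with
      mul_comm := fun a b => Subtype.ext (hcen a a.2 b) }
  let iM : Module (ZMod 2) (Additive (commutator G)) := AddCommGroup.zmodModule (fun a => by
    rw [two_nsmul]
    exact Subtype.ext (hord _ (Additive.toMul a).2))
  let cm : G → G → Additive (commutator G) := fun g h => Additive.ofMul ⟨⁅g, h⁆, comm_mem g h⟩
  let v : (Σ j : Fin d, Fin j) → Additive (commutator G) :=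
    fun s => cm (x ⟨s.2, s.2.2.trans s.1.2⟩) (x s.1)
  have hcm : ∀ g h, cm g h ∈ Submodule.span (ZMod 2) (Set.range v) := by
    refine pair_induction hx (P := fun g h => cm g h ∈ Submodule.span (ZMod 2) (Set.range v))
      ?_ ?_ ?_ ?_ ?_ ?_
    · intro g g' h h1 h2
      have h3 : cm (g * g') h = cm g h + cm g' h := Subtype.ext (hml g g' h)
      rw [h3]
      exact Submodule.add_mem _ h1 h2
    · intro g h h1
      have h3 : cm g⁻¹ h = - cm g h := Subtype.ext (hcinvl g h)
      rw [h3]
      exact Submodule.neg_mem _ h1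
    · intro g h h1
      have h3 : cm h g = cm g h := Subtype.ext (hcs h g)
      rw [h3]
      exact h1
    · intro z hz h
      have h3 : cm z h = 0 := Subtype.ext (hcz z hz h)
      rw [h3]
      exact Submodule.zero_mem _
    · intro i
      have h3 : cm (x i) (x i) = 0 := Subtype.ext (commutatorElement_self _)
      rw [h3]
      exact Submodule.zero_mem _
    · intro i j hij
      exact Submodule.subset_span ⟨⟨j, ⟨i, hij⟩⟩, rfl⟩
  have hspan : ⊤ ≤ Submodule.span (ZMod 2) (Set.range v) := by
    rintro ⟨t, ht⟩ -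
    have ht' := ht
    rw [commutator_def] at ht'
    have := Subgroup.closure_induction (p := fun t _ => ∀ ht : t ∈ commutator G,
      (Additive.ofMul ⟨t, ht⟩ : Additive (commutator G)) ∈
        Submodule.span (ZMod 2) (Set.range v)) ?_ ?_ ?_ ?_ ht' ht
    · exact this
    · rintro _ ⟨g, -, h, -, rfl⟩ ht
      exact hcm g h
    · intro ht
      exact Submodule.zero_mem _
    · intro a b ha hb h1 h2 ht
      have ha' : a ∈ commutator G := by rw [commutator_def]; exact ha
      have hb' : b ∈ commutator G := by rw [commutator_def]; exact hb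
      exact Submodule.add_mem _ (h1 ha') (h2 hb')
    · intro a ha h1 ht
      have ha' : a ∈ commutator G := by rw [commutator_def]; exact ha
      exact Submodule.neg_mem _ (h1 ha')
  have hfr : Fintype.card (Σ j : Fin d, Fin j) =
      Module.finrank (ZMod 2) (Additive (commutator G)) := by
    rw [card_idx]
    have h1 : Nat.card (Additive (commutator G)) = 2 ^ (d * (d - 1) / 2) := hcard
    have : Finite (Additive (commutator G)) := inferInstanceAs (Finite (commutator G))
    have h2 := Module.natCard_eq_pow_finrank (K := ZMod 2) (V := Additive (commutator G))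
    rw [h1, Nat.card_zmod] at h2
    exact Nat.pow_right_injective le_rfl h2
  let b := basisOfTopLeSpanOfCardEqFinrank v hspan hfr
  have hb : ∀ s, b s = v s := fun s => by
    simp only [b, coe_basisOfTopLeSpanOfCardEqFinrank]
  let f : Additive (commutator G) →ₗ[ZMod 2] Additive ℤˣ :=
    b.constr ℕ fun s => Additive.ofMul (wedge p q (x ⟨s.2, s.2.2.trans s.1.2⟩) (x s.1))
  have hf : ∀ s, f (v s) =
      Additive.ofMul (wedge p q (x ⟨s.2, s.2.2.trans s.1.2⟩) (x s.1)) := fun s => by
    rw [← hb s]
    exact b.constr_basis ℕ _ s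
  have key : ∀ g h, f (cm g h) = Additive.ofMul (wedge p q g h) := by
    refine pair_induction hx (P := fun g h => f (cm g h) = Additive.ofMul (wedge p q g h))
      ?_ ?_ ?_ ?_ ?_ ?_
    · intro g g' h h1 h2
      have h3 : cm (g * g') h = cm g h + cm g' h := Subtype.ext (hml g g' h)
      rw [h3, map_add, h1, h2, wedge_mul]
      rfl
    · intro g h h1
      have h3 : cm g⁻¹ h = - cm g h := Subtype.ext (hcinvl g h)
      rw [h3, map_neg, h1, wedge_inv]
      rfl
    · intro g h h1
      have h3 : cm h g = cm g h := Subtype.ext (hcs h g)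
      rw [h3, h1, wedge_symm]
    · intro z hz h
      have h3 : cm z h = 0 := Subtype.ext (hcz z hz h)
      rw [h3, map_zero, wedge_one p q (hp z hz) (hq z hz)]
      rfl
    · intro i
      have h3 : cm (x i) (x i) = 0 := Subtype.ext (commutatorElement_self _)
      rw [h3, map_zero, wedge_self]
      rfl
    · intro i j hij
      exact hf ⟨j, ⟨i, hij⟩⟩
  refine ⟨{ toFun := fun c => Additive.toMul (f (Additive.ofMul c))
            map_one' := congrArg Additive.toMul (map_zero f)
            map_mul' := fun c c' =>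
              congrArg Additive.toMul (map_add f (Additive.ofMul c) (Additive.ofMul c')) },
    fun g h hm => congrArg Additive.toMul (key g h)⟩

end Pool.Agent.StarkRQ.Oct
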