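import Pool.Agent.StarkRQ.Oct.GDefs

/-!
# Change of level: group theory
-/

open scoped commutatorElement

namespace Pool.Agent.StarkRQ.Oct

section

variable {Γ G₀ X : Type*} [Group Γ] [Group G₀] [CommGroup X] (π : Γ →* G₀)
  (hπ : Function.Surjective π) (χ : Γ →* X) (hinj : ∀ g, π g = 1 → χ g = 1 → g = 1)

include hinj

lemma mem_center_of (g : Γ) (h : π g ∈ Subgroup.center G₀) : g ∈ Subgroup.center Γ := by
  rw [Subgroup.mem_center_iff]
  intro x
  have h1 : ⁅x, g⁆ = 1 := by
    refine hinj _ ?_ ?_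
    · rw [map_commutatorElement, commutatorElement_eq_one_iff_mul_comm]
      exact Subgroup.mem_center_iff.1 h _
    · rw [map_commutatorElement, commutatorElement_eq_one_iff_mul_comm]
      exact mul_comm _ _
  exact commutatorElement_eq_one_iff_mul_comm.1 h1

include hπ

lemma mem_center_iff' (g : Γ) : g ∈ Subgroup.center Γ ↔ π g ∈ Subgroup.center G₀ := by
  refine ⟨fun h => ?_, mem_center_of π χ hinj g⟩
  rw [Subgroup.mem_center_iff]
  intro y
  obtain ⟨x, rfl⟩ := hπ y
  rw [← map_mul, Subgroup.mem_center_iff.1 h x, map_mul]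

lemma center_index_eq : (Subgroup.center Γ).index = (Subgroup.center G₀).index := by
  have h1 : Subgroup.center Γ = (Subgroup.center G₀).comap π := by
    ext g
    rw [Subgroup.mem_comap]
    exact mem_center_iff' π hπ χ hinj g
  rw [h1, Subgroup.index_comap_of_surjective _ hπ]

lemma Big.of_surj (hG₀ : Big G₀) : Big Γ where
  sq := by
    intro g x
    have h1 : g * g ∈ Subgroup.center Γ := by
      rw [mem_center_iff' π hπ χ hinj, map_mul, Subgroup.mem_center_iff]
      exact fun y => (hG₀.sq _ y).symm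
    exact (Subgroup.mem_center_iff.1 h1 x).symm
  big := by
    intro p q hp hq
    have hfac : ∀ p : Γ →* ℤˣ, (∀ x ∈ Subgroup.center Γ, p x = 1) →
        ∃ p₀ : G₀ →* ℤˣ, ∀ g, p₀ (π g) = p g := by
      intro p hp
      have hker : π.ker ≤ p.ker := by
        intro g hg
        rw [MonoidHom.mem_ker] at hg ⊢
        refine hp g ?_
        rw [mem_center_iff' π hπ χ hinj, hg]
        exact Subgroup.one_mem _
      refine ⟨π.liftOfSurjective hπ ⟨p, hker⟩, fun g => ?_⟩
      exact MonoidHom.liftOfRightInverse_comp_apply π _ _ ⟨p, hker⟩ g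
    obtain ⟨p₀, hp₀⟩ := hfac p hp
    obtain ⟨q₀, hq₀⟩ := hfac q hq
    have hcen : ∀ p : Γ →* ℤˣ, (∀ x ∈ Subgroup.center Γ, p x = 1) → ∀ p₀ : G₀ →* ℤˣ,
        (∀ g, p₀ (π g) = p g) → ∀ x ∈ Subgroup.center G₀, p₀ x = 1 := by
      intro p hp p₀ hp₀ x hx
      obtain ⟨g, rfl⟩ := hπ x
      rw [hp₀]
      exact hp g (mem_center_of π χ hinj g hx)
    obtain ⟨κ₀, hκ₀⟩ := hG₀.big p₀ q₀ (hcen p hp p₀ hp₀) (hcen q hq q₀ hq₀)
    have hmap : (commutator Γ).map π ≤ commutator G₀ := by
      rw [commutator_def, commutator_def, Subgroup.map_commutator]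
      exact Subgroup.commutator_mono le_top le_top
    let ρ : commutator Γ →* commutator G₀ :=
      (π.comp (commutator Γ).subtype).codRestrict (commutator G₀)
        (fun t => hmap ⟨t, t.2, rfl⟩)
    refine ⟨κ₀.comp ρ, fun g h hm => ?_⟩
    have h1 : ρ ⟨⁅g, h⁆, hm⟩ = ⟨⁅π g, π h⁆, comm_mem _ _⟩ := by
      apply Subtype.ext
      change π ⁅g, h⁆ = _
      rw [map_commutatorElement]
    rw [MonoidHom.comp_apply, h1, hκ₀]
    unfold wedge
    rw [hp₀, hp₀, hq₀, hq₀]

omit hinj in
lemma exists_commutator (x : G₀) (hx : x ∈ commutator G₀) : ∃ t ∈ commutator Γ, π t = x := by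
  have h1 : (commutator Γ).map π = commutator G₀ := by
    rw [commutator_def, commutator_def, Subgroup.map_commutator, ← MonoidHom.range_eq_map,
      MonoidHom.range_eq_top.2 hπ]
  rw [← h1] at hx
  exact hx

lemma mem_commutator_of {g : Γ} (hg : π g ∈ commutator G₀) (hχ : χ g = 1) : g ∈ commutator Γ := by
  obtain ⟨t, ht, h1⟩ := exists_commutator π hπ _ hg
  have h2 : χ t = 1 := by
    have h3 : commutator Γ ≤ χ.ker := by
      rw [commutator_def, Subgroup.commutator_le]
      intro g _ h _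
      rw [MonoidHom.mem_ker, map_commutatorElement, commutatorElement_eq_one_iff_mul_comm]
      exact mul_comm _ _
    exact h3 ht
  have h4 : g * t⁻¹ = 1 := hinj _ (by rw [map_mul, map_inv, h1, mul_inv_cancel])
    (by rw [map_mul, map_inv, h2, hχ, inv_one, mul_one])
  rw [mul_inv_eq_one.1 h4]
  exact ht

end

end Pool.Agent.StarkRQ.Oct
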