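import Pool.Agent.StarkRQ.Oct.Sup
import Pool.Agent.StarkRQ.Chars
import Pool.Agent.StarkRQ.ContLin
import Pool.Agent.StarkRQ.Root

/-!
# Change of level: numbers and roots of unity
-/

open NumberField Module
open scoped commutatorElement

namespace Pool.Agent.StarkRQ.Oct

lemma level_pow {f : ℕ} (hf : 4 ∣ f) (k : ℕ) :
    ∃ t : ℕ, Odd t ∧ (1 + f) ^ 2 ^ k = 1 + 2 ^ k * f * t := by
  obtain ⟨m, rfl⟩ := hf
  induction k with
  | zero => exact ⟨1, odd_one, by ring⟩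
  | succ k ih =>
      obtain ⟨t, ht, h⟩ := ih
      refine ⟨t + 2 ^ k * (2 * m) * t ^ 2, ?_, ?_⟩
      · refine ht.add_even ?_
        exact ⟨2 ^ k * m * t ^ 2, by ring⟩
      · rw [pow_succ, pow_mul, h]
        ring

lemma level_pow_32 {f : ℕ} (hf : 4 ∣ f) : ((1 + f : ℕ) : ZMod (32 * f)) ^ 32 = 1 := by
  obtain ⟨t, -, h⟩ := level_pow hf 5
  have h1 : (((1 + f) ^ 2 ^ 5 : ℕ) : ZMod (32 * f)) = ((1 + 2 ^ 5 * f * t : ℕ) : ZMod (32 * f)) := by
    rw [h]
  have h2 : ((32 * f : ℕ) : ZMod (32 * f)) = 0 := ZMod.natCast_self _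
  have h3 : ((1 + 2 ^ 5 * f * t : ℕ) : ZMod (32 * f)) = 1 := by
    rw [show 1 + 2 ^ 5 * f * t = 1 + (32 * f) * t by ring, Nat.cast_add, Nat.cast_mul (32 * f) t, h2,
      zero_mul, add_zero, Nat.cast_one]
  rw [h3] at h1
  have h4 : (((1 + f) ^ 2 ^ 5 : ℕ) : ZMod (32 * f)) = ((1 + f : ℕ) : ZMod (32 * f)) ^ 32 := by
    rw [Nat.cast_pow]
    norm_num
  rw [← h4, h1]

lemma level_pow_16 {f : ℕ} (hf : 4 ∣ f) (hf0 : f ≠ 0) :
    ((1 + f : ℕ) : ZMod (32 * f)) ^ 16 ≠ 1 := by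
  obtain ⟨t, ht, h⟩ := level_pow hf 4
  intro h1
  have h2 : (((1 + f) ^ 2 ^ 4 : ℕ) : ZMod (32 * f)) = ((1 : ℕ) : ZMod (32 * f)) := by
    rw [Nat.cast_pow, Nat.cast_one]
    exact h1
  rw [h, ZMod.natCast_eq_natCast_iff] at h2
  have h3 : 32 * f ∣ 2 ^ 4 * f * t := by
    have h4 := (Nat.modEq_iff_dvd' (by omega : 1 ≤ 1 + 2 ^ 4 * f * t)).1 h2.symm
    rwa [Nat.add_sub_cancel_left] at h4
  have h5 : (16 * f) * 2 ∣ (16 * f) * t := by
    have e1 : 32 * f = 16 * f * 2 := by ring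
    have e2 : 2 ^ 4 * f * t = 16 * f * t := by ring
    rwa [e1, e2] at h3
  have h6 : 2 ∣ t := Nat.dvd_of_mul_dvd_mul_left (by omega) h5
  exact (Nat.not_even_iff_odd.2 ht) (even_iff_two_dvd.2 h6)

lemma level_coprime {f : ℕ} (hf : 8 ∣ f) : (1 + f).Coprime (32 * f) := by
  have h1 : (1 + f).Coprime f := by simp
  have h2 : (1 + f).Coprime 2 := by
    rw [Nat.coprime_two_right]
    obtain ⟨m, rfl⟩ := hf
    exact ⟨4 * m, by ring⟩
  rw [show 32 = 2 ^ 5 by norm_num]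
  exact (h2.pow_right 5).mul_right h1

/-- the relation `(1 + f)^i (-1)^j = 1` modulo `32 f` -/
lemma level_free {f : ℕ} (hf : 8 ∣ f) (hf0 : f ≠ 0) {u : (ZMod (32 * f))ˣ}
    (hu : (u : ZMod (32 * f)) = ((1 + f : ℕ) : ZMod (32 * f))) {i j : ℕ}
    (h : u ^ i * (-1) ^ j = 1) : 32 ∣ i ∧ 2 ∣ j := by
  have hf4 : 4 ∣ f := dvd_trans (by norm_num) hf
  have hj : Even j := by
    by_contra hodd
    rw [Nat.not_even_iff_odd] at hodd
    rw [hodd.neg_one_pow] at h
    have h1 : u ^ i = -1 := by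
      have := congrArg (fun x => -x) h
      simpa using this
    have h8 : 8 ∣ 32 * f := Dvd.dvd.mul_left hf 32
    have h2 := congrArg (fun x : (ZMod (32 * f))ˣ =>
      (ZMod.castHom h8 (ZMod 8)) (x : ZMod (32 * f))) h1
    simp only [Units.val_pow_eq_pow_val, map_pow, hu, map_natCast, Units.val_neg, Units.val_one,
      map_neg, map_one] at h2
    obtain ⟨m, rfl⟩ := hf
    have h3 : ((1 + 8 * m : ℕ) : ZMod 8) = 1 := by
      push_cast
      have : (8 : ZMod 8) = 0 := by decide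
      rw [this, zero_mul, add_zero]
    rw [h3, one_pow] at h2
    exact absurd h2 (by decide)
  refine ⟨?_, even_iff_two_dvd.1 hj⟩
  rw [hj.neg_one_pow, mul_one] at h
  have h1 : orderOf u = 2 ^ (4 + 1) := by
    refine orderOf_eq_prime_pow ?_ ?_
    · intro h2
      apply level_pow_16 hf4 hf0
      have := congrArg (fun x : (ZMod (32 * f))ˣ => (x : ZMod (32 * f))) h2
      simpa [hu] using this
    · apply Units.ext
      rw [Units.val_pow_eq_pow_val, hu, Units.val_one]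
      exact level_pow_32 hf4
  have h2 := orderOf_dvd_of_pow_eq_one h
  rw [h1] at h2
  exact h2

/-- the coefficients depend only on the primes dividing `N` -/
lemma zcoeff_congr {F L : Type*} [Field F] [NumberField F] [Field L] [NumberField L] [Algebra F L]
    {N N' : ℕ} (h : ∀ n : ℕ, n.Coprime N ↔ n.Coprime N') (σ : Gal(L/F)) (n : ℕ) :
    zcoeff N σ n = zcoeff N' σ n := by
  unfold zcoeff
  by_cases hn : n.Coprime N
  · rw [if_pos hn, if_pos ((h n).1 hn)]
  · rw [if_neg hn, if_neg (fun h' => hn ((h n).2 h'))]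

lemma isPartialZeta_congr {F L : Type*} [Field F] [NumberField F] [Field L] [NumberField L]
    [Algebra F L] {N N' : ℕ} (h : ∀ n : ℕ, n.Coprime N ↔ n.Coprime N') {σ : Gal(L/F)}
    {Z : ℂ → ℂ} (hZ : IsPartialZeta N σ Z) : IsPartialZeta N' σ Z := by
  refine ⟨hZ.1, fun s hs => ?_⟩
  rw [hZ.2 s hs]
  congr 1
  funext n
  rw [zcoeff_congr h]

lemma isStarkUnit_congr {F L : Type*} [Field F] [NumberField F] [Field L] [NumberField L]
    [Algebra F L] {N N' : ℕ} (h : ∀ n : ℕ, n.Coprime N ↔ n.Coprime N') {ι : L →+* ℂ} {η : L}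
    (hη : IsStarkUnit F ι N η) : IsStarkUnit F ι N' η where
  ne_zero := hη.ne_zero
  isIntegral := hη.isIntegral
  deriv_zeta := fun σ => by
    obtain ⟨Z, hZ, hd⟩ := hη.deriv_zeta σ
    exact ⟨Z, isPartialZeta_congr h hZ, hd⟩
  abelian := hη.abelian

lemma coprime_level {f : ℕ} (hf : 2 ∣ f) (n : ℕ) : n.Coprime f ↔ n.Coprime (32 * f) := by
  constructor
  · intro h
    have h2 : n.Coprime 2 := Nat.Coprime.coprime_dvd_right hf h
    rw [show 32 = 2 ^ 5 by norm_num]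
    exact (h2.pow_right 5).mul_right h
  · intro h
    exact Nat.Coprime.coprime_dvd_right (Dvd.intro_left 32 rfl) h

/-- the roots of unity of `Ω` are the powers of `ξ` -/
lemma root_pow {Ω : Type} [Field Ω] [NumberField Ω] [IsGalois ℚ Ω] {F : ℕ} [NeZero F]
    (hF : Even F) {ξ : Ω} (hξ : IsPrimitiveRoot ξ F)
    (hξC : ∀ g : Gal(Ω/ℚ), g ξ = ξ ↔ g ∈ commutator Gal(Ω/ℚ)) (x : Ω) (m : ℕ) (hm : 0 < m)
    (hx : x ^ m = 1) : ∃ i : ℕ, ξ ^ i = x := by
  have hF0 : 0 < F := NeZero.pos F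
  obtain ⟨ω, hω⟩ := exists_primRoot Ω
  have hw0 : 0 < Units.torsionOrder Ω := Units.torsionOrder_pos Ω
  have hdvd : F ∣ Units.torsionOrder Ω := Units.dvd_torsionOrder_of_isPrimitiveRoot hξ
  have hmem : ω ∈ IntermediateField.adjoin ℚ {ξ} := by
    rw [← IsGalois.fixedField_fixingSubgroup (IntermediateField.adjoin ℚ {ξ})]
    rintro ⟨g, hg⟩
    have hgξ : g ξ = ξ :=
      (IntermediateField.mem_fixingSubgroup_iff _ g).1 hg ξ
        (IntermediateField.mem_adjoin_simple_self ℚ ξ)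
    exact commutator_root ((hξC g).1 hgξ) ω _ hw0 hω.pow_eq_one
  have hle : IntermediateField.adjoin ℚ {ω} ≤ IntermediateField.adjoin ℚ {ξ} :=
    IntermediateField.adjoin_simple_le_iff.2 hmem
  have hfin : ∀ {n : ℕ}, 0 < n → ∀ {y : Ω}, IsPrimitiveRoot y n →
      finrank ℚ (IntermediateField.adjoin ℚ {y}) = Nat.totient n := by
    intro n hn y hy
    rw [IntermediateField.adjoin.finrank (Algebra.IsIntegral.isIntegral y),
      ← Polynomial.cyclotomic_eq_minpoly_rat hy hn, Polynomial.natDegree_cyclotomic]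
  have hfr : Nat.totient (Units.torsionOrder Ω) ≤ Nat.totient F := by
    rw [← hfin hw0 hω, ← hfin hF0 hξ]
    exact IntermediateField.finrank_le_of_le_right hle
  have hfr' : Nat.totient F ≤ Nat.totient (Units.torsionOrder Ω) :=
    Nat.le_of_dvd (Nat.totient_pos.2 hw0) (Nat.totient_dvd_of_dvd hdvd)
  have heq : Nat.totient F = Nat.totient (Units.torsionOrder Ω) := le_antisymm hfr' hfr
  have hw : Units.torsionOrder Ω = F := by
    rcases Nat.eq_or_eq_of_totient_eq_totient hdvd heq with h | h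
    · exact h.symm
    · exfalso
      have h1 := Nat.totient_two_mul_of_even hF
      rw [h, ← heq] at h1
      have h2 : 0 < Nat.totient F := Nat.totient_pos.2 hF0
      omega
  have hord : orderOf x ∣ Units.torsionOrder Ω := by
    have hfo : IsOfFinOrder x := isOfFinOrder_iff_pow_eq_one.2 ⟨m, hm, hx⟩
    have : NeZero (orderOf x) := ⟨(orderOf_pos_iff.2 hfo).ne'⟩
    exact Units.dvd_torsionOrder_of_isPrimitiveRoot (IsPrimitiveRoot.orderOf x)
  rw [hw, orderOf_dvd_iff_pow_eq_one] at hord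
  obtain ⟨i, -, hi⟩ := hξ.eq_pow_of_pow_eq_one hord
  exact ⟨i, hi⟩

end Pool.Agent.StarkRQ.Oct
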