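import Pool.Agent.StarkRQ.Oct.Internal
import Pool.Agent.StarkRQ.Oct.LevelG
import Pool.Agent.StarkRQ.Oct.LevelN
import Pool.Agent.StarkRQ.Oct.GroupBig
import Pool.Agent.CMG.LRam

/-!
# The theorem
-/

open NumberField Module
open scoped commutatorElement

namespace Pool.Agent.StarkRQ.Oct

/-- the automorphisms fixing the root of unity are in the commutator subgroup -/
lemma mem_commutator_of_max {M : Type} [Field M] [NumberField M] [IsGalois ℚ M] {ζ : M}
    (hmax : ∀ x : M, (∀ σ τ : Gal(M/ℚ), σ (τ x) = τ (σ x)) → x ∈ IntermediateField.adjoin ℚ {ζ})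
    {g : Gal(M/ℚ)} (hg : g ζ = ζ) : g ∈ commutator Gal(M/ℚ) := by
  have h1 : IntermediateField.fixedField (commutator Gal(M/ℚ)) ≤
      IntermediateField.adjoin ℚ {ζ} := by
    intro x hx
    refine hmax x fun σ τ => ?_
    have h2 : ⁅τ⁻¹, σ⁻¹⁆ x = x := hx ⟨⁅τ⁻¹, σ⁻¹⁆, comm_mem _ _⟩
    have h3 : (σ * τ) (⁅τ⁻¹, σ⁻¹⁆ x) = (τ * σ) x := by
      change ((σ * τ) * ⁅τ⁻¹, σ⁻¹⁆) x = _
      congr 1
      rw [commutatorElement_def]
      group
    rw [h2] at h3
    exact h3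
  have h4 : g ∈ IntermediateField.fixingSubgroup (IntermediateField.adjoin ℚ {ζ}) := by
    have h6 : IntermediateField.adjoin ℚ {ζ} ≤
        IntermediateField.fixedField (Subgroup.zpowers g) := by
      rw [IntermediateField.adjoin_simple_le_iff]
      rintro ⟨γ, hγ⟩
      obtain ⟨i, rfl⟩ := Subgroup.mem_zpowers_iff.1 hγ
      change (g ^ i) ζ = ζ
      have h7 : g ∈ MulAction.stabilizer Gal(M/ℚ) ζ := hg
      exact (MulAction.stabilizer Gal(M/ℚ) ζ).zpow_mem h7 i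
    rw [IntermediateField.mem_fixingSubgroup_iff]
    intro x hx
    exact (h6 hx) ⟨g, Subgroup.mem_zpowers g⟩
  have h5 := IntermediateField.fixingSubgroup_antitone h1 h4
  rwa [IntermediateField.fixingSubgroup_fixedField] at h5

section

variable {M : Type} [Field M] [NumberField M] [IsGalois ℚ M]

/-- Let `M/ℚ` be Galois with group `G` such that squares are central, `[G : Z] = 2^d`, `d ≤ 5`, and the
commutator subgroup has the maximal possible order; `Ω = M(ζ_(32 f))`. -/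
theorem oct_aux {K H Ω : Type} [Field Ω] [NumberField Ω] [Algebra M Ω] [Field K] [NumberField K]
    [Field H] [NumberField H] [Algebra K M] [Algebra K H] [Algebra H M] [IsScalarTower K H M]
    [IsTotallyReal K] (hK : finrank ℚ K = 2) [IsAbelianGalois K H] (ι : Ω →+* ℂ)
    (hH : ∀ y : H, (ι (algebraMap M Ω (algebraMap H M y))).im = 0)
    {f : ℕ} (hf : 8 ∣ f) (hf0 : f ≠ 0) [IsCyclotomicExtension {32 * f} M Ω] {ζ : M}
    (hζ : IsPrimitiveRoot ζ f)
    (hmax : ∀ x : M, (∀ σ τ : Gal(M/ℚ), σ (τ x) = τ (σ x)) → x ∈ IntermediateField.adjoin ℚ {ζ})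
    (hram : ∀ p : ℕ, p.Prime → (p : ℤ) ∣ discr M → p ∣ f)
    (hsq : ∀ g h : Gal(M/ℚ), g * g * h = h * (g * g)) {d : ℕ} (hd : d ≤ 5)
    (hidx : (Subgroup.center Gal(M/ℚ)).index = 2 ^ d)
    (hcard : Nat.card (commutator Gal(M/ℚ)) = 2 ^ (d * (d - 1) / 2))
    (hStark : ∀ B : Subgroup Gal(Ω/ℚ), B.index = 2 → Subgroup.center Gal(Ω/ℚ) ≤ B →
      IsTotallyComplex (kF B) → ∃ η : LF B, IsStarkUnit (kF B) (ι.comp (algebraMap (LF B) Ω)) f η)
    (G : Gal(H/K) → ℂ → ℂ) (hG : ∀ σ, IsPartialZeta f σ (G σ)) :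
    ∃ R : Gal(H/K), ∃ ε : Gal(H/K) → (𝓞 H)ˣ,
      (∀ σ, ι (algebraMap M Ω (algebraMap H M (ε σ : 𝓞 H))) =
          Complex.exp (-(deriv (G σ) 0 - deriv (G (R * σ)) 0))) ∧
      (∀ ρ σ, ρ ((ε σ : 𝓞 H) : H) = ((ε (ρ * σ) : 𝓞 H) : H)) ∧
      (∃ (E : Type) (_ : Field E) (_ : Algebra K E) (_ : Algebra H E) (_ : IsScalarTower K H E),
        IsAbelianGalois K E ∧ ∀ σ, ∃ y : E, y ^ 2 = algebraMap H E ((ε σ : 𝓞 H) : H)) ∧
      ∀ g : H →+* ℂ, (∃ x : K, g (algebraMap K H x) ≠ ι (algebraMap M Ω (algebraMap K M x))) →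
        (∀ y, g (R y) = starRingEnd ℂ (g y)) ∧ ∀ σ, ‖g ((ε σ : 𝓞 H) : H)‖ = 1 := by
  classical
  have hF0 : 32 * f ≠ 0 := by omega
  have : NeZero (32 * f) := ⟨hF0⟩
  have : NeZero f := ⟨hf0⟩
  have hF2 : 2 < 32 * f := by omega
  -- the field `Ω`
  have hΩ : IsGalois ℚ Ω := Pool.Agent.CMG.isGalois_cyclotomic (M := M) hF0
  let _ : Algebra H Ω := ((algebraMap M Ω).comp (algebraMap H M)).toAlgebra
  let _ : Algebra K Ω := ((algebraMap M Ω).comp (algebraMap K M)).toAlgebra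
  have : IsScalarTower H M Ω := IsScalarTower.of_algebraMap_eq fun _ => rfl
  have : IsScalarTower K M Ω := IsScalarTower.of_algebraMap_eq fun _ => rfl
  have : IsScalarTower K H Ω := IsScalarTower.of_algebraMap_eq fun x => by
    change algebraMap M Ω (algebraMap K M x) = algebraMap M Ω (algebraMap H M (algebraMap K H x))
    rw [← IsScalarTower.algebraMap_apply K H M]
  obtain ⟨ξ, hξ⟩ := IsCyclotomicExtension.exists_isPrimitiveRoot M Ω
    (Set.mem_singleton (32 * f)) hF0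
  set π : Gal(Ω/ℚ) →* Gal(M/ℚ) := res M Ω with hπdef
  have hπ : Function.Surjective π := AlgEquiv.restrictNormalHom_surjective (F := ℚ) (K₁ := M) Ω
  set χ := hξ.autToPow ℚ with hχdef
  have hχ1 : ∀ g : Gal(Ω/ℚ), χ g = 1 ↔ g ξ = ξ := by
    intro g
    have h1 := hξ.autToPow_spec ℚ g
    have : Fact (1 < 32 * f) := ⟨by omega⟩
    constructor
    · intro h
      rw [← hχdef, h, Units.val_one, ZMod.val_one, pow_one] at h1
      exact h1.symm
    · intro h
      rw [h] at h1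
      have h3 : ξ ^ ((hξ.autToPow ℚ g : (ZMod (32 * f))ˣ) : ZMod (32 * f)).val = ξ ^ 1 := by
        rw [h1, pow_one]
      have h4 := hξ.pow_inj (ZMod.val_lt _) (by omega) h3
      apply Units.ext
      rw [Units.val_one]
      apply ZMod.val_injective (32 * f)
      rw [h4, ZMod.val_one]
  have hinj : ∀ g : Gal(Ω/ℚ), π g = 1 → χ g = 1 → g = 1 := by
    intro g h1 h2
    rw [hχ1] at h2
    have hM : ∀ x : M, g (algebraMap M Ω x) = algebraMap M Ω x := by
      intro x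
      rw [← res_apply, ← hπdef, h1]
      rfl
    let t : Ω ≃ₐ[M] Ω := AlgEquiv.ofRingEquiv (f := g.toRingEquiv) hM
    have ht : t = 1 := by
      have h8 := IsCyclotomicExtension.adjoin_primitive_root_eq_top (A := M) (B := Ω) hξ
      have h9 : (t : Ω →ₐ[M] Ω) = AlgHom.id M Ω := by
        apply AlgHom.ext_of_adjoin_eq_top h8
        intro x hx
        rw [Set.mem_singleton_iff] at hx
        rw [hx]
        exact h2
      ext x
      exact DFunLike.congr_fun h9 x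
    ext x
    exact DFunLike.congr_fun ht x
  -- the root of unity of order `f`
  have hζΩ : IsPrimitiveRoot (algebraMap M Ω ζ) f := hζ.map_of_injective (algebraMap M Ω).injective
  obtain ⟨r, -, hr⟩ := hξ.eq_pow_of_pow_eq_one (show (algebraMap M Ω ζ) ^ (32 * f) = 1 by
    rw [mul_comm, pow_mul, hζΩ.pow_eq_one, one_pow])
  have hπC : ∀ g : Gal(Ω/ℚ), g (algebraMap M Ω ζ) = algebraMap M Ω ζ →
      π g ∈ commutator Gal(M/ℚ) := by
    intro g hg
    refine mem_commutator_of_max hmax ?_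
    apply (algebraMap M Ω).injective
    rw [res_apply, hg]
  have hχC : ∀ g : Gal(Ω/ℚ), χ g = 1 → g ∈ commutator Gal(Ω/ℚ) := by
    intro g hg
    refine mem_commutator_of π hπ χ hinj (hπC g ?_) hg
    rw [← hr, map_pow, (hχ1 g).1 hg]
  have hCχ : ∀ t ∈ commutator Gal(Ω/ℚ), χ t = 1 := by
    intro t ht
    have h3 : commutator Gal(Ω/ℚ) ≤ χ.ker := by
      rw [commutator_def, Subgroup.commutator_le]
      intro g _ h _
      rw [MonoidHom.mem_ker, map_commutatorElement, commutatorElement_eq_one_iff_mul_comm]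
      exact mul_comm _ _
    exact h3 ht
  have hξC : ∀ g : Gal(Ω/ℚ), g ξ = ξ ↔ g ∈ commutator Gal(Ω/ℚ) := by
    intro g
    rw [← hχ1]
    exact ⟨hχC g, hCχ g⟩
  -- the group
  have hBig : Big Gal(Ω/ℚ) := Big.of_surj π hπ χ hinj (big_of_card hsq hidx hcard)
  have hidx' : (Subgroup.center Gal(Ω/ℚ)).index ≤ 32 := by
    rw [center_index_eq π hπ χ hinj, hidx]
    calc 2 ^ d ≤ 2 ^ 5 := Nat.pow_le_pow_right (by norm_num) hd
      _ = 32 := by norm_num
  -- the automorphism `h₀`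
  obtain ⟨u, hu⟩ : ∃ u : (ZMod (32 * f))ˣ, (u : ZMod (32 * f)) = ((1 + f : ℕ) : ZMod (32 * f)) :=
    ⟨ZMod.unitOfCoprime (1 + f) (level_coprime hf), ZMod.coe_unitOfCoprime _ _⟩
  obtain ⟨g₁, hg₁⟩ := chi_surjective hξ u
  have hact : ∀ g : Gal(Ω/ℚ), χ g = u → g ξ = ξ ^ (1 + f) := by
    intro g hg
    have h1 := hξ.autToPow_spec ℚ g
    rw [← hχdef, hg, hu, ZMod.val_natCast] at h1
    rw [← h1]
    have e : ξ ^ ((1 + f) % (32 * f)) = ξ ^ (1 + f) := by
      conv_lhs => rw [hξ.eq_orderOf]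
      exact pow_mod_orderOf ξ (1 + f)
    exact e
  obtain ⟨t₁, ht₁, hπt₁⟩ := exists_commutator π hπ (π g₁) (hπC g₁ (by
    rw [← hr, map_pow, hact g₁ hg₁, ← pow_mul, mul_comm, pow_mul, hr, pow_add, pow_one,
      hζΩ.pow_eq_one, mul_one]))
  set h₀ := g₁ * t₁⁻¹ with hh₀
  have hπh₀ : π h₀ = 1 := by rw [hh₀, map_mul, map_inv, hπt₁, mul_inv_cancel]
  have hχh₀ : χ h₀ = u := by
    rw [hh₀, map_mul, map_inv, hCχ t₁ ht₁, inv_one, mul_one]
    exact hg₁
  have hh₀Z : h₀ ∈ Subgroup.center Gal(Ω/ℚ) := mem_center_of π χ hinj h₀ (by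
    rw [hπh₀]
    exact Subgroup.one_mem _)
  have hh32 : h₀ ^ 32 = 1 := by
    refine hinj _ (by rw [map_pow, hπh₀, one_pow]) ?_
    rw [map_pow, hχh₀]
    apply Units.ext
    rw [Units.val_pow_eq_pow_val, hu, Units.val_one]
    exact level_pow_32 (dvd_trans (by norm_num) hf)
  have hFe : Even (32 * f) := ⟨16 * f, by ring⟩
  have hf2 : 2 ∣ f := dvd_trans (by norm_num) hf
  have hramΩ : ∀ p : ℕ, p.Prime → (p : ℤ) ∣ discr Ω → p ∣ f := by
    intro p hp h
    rcases Pool.Agent.CMG.ram_cyclotomic (M := M) hF0 hp h with h1 | h1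
    · exact hram p hp h1
    · rcases (Nat.Prime.dvd_mul hp).1 h1 with h2 | h2
      · have h3 : p ∣ 2 ^ 5 := by
          norm_num
          exact h2
        have h4 := (Nat.prime_dvd_prime_iff_eq hp Nat.prime_two).1 (hp.dvd_of_dvd_pow h3)
        rw [h4]
        exact hf2
      · exact h2
  have hcop := coprime_level hf2
  have hreal : ∀ y : H, (ι (algebraMap H Ω y)).im = 0 := by
    intro y
    rw [IsScalarTower.algebraMap_apply H M Ω]
    exact hH y
  obtain ⟨R, ε, h1, h2, h3, h4⟩ := oct_internal (Ω := Ω) (K := K) (H := H) hK hBig hidx'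
    (ι := ι) hreal hF2 hξ hξC (fun p hp h => (hramΩ p hp h).mul_left 32)
    (h₀ := h₀) (fun g => (Subgroup.mem_center_iff.1 hh₀Z g).symm) hh32 (n₀ := 1 + f)
    (by
      obtain ⟨m, rfl⟩ := hf2
      exact ⟨m, by ring⟩)
    (by
      intro x m hm hx
      obtain ⟨i, rfl⟩ := root_pow hFe hξ hξC x m hm hx
      rw [map_pow, hact h₀ hχh₀, ← pow_mul, ← pow_mul, mul_comm])
    (by
      intro y
      rw [IsScalarTower.algebraMap_apply H M Ω, ← res_apply, ← hπdef, hπh₀]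
      rfl)
    (by
      intro c hc i j hij
      refine level_free hf hf0 hu ?_
      have h1 := hCχ _ hij
      have h2 : χ c = -1 := Units.ext (chi_cc hξ hc)
      rw [map_mul, map_pow, map_pow, hχh₀, h2] at h1
      exact h1)
    (by
      intro B h1 h2 h3
      obtain ⟨η, hη⟩ := hStark B h1 h2 h3
      exact ⟨η, isStarkUnit_congr hcop hη⟩)
    G (fun σ => isPartialZeta_congr hcop (hG σ))
  refine ⟨R, ε, fun σ => ?_, h2, h3, fun g hg => h4 g ?_⟩
  · rw [← IsScalarTower.algebraMap_apply H M Ω]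
    exact h1 σ
  · obtain ⟨x, hx⟩ := hg
    refine ⟨x, ?_⟩
    rw [IsScalarTower.algebraMap_apply K M Ω]
    exact hx

/-- Let `M/ℚ` be Galois with group `G` such that squares are central, `[G : Z] = 2^d`, `d ≤ 5`, and the
commutator subgroup has the maximal possible order. -/
theorem oct {K H : Type} [Field K] [NumberField K] [Field H] [NumberField H]
    [Algebra K M] [Algebra K H] [Algebra H M] [IsScalarTower K H M]
    [IsTotallyReal K] (hK : finrank ℚ K = 2) [IsAbelianGalois K H] (ι : M →+* ℂ)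
    (hH : ∀ y : H, (ι (algebraMap H M y)).im = 0)
    {f : ℕ} (hf : 8 ∣ f) (hf0 : f ≠ 0) {ζ : M} (hζ : IsPrimitiveRoot ζ f)
    (hmax : ∀ x : M, (∀ σ τ : Gal(M/ℚ), σ (τ x) = τ (σ x)) → x ∈ IntermediateField.adjoin ℚ {ζ})
    (hram : ∀ p : ℕ, p.Prime → (p : ℤ) ∣ discr M → p ∣ f)
    (hsq : ∀ g h : Gal(M/ℚ), g * g * h = h * (g * g)) {d : ℕ} (hd : d ≤ 5)
    (hidx : (Subgroup.center Gal(M/ℚ)).index = 2 ^ d)
    (hcard : Nat.card (commutator Gal(M/ℚ)) = 2 ^ (d * (d - 1) / 2))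
    (hStark : ∀ (k L : Type) [Field k] [NumberField k] [Field L] [NumberField L] [Algebra k L],
      IsTotallyComplex k → finrank ℚ k = 2 → IsAbelianGalois k L → IsGalois ℚ L →
      (∀ p : ℕ, p.Prime → (p : ℤ) ∣ discr L → p ∣ f) →
      ∀ j : L →+* ℂ, ∃ η : L, IsStarkUnit k j f η)
    (G : Gal(H/K) → ℂ → ℂ) (hG : ∀ σ, IsPartialZeta f σ (G σ)) :
    ∃ R : Gal(H/K), ∃ ε : Gal(H/K) → (𝓞 H)ˣ,
      (∀ σ, ι (algebraMap H M (ε σ : 𝓞 H)) =
          Complex.exp (-(deriv (G σ) 0 - deriv (G (R * σ)) 0))) ∧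
      (∀ ρ σ, ρ ((ε σ : 𝓞 H) : H) = ((ε (ρ * σ) : 𝓞 H) : H)) ∧
      (∃ (E : Type) (_ : Field E) (_ : Algebra K E) (_ : Algebra H E) (_ : IsScalarTower K H E),
        IsAbelianGalois K E ∧ ∀ σ, ∃ y : E, y ^ 2 = algebraMap H E ((ε σ : 𝓞 H) : H)) ∧
      ∀ g : H →+* ℂ, (∃ x : K, g (algebraMap K H x) ≠ ι (algebraMap K M x)) →
        (∀ y, g (R y) = starRingEnd ℂ (g y)) ∧ ∀ σ, ‖g ((ε σ : 𝓞 H) : H)‖ = 1 := by
  have hF0 : 32 * f ≠ 0 := by omega
  have : NeZero (32 * f) := ⟨hF0⟩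
  have hΩn : NumberField (CyclotomicField (32 * f) M) :=
    IsCyclotomicExtension.numberField {32 * f} M _
  obtain ⟨ι', hι'⟩ : ∃ ι' : CyclotomicField (32 * f) M →+* ℂ,
      ∀ x : M, ι' (algebraMap M _ x) = ι x := by
    let _ : Algebra M ℂ := ι.toAlgebra
    have : Algebra.IsAlgebraic M (CyclotomicField (32 * f) M) := Algebra.IsAlgebraic.of_finite M _
    exact ⟨(IsAlgClosed.lift : CyclotomicField (32 * f) M →ₐ[M] ℂ).toRingHom, fun x =>
      (IsAlgClosed.lift : CyclotomicField (32 * f) M →ₐ[M] ℂ).commutes x⟩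
  have hΩ : IsGalois ℚ (CyclotomicField (32 * f) M) :=
    Pool.Agent.CMG.isGalois_cyclotomic (M := M) hF0
  have h := oct_aux (Ω := CyclotomicField (32 * f) M) hK ι' (fun y => by rw [hι']; exact hH y)
    hf hf0 hζ hmax hram hsq hd hidx hcard (by
      intro B h1 _ h3
      have hB : B.Normal := Subgroup.normal_of_index_eq_two h1
      refine hStark _ _ h3 (finrank_kF B h1) inferInstance inferInstance (fun p hp h => ?_) _
      have h5 := h.trans (discr_dvd_discr (LF B) (CyclotomicField (32 * f) M))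
      rcases Pool.Agent.CMG.ram_cyclotomic (M := M) hF0 hp h5 with h6 | h6
      · exact hram p hp h6
      · have h7 : (2 : ℕ) ∣ f := dvd_trans (by norm_num) hf
        have h8 : p ∣ 2 ^ 5 * f := h6
        rcases (Nat.Prime.dvd_mul hp).1 h8 with h9 | h9
        · rw [(Nat.prime_dvd_prime_iff_eq hp Nat.prime_two).1 (hp.dvd_of_dvd_pow h9)]
          exact h7
        · exact h9) G hG
  simpa only [hι'] using h

end

end Pool.Agent.StarkRQ.Oct
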