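import Pool.Agent.StarkRQ.Oct.PDefs
import Pool.Agent.StarkRQ.Lift

/-!
# The zeta functions of `H/K` in terms of the counting functions on `Gal(Ω/ℚ)`

`Ω ⊇ L ⊇ H ⊇ K`, `L/K` abelian. For `n ≠ 0`: `zcoeff_restrict` (with `M = L`) says that `zcoeff f σ n` is the
sum of `zcoeff f s' n` over the `s' ∈ Gal(L/K)` with restriction `σ` to `H`, and
`zcoeff f s' n = cN f K L Ω n (toG K Ω s)` for every `s ∈ Gal(Ω/K)` with restriction `s'` to `L`
(`zcoeff_eq_cnt` if `n` is prime to `f`, otherwise both are `0`); every `s'` has `|(res L Ω).ker|` such `s`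
(the kernel of `Gal(Ω/K) → Gal(L/K)` is `(res L Ω).ker`, as `K ⊆ L`). So the coefficient for `n ≠ 0` is
`|(res L Ω).ker| * zcoeff f σ n`. The coefficient at `n = 0` does not matter (`LSeries_congr`,
`LSeries.term` at `0` is `0`).
-/

open NumberField Module

namespace Pool.Agent.StarkRQ.Oct

private lemma KSide_mul {a : ℕ → ℂ} {Z : ℂ → ℂ} (h : IsCont a Z) (c : ℂ) :
    IsCont (fun n => c * a n) (fun s => c * Z s) where
  diff := h.diff.const_mul c
  summable := fun s hs => (h.summable s hs).smul c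
  eq := fun s hs => by
    rw [h.eq s hs]
    exact (LSeries_smul a c s).symm

private lemma KSide_congr {a a' : ℕ → ℂ} {Z : ℂ → ℂ} (h : IsCont a Z)
    (haa : ∀ n, n ≠ 0 → a n = a' n) : IsCont a' Z where
  diff := h.diff
  summable := fun s hs => (LSeriesSummable_congr s fun {n} hn => haa n hn).1 (h.summable s hs)
  eq := fun s hs => by
    rw [h.eq s hs]
    exact LSeries_congr (fun {n} hn => haa n hn) s

private lemma KSide_toG {K L Ω : Type} [Field K] [NumberField K] [Field L] [NumberField L]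
    [Field Ω] [NumberField Ω] [Algebra K Ω] [Algebra K L] [Algebra L Ω] [IsScalarTower K L Ω]
    [IsGalois ℚ L] [IsGalois K L] (s : Gal(Ω/K)) :
    toG K L (AlgEquiv.restrictNormalHom L s) = res L Ω (toG K Ω s) := by
  ext y
  apply (algebraMap L Ω).injective
  rw [res_apply, toG_apply, toG_apply]
  exact AlgEquiv.restrictNormal_commutes s L y

theorem kside {Ω K H L : Type} [Field Ω] [NumberField Ω] [IsGalois ℚ Ω] [Field K]
    [NumberField K] [Field H] [NumberField H] [Field L] [NumberField L] [IsGalois ℚ L]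
    [Algebra K Ω] [Algebra K H] [Algebra H Ω] [Algebra K L] [Algebra H L] [Algebra L Ω]
    [IsScalarTower K H Ω] [IsScalarTower K L Ω] [IsScalarTower H L Ω] [IsScalarTower K H L]
    [IsAbelianGalois K L] {f : ℕ} (hram : ∀ p : ℕ, p.Prime → (p : ℤ) ∣ discr Ω → p ∣ f)
    {σ : Gal(H/K)} {Z : ℂ → ℂ} (hZ : IsPartialZeta f σ Z) :
    IsCont (fun n => ∑ᶠ s : {s : Gal(Ω/K) //
        ∀ x : H, s (algebraMap H Ω x) = algebraMap H Ω (σ x)},
      (cN f K L Ω n (toG K Ω s) : ℂ)) (fun x => (Nat.card (res L Ω).ker : ℂ) * Z x) := by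
  classical
  have : IsAbelianGalois K H := IsAbelianGalois.tower_bot K H L
  have : IsGalois K Ω := IsGalois.tower_top_of_isGalois ℚ K Ω
  have hab : ∀ σ τ : Gal(L/K), σ * τ = τ * σ := fun σ τ => mul_comm' σ τ
  have hramL : ∀ p : ℕ, p.Prime → (p : ℤ) ∣ discr L → p ∣ f := fun p hp h =>
    hram p hp (h.trans (discr_dvd_discr L Ω))
  set P : Gal(Ω/K) →* Gal(L/K) := AlgEquiv.restrictNormalHom L with hP
  have hPsurj : Function.Surjective P := AlgEquiv.restrictNormalHom_surjective (F := K) (K₁ := L) Ω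
  have hPG : ∀ s, toG K L (P s) = res L Ω (toG K Ω s) := fun s => KSide_toG s
  -- the condition
  have hcond : ∀ s : Gal(Ω/K), (∀ x : H, s (algebraMap H Ω x) = algebraMap H Ω (σ x)) ↔
      AlgEquiv.restrictNormalHom H (P s) = σ := by
    intro s
    have h1 : ∀ x : H, algebraMap H Ω (AlgEquiv.restrictNormalHom H (P s) x) =
        s (algebraMap H Ω x) := by
      intro x
      rw [IsScalarTower.algebraMap_apply H L Ω, IsScalarTower.algebraMap_apply H L Ω x]
      have h2 : algebraMap H L (AlgEquiv.restrictNormalHom H (P s) x) = P s (algebraMap H L x) :=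
        AlgEquiv.restrictNormal_commutes (P s) H x
      have h3 : algebraMap L Ω (P s (algebraMap H L x)) = s (algebraMap L Ω (algebraMap H L x)) :=
        AlgEquiv.restrictNormal_commutes s L _
      rw [h2, h3]
    constructor
    · intro h
      ext x
      apply (algebraMap H Ω).injective
      rw [h1, h]
    · intro h x
      rw [← h1, h]
  -- the kernels
  have hker : Nat.card P.ker = Nat.card (res L Ω).ker := by
    refine Nat.card_congr (Equiv.ofBijective
      (fun s : P.ker => (⟨toG K Ω s, ?_⟩ : (res L Ω).ker)) ⟨?_, ?_⟩)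
    · rw [MonoidHom.mem_ker, ← hPG, MonoidHom.mem_ker.1 s.2, map_one]
    · intro s t h
      exact Subtype.ext (toG_injective (congrArg Subtype.val h))
    · rintro ⟨g, hg⟩
      rw [MonoidHom.mem_ker] at hg
      have h1 : g ∈ fixG K Ω := by
        rw [mem_fixG_iff_res (M₁ := L), hg]
        exact Subgroup.one_mem _
      obtain ⟨s, rfl⟩ := h1
      refine ⟨⟨s, ?_⟩, rfl⟩
      rw [MonoidHom.mem_ker]
      apply toG_injective
      rw [hPG, hg, map_one]
  have hfib : ∀ s' : Gal(L/K),
      (Finset.univ.filter fun s : Gal(Ω/K) => P s = s').card = Nat.card (res L Ω).ker := by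
    intro s'
    rw [← hker]
    have h1 : (Finset.univ.filter fun s : Gal(Ω/K) => P s = s').card =
        (Finset.univ.filter fun s : Gal(Ω/K) => P s = 1).card :=
      MonoidHom.card_fiber_eq_of_mem_range P (hPsurj s') ⟨1, map_one P⟩
    rw [h1]
    symm
    exact Nat.subtype_card _ fun s => by simp [MonoidHom.mem_ker]
  have hcN : ∀ n, n ≠ 0 → ∀ s : Gal(Ω/K), cN f K L Ω n (toG K Ω s) = zcoeff f (P s) n := by
    intro n hn s
    unfold cN
    split_ifs with hco
    · rw [zcoeff_eq_cnt hab hramL hn hco, hPG]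
    · rw [zcoeff, if_neg hco]
  refine KSide_congr (KSide_mul hZ.isCont (Nat.card (res L Ω).ker : ℂ)) fun n hn => ?_
  rw [zcoeff_restrict (M := L) hab hramL σ n hn, finsum_eq_sum_of_fintype,
    finsum_eq_sum_of_fintype]
  have e1 : (∑ s : {s : Gal(Ω/K) // ∀ x : H, s (algebraMap H Ω x) = algebraMap H Ω (σ x)},
      (cN f K L Ω n (toG K Ω s) : ℂ)) =
      ∑ s ∈ Finset.univ.filter (fun s : Gal(Ω/K) => AlgEquiv.restrictNormalHom H (P s) = σ),
        (zcoeff f (P s) n : ℂ) := by
    rw [Finset.sum_subtype (Finset.univ.filter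
      fun s : Gal(Ω/K) => AlgEquiv.restrictNormalHom H (P s) = σ)
      (p := fun s : Gal(Ω/K) => ∀ x : H, s (algebraMap H Ω x) = algebraMap H Ω (σ x))
      (fun s => by rw [hcond]; simp)]
    refine Finset.sum_congr rfl fun s _ => ?_
    rw [hcN n hn]
  have e2 : (∑ s : {s : Gal(L/K) // AlgEquiv.restrictNormalHom H s = σ}, zcoeff f (s : Gal(L/K)) n)
      = ∑ s ∈ Finset.univ.filter (fun s : Gal(L/K) => AlgEquiv.restrictNormalHom H s = σ),
        zcoeff f s n := by
    symm
    exact Finset.sum_subtype _ (by simp) _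
  rw [e1, e2, ← Finset.sum_fiberwise_of_maps_to (g := P)
    (t := Finset.univ.filter (fun s : Gal(L/K) => AlgEquiv.restrictNormalHom H s = σ))
    (fun s hs => by simpa using hs)]
  push_cast
  rw [Finset.mul_sum]
  refine Finset.sum_congr rfl fun s' hs' => ?_
  have e3 : (Finset.univ.filter
      (fun s : Gal(Ω/K) => AlgEquiv.restrictNormalHom H (P s) = σ)).filter (fun s => P s = s') =
      Finset.univ.filter fun s : Gal(Ω/K) => P s = s' := by
    ext s
    simp only [Finset.mem_filter, Finset.mem_univ, true_and] at hs' ⊢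
    constructor
    · exact fun h => h.2
    · intro h
      exact ⟨by rw [h, hs'], h⟩
  rw [e3, Finset.sum_congr rfl fun s hs => by rw [(Finset.mem_filter.1 hs).2], Finset.sum_const,
    hfib, nsmul_eq_mul]

end Pool.Agent.StarkRQ.Oct
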