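import Pool.Agent.StarkRQ.Oct.PhiDefs
import Pool.Agent.StarkRQ.Oct.CharSum
import Pool.Agent.StarkRQ.ContLin
import Pool.Agent.StarkRQ.LinDeriv

/-!
# The sum of `Phi` is a difference of derivatives of zeta functions

`C` the commutator subgroup, `D = δ.range`, `A` the kernel of `a ∘ δ` (`c ∈ A`), `B e` the kernel of
`bch δ b₀ e` (`c ∉ B e`), `z = ⁅b, c⁆`, `F e g = ∑_(t ∈ D) a(t) ψ_e (g t)`. `κ e` is `1` on `⁅A, A⁆` and on
`⁅B e, B e⁆` (`wedge_of_ker_left`, `wedge_of_ker`), and `κ e (δ g) = a (δ g)`. `|C| = |D| |⁅B e, B e⁆|`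
(`card_eq`).

(1) For `n ≠ 0`, `g ∈ G`: `∑_e ∑_(t ∈ C) κ e t * cE e n (g t) = ∑_(t ∈ C) cA n (g t) ∑_e κ e t` (`hrel`)
`= |D| |⁅A, A⁆| (cA n g - cA n (g z))` (`char_sum`; the `t` with `t z ∈ ⁅A, A⁆` are the `z t'`,
`t' ∈ ⁅A, A⁆`; `hA`; `z * z = 1`, everything in `C` is central).

(2) Sum over `g = s j`, `j ∈ J`. The right side is `|D| |⁅A, A⁆|` times the coefficient of `Z₁ - Z₂`.
In the left side only the pairs `(j, e)` with `s j ∈ B e` contribute (`hE0`, `C ≤ B e`), and for them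
`hEcont` applies to all `s j * t`. So by `deriv_lin`
`|D| |⁅A, A⁆| (Z₁'(0) - Z₂'(0)) = ∑_e ∑_(j : s j ∈ B e) ∑_(t ∈ C) κ e t * (-2 ψ_e (s j t))`
`= - ∑_e ∑_j ∑_(t ∈ C) κ e t * ψ_e (s j t)`, since `S e g = ∑_t κ e t ψ_e (g t)` has
`S e (g c) = S e g`, and `s (i j) = s j * c ∈ B e` iff `s j ∉ B e`.
(3) `S e g = |⁅B e, B e⁆| F e g` (`Big.sum_eq` with `φ t = κ e t * ψ_e (g t)`, `hψN`), so the right side
is `- |⁅B, B⁆| |D| ∑_j Phi (s j)`, where `|⁅B e, B e⁆| = |C|/|D|` does not depend on `e`.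
(4) `|⁅A, A⁆| = |C|/|D|` too: `card_eq` with `b` instead of `c` (`exists_delta b`) and `q = a ∘ δ` (`q b = -1`,
`q` is trivial on the center): `|C| = |{⁅g, b⁆}| |⁅A, A⁆|`, and `card_range` (for `b` and for `c`: both
are not central, `⁅b, c⁆ ≠ 1` as `κ e ⁅b, c⁆ = -1`) gives `|{⁅g, b⁆}| = |D|`.
-/

open scoped commutatorElement

namespace Pool.Agent.StarkRQ.Oct

section Aux

variable {G : Type*} [Group G] {c : G} {δ : G →* G} {b₀ : G →* ℤˣ} {a : δ.range →* ℤˣ}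

private lemma delta_center (hδ : ∀ g, δ g = ⁅g, c⁆) {x : G} (hx : x ∈ Subgroup.center G) :
    δ.rangeRestrict x = 1 := by
  apply Subtype.ext
  change δ x = 1
  rw [hδ, commutatorElement_eq_one_iff_mul_comm]
  exact (Subgroup.mem_center_iff.1 hx c).symm

private lemma delta_c (hδ : ∀ g, δ g = ⁅g, c⁆) : δ.rangeRestrict c = 1 := by
  apply Subtype.ext
  change δ c = 1
  rw [hδ, commutatorElement_self]

private lemma bch_center (hδ : ∀ g, δ g = ⁅g, c⁆) (hb₀ : ∀ x ∈ Subgroup.center G, b₀ x = 1)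
    (e : δ.range →* ℤˣ) : ∀ x ∈ Subgroup.center G, bch δ b₀ e x = 1 := by
  intro x hx
  change b₀ x * e (δ.rangeRestrict x) = 1
  rw [hb₀ x hx, one_mul, delta_center hδ hx, map_one]

private lemma bch_c (hδ : ∀ g, δ g = ⁅g, c⁆) (hb₀c : b₀ c = -1)
    (e : δ.range →* ℤˣ) : bch δ b₀ e c = -1 := by
  change b₀ c * e (δ.rangeRestrict c) = -1
  rw [hb₀c, delta_c hδ, map_one, mul_one]

private lemma al_center (hδ : ∀ g, δ g = ⁅g, c⁆) :
    ∀ x ∈ Subgroup.center G, (a.comp δ.rangeRestrict) x = 1 := by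
  intro x hx
  change a (δ.rangeRestrict x) = 1
  rw [delta_center hδ hx, map_one]

private lemma al_c (hδ : ∀ g, δ g = ⁅g, c⁆) : (a.comp δ.rangeRestrict) c = 1 := by
  change a (δ.rangeRestrict c) = 1
  rw [delta_c hδ, map_one]

private lemma kappa_one {κ : commutator G →* ℤˣ} {H : Subgroup G}
    (h : ∀ g ∈ H, ∀ k ∈ H, ∀ hm : ⁅g, k⁆ ∈ commutator G, κ ⟨⁅g, k⁆, hm⟩ = 1) {t : G}
    (ht : t ∈ ⁅H, H⁆) (ht' : t ∈ commutator G) : κ ⟨t, ht'⟩ = 1 := by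
  have h1 : ⁅H, H⁆ ≤ κ.ker.map (commutator G).subtype := by
    rw [Subgroup.commutator_le]
    intro g hg k hk
    exact ⟨⟨⁅g, k⁆, comm_mem g k⟩, h g hg k hk _, rfl⟩
  obtain ⟨x, hx, rfl⟩ := h1 ht
  exact hx

private lemma kappa_delta (hδ : ∀ g, δ g = ⁅g, c⁆) (hb₀c : b₀ c = -1)
    {κ : commutator G →* ℤˣ} {e : δ.range →* ℤˣ}
    (hκ : ∀ (g h : G) (hm : ⁅g, h⁆ ∈ commutator G),
      κ ⟨⁅g, h⁆, hm⟩ = wedge (a.comp δ.rangeRestrict) (bch δ b₀ e) g h) (t : δ.range) :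
    κ ⟨t, range_le hδ t.2⟩ = a t := by
  obtain ⟨_, x, rfl⟩ := t
  have h2 : κ ⟨δ x, range_le hδ ⟨x, rfl⟩⟩ = κ ⟨⁅x, c⁆, comm_mem x c⟩ := by
    congr 1
    exact Subtype.ext (hδ x)
  rw [h2, hκ, wedge, bch_c hδ hb₀c, al_c hδ]
  have h3 : (a.comp δ.rangeRestrict) x = a ⟨δ x, ⟨x, rfl⟩⟩ := rfl
  rw [h3]
  rcases Int.units_eq_one_or (a ⟨δ x, ⟨x, rfl⟩⟩) with h | h
  · rw [h, if_neg (by decide), if_neg (by decide), one_mul]
  · rw [h, if_pos rfl, if_neg (by decide), mul_one]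

private lemma S_eq [Finite G] (hG : Big G) (hδ : ∀ g, δ g = ⁅g, c⁆)
    (hb₀ : ∀ x ∈ Subgroup.center G, b₀ x = 1) (hb₀c : b₀ c = -1)
    {κ : commutator G →* ℤˣ} {e : δ.range →* ℤˣ}
    (hκ : ∀ (g h : G) (hm : ⁅g, h⁆ ∈ commutator G),
      κ ⟨⁅g, h⁆, hm⟩ = wedge (a.comp δ.rangeRestrict) (bch δ b₀ e) g h) {ψ : G → ℝ}
    (hψN : ∀ t ∈ ⁅(bch δ b₀ e).ker, (bch δ b₀ e).ker⁆, tr t ψ = ψ) (g : G) :
    ∑ᶠ t : commutator G, (((κ t : ℤˣ) : ℤ) : ℝ) * ψ (g * t) =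
      (Nat.card (⁅(bch δ b₀ e).ker, (bch δ b₀ e).ker⁆ : Subgroup G) : ℝ) *
        ∑ᶠ t : δ.range, (((a t : ℤˣ) : ℤ) : ℝ) * ψ (g * t) := by
  rw [hG.sum_eq hδ (bch_center hδ hb₀ e) (bch_c hδ hb₀c e)
    (fun t => (((κ t : ℤˣ) : ℤ) : ℝ) * ψ (g * t))]
  · congr 1
    refine finsum_congr fun t => ?_
    rw [kappa_delta hδ hb₀c hκ t]
  · intro t u hu
    have h1 : κ u = 1 := by
      refine kappa_one (κ := κ) ?_ hu u.2
      intro x hx y hy hm
      rw [hκ]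
      exact wedge_of_ker hx hy
    have h2 : ψ (g * ((t * u : commutator G) : G)) = ψ (g * t) := by
      have h3 := congrFun (hψN u hu) (g * t)
      rw [tr_apply] at h3
      rw [← h3, Subgroup.coe_mul, mul_assoc]
    change (((κ (t * u) : ℤˣ) : ℤ) : ℝ) * ψ (g * ((t * u : commutator G) : G)) = _
    rw [h2, map_mul, h1, mul_one]

private lemma card_AA [Finite G] (hG : Big G) (hδ : ∀ g, δ g = ⁅g, c⁆)
    (hb₀ : ∀ x ∈ Subgroup.center G, b₀ x = 1) (hb₀c : b₀ c = -1) {b : G}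
    (hb : b ∉ (a.comp δ.rangeRestrict).ker) {κ : commutator G →* ℤˣ} {e : δ.range →* ℤˣ}
    (hκ : ∀ (g h : G) (hm : ⁅g, h⁆ ∈ commutator G),
      κ ⟨⁅g, h⁆, hm⟩ = wedge (a.comp δ.rangeRestrict) (bch δ b₀ e) g h) :
    Nat.card (⁅(bch δ b₀ e).ker, (bch δ b₀ e).ker⁆ : Subgroup G) =
      Nat.card (⁅(a.comp δ.rangeRestrict).ker, (a.comp δ.rangeRestrict).ker⁆ : Subgroup G) := by
  have hαb : (a.comp δ.rangeRestrict) b = -1 := by
    rcases Int.units_eq_one_or ((a.comp δ.rangeRestrict) b) with h | h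
    · exact absurd h hb
    · exact h
  have hne : ⁅b, c⁆ ≠ 1 := by
    intro h1
    have h2 := hκ b c (comm_mem b c)
    have h3 : κ ⟨⁅b, c⁆, comm_mem b c⟩ = 1 := by
      have h4 : (⟨⁅b, c⁆, comm_mem b c⟩ : commutator G) = 1 := Subtype.ext h1
      rw [h4, map_one]
    rw [h3, wedge, hαb, bch_c hδ hb₀c, al_c hδ] at h2
    rw [if_pos rfl, if_neg (by decide), mul_one] at h2
    revert h2
    decide
  have hcZ : c ∉ Subgroup.center G := fun h => hne (by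
    rw [commutatorElement_eq_one_iff_mul_comm]
    exact Subgroup.mem_center_iff.1 h b)
  have hbZ : b ∉ Subgroup.center G := fun h => hne (by
    rw [commutatorElement_eq_one_iff_mul_comm]
    exact (Subgroup.mem_center_iff.1 h c).symm)
  obtain ⟨δ', hδ'⟩ := hG.exists_delta b
  have e1 := hG.card_eq hδ (bch_center hδ hb₀ e) (bch_c hδ hb₀c e)
  have e2 := hG.card_eq hδ' (q := a.comp δ.rangeRestrict) (al_center hδ) hαb
  have e3 := hG.card_range hcZ hδ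
  have e4 := hG.card_range hbZ hδ'
  have e5 : Nat.card δ'.range = Nat.card δ.range := by
    have := e3.trans e4.symm
    omega
  rw [e5] at e2
  have e6 := e1.symm.trans e2
  exact Nat.eq_of_mul_eq_mul_left Nat.card_pos e6

private lemma sum_AA [Finite G] [Fintype (commutator G)] {H : Subgroup G}
    [DecidablePred fun t : commutator G => (t : G) ∈ ⁅H, H⁆] :
    ∑ t : commutator G, (if (t : G) ∈ ⁅H, H⁆ then (1 : ℝ) else 0) =
      (Nat.card (⁅H, H⁆ : Subgroup G) : ℝ) := by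
  have hle : ⁅H, H⁆ ≤ commutator G := by
    rw [commutator_def]
    exact Subgroup.commutator_mono le_top le_top
  have h1 : Nat.card (⁅H, H⁆ : Subgroup G) = Nat.card {t : commutator G // (t : G) ∈ ⁅H, H⁆} :=
    (Nat.card_congr (Subgroup.subgroupOfEquivOfLe hle).toEquiv).symm
  rw [h1, Finset.sum_boole, Nat.card_eq_fintype_card, Fintype.card_subtype]

private lemma rel_sum [Finite G] [Fintype (commutator G)] [Fintype (δ.range →* ℤˣ)] (hG : Big G)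
    (hcc : c * c = 1) (hδ : ∀ g, δ g = ⁅g, c⁆)
    (hb₀ : ∀ x ∈ Subgroup.center G, b₀ x = 1) (hb₀c : b₀ c = -1) {b : G}
    (hb : b ∉ (a.comp δ.rangeRestrict).ker) (κ : (δ.range →* ℤˣ) → (commutator G →* ℤˣ))
    (hκ : ∀ e, ∀ (g h : G) (hm : ⁅g, h⁆ ∈ commutator G),
      κ e ⟨⁅g, h⁆, hm⟩ = wedge (a.comp δ.rangeRestrict) (bch δ b₀ e) g h)
    {cE : (δ.range →* ℤˣ) → ℕ → G → ℕ} {cA : ℕ → G → ℕ}
    (hA : ∀ n g, ∀ t ∈ ⁅(a.comp δ.rangeRestrict).ker, (a.comp δ.rangeRestrict).ker⁆,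
      cA n (g * t) = cA n g)
    (hrel : ∀ e, ∀ n : ℕ, n ≠ 0 → ∀ g,
      ∑ᶠ t : commutator G, ((κ e t : ℤˣ) : ℤ) * (cE e n (g * t) : ℤ) =
        ∑ᶠ t : commutator G, ((κ e t : ℤˣ) : ℤ) * (cA n (g * t) : ℤ)) {n : ℕ} (hn : n ≠ 0) (g : G) :
    ∑ e, ∑ t : commutator G, (((κ e t : ℤˣ) : ℤ) : ℝ) * (cE e n (g * t) : ℝ) =
      ((Nat.card δ.range : ℝ) * (Nat.card
        (⁅(a.comp δ.rangeRestrict).ker, (a.comp δ.rangeRestrict).ker⁆ : Subgroup G) : ℝ)) *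
        ((cA n g : ℝ) - (cA n (g * ⁅b, c⁆) : ℝ)) := by
  classical
  have h1 : ∀ e, ∑ t : commutator G, (((κ e t : ℤˣ) : ℤ) : ℝ) * (cE e n (g * t) : ℝ) =
      ∑ t : commutator G, (((κ e t : ℤˣ) : ℤ) : ℝ) * (cA n (g * t) : ℝ) := by
    intro e
    have h2 := hrel e n hn g
    rw [finsum_eq_sum_of_fintype, finsum_eq_sum_of_fintype] at h2
    exact_mod_cast h2
  rw [Finset.sum_congr rfl fun e _ => h1 e, Finset.sum_comm]
  have h3 : ∀ t : commutator G, ∑ e, (((κ e t : ℤˣ) : ℤ) : ℝ) * (cA n (g * t) : ℝ) =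
      (Nat.card δ.range : ℝ) *
      ((if (t : G) ∈ ⁅(a.comp δ.rangeRestrict).ker, (a.comp δ.rangeRestrict).ker⁆ then 1 else 0) *
        (cA n g : ℝ) -
        (if (t : G) * ⁅b, c⁆ ∈ ⁅(a.comp δ.rangeRestrict).ker, (a.comp δ.rangeRestrict).ker⁆
          then 1 else 0) * (cA n (g * ⁅b, c⁆) : ℝ)) := by
    intro t
    rw [← Finset.sum_mul, ← finsum_eq_sum_of_fintype,
      hG.char_sum hcc hδ hb₀ hb₀c hb κ hκ t]
    have h4 : (if (t : G) ∈ ⁅(a.comp δ.rangeRestrict).ker, (a.comp δ.rangeRestrict).ker⁆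
        then (1 : ℝ) else 0) * (cA n (g * t) : ℝ) =
        (if (t : G) ∈ ⁅(a.comp δ.rangeRestrict).ker, (a.comp δ.rangeRestrict).ker⁆
        then (1 : ℝ) else 0) * (cA n g : ℝ) := by
      split_ifs with h
      · rw [hA n g t h]
      · simp
    have h5 : (if (t : G) * ⁅b, c⁆ ∈ ⁅(a.comp δ.rangeRestrict).ker, (a.comp δ.rangeRestrict).ker⁆
        then (1 : ℝ) else 0) * (cA n (g * t) : ℝ) =
        (if (t : G) * ⁅b, c⁆ ∈ ⁅(a.comp δ.rangeRestrict).ker, (a.comp δ.rangeRestrict).ker⁆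
        then (1 : ℝ) else 0) * (cA n (g * ⁅b, c⁆) : ℝ) := by
      split_ifs with h
      · have h6 := hA n (g * ⁅b, c⁆) _ h
        have h7 : g * ⁅b, c⁆ * ((t : G) * ⁅b, c⁆) = g * t := by
          rw [hG.central t.2 ⁅b, c⁆, mul_assoc, ← mul_assoc ⁅b, c⁆, hG.comm_sq, one_mul]
        rw [h7] at h6
        rw [h6]
      · simp
    rw [mul_assoc, sub_mul, h4, h5]
  rw [Finset.sum_congr rfl fun t _ => h3 t, ← Finset.mul_sum, Finset.sum_sub_distrib,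
    ← Finset.sum_mul, ← Finset.sum_mul, sum_AA]
  have h8 : ∑ t : commutator G, (if (t : G) * ⁅b, c⁆ ∈
      ⁅(a.comp δ.rangeRestrict).ker, (a.comp δ.rangeRestrict).ker⁆ then (1 : ℝ) else 0) =
      ∑ t : commutator G, (if (t : G) ∈
      ⁅(a.comp δ.rangeRestrict).ker, (a.comp δ.rangeRestrict).ker⁆ then (1 : ℝ) else 0) := by
    refine Fintype.sum_equiv (Equiv.mulRight ⟨⁅b, c⁆, comm_mem b c⟩) _ _ fun t => ?_
    rfl
  rw [h8, sum_AA]
  ring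

private lemma half_sum {J : Type*} [Fintype J] {q : G →* ℤˣ} (hqc : q c = -1) (s : J → G)
    (i : J → J) (hii : ∀ j, i (i j) = j) (hsi : ∀ j, s (i j) = s j * c) {S : G → ℝ}
    (hS : ∀ g, S (g * c) = S g) [DecidablePred fun j => s j ∈ q.ker] :
    ∑ j, (if s j ∈ q.ker then -2 * S (s j) else 0) = -∑ j, S (s j) := by
  have h1 : ∑ j, (if s j ∈ q.ker then -2 * S (s j) else 0) =
      ∑ j, (if s j ∈ q.ker then 0 else -2 * S (s j)) := by
    refine Fintype.sum_equiv ⟨i, i, hii, hii⟩ _ _ fun j => ?_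
    change _ = if s (i j) ∈ q.ker then 0 else -2 * S (s (i j))
    have hSj : S (s (i j)) = S (s j) := by rw [hsi, hS]
    have h2 : s (i j) ∈ q.ker ↔ ¬ s j ∈ q.ker := by
      rw [hsi, MonoidHom.mem_ker, MonoidHom.mem_ker, map_mul, hqc]
      rcases Int.units_eq_one_or (q (s j)) with h | h
      · rw [h]; decide
      · rw [h]; decide
    by_cases h : s j ∈ q.ker
    · rw [if_pos h, if_neg (fun h' => h2.1 h' h), hSj]
    · rw [if_neg h, if_pos (h2.2 h)]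
  have h3 : ∑ j, (if s j ∈ q.ker then -2 * S (s j) else 0) +
      ∑ j, (if s j ∈ q.ker then 0 else -2 * S (s j)) = -2 * ∑ j, S (s j) := by
    rw [← Finset.sum_add_distrib, Finset.mul_sum]
    refine Finset.sum_congr rfl fun j _ => ?_
    split_ifs <;> ring
  linarith

end Aux

theorem phi_deriv {G : Type*} [Group G] [Finite G] (hG : Big G) {c : G} (hcc : c * c = 1)
    {δ : G →* G} (hδ : ∀ g, δ g = ⁅g, c⁆) {b₀ : G →* ℤˣ}
    (hb₀ : ∀ x ∈ Subgroup.center G, b₀ x = 1) (hb₀c : b₀ c = -1) {a : δ.range →* ℤˣ} {b : G}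
    (hb : b ∉ (a.comp δ.rangeRestrict).ker) (κ : (δ.range →* ℤˣ) → (commutator G →* ℤˣ))
    (hκ : ∀ e, ∀ (g h : G) (hm : ⁅g, h⁆ ∈ commutator G),
      κ e ⟨⁅g, h⁆, hm⟩ = wedge (a.comp δ.rangeRestrict) (bch δ b₀ e) g h)
    {ψ : (δ.range →* ℤˣ) → G → ℝ} (hψc : ∀ e, tr c (ψ e) = ψ e)
    (hψN : ∀ e, ∀ t ∈ ⁅(bch δ b₀ e).ker, (bch δ b₀ e).ker⁆, tr t (ψ e) = ψ e)
    {cE : (δ.range →* ℤˣ) → ℕ → G → ℕ} {cA : ℕ → G → ℕ}
    (hE0 : ∀ e n, ∀ g ∉ (bch δ b₀ e).ker, cE e n g = 0)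
    (hEcont : ∀ e, ∀ g ∈ (bch δ b₀ e).ker, ∃ Z : ℂ → ℂ, IsCont (fun n => (cE e n g : ℂ)) Z ∧
      deriv Z 0 = ((-2 * ψ e g : ℝ) : ℂ))
    (hA : ∀ n g, ∀ t ∈ ⁅(a.comp δ.rangeRestrict).ker, (a.comp δ.rangeRestrict).ker⁆,
      cA n (g * t) = cA n g)
    (hrel : ∀ e, ∀ n : ℕ, n ≠ 0 → ∀ g,
      ∑ᶠ t : commutator G, ((κ e t : ℤˣ) : ℤ) * (cE e n (g * t) : ℤ) =
        ∑ᶠ t : commutator G, ((κ e t : ℤˣ) : ℤ) * (cA n (g * t) : ℤ))
    {J : Type*} [Finite J] (s : J → G) (i : J → J) (hii : ∀ j, i (i j) = j)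
    (hsi : ∀ j, s (i j) = s j * c) {Z₁ Z₂ : ℂ → ℂ}
    (h₁ : IsCont (fun n => ∑ᶠ j, (cA n (s j) : ℂ)) Z₁)
    (h₂ : IsCont (fun n => ∑ᶠ j, (cA n (s j * ⁅b, c⁆) : ℂ)) Z₂) :
    deriv Z₁ 0 - deriv Z₂ 0 = -((∑ᶠ j, Phi a ψ (s j) : ℝ) : ℂ) := by
  classical
  have : Fintype J := Fintype.ofFinite J
  have : Fintype (commutator G) := Fintype.ofFinite _
  have : Finite (δ.range →* ℤˣ) :=
    Finite.of_injective (fun f : δ.range →* ℤˣ => (f : δ.range → ℤˣ)) DFunLike.coe_injective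
  have : Fintype (δ.range →* ℤˣ) := Fintype.ofFinite _
  have hcz : ∀ t : commutator G, ∀ e, bch δ b₀ e (t : G) = 1 := fun t e =>
    bch_center hδ hb₀ e t (hG.center_of_mem t.2)
  have hZ : ∀ e j, ∀ t : commutator G, ∃ Z : ℂ → ℂ, IsCont (fun n => (cE e n (s j * t) : ℂ)) Z ∧
      deriv Z 0 = (((if s j ∈ (bch δ b₀ e).ker then -2 * ψ e (s j * t) else 0 : ℝ)) : ℂ) := by
    intro e j t
    by_cases h : s j ∈ (bch δ b₀ e).ker
    · rw [if_pos h]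
      refine hEcont e (s j * t) ?_
      rw [MonoidHom.mem_ker, map_mul, hcz t e, mul_one]
      exact h
    · rw [if_neg h]
      refine ⟨fun _ => 0, ?_, by simp⟩
      have h1 : (fun n => (cE e n (s j * t) : ℂ)) = 0 := by
        ext n
        rw [hE0 e n (s j * t)]
        · simp
        · rw [MonoidHom.mem_ker, map_mul, hcz t e, mul_one]
          exact h
      rw [h1]
      exact IsCont.zero
  choose Z hZ1 hZ2 using hZ
  set m : ℝ := (Nat.card δ.range : ℝ) * (Nat.card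
    (⁅(a.comp δ.rangeRestrict).ker, (a.comp δ.rangeRestrict).ker⁆ : Subgroup G) : ℝ) with hm
  have hm0 : m ≠ 0 := by
    rw [hm]
    exact mul_ne_zero (Nat.cast_ne_zero.2 Nat.card_pos.ne') (Nat.cast_ne_zero.2 Nat.card_pos.ne')
  have key := deriv_lin (J := ((δ.range →* ℤˣ) × J × commutator G) ⊕ Bool) Finset.univ
    (Sum.elim (fun x => (((κ x.1 x.2.2 : ℤˣ) : ℤ) : ℂ)) (fun r => if r then -(m : ℂ) else (m : ℂ)))
    (Sum.elim (fun x n => (cE x.1 n (s x.2.1 * x.2.2) : ℂ))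
      (fun r n => if r then ∑ᶠ j, (cA n (s j) : ℂ) else ∑ᶠ j, (cA n (s j * ⁅b, c⁆) : ℂ)))
    (Sum.elim (fun x => Z x.1 x.2.1 x.2.2) (fun r => if r then Z₁ else Z₂))
    (by
      rintro (x | r) _
      · exact (hZ1 x.1 x.2.1 x.2.2).diff
      · cases r
        · exact h₂.diff
        · exact h₁.diff)
    (by
      rintro (x | r) _
      · exact (hZ1 x.1 x.2.1 x.2.2).eq
      · cases r
        · exact h₂.eq
        · exact h₁.eq)
    (by
      rintro (x | r) _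
      · exact (hZ1 x.1 x.2.1 x.2.2).summable
      · cases r
        · exact h₂.summable
        · exact h₁.summable)
    (by
      intro n hn
      rw [Fintype.sum_sum_type, Fintype.sum_bool]
      simp only [Sum.elim_inl, Sum.elim_inr, if_true, Bool.false_eq_true, if_false]
      rw [finsum_eq_sum_of_fintype, finsum_eq_sum_of_fintype, Fintype.sum_prod_type]
      have h1 : ∀ e : δ.range →* ℤˣ, ∑ y : J × commutator G,
          (((κ (e, y).1 (e, y).2.2 : ℤˣ) : ℤ) : ℂ) *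
            (cE (e, y).1 n (s (e, y).2.1 * (e, y).2.2) : ℂ) =
          ∑ j, ∑ t : commutator G, (((κ e t : ℤˣ) : ℤ) : ℂ) * (cE e n (s j * t) : ℂ) := by
        intro e
        rw [Fintype.sum_prod_type]
      rw [Finset.sum_congr rfl fun e _ => h1 e, Finset.sum_comm]
      have h2 : ∀ j, ∑ e, ∑ t : commutator G, (((κ e t : ℤˣ) : ℤ) : ℂ) *
          (cE e n (s j * t) : ℂ) = (m : ℂ) * ((cA n (s j) : ℂ) - (cA n (s j * ⁅b, c⁆) : ℂ)) := by
        intro j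
        have h3 := rel_sum hG hcc hδ hb₀ hb₀c hb κ hκ hA hrel hn (s j)
        rw [← hm] at h3
        exact_mod_cast congrArg (fun r : ℝ => (r : ℂ)) h3
      rw [Finset.sum_congr rfl fun j _ => h2 j, ← Finset.mul_sum, Finset.sum_sub_distrib]
      ring)
  rw [Fintype.sum_sum_type, Fintype.sum_bool] at key
  simp only [Sum.elim_inl, Sum.elim_inr, if_true, Bool.false_eq_true, if_false] at key
  rw [Fintype.sum_prod_type] at key
  have h1 : ∀ e : δ.range →* ℤˣ, ∑ y : J × commutator G,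
      (((κ (e, y).1 (e, y).2.2 : ℤˣ) : ℤ) : ℂ) * deriv (Z (e, y).1 (e, y).2.1 (e, y).2.2) 0 =
      ((-∑ j, (Nat.card (⁅(a.comp δ.rangeRestrict).ker, (a.comp δ.rangeRestrict).ker⁆ :
        Subgroup G) : ℝ) * ∑ᶠ t : δ.range, (((a t : ℤˣ) : ℤ) : ℝ) * ψ e (s j * t) : ℝ) : ℂ) := by
    intro e
    rw [Fintype.sum_prod_type]
    have h2 : ∀ j, ∑ t : commutator G, (((κ e t : ℤˣ) : ℤ) : ℂ) * deriv (Z e j t) 0 =
        (((if s j ∈ (bch δ b₀ e).ker then -2 * ∑ᶠ t : commutator G, (((κ e t : ℤˣ) : ℤ) : ℝ) *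
          ψ e (s j * t) else 0 : ℝ)) : ℂ) := by
      intro j
      rw [finsum_eq_sum_of_fintype]
      split_ifs with h
      · rw [Finset.mul_sum]
        push_cast
        refine Finset.sum_congr rfl fun t _ => ?_
        rw [hZ2, if_pos h]
        push_cast
        ring
      · rw [Complex.ofReal_zero]
        refine Finset.sum_eq_zero fun t _ => ?_
        rw [hZ2, if_neg h, Complex.ofReal_zero, mul_zero]
    rw [Finset.sum_congr rfl fun j _ => h2 j, ← Complex.ofReal_sum]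
    congr 1
    have h3 : ∀ g, ∑ᶠ t : commutator G, (((κ e t : ℤˣ) : ℤ) : ℝ) * ψ e (g * c * t) =
        ∑ᶠ t : commutator G, (((κ e t : ℤˣ) : ℤ) : ℝ) * ψ e (g * t) := by
      intro g
      refine finsum_congr fun t => ?_
      have h4 := congrFun (hψc e) (g * t)
      rw [tr_apply] at h4
      rw [← h4, mul_assoc, mul_assoc, hG.central t.2]
    rw [half_sum (bch_c hδ hb₀c e) s i hii hsi
      (S := fun g => ∑ᶠ t : commutator G, (((κ e t : ℤˣ) : ℤ) : ℝ) * ψ e (g * t)) h3]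
    congr 1
    refine Finset.sum_congr rfl fun j _ => ?_
    rw [S_eq hG hδ hb₀ hb₀c (hκ e) (hψN e) (s j), card_AA hG hδ hb₀ hb₀c hb (hκ e)]
  rw [Finset.sum_congr rfl fun e _ => h1 e, ← Complex.ofReal_sum] at key
  have h5 : ∑ e : δ.range →* ℤˣ, (-∑ j, (Nat.card (⁅(a.comp δ.rangeRestrict).ker,
      (a.comp δ.rangeRestrict).ker⁆ : Subgroup G) : ℝ) *
      ∑ᶠ t : δ.range, (((a t : ℤˣ) : ℤ) : ℝ) * ψ e (s j * t)) =
      -(m * ∑ᶠ j, Phi a ψ (s j)) := by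
    rw [finsum_eq_sum_of_fintype, Finset.sum_neg_distrib, Finset.sum_comm, Finset.mul_sum]
    congr 1
    refine Finset.sum_congr rfl fun j _ => ?_
    rw [Phi, finsum_eq_sum_of_fintype, ← Finset.mul_sum, hm]
    have h6 : (Nat.card δ.range : ℝ) ≠ 0 := Nat.cast_ne_zero.2 Nat.card_pos.ne'
    field_simp
  rw [h5] at key
  have h7 : (m : ℂ) ≠ 0 := Complex.ofReal_ne_zero.2 hm0
  have h8 : (m : ℂ) * (deriv Z₁ 0 - deriv Z₂ 0) =
      (m : ℂ) * (-((∑ᶠ j, Phi a ψ (s j) : ℝ) : ℂ)) := by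
    push_cast at key ⊢
    linear_combination -key
  exact mul_left_cancel₀ h7 h8

end Pool.Agent.StarkRQ.Oct
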