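import Pool.Agent.StarkRQ.Oct.Defs
import Pool.Agent.StarkRQ.Galois
import Pool.Agent.StarkRQ.Comm
import Pool.Agent.StarkRQ.Split

/-!
# The trivial case `⁅b, c⁆ = 1`

`R = 1` and `ε = 1`; `E = H`. Only the last statement needs a proof: an embedding `g : H → ℂ` which
differs from `ι` on `K` is `y ↦ ι (γ y)` for some `γ ∈ Gal(Ω/ℚ)` (see the end of the proof of `klein` in
`Klein.lean`), `γ ∉ fixG K Ω`, and `conj (g y) = ι (c γ y)`. `c γ = γ ⁅γ⁻¹, c⁆ c`. The group `fixG K Ω` has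
index `2`, so we can write `γ⁻¹ = x b` with `x ∈ fixG K Ω`; then
`⁅γ⁻¹, c⁆ = ⁅x b, c⁆ = x ⁅b, c⁆ x⁻¹ ⁅x, c⁆ = ⁅x, c⁆`, which acts trivially on `H`, as `x`, `c ∈ fixG K Ω` (`K`
is real) and `Gal(H/K)` is abelian (`H/K` is normal, so the elements of `fixG K Ω` act on `H` through
`Gal(H/K)`). And `c` acts trivially on `H` (`hH`). So `conj (g y) = g y`.
-/

open NumberField Module
open scoped commutatorElement

namespace Pool.Agent.StarkRQ.Oct

theorem oct_trivial {Ω K H : Type} [Field Ω] [NumberField Ω] [IsGalois ℚ Ω] [Field K]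
    [NumberField K] [Field H] [NumberField H] [Algebra K Ω] [Algebra K H] [Algebra H Ω]
    [IsScalarTower K H Ω] [IsTotallyReal K] (hK : finrank ℚ K = 2) [IsAbelianGalois K H]
    {ι : Ω →+* ℂ} (hH : ∀ y : H, (ι (algebraMap H Ω y)).im = 0) {b c : Gal(Ω/ℚ)}
    (hc : ∀ x, ι (c x) = starRingEnd ℂ (ι x)) (hb : b ∉ fixG K Ω) (hbc : ⁅b, c⁆ = 1)
    (G : Gal(H/K) → ℂ → ℂ) :
    ∃ R : Gal(H/K), ∃ ε : Gal(H/K) → (𝓞 H)ˣ,
      (∀ σ, ι (algebraMap H Ω (ε σ : 𝓞 H)) =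
          Complex.exp (-(deriv (G σ) 0 - deriv (G (R * σ)) 0))) ∧
      (∀ ρ σ, ρ ((ε σ : 𝓞 H) : H) = ((ε (ρ * σ) : 𝓞 H) : H)) ∧
      (∃ (E : Type) (_ : Field E) (_ : Algebra K E) (_ : Algebra H E) (_ : IsScalarTower K H E),
        IsAbelianGalois K E ∧ ∀ σ, ∃ y : E, y ^ 2 = algebraMap H E ((ε σ : 𝓞 H) : H)) ∧
      ∀ g : H →+* ℂ, (∃ x : K, g (algebraMap K H x) ≠ ι (algebraMap K Ω x)) →
        (∀ y, g (R y) = starRingEnd ℂ (g y)) ∧ ∀ σ, ‖g ((ε σ : 𝓞 H) : H)‖ = 1 := by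
  have hgal : IsGalois K Ω := IsGalois.tower_top_of_isGalois ℚ K Ω
  have hcy : ∀ y : H, c (algebraMap H Ω y) = algebraMap H Ω y := by
    intro y
    apply ι.injective
    rw [hc]
    exact Complex.conj_eq_iff_im.2 (hH y)
  have hcK : c ∈ fixG K Ω := by
    rw [mem_fixG]
    intro x
    rw [IsScalarTower.algebraMap_apply K H Ω]
    exact hcy _
  obtain ⟨cK, rfl⟩ := hcK
  refine ⟨1, fun _ => 1, ?_, ?_, ?_, ?_⟩
  · intro σ
    rw [one_mul, sub_self, neg_zero, Complex.exp_zero]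
    simp
  · intro ρ σ
    simp
  · refine ⟨H, inferInstance, inferInstance, Algebra.id H, inferInstance, inferInstance, ?_⟩
    intro σ
    exact ⟨1, by simp⟩
  · rintro g ⟨x₀, hx₀⟩
    refine ⟨?_, fun σ => by simp⟩
    obtain ⟨γ, hγ⟩ : ∃ γ : Gal(Ω/ℚ), ∀ y : H, g y = ι (γ (algebraMap H Ω y)) := by
      let _ : Algebra H ℂ := g.toAlgebra
      have : Algebra.IsAlgebraic H Ω := Algebra.IsAlgebraic.of_finite H Ω
      obtain ⟨γ, hγ⟩ := exists_comp ι (IsAlgClosed.lift : Ω →ₐ[H] ℂ).toRingHom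
      refine ⟨γ, fun y => ?_⟩
      rw [← hγ]
      exact ((IsAlgClosed.lift : Ω →ₐ[H] ℂ).commutes y).symm
    have hγK : γ ∉ fixG K Ω := by
      intro h
      rw [mem_fixG] at h
      apply hx₀
      rw [hγ, ← IsScalarTower.algebraMap_apply, h]
    have hx : b * γ ∈ fixG K Ω := mul_mem_of_index_two (fixG_index hK) hb hγK
    obtain ⟨xK, hxK⟩ := hx
    intro y
    rw [AlgEquiv.one_apply, hγ, ← hc]
    congr 1
    have e1 : ∀ s : Gal(Ω/K), s (algebraMap H Ω y)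
        = algebraMap H Ω (AlgEquiv.restrictNormalHom H s y) :=
      fun s => (AlgEquiv.restrictNormal_commutes s H y).symm
    have e2 : cK (xK (algebraMap H Ω y)) = xK (algebraMap H Ω y) := by
      have e3 : (cK * xK) (algebraMap H Ω y) = (xK * cK) (algebraMap H Ω y) := by
        rw [e1, e1, map_mul, map_mul, (IsMulCommutative.is_comm (M := Gal(H/K))).comm]
      have e4 : cK (algebraMap H Ω y) = algebraMap H Ω y := hcy y
      calc cK (xK (algebraMap H Ω y)) = xK (cK (algebraMap H Ω y)) := e3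
        _ = xK (algebraMap H Ω y) := by rw [e4]
    have e5 : b (γ (algebraMap H Ω y)) = xK (algebraMap H Ω y) := by
      have := congrArg (fun s : Gal(Ω/ℚ) => s (algebraMap H Ω y)) hxK
      exact this.symm
    have e6 : b * toG K Ω cK = toG K Ω cK * b := commutatorElement_eq_one_iff_mul_comm.1 hbc
    have e7 : b (toG K Ω cK (γ (algebraMap H Ω y))) = b (γ (algebraMap H Ω y)) := by
      have e8 : b (toG K Ω cK (γ (algebraMap H Ω y)))
          = toG K Ω cK (b (γ (algebraMap H Ω y))) :=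
        congrArg (fun s : Gal(Ω/ℚ) => s (γ (algebraMap H Ω y))) e6
      rw [e8, e5]
      exact e2
    exact (b.injective e7).symm

end Pool.Agent.StarkRQ.Oct
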