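import Pool.Agent.StarkRQ.Oct.Branches
import Pool.Agent.StarkRQ.Oct.RealUnit
import Pool.Agent.StarkRQ.Oct.Descend
import Pool.Agent.StarkRQ.Oct.KSide
import Pool.Agent.StarkRQ.Oct.Trivial
import Pool.Agent.StarkRQ.Oct.PhiDeriv

/-!
# The theorem for a field with a central automorphism of order `32`
-/

open NumberField Module
open scoped commutatorElement

namespace Pool.Agent.StarkRQ.Oct

section

variable {Ω K H : Type} [Field Ω] [NumberField Ω] [IsGalois ℚ Ω] [Field K] [NumberField K]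
  [Field H] [NumberField H] [Algebra K Ω] [Algebra K H] [Algebra H Ω] [IsScalarTower K H Ω]

/-- the formula for the sum of `Phi` over the lifts of `σ` -/
theorem sum_phi (hK : finrank ℚ K = 2) [IsAbelianGalois K H] (hG : Big Gal(Ω/ℚ))
    {ι : Ω →+* ℂ} (hH : ∀ y : H, (ι (algebraMap H Ω y)).im = 0)
    {f : ℕ} (hf0 : f ≠ 0) (hram : ∀ p : ℕ, p.Prime → (p : ℤ) ∣ discr Ω → p ∣ f)
    {b c : Gal(Ω/ℚ)} (hc : ∀ x, ι (c x) = starRingEnd ℂ (ι x)) (hcK : c ∈ fixG K Ω)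
    (hb : b ∉ fixG K Ω)
    {δ : Gal(Ω/ℚ) →* Gal(Ω/ℚ)} (hδ : ∀ g, δ g = ⁅g, c⁆) {b₀ : Gal(Ω/ℚ) →* ℤˣ}
    (hb₀ : ∀ x ∈ Subgroup.center Gal(Ω/ℚ), b₀ x = 1) (hb₀c : b₀ c = -1)
    {a : δ.range →* ℤˣ} (ha : (a.comp δ.rangeRestrict).ker = fixG K Ω)
    {ψ : (δ.range →* ℤˣ) → Gal(Ω/ℚ) → ℝ}
    (hψ : ∀ e, IsBranch ι f c (bch δ b₀ e) (cQ f (bch δ b₀ e)) (ψ e))
    {R : Gal(H/K)} (hR : ∀ x : H, algebraMap H Ω (R x) = ⁅b, c⁆ (algebraMap H Ω x))
    {G : Gal(H/K) → ℂ → ℂ} (hGz : ∀ σ, IsPartialZeta f σ (G σ)) (σ : Gal(H/K)) :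
    ((∑ᶠ s : {s : Gal(Ω/K) // ∀ x : H, s (algebraMap H Ω x) = algebraMap H Ω (σ x)},
        Phi a ψ (toG K Ω s) : ℝ) : ℂ) =
      -(Nat.card (⁅fixG K Ω, fixG K Ω⁆ : Subgroup Gal(Ω/ℚ)) : ℂ) *
          (deriv (G σ) 0 - deriv (G (R * σ)) 0) := by
  classical
  have hcc : c * c = 1 := by
    ext x
    apply ι.injective
    change ι (c (c x)) = ι x
    rw [hc, hc, Complex.conj_conj]
  set A := fixG K Ω with hA
  have : IsGalois K Ω := IsGalois.tower_top_of_isGalois ℚ K Ω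
  have hAidx : A.index = 2 := fixG_index (M := Ω) hK
  have hAn : A.Normal := Subgroup.normal_of_index_eq_two hAidx
  -- the field `LF A`
  have hLA : ∀ q : Subgroup Gal(Ω/ℚ), (⁅q, q⁆ : Subgroup Gal(Ω/ℚ)) ≤ q := by
    intro q
    rw [Subgroup.commutator_le]
    intro g hg g' hg'
    rw [commutatorElement_def]
    exact q.mul_mem (q.mul_mem (q.mul_mem hg hg') (q.inv_mem hg)) (q.inv_mem hg')
  obtain ⟨_, _⟩ := exists_alg (F := K) (E := LF A) (Ω := Ω) (by rw [fixG_LF]; exact hLA A)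
  have hab : IsAbelianGalois K (LF A) := isAbelian_of (Ω := Ω) (by rw [fixG_LF])
  obtain ⟨_, _⟩ := exists_alg (F := H) (E := LF A) (Ω := Ω) (by
    rw [fixG_LF]
    exact comm_le_of_isAbelian (k := K) (L := H))
  have : IsScalarTower K H (LF A) := IsScalarTower.of_algebraMap_eq fun x => by
    apply (algebraMap (LF A) Ω).injective
    rw [← IsScalarTower.algebraMap_apply K (LF A) Ω, ← IsScalarTower.algebraMap_apply H (LF A) Ω,
      ← IsScalarTower.algebraMap_apply K H Ω]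
  -- the characters `κ e`
  set α : Gal(Ω/ℚ) →* ℤˣ := a.comp δ.rangeRestrict with hα
  have hδ1 : ∀ x ∈ Subgroup.center Gal(Ω/ℚ), δ x = 1 := by
    intro x hx
    rw [hδ, commutatorElement_eq_one_iff_mul_comm]
    exact (Subgroup.mem_center_iff.1 hx c).symm
  have hαZ : ∀ x ∈ Subgroup.center Gal(Ω/ℚ), α x = 1 := by
    intro x hx
    have : δ.rangeRestrict x = 1 := Subtype.ext (hδ1 x hx)
    rw [hα, MonoidHom.comp_apply, this, map_one]
  have hZ := fun e x hx => hG.bch_center hδ hb₀ e (x := x) hx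
  have hC := bch_c hδ hb₀c
  have hαb : α b = -1 := int_units_eq (fun h => hb (by rw [← ha]; exact h))
  have hαc : α c = 1 := by
    have : c ∈ α.ker := by rw [ha]; exact hcK
    exact this
  choose κ hκ using fun e => hG.big α (bch δ b₀ e) hαZ (hZ e)
  have hcen : ∀ t ∈ commutator Gal(Ω/ℚ), ∀ x, t * x = x * t := fun t ht x => hG.central ht x
  have hle : ∀ q : Subgroup Gal(Ω/ℚ), (⁅q, q⁆ : Subgroup Gal(Ω/ℚ)) ≤ commutator Gal(Ω/ℚ) := by
    intro q
    rw [commutator_def]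
    exact Subgroup.commutator_mono le_top le_top
  have ht₀ : ∀ e, κ e ⟨⁅b, c⁆, comm_mem b c⟩ = -1 := by
    intro e
    rw [hκ]
    unfold wedge
    rw [if_pos hαb, hC e, hαc, if_neg (by decide), mul_one]
  have hrel : ∀ e, ∀ n : ℕ, n ≠ 0 → ∀ g,
      ∑ᶠ t : commutator Gal(Ω/ℚ), ((κ e t : ℤˣ) : ℤ) * (cQ f (bch δ b₀ e) n (g * t) : ℤ) =
        ∑ᶠ t : commutator Gal(Ω/ℚ), ((κ e t : ℤˣ) : ℤ) * (cN f K (LF A) Ω n (g * t) : ℤ) := by
    intro e n hn g
    have hne : fixG (kF (bch δ b₀ e).ker) Ω ≠ fixG K Ω := by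
      rw [fixG_kF, ← hA, ← ha]
      intro h
      have : c ∈ (bch δ b₀ e).ker := by rw [h]; exact hαc
      rw [MonoidHom.mem_ker, hC e] at this
      exact absurd this (by decide)
    obtain ⟨h1, -⟩ := cnt_twist (k₁ := kF (bch δ b₀ e).ker) (k₂ := K)
      (L₁ := LF (bch δ b₀ e).ker) (L₂ := LF A) (finrank_kF _ (index_ker_of_neg (hC e))) hK
      hf0 hram hne hcen (κ e) (ht₀ e) (by rw [ker_res_LF]; exact hle _)
      (by rw [ker_res_LF]; exact hle _)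
      (fun t ht => kappa_ker (hκ e) t (by rw [← ker_res_LF]; exact ht))
      (fun t ht => kappa_ker_left (hκ e) t (by rw [ha, ← ker_res_LF]; exact ht)) hn g
    rw [ker_res_LF, ker_res_LF] at h1
    have h2 : Nat.card (⁅A, A⁆ : Subgroup Gal(Ω/ℚ)) =
        Nat.card (⁅(bch δ b₀ e).ker, (bch δ b₀ e).ker⁆ : Subgroup Gal(Ω/ℚ)) := by
      rw [← ha]
      exact hG.card_comm_eq hαZ (hZ e) hαb (hC e)
    rw [h2] at h1
    have h3 : (Nat.card (⁅(bch δ b₀ e).ker, (bch δ b₀ e).ker⁆ : Subgroup Gal(Ω/ℚ)) : ℤ) ≠ 0 := by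
      exact_mod_cast Nat.card_pos.ne'
    exact mul_left_cancel₀ h3 h1
  -- the index set
  obtain ⟨cK, hcK'⟩ := id hcK
  have hzA : ⁅b, c⁆ ∈ A := by
    rw [← ha, MonoidHom.mem_ker]
    exact char_comm α b c
  obtain ⟨zK, hzK⟩ := id hzA
  have hcy : ∀ y : H, c (algebraMap H Ω y) = algebraMap H Ω y := by
    intro y
    apply ι.injective
    rw [hc]
    exact Complex.conj_eq_iff_im.2 (hH y)
  have hcKcK : cK * cK = 1 := toG_injective (by rw [map_mul, hcK', hcc, map_one])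
  set J := {s : Gal(Ω/K) // ∀ x : H, s (algebraMap H Ω x) = algebraMap H Ω (σ x)} with hJ
  let i : J → J := fun s => ⟨s.1 * cK, fun x => by
    have h1 : cK (algebraMap H Ω x) = algebraMap H Ω x := by
      have := hcy x
      rw [← hcK'] at this
      exact this
    change s.1 (cK (algebraMap H Ω x)) = _
    rw [h1, s.2]⟩
  have hA' : ∀ n g, ∀ t ∈ ⁅(a.comp δ.rangeRestrict).ker, (a.comp δ.rangeRestrict).ker⁆,
      cN f K (LF A) Ω n (g * t) = cN f K (LF A) Ω n g := by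
    intro n g t ht
    refine cN_mul_ker f n g ?_
    rw [← hα, ha, ← ker_res_LF] at ht
    exact ht
  have hk1 := kside (Ω := Ω) (L := LF A) hram (hGz σ)
  have hk2 := kside (Ω := Ω) (L := LF A) hram (hGz (R * σ))
  -- the second sum as a sum over `J`
  have hJ2 : ∀ n : ℕ, ∑ᶠ s : {s : Gal(Ω/K) // ∀ x : H, s (algebraMap H Ω x) =
      algebraMap H Ω ((R * σ) x)}, (cN f K (LF A) Ω n (toG K Ω s) : ℂ) =
      ∑ᶠ j : J, (cN f K (LF A) Ω n (toG K Ω j * ⁅b, c⁆) : ℂ) := by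
    intro n
    have hzx : ∀ x : H, zK (algebraMap H Ω x) = algebraMap H Ω (R x) := by
      intro x
      rw [hR, ← hzK]
      rfl
    have hzz : zK * zK = 1 := toG_injective (by rw [map_mul, hzK, hG.comm_sq, map_one])
    have hzx' : ∀ x : H, R (R x) = x := by
      intro x
      apply (algebraMap H Ω).injective
      rw [← hzx, ← hzx]
      change (zK * zK) _ = _
      rw [hzz]
      rfl
    have hcomm : ∀ x : H, R (σ x) = σ (R x) := by
      intro x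
      have := mul_comm' R σ
      exact DFunLike.congr_fun this x
    let φ : J ≃ {s : Gal(Ω/K) // ∀ x : H, s (algebraMap H Ω x) =
        algebraMap H Ω ((R * σ) x)} :=
      { toFun := fun s => ⟨s.1 * zK, fun x => by
          change s.1 (zK (algebraMap H Ω x)) = algebraMap H Ω (R (σ x))
          rw [hzx, s.2, hcomm]⟩
        invFun := fun s => ⟨s.1 * zK, fun x => by
          change s.1 (zK (algebraMap H Ω x)) = algebraMap H Ω (σ x)
          rw [hzx, s.2]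
          change algebraMap H Ω (R (σ (R x))) = _
          rw [← hcomm, hzx']⟩
        left_inv := fun s => Subtype.ext (by
          change s.1 * zK * zK = s.1
          rw [mul_assoc, hzz, mul_one])
        right_inv := fun s => Subtype.ext (by
          change s.1 * zK * zK = s.1
          rw [mul_assoc, hzz, mul_one]) }
    rw [← finsum_comp_equiv φ]
    refine finsum_congr fun j => ?_
    change (cN f K (LF A) Ω n (toG K Ω (j.1 * zK)) : ℂ) = _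
    rw [map_mul, hzK]
  have hkey := phi_deriv hG hcc hδ hb₀ hb₀c (a := a) (b := b) (by rw [← hα, ha]; exact hb) κ hκ
    (ψ := ψ) (fun e => (hψ e).tr_c) (fun e => (hψ e).tr_N)
    (cE := fun e => cQ f (bch δ b₀ e)) (cA := cN f K (LF A) Ω) (fun e => (hψ e).zero)
    (fun e => (hψ e).cont) hA' hrel (J := J) (fun j => toG K Ω j.1) i
    (fun j => Subtype.ext (by
      change j.1 * cK * cK = j.1
      rw [mul_assoc, hcKcK, mul_one]))
    (fun j => by
      change toG K Ω (j.1 * cK) = _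
      rw [map_mul, hcK']) hk1 (by
      have h := hk2
      simp only [hJ2] at h
      exact h)
  have hd : ∀ τ : Gal(H/K), deriv (fun x => (Nat.card (res (LF A) Ω).ker : ℂ) * G τ x) 0 =
      (Nat.card (⁅A, A⁆ : Subgroup Gal(Ω/ℚ)) : ℂ) * deriv (G τ) 0 := by
    intro τ
    have h1 : DifferentiableAt ℂ (G τ) 0 := (hGz τ).isCont.differentiableAt
    rw [ker_res_LF]
    exact (h1.hasDerivAt.const_mul _).deriv
  rw [hd, hd] at hkey
  linear_combination hkey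

/-- The theorem for a field with a central automorphism of order `32`. -/
theorem oct_internal [IsTotallyReal K] (hK : finrank ℚ K = 2) [IsAbelianGalois K H]
    (hG : Big Gal(Ω/ℚ)) (hidx : (Subgroup.center Gal(Ω/ℚ)).index ≤ 32)
    {ι : Ω →+* ℂ} (hH : ∀ y : H, (ι (algebraMap H Ω y)).im = 0)
    {f : ℕ} [NeZero f] (hf : 2 < f) {ζ : Ω} (hζ : IsPrimitiveRoot ζ f)
    (hζC : ∀ g : Gal(Ω/ℚ), g ζ = ζ ↔ g ∈ commutator Gal(Ω/ℚ))
    (hram : ∀ p : ℕ, p.Prime → (p : ℤ) ∣ discr Ω → p ∣ f) {h₀ : Gal(Ω/ℚ)}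
    (hh : ∀ g, h₀ * g = g * h₀) (hh32 : h₀ ^ 32 = 1) {n₀ : ℕ} (hn₀ : Odd n₀)
    (hroot : ∀ ξ : Ω, ∀ m : ℕ, 0 < m → ξ ^ m = 1 → h₀ ξ = ξ ^ n₀)
    (hhH : ∀ y : H, h₀ (algebraMap H Ω y) = algebraMap H Ω y)
    (hfree : ∀ c : Gal(Ω/ℚ), (∀ x, ι (c x) = starRingEnd ℂ (ι x)) →
      ∀ i j : ℕ, h₀ ^ i * c ^ j ∈ commutator Gal(Ω/ℚ) → 32 ∣ i ∧ 2 ∣ j)
    (hStark : ∀ B : Subgroup Gal(Ω/ℚ), B.index = 2 → Subgroup.center Gal(Ω/ℚ) ≤ B →
      IsTotallyComplex (kF B) → ∃ η : LF B, IsStarkUnit (kF B) (ι.comp (algebraMap (LF B) Ω)) f η)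
    (G : Gal(H/K) → ℂ → ℂ) (hGz : ∀ σ, IsPartialZeta f σ (G σ)) :
    ∃ R : Gal(H/K), ∃ ε : Gal(H/K) → (𝓞 H)ˣ,
      (∀ σ, ι (algebraMap H Ω (ε σ : 𝓞 H)) =
          Complex.exp (-(deriv (G σ) 0 - deriv (G (R * σ)) 0))) ∧
      (∀ ρ σ, ρ ((ε σ : 𝓞 H) : H) = ((ε (ρ * σ) : 𝓞 H) : H)) ∧
      (∃ (E : Type) (_ : Field E) (_ : Algebra K E) (_ : Algebra H E) (_ : IsScalarTower K H E),
        IsAbelianGalois K E ∧ ∀ σ, ∃ y : E, y ^ 2 = algebraMap H E ((ε σ : 𝓞 H) : H)) ∧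
      ∀ g : H →+* ℂ, (∃ x : K, g (algebraMap K H x) ≠ ι (algebraMap K Ω x)) →
        (∀ y, g (R y) = starRingEnd ℂ (g y)) ∧ ∀ σ, ‖g ((ε σ : 𝓞 H) : H)‖ = 1 := by
  classical
  have hf0 : f ≠ 0 := by omega
  obtain ⟨c, hc⟩ := exists_cc ι
  have hcc : c * c = 1 := by
    ext x
    apply ι.injective
    change ι (c (c x)) = ι x
    rw [hc, hc, Complex.conj_conj]
  have hcK : c ∈ fixG K Ω := cc_mem_fixG hc
  have : IsGalois K Ω := IsGalois.tower_top_of_isGalois ℚ K Ω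
  have hAidx : (fixG K Ω).index = 2 := fixG_index (M := Ω) hK
  by_cases htriv : ∃ b, b ∉ fixG K Ω ∧ ⁅b, c⁆ = 1
  · obtain ⟨b, hb, hbc⟩ := htriv
    exact oct_trivial hK hH hc hb hbc G
  push Not at htriv
  obtain ⟨b, hb⟩ := exists_notMem_fixG (F := K) (M := Ω) hK
  have hbc := htriv b hb
  have hcZ : c ∉ Subgroup.center Gal(Ω/ℚ) := by
    intro h
    apply hbc
    rw [commutatorElement_eq_one_iff_mul_comm]
    exact Subgroup.mem_center_iff.1 h b
  obtain ⟨δ, hδ⟩ := hG.exists_delta c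
  have hD : Nat.card δ.range ≤ 16 := by
    have := hG.card_range hcZ hδ
    omega
  obtain ⟨b₀, hb₀, hb₀c⟩ := exists_sep (Subgroup.center Gal(Ω/ℚ))
    (fun g => Subgroup.mem_center_iff.2 fun x => (hG.sq g x).symm)
    (fun g h => hG.comm_mem_center g h) hcZ
  obtain ⟨a, ha⟩ := exists_a (δ := δ) hAidx (by
    intro g hg
    by_contra hgA
    exact htriv g hgA (by rw [← hδ, hg]))
  have ha1 : a ≠ 1 := by
    rintro rfl
    apply hb
    rw [← ha]
    rfl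
  -- the root of unity
  obtain ⟨j, j', hζp, hιζ, hjj⟩ := exists_zeta hζ ι
  have hζC' : ∀ g : Gal(Ω/ℚ), g (ζ ^ j) = ζ ^ j ↔ g ∈ commutator Gal(Ω/ℚ) := by
    intro g
    rw [← hζC]
    constructor
    · intro h
      rw [← hjj, map_pow, h]
    · intro h
      rw [map_pow, h]
  -- the branches
  have hC := bch_c hδ hb₀c
  have hZ := fun e x hx => hG.bch_center hδ hb₀ e (x := x) hx
  have hη : ∀ e : δ.range →* ℤˣ, ∃ η : LF (bch δ b₀ e).ker,
      IsStarkUnit (kF (bch δ b₀ e).ker) (ι.comp (algebraMap (LF (bch δ b₀ e).ker) Ω)) f η := by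
    intro e
    have hcq : c ∉ (bch δ b₀ e).ker := by
      rw [MonoidHom.mem_ker, hC e]
      decide
    exact hStark _ (index_ker_of_neg (hC e)) (fun x hx => hZ e x hx)
      (totallyComplex_kF _ (index_ker_of_neg (hC e)) hc hcq)
  choose η hη using hη
  set ψ : (δ.range →* ℤˣ) → Gal(Ω/ℚ) → ℝ := fun e => psi ι (η e) with hψdef
  have hψ : ∀ e, IsBranch ι f c (bch δ b₀ e) (cQ f (bch δ b₀ e)) (ψ e) := fun e =>
    exists_branch hf0 hram hc (hC e) (hη e)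
  obtain ⟨hpair, hvan⟩ := branches_pair hG hf0 hram hδ hb₀ hb₀c hψ
  have hnorm := fun e => branches_norm hG hf hram hζp hζC' hc hδ (hZ e) (hC e) (hψ e)
  choose lam hlam hnorm using hnorm
  have h1 : tr h₀ (Phi a ψ) - n₀ • Phi a ψ ∈ SF ι :=
    phi_h0 hG hc hδ hD hb₀ hb₀c ha1 hf hζp hιζ hh hn₀ hroot hpair (fun e => (hψ e).mem) hlam hnorm
  have h2 : 16 • Phi a ψ ∈ SF ι := phi_mem hG hδ hD ha1 (fun e => (hψ e).mem)
  have hle : (⁅fixG K Ω, fixG K Ω⁆ : Subgroup Gal(Ω/ℚ)) ≤ commutator Gal(Ω/ℚ) := by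
    rw [commutator_def]
    exact Subgroup.commutator_mono le_top le_top
  have hΦT : ∀ t ∈ ⁅fixG K Ω, fixG K Ω⁆, tr t (Phi a ψ) = Phi a ψ := by
    intro t ht
    exact phi_T hG hδ hb₀ hb₀c a (fun e => (hψ e).tr_N) (by rw [ha]; exact ht)
  obtain ⟨y, hy, hcy, hty, hhy⟩ := exists_real hc hh hh32 hn₀ hroot h1 h2
    (phi_c hG hδ a (fun e => (hψ e).tr_c)) (phi_sum hG hδ ha1 ψ) ⁅fixG K Ω, fixG K Ω⁆
    (fun t ht g => hG.central (hle ht) g) (fun t ht => hG.sq_eq_one (hle ht)) hΦT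
    (fun t ht ξ m hm hξ => commutator_root (hle ht) ξ m hm hξ)
  -- the automorphism `R`
  have hzA : ⁅b, c⁆ ∈ fixG K Ω := by
    rw [← ha, MonoidHom.mem_ker]
    exact char_comm _ b c
  obtain ⟨zK, hzK⟩ := id hzA
  have hRx : ∀ x : H, algebraMap H Ω (AlgEquiv.restrictNormalHom H zK x) =
      ⁅b, c⁆ (algebraMap H Ω x) := by
    intro x
    rw [← hzK]
    exact AlgEquiv.restrictNormal_commutes zK H x
  refine ⟨AlgEquiv.restrictNormalHom H zK, ?_⟩
  exact descend hK hH hc hh hh32 hhH hb hG.comm hG.comm_sq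
    (fun i j h => hfree c hc i j (hle h)) (phi_c hG hδ a (fun e => (hψ e).tr_c)) hΦT
    (fun g hg => phi_zero hG hδ ha1 hvan (by rw [ha]; exact hg)) hy hcy hty hhy hRx
    (fun σ => sum_phi hK hG hH hf0 hram hc hcK hb hδ hb₀ hb₀c ha hψ hRx hGz σ)

end

end Pool.Agent.StarkRQ.Oct
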