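import Pool.Agent.StarkRQ.Oct.Defs
import Pool.Agent.StarkRQ.Galois

/-!
# Units and roots of unity from the functions `logF`

`exists_unit`: let `u ≠ 0` with all `g u / u` integral. The inverse `(g u / u)⁻¹ = g (g⁻¹ u / u)` is
integral too. The norm `n = ∏_g g u = u ^ |Γ| * ∏_g (g u / u)` is fixed by `Γ`, hence rational, and
`log |ι n| = ∑ φ g = 0`, so `n = ±1`; hence `u ^ |Γ|` and its inverse are integral, and so are `u`, `u⁻¹`.

`root_of_logF_eq`: `w = u / v` has all `g w / w` integral and `logF ι w = 0`, so `w` is a unit by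
`exists_unit` (with `φ = 0`), and all its conjugates (all embeddings are `ι ∘ g`, `exists_comp`) have
absolute value `1`: `NumberField.Embeddings.pow_eq_one_of_norm_eq_one`.
-/

open NumberField

namespace Pool.Agent.StarkRQ.Oct

variable {Ω : Type} [Field Ω] [NumberField Ω]

private lemma integral_inv {u : Ω} (hu : u ≠ 0)
    (hui : ∀ g : Gal(Ω/ℚ), IsIntegral ℤ (g u / u)) (g : Gal(Ω/ℚ)) :
    IsIntegral ℤ (g u / u)⁻¹ := by
  have hgu : g u ≠ 0 := (map_ne_zero_iff g g.injective).2 hu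
  have h1 : (g u / u)⁻¹ = g (g⁻¹ u / u) := by
    have h2 : g (g⁻¹ u) = u := by
      change (g * g⁻¹) u = u
      rw [mul_inv_cancel]; rfl
    rw [map_div₀, h2]
    field_simp
  rw [h1]
  exact (hui g⁻¹).map (g : Ω →ₐ[ℚ] Ω).toRingHom.toIntAlgHom

private lemma integral_of_sum [IsGalois ℚ Ω] {ι : Ω →+* ℂ} {u : Ω} (hu : u ≠ 0)
    (hui : ∀ g : Gal(Ω/ℚ), IsIntegral ℤ (g u / u)) (hsum : ∑ g, logF ι u g = 0) :
    IsIntegral ℤ u ∧ IsIntegral ℤ u⁻¹ := by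
  set n : Ω := ∏ g : Gal(Ω/ℚ), g u with hn
  have hcard : Fintype.card Gal(Ω/ℚ) ≠ 0 := Fintype.card_ne_zero
  have hn1 : n = u ^ Fintype.card Gal(Ω/ℚ) * ∏ g : Gal(Ω/ℚ), g u / u := by
    rw [hn, ← Finset.card_univ, ← Finset.prod_const, ← Finset.prod_mul_distrib]
    refine Finset.prod_congr rfl fun g _ => ?_
    field_simp
  have hn2 : algebraMap ℚ Ω (Algebra.norm ℚ u) = n := Algebra.norm_eq_prod_automorphisms ℚ u
  have hn0 : n ≠ 0 := Finset.prod_ne_zero_iff.2 fun g _ => (map_ne_zero_iff g g.injective).2 hu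
  have hn3 : Real.log ‖ι n‖ = 0 := by
    rw [hn, map_prod, norm_prod, Real.log_prod fun g _ => norm_ne_zero_of ι hu g]
    exact hsum
  have hn4 : ‖ι n‖ = 1 := by
    have h0 : 0 < ‖ι n‖ := norm_pos_iff.2 ((map_ne_zero ι).2 hn0)
    exact Real.eq_one_of_pos_of_log_eq_zero h0 hn3
  have hn5 : n = 1 ∨ n = -1 := by
    have h1 : ι n = ((Algebra.norm ℚ u : ℚ) : ℂ) := by
      rw [← hn2, eq_ratCast, map_ratCast]
    rw [h1, Complex.norm_ratCast] at hn4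
    have h2 : |(Algebra.norm ℚ u : ℚ)| = 1 := by exact_mod_cast hn4
    rcases eq_or_eq_neg_of_abs_eq h2 with h3 | h3
    · left
      rw [← hn2, h3, map_one]
    · right
      rw [← hn2, h3, map_neg, map_one]
  have hni : IsIntegral ℤ n := by
    rcases hn5 with h | h
    · rw [h]; exact isIntegral_one
    · rw [h]; exact isIntegral_one.neg
  have hni' : IsIntegral ℤ n⁻¹ := by
    rcases hn5 with h | h
    · rw [h, inv_one]; exact isIntegral_one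
    · rw [h, inv_neg, inv_one]; exact isIntegral_one.neg
  have hp0 : (∏ g : Gal(Ω/ℚ), g u / u) ≠ 0 := by
    intro h0
    rw [h0, mul_zero] at hn1
    exact hn0 hn1
  constructor
  · refine IsIntegral.of_pow (Nat.pos_of_ne_zero hcard) ?_
    have h1 : u ^ Fintype.card Gal(Ω/ℚ) = n * ∏ g : Gal(Ω/ℚ), (g u / u)⁻¹ := by
      rw [Finset.prod_inv_distrib, hn1]
      field_simp
    rw [h1]
    exact hni.mul (IsIntegral.prod _ fun g _ => integral_inv hu hui g)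
  · refine IsIntegral.of_pow (Nat.pos_of_ne_zero hcard) ?_
    have h1 : u⁻¹ ^ Fintype.card Gal(Ω/ℚ) = n⁻¹ * ∏ g : Gal(Ω/ℚ), g u / u := by
      rw [hn1, inv_pow, mul_inv, mul_assoc, inv_mul_cancel₀ hp0, mul_one]
    rw [h1]
    exact hni'.mul (IsIntegral.prod _ fun g _ => hui g)

theorem exists_unit [IsGalois ℚ Ω] {ι : Ω →+* ℂ} {φ : Gal(Ω/ℚ) → ℝ} (hφ : φ ∈ SF ι)
    (hsum : ∑ g, φ g = 0) : ∃ u : (𝓞 Ω)ˣ, φ = logF ι ((u : 𝓞 Ω) : Ω) := by
  obtain ⟨u, hu, hui, rfl⟩ := hφ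
  obtain ⟨h1, h2⟩ := integral_of_sum hu hui hsum
  refine ⟨⟨⟨u, h1⟩, ⟨u⁻¹, h2⟩, ?_, ?_⟩, rfl⟩
  · exact Subtype.ext (mul_inv_cancel₀ hu)
  · exact Subtype.ext (inv_mul_cancel₀ hu)

theorem root_of_logF_eq [IsGalois ℚ Ω] {ι : Ω →+* ℂ} {u v : Ω} (hu : u ≠ 0) (hv : v ≠ 0)
    (hui : ∀ g : Gal(Ω/ℚ), IsIntegral ℤ (g u / u)) (hvi : ∀ g : Gal(Ω/ℚ), IsIntegral ℤ (g v / v))
    (h : logF ι u = logF ι v) : ∃ m : ℕ, 0 < m ∧ (u / v) ^ m = 1 := by
  have hw : u / v ≠ 0 := div_ne_zero hu hv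
  have h0 : logF ι (u / v) = 0 := by
    rw [div_eq_mul_inv, logF_mul ι hu (inv_ne_zero hv), logF_inv, h, add_neg_cancel]
  have hwi : ∀ g : Gal(Ω/ℚ), IsIntegral ℤ (g (u / v) / (u / v)) := by
    intro g
    have h1 : g (u / v) / (u / v) = (g u / u) * (g v / v)⁻¹ := by
      have hgv : g v ≠ 0 := (map_ne_zero_iff g g.injective).2 hv
      rw [map_div₀]
      field_simp
    rw [h1]
    exact (hui g).mul (integral_inv hv hvi g)
  obtain ⟨h1, _⟩ := integral_of_sum (ι := ι) hw hwi (by rw [h0]; simp)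
  obtain ⟨m, hm, hm1⟩ := NumberField.Embeddings.pow_eq_one_of_norm_eq_one Ω ℂ h1 (by
    intro φ
    obtain ⟨γ, hγ⟩ := exists_comp ι φ
    rw [hγ]
    have h2 : Real.log ‖ι (γ (u / v))‖ = 0 := congrFun h0 γ
    exact Real.eq_one_of_pos_of_log_eq_zero
      (lt_of_le_of_ne (norm_nonneg _) (norm_ne_zero_of ι hw γ).symm) h2)
  exact ⟨m, hm, hm1⟩

end Pool.Agent.StarkRQ.Oct
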