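import Pool.Agent.StarkRQ.Oct.ModRoot
import Pool.Agent.StarkRQ.Oct.Inst

/-!
# Moduli of the fields `LF B` of `Ω = M(ξ)` from moduli of subfields of `M`
-/

set_option autoImplicit false

noncomputable section

open NumberField Module Pool.Agent.StarkRQ Pool.Agent.CMR
open scoped commutatorElement

namespace Pool.Agent.StarkRQ.Oct

variable {M Ω : Type} [Field M] [NumberField M] [IsGalois ℚ M] [Field Ω] [NumberField Ω]
  [IsGalois ℚ Ω] [Algebra M Ω]

/-- abstract version -/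
private theorem isMod_up_aux {F N : ℕ} (hF : F ≠ 0) {ξ : Ω} (hξ : IsPrimitiveRoot ξ F)
    (hξC : ∀ t ∈ commutator Gal(Ω/ℚ), t ξ = ξ)
    (hinj : ∀ g : Gal(Ω/ℚ), res M Ω g = 1 → g ξ = ξ → g = 1)
    (hram : ∀ p : ℕ, p.Prime → (p : ℤ) ∣ discr Ω → p ∣ N * F)
    {k L₁ L : Type} [Field k] [NumberField k] [IsTotallyComplex k] [Field L₁] [NumberField L₁]
    [Field L] [NumberField L] [Algebra k L₁] [Algebra k L] [Algebra L₁ L] [IsScalarTower k L₁ L]
    [Algebra k M] [Algebra L₁ M] [IsScalarTower k L₁ M] [Algebra k Ω] [Algebra L₁ Ω] [Algebra L Ω]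
    [IsScalarTower k M Ω] [IsScalarTower L₁ M Ω] [IsScalarTower k L Ω] [IsScalarTower L₁ L Ω]
    [IsGalois ℚ L₁] [IsAbelianGalois k L₁] [IsGalois ℚ L] [IsAbelianGalois k L]
    (h1 : fixG L₁ M = ⁅fixG k M, fixG k M⁆) (h2 : fixG L Ω = ⁅fixG k Ω, fixG k Ω⁆)
    (hmod : IsMod k L₁ N) : IsMod k L (N * F) := by
  have hξL : ξ ∈ (algebraMap L Ω).range := by
    have : IsGalois L Ω := IsGalois.tower_top_of_isGalois ℚ L Ω
    rw [RingHom.mem_range]
    refine (InfiniteGalois.mem_range_algebraMap_iff_fixed ξ).mpr fun ρ => ?_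
    have h3 : toG L Ω ρ ∈ fixG L Ω := ⟨ρ, rfl⟩
    rw [h2] at h3
    have h4 : (⁅fixG k Ω, fixG k Ω⁆ : Subgroup Gal(Ω/ℚ)) ≤ commutator Gal(Ω/ℚ) := by
      rw [commutator_def]
      exact Subgroup.commutator_mono le_top le_top
    exact hξC _ (h4 h3)
  obtain ⟨ζ, hζ⟩ := hξL
  have hζ' : IsPrimitiveRoot ζ F := by
    rw [← hζ] at hξ
    exact hξ.of_map_of_injective (algebraMap L Ω).injective
  refine isMod_of_root hF (fun p hp h3 => hram p hp (h3.trans (discr_dvd_discr L Ω))) hζ'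
    (fun σ hσ hσζ => ?_) hmod
  have : IsGalois k Ω := IsGalois.tower_top_of_isGalois ℚ k Ω
  obtain ⟨g, hg⟩ := AlgEquiv.restrictNormalHom_surjective (F := k) (K₁ := L) Ω σ
  have hgx : ∀ x : L, toG k Ω g (algebraMap L Ω x) = algebraMap L Ω (σ x) := by
    intro x
    rw [← hg]
    exact (AlgEquiv.restrictNormal_commutes g L x).symm
  have hgξ : toG k Ω g ξ = ξ := by
    rw [← hζ, hgx, hσζ]
  have h3 : res M Ω (toG k Ω g) ∈ fixG L₁ M := by
    rw [mem_fixG]
    intro x
    apply (algebraMap M Ω).injective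
    rw [res_apply, ← IsScalarTower.algebraMap_apply L₁ M Ω,
      IsScalarTower.algebraMap_apply L₁ L Ω, hgx, hσ]
  have h4 : (fixG k Ω).map (res M Ω) = fixG k M := by
    ext t
    constructor
    · rintro ⟨s, hs, rfl⟩
      rw [mem_fixG]
      intro x
      apply (algebraMap M Ω).injective
      rw [res_apply, ← IsScalarTower.algebraMap_apply k M Ω]
      exact mem_fixG.1 hs x
    · intro ht
      obtain ⟨s, hs⟩ := (AlgEquiv.restrictNormalHom_surjective (F := ℚ) (K₁ := M) Ω :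
        Function.Surjective (res M Ω)) t
      refine ⟨s, ?_, hs⟩
      change s ∈ fixG k Ω
      rw [mem_fixG]
      intro x
      rw [IsScalarTower.algebraMap_apply k M Ω, ← res_apply, hs, mem_fixG.1 ht]
  rw [h1, ← h4, ← Subgroup.map_commutator] at h3
  obtain ⟨t, ht, hπ⟩ := h3
  have ht' : t ∈ commutator Gal(Ω/ℚ) := by
    rw [commutator_def]
    exact Subgroup.commutator_mono le_top le_top ht
  have h5 : t⁻¹ * toG k Ω g = 1 := by
    apply hinj
    · rw [map_mul, map_inv, hπ, inv_mul_cancel]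
    · change t⁻¹ (toG k Ω g ξ) = ξ
      rw [hgξ]
      have h6 := hξC t⁻¹ (inv_mem ht')
      exact h6
  have h6 : toG k Ω g = t := (inv_mul_eq_one.1 h5).symm
  have h7 : toG k Ω g ∈ fixG L Ω := by
    rw [h6, h2]
    exact ht
  ext x
  apply (algebraMap L Ω).injective
  rw [← hgx, mem_fixG.1 h7]
  rfl

theorem isMod_up {F N : ℕ} (hF : F ≠ 0) {ξ : Ω} (hξ : IsPrimitiveRoot ξ F)
    (hξC : ∀ t ∈ commutator Gal(Ω/ℚ), t ξ = ξ)
    (hinj : ∀ g : Gal(Ω/ℚ), res M Ω g = 1 → g ξ = ξ → g = 1)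
    (hram : ∀ p : ℕ, p.Prime → (p : ℤ) ∣ discr Ω → p ∣ N * F) (B : Subgroup Gal(Ω/ℚ))
    (hB : B.index = 2) (hker : (res M Ω).ker ≤ B) (hcx : IsTotallyComplex (kF B))
    (hmod : ∀ A : Subgroup Gal(M/ℚ), A.index = 2 → IsTotallyComplex (kF A) →
      IsMod (kF A) (LF A) N) : IsMod (kF B) (LF B) (N * F) := by
  have hπ : Function.Surjective (res M Ω) :=
    AlgEquiv.restrictNormalHom_surjective (F := ℚ) (K₁ := M) Ω
  obtain ⟨A, hA⟩ : ∃ A, A = B.map (res M Ω) := ⟨_, rfl⟩
  have hAB : A.comap (res M Ω) = B := by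
    rw [hA, Subgroup.comap_map_eq, sup_eq_left.2 hker]
  have hAi : A.index = 2 := by
    rw [← hB, ← hAB, Subgroup.index_comap_of_surjective _ hπ]
  have hAn : A.Normal := Subgroup.normal_of_index_eq_two hAi
  have hBn : B.Normal := Subgroup.normal_of_index_eq_two hB
  let _ : Algebra (kF A) Ω := ((algebraMap M Ω).comp (algebraMap (kF A) M)).toAlgebra
  let _ : Algebra (LF A) Ω := ((algebraMap M Ω).comp (algebraMap (LF A) M)).toAlgebra
  have t1 : IsScalarTower (kF A) M Ω := IsScalarTower.of_algebraMap_eq fun _ => rfl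
  have t2 : IsScalarTower (LF A) M Ω := IsScalarTower.of_algebraMap_eq fun _ => rfl
  have t3 : IsScalarTower (kF A) (LF A) Ω := IsScalarTower.of_algebraMap_eq fun _ => rfl
  have f1 : fixG (kF A) Ω = B := by
    have hA' : ∀ h : Gal(M/ℚ), h ∈ A ↔ h ∈ fixG (kF A) M := fun h => by rw [fixG_kF A]
    rw [← hAB]
    ext g
    rw [mem_fixG, Subgroup.mem_comap, hA', mem_fixG]
    constructor
    · intro h x
      apply (algebraMap M Ω).injective
      rw [res_apply]
      exact h x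
    · intro h x
      rw [IsScalarTower.algebraMap_apply (kF A) M Ω, ← res_apply, h x]
  have f2 : fixG (LF B) Ω ≤ fixG (LF A) Ω := by
    intro g hg
    rw [fixG_LF] at hg
    have h3 : res M Ω g ∈ ⁅A, A⁆ := by
      rw [hA, ← Subgroup.map_commutator]
      exact ⟨g, hg, rfl⟩
    rw [← fixG_LF A, mem_fixG] at h3
    rw [mem_fixG]
    intro x
    rw [IsScalarTower.algebraMap_apply (LF A) M Ω, ← res_apply, h3 x]
  obtain ⟨i1, i2⟩ := exists_alg (Ω := Ω) (F := LF A) (E := LF B) f2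
  let _ : Algebra (kF A) (LF B) := ((algebraMap (LF A) (LF B)).comp
    (algebraMap (kF A) (LF A))).toAlgebra
  have t4 : IsScalarTower (kF A) (LF A) (LF B) := IsScalarTower.of_algebraMap_eq fun _ => rfl
  have t5 : IsScalarTower (kF A) (LF B) Ω := IsScalarTower.of_algebraMap_eq fun x => by
    change _ = algebraMap (LF B) Ω (algebraMap (LF A) (LF B) (algebraMap (kF A) (LF A) x))
    rw [← IsScalarTower.algebraMap_apply (LF A) (LF B) Ω,
      ← IsScalarTower.algebraMap_apply (kF A) (LF A) Ω]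
  -- the base fields are isomorphic
  obtain ⟨j1, j2⟩ := exists_alg (Ω := Ω) (F := kF A) (E := kF B) (by rw [fixG_kF, f1])
  obtain ⟨j3, j4⟩ := exists_alg (Ω := Ω) (F := kF B) (E := kF A) (by rw [fixG_kF, f1])
  let e : kF A ≃+* kF B := RingEquiv.ofRingHom (algebraMap (kF A) (kF B))
    (algebraMap (kF B) (kF A))
    (by
      ext x
      apply (algebraMap (kF B) Ω).injective
      change algebraMap (kF B) Ω (algebraMap (kF A) (kF B) (algebraMap (kF B) (kF A) x)) =
        algebraMap (kF B) Ω x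
      rw [← IsScalarTower.algebraMap_apply (kF A) (kF B) Ω,
        ← IsScalarTower.algebraMap_apply (kF B) (kF A) Ω])
    (by
      ext x
      apply (algebraMap (kF A) Ω).injective
      change algebraMap (kF A) Ω (algebraMap (kF B) (kF A) (algebraMap (kF A) (kF B) x)) =
        algebraMap (kF A) Ω x
      rw [← IsScalarTower.algebraMap_apply (kF B) (kF A) Ω,
        ← IsScalarTower.algebraMap_apply (kF A) (kF B) Ω])
  have hcxA : IsTotallyComplex (kF A) := isTotallyComplex_of_algebra (kF B) (kF A)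
  have hab : IsAbelianGalois (kF A) (LF B) := isAbelian_of (Ω := Ω) (by rw [f1, fixG_LF])
  refine isMod_base e (fun x => ?_) (isMod_up_aux (M := M) (Ω := Ω) (k := kF A) (L₁ := LF A)
    (L := LF B) hF hξ hξC hinj hram ?_ ?_ (hmod A hAi hcxA))
  · apply (algebraMap (LF B) Ω).injective
    rw [← IsScalarTower.algebraMap_apply (kF B) (LF B) Ω,
      ← IsScalarTower.algebraMap_apply (kF A) (LF B) Ω]
    change algebraMap (kF B) Ω (algebraMap (kF A) (kF B) x) = _
    rw [← IsScalarTower.algebraMap_apply (kF A) (kF B) Ω]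
  · rw [fixG_LF, fixG_kF]
  · rw [fixG_LF, f1]

end Pool.Agent.StarkRQ.Oct
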