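import Pool.Agent.StarkRQ.Oct.Final
import Pool.Agent.CMR.RMain
import Pool.Agent.CMR.Mod
import Pool.Agent.HeckeRQ.Hecke
import Pool.Agent.HeckeRQ.Conj

/-!
# Stark's conjecture, literally, without hypotheses on units and on moduli of `L/k`
-/

set_option autoImplicit false

noncomputable section

open NumberField Module Pool.Agent.StarkRQ
open scoped commutatorElement

namespace Pool.Agent.StarkRQ.Oct

/-- an embedding extending a given one -/
private theorem exists_extension {K H : Type} [Field K] [NumberField K] [Field H] [NumberField H]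
    [Algebra K H] (φ : K →+* ℂ) : ∃ g : H →+* ℂ, ∀ x, g (algebraMap K H x) = φ x := by
  let _ : Algebra K ℂ := φ.toAlgebra
  have : FiniteDimensional K H := FiniteDimensional.right ℚ K H
  have : Algebra.IsAlgebraic K H := Algebra.IsAlgebraic.of_finite K H
  exact ⟨(IsAlgClosed.lift : H →ₐ[K] ℂ).toRingHom, fun x =>
    (IsAlgClosed.lift : H →ₐ[K] ℂ).commutes x⟩

theorem oct_final {M : Type} [Field M] [NumberField M] [IsGalois ℚ M] {K H : Type} [Field K]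
    [NumberField K] [Field H] [NumberField H] [Algebra K M] [Algebra K H] [Algebra H M]
    [IsScalarTower K H M] [IsTotallyReal K] (hK : finrank ℚ K = 2) [IsAbelianGalois K H]
    (ι : M →+* ℂ) (hH : ∀ y : H, (ι (algebraMap H M y)).im = 0)
    {f : ℕ} (hf : 8 ∣ f) (hf0 : f ≠ 0) {ζ : M} (hζ : IsPrimitiveRoot ζ f)
    (hmax : ∀ x : M, (∀ σ τ : Gal(M/ℚ), σ (τ x) = τ (σ x)) → x ∈ IntermediateField.adjoin ℚ {ζ})
    (hram : ∀ p : ℕ, p.Prime → (p : ℤ) ∣ discr M → p ∣ f)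
    (hsq : ∀ g h : Gal(M/ℚ), g * g * h = h * (g * g)) {d : ℕ} (hd : d ≤ 5)
    (hidx : (Subgroup.center Gal(M/ℚ)).index = 2 ^ d)
    (hcard : Nat.card (commutator Gal(M/ℚ)) = 2 ^ (d * (d - 1) / 2))
    {N : ℕ} (hN : ∀ p : ℕ, p.Prime → (p ∣ N ↔ p ∣ f))
    (ι₂ : K →+* ℝ) (hι₂ : ∃ x : K, ((ι₂ x : ℝ) : ℂ) ≠ ι (algebraMap K M x))
    (hmodH : ∀ a : 𝓞 K, (N : 𝓞 K) ∣ a - 1 → 0 < ι₂ (a : K) →
      HasArtinSymbol (Ideal.span {a}) (1 : Gal(H/K))) :
    ∃ (Z : Gal(H/K) → ℂ → ℂ) (ε : Gal(H/K) → (𝓞 H)ˣ),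
      (∀ σ, IsPartialZeta f σ (Z σ) ∧
        ι (algebraMap H M (ε σ : 𝓞 H)) = Complex.exp (-2 * deriv (Z σ) 0)) ∧
      (∀ ρ σ, ρ ((ε σ : 𝓞 H) : H) = ((ε (ρ * σ) : 𝓞 H) : H)) ∧
      (∃ (E : Type) (_ : Field E) (_ : Algebra K E) (_ : Algebra H E) (_ : IsScalarTower K H E),
        IsAbelianGalois K E ∧ ∀ σ, ∃ y : E, y ^ 2 = algebraMap H E ((ε σ : 𝓞 H) : H)) ∧
      ∀ g : H →+* ℂ, (∃ x : K, g (algebraMap K H x) ≠ ι (algebraMap K M x)) →
        ∀ σ, ‖g ((ε σ : 𝓞 H) : H)‖ = 1 := by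
  classical
  have hF0 : 32 * f ≠ 0 := by omega
  have : NeZero (32 * f) := ⟨hF0⟩
  have hN0 : N ≠ 0 := by
    rintro rfl
    obtain ⟨p, hp1, hp⟩ := Nat.exists_infinite_primes (f + 1)
    have h1 := (hN p hp).1 (dvd_zero p)
    have h2 := Nat.le_of_dvd (Nat.pos_of_ne_zero hf0) h1
    omega
  -- the level `N f`
  obtain ⟨N', hN'⟩ : ∃ N', N' = N * f := ⟨_, rfl⟩
  have hN'0 : N' ≠ 0 := by
    rw [hN']
    exact mul_ne_zero hN0 hf0
  have hfN' : f ∣ N' := hN' ▸ Dvd.intro_left N rfl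
  have hNN' : N ∣ N' := hN' ▸ Dvd.intro f rfl
  have hN'3 : 3 ≤ N' := by
    have h1 := Nat.le_of_dvd (Nat.pos_of_ne_zero hN'0) (hf.trans hfN')
    omega
  have hN'p : ∀ p : ℕ, p.Prime → (p ∣ N' ↔ p ∣ f) := by
    intro p hp
    rw [hN', hp.dvd_mul, hN p hp, or_self]
  -- the zeta functions of `H/K`
  obtain ⟨ι₁, hι₁⟩ : ∃ ι₁ : K →+* ℝ, ∀ x, ((ι₁ x : ℝ) : ℂ) = ι (algebraMap K M x) := by
    have h1 := IsTotallyReal.complexEmbedding_isReal (ι.comp (algebraMap K M))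
    exact ⟨h1.embedding, fun x => ComplexEmbedding.IsReal.coe_embedding_apply h1 x⟩
  have hι12 : ι₁ ≠ ι₂ := by
    rintro rfl
    obtain ⟨x, hx⟩ := hι₂
    exact hx (hι₁ x)
  have hramH : ∀ p : ℕ, p.Prime → (p : ℤ) ∣ discr H → p ∣ N' := fun p hp h =>
    (hram p hp (h.trans (discr_dvd_discr H M))).trans hfN'
  obtain ⟨R', -, hR', hZ, hZZ⟩ := Pool.Agent.HeckeRQ.hecke (K := K) (H := H) hK hι12 hN'3 hramH
    (fun α h1 h2 => hmodH α ((Nat.cast_dvd_cast hNN').trans h1) h2)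
  choose Z hZ using hZ
  -- the Stark units over imaginary quadratic fields
  have hΩn : NumberField (CyclotomicField (32 * f) M) :=
    IsCyclotomicExtension.numberField {32 * f} M _
  obtain ⟨ι', hι'⟩ : ∃ ι' : CyclotomicField (32 * f) M →+* ℂ,
      ∀ x : M, ι' (algebraMap M _ x) = ι x := by
    let _ : Algebra M ℂ := ι.toAlgebra
    have : Algebra.IsAlgebraic M (CyclotomicField (32 * f) M) := Algebra.IsAlgebraic.of_finite M _
    exact ⟨(IsAlgClosed.lift : CyclotomicField (32 * f) M →ₐ[M] ℂ).toRingHom, fun x =>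
      (IsAlgClosed.lift : CyclotomicField (32 * f) M →ₐ[M] ℂ).commutes x⟩
  have hΩ : IsGalois ℚ (CyclotomicField (32 * f) M) :=
    Pool.Agent.CMG.isGalois_cyclotomic (M := M) hF0
  obtain ⟨ξ, hξ⟩ := IsCyclotomicExtension.exists_isPrimitiveRoot M (CyclotomicField (32 * f) M)
    (Set.mem_singleton (32 * f)) hF0
  have hStark : ∀ B : Subgroup Gal(CyclotomicField (32 * f) M/ℚ), B.index = 2 →
      Subgroup.center Gal(CyclotomicField (32 * f) M/ℚ) ≤ B → IsTotallyComplex (kF B) →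
      ∃ η : LF B, IsStarkUnit (kF B)
        (ι'.comp (algebraMap (LF B) (CyclotomicField (32 * f) M))) f η := by
    intro B hB hZB hcx
    have hBn : B.Normal := Subgroup.normal_of_index_eq_two hB
    obtain ⟨η, hη, -⟩ := Pool.Agent.CMR.exists_stark (k := kF B) (M := LF B) (N := 32 * f)
      ⟨finrank_kF B hB, hcx⟩ (by omega) (ι'.comp (algebraMap (LF B) (CyclotomicField (32 * f) M)))
      (fun p hp h => by
        rcases Pool.Agent.CMG.ram_cyclotomic (M := M) hF0 hp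
          (h.trans (discr_dvd_discr (LF B) (CyclotomicField (32 * f) M))) with h1 | h1
        · exact (hram p hp h1).mul_left _
        · exact h1)
    refine ⟨η, Pool.Agent.CMR.isStarkUnit_congr (fun p hp => ?_) hη⟩
    rw [hp.dvd_mul]
    constructor
    · rintro (h | h)
      · have h3 : p ∣ 2 ^ 5 := by
          norm_num
          exact h
        rw [(Nat.prime_dvd_prime_iff_eq hp Nat.prime_two).1 (hp.dvd_of_dvd_pow h3)]
        exact dvd_trans (by norm_num) hf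
      · exact h
    · exact Or.inr
  have hG : ∀ σ, IsPartialZeta f σ (Z σ) := fun σ =>
    Pool.Agent.CMR.isPartialZeta_congr hN'p (hZ σ)
  obtain ⟨R, ε, h1, h2, h3, h4⟩ := oct_aux (Ω := CyclotomicField (32 * f) M) hK ι'
    (fun y => by rw [hι']; exact hH y) hf hf0 hζ hmax hram hsq hd hidx hcard hStark Z hG
  -- `R = R'`
  obtain ⟨g, hg⟩ := exists_extension (H := H) ((Complex.ofRealHom : ℝ →+* ℂ).comp ι₂)
  have hg' : ∃ x : K, g (algebraMap K H x) ≠ ι (algebraMap K M x) := by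
    obtain ⟨x, hx⟩ := hι₂
    exact ⟨x, by rw [hg]; exact hx⟩
  have hRR : R = R' := by
    ext y
    apply g.injective
    rw [(h4 g (by simpa only [hι'] using hg')).1 y]
    exact (Pool.Agent.HeckeRQ.artin_conj hK ι hH hf0 hζ hmax hram hN'0 ι₂ hι₂ hR' hg' y).symm
  refine ⟨Z, ε, fun σ => ⟨hG σ, ?_⟩, h2, h3, fun g hg => (h4 g (by simpa only [hι'] using hg)).2⟩
  have h5 := h1 σ
  rw [hι'] at h5
  rw [h5, hRR]
  congr 1
  have h6 := (hZZ σ (Z σ) (Z (R' * σ)) (hZ σ) (hZ _)).2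
  linear_combination h6

end Pool.Agent.StarkRQ.Oct
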