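import Pool.Agent.CMR.Mod

/-!
# Moduli of extensions generated by a root of unity, change of the base field
-/

set_option autoImplicit false

noncomputable section

open NumberField Pool.Agent.StarkRQ Pool.Agent.CMR

namespace Pool.Agent.StarkRQ.Oct

/-- `L = M(ζ)`: automorphisms trivial on `M` and `ζ` are trivial -/
theorem isMod_of_root {k M L : Type} [Field k] [NumberField k] [IsTotallyComplex k] [Field M]
    [NumberField M] [Field L] [NumberField L] [Algebra k M] [Algebra k L] [Algebra M L]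
    [IsScalarTower k M L] [IsGalois ℚ M] [IsAbelianGalois k M] [IsGalois ℚ L]
    [IsAbelianGalois k L] {N m : ℕ} (hm : m ≠ 0)
    (hram : ∀ p : ℕ, p.Prime → (p : ℤ) ∣ discr L → p ∣ N * m) {ζ : L} (hζ : IsPrimitiveRoot ζ m)
    (hgen : ∀ σ : Gal(L/k), (∀ x : M, σ (algebraMap M L x) = algebraMap M L x) → σ ζ = ζ →
      σ = 1) (h : IsMod k M N) : IsMod k L (N * m) := by
  refine ⟨hram, fun a ha h1 => ?_⟩
  have h0 : Ideal.span {a} ≠ ⊥ := by
    rw [Ne, Ideal.span_singleton_eq_bot]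
    exact ha
  obtain ⟨σ, hσ⟩ : ∃ σ : Gal(L/k), HasArtinSymbol (Ideal.span {a}) σ :=
    ⟨_, (art_spec (fun σ τ => IsMulCommutative.is_comm.comm σ τ) hram h0
      ((prm_iff _).1 (prm_span h1)) (art (Ideal.span {a}))).2 rfl⟩
  have hN1 : (N : 𝓞 k) ∣ a - 1 := dvd_trans (Nat.cast_dvd_cast (Dvd.intro m rfl)) h1
  have hm1 : (m : 𝓞 k) ∣ a - 1 := dvd_trans (Nat.cast_dvd_cast (Dvd.intro_left N rfl)) h1
  have h2 : σ ζ = ζ := by
    rw [CMG.artin_root hσ hm ((prm_iff _).1 (prm_span hm1)) hζ.pow_eq_one]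
    obtain ⟨c, hc⟩ := absNorm_congr_one ha hm1
    have hpos : 1 ≤ Ideal.absNorm (Ideal.span {a}) := by
      rw [Nat.one_le_iff_ne_zero, Ne, Ideal.absNorm_eq_zero_iff, Ideal.span_singleton_eq_bot]
      exact ha
    obtain ⟨d, hd⟩ : m ∣ Ideal.absNorm (Ideal.span {a}) - 1 := by
      have h3 : (m : ℤ) ∣ ((Ideal.absNorm (Ideal.span {a}) - 1 : ℕ) : ℤ) := by
        rw [Nat.cast_sub hpos]
        exact ⟨c, by exact_mod_cast hc⟩
      exact_mod_cast h3
    have h3 : Ideal.absNorm (Ideal.span {a}) = m * d + 1 := by omega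
    rw [h3, pow_succ, pow_mul, hζ.pow_eq_one, one_pow, one_mul]
  have h3 : ∀ x : M, σ (algebraMap M L x) = algebraMap M L x := by
    intro x
    have hp : Prm N (Ideal.span {a}) := prm_span hN1
    have h2 := (art_iff h h0 hp _).1 (hasArtin_restrict (M := M) hσ)
    have h3 := (art_iff h h0 hp _).1 (h.artin a ha hN1)
    have h4 : AlgEquiv.restrictNormalHom M σ = 1 := h2.trans h3.symm
    have h5 := AlgEquiv.restrictNormal_commutes σ M x
    have h6 : σ.restrictNormal M = 1 := h4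
    rw [h6] at h5
    exact h5.symm
  rwa [hgen σ h3 h2] at hσ

section base

variable {k k' L : Type} [Field k] [NumberField k] [Field k'] [NumberField k'] [Field L]
  [NumberField L] [Algebra k L] [Algebra k' L]

private theorem absNorm_equiv (e : 𝓞 k ≃+* 𝓞 k') (𝔭 : Ideal (𝓞 k)) :
    Ideal.absNorm (𝔭.map (e : 𝓞 k →+* 𝓞 k')) = Ideal.absNorm 𝔭 := by
  rw [Ideal.absNorm_apply, Ideal.absNorm_apply, Submodule.cardQuot_apply,
    Submodule.cardQuot_apply]
  exact (Nat.card_congr (Ideal.quotientEquiv 𝔭 _ e rfl).toEquiv).symm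

/-- change of the base field along an isomorphism -/
theorem isMod_base (e : k ≃+* k') (he : ∀ x, algebraMap k' L (e x) = algebraMap k L x) {N : ℕ}
    (h : IsMod k L N) : IsMod k' L N := by
  let e' : 𝓞 k ≃+* 𝓞 k' := RingOfIntegers.mapRingEquiv e
  have he' : ∀ x : 𝓞 k, ((e' x : 𝓞 k') : k') = e (x : k) := fun x => rfl
  have hL : ∀ x : 𝓞 k, algebraMap (𝓞 k') (𝓞 L) (e' x) = algebraMap (𝓞 k) (𝓞 L) x := by
    intro x
    apply RingOfIntegers.ext
    exact he x
  let T : Gal(L/k) → Gal(L/k') := fun φ => AlgEquiv.ofRingEquiv (f := φ.toRingEquiv) (by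
    intro x
    have h1 := he (e.symm x)
    rw [e.apply_symm_apply] at h1
    rw [h1]
    exact φ.commutes _)
  have hT : ∀ (φ : Gal(L/k)) (x : L), T φ x = φ x := fun _ _ => rfl
  have hfrob : ∀ (𝔭 : Ideal (𝓞 k)) (φ : Gal(L/k)), IsFrob 𝔭 φ →
      IsFrob (𝔭.map (e' : 𝓞 k →+* 𝓞 k')) (T φ) := by
    rintro 𝔭 φ ⟨𝔓, hP, h1, h2⟩
    refine ⟨𝔓, hP, ?_, fun x => ?_⟩
    · rw [← h1]
      ext y
      obtain ⟨x, rfl⟩ := e'.surjective y
      rw [Ideal.mem_comap, hL]
      constructor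
      · intro h3
        exact Ideal.mem_map_of_mem (e' : 𝓞 k →+* 𝓞 k') (x := x) h3
      · intro h3
        have h4 : (e' : 𝓞 k →+* 𝓞 k') x ∈ (𝔓.comap (algebraMap (𝓞 k) (𝓞 L))).map
            (e' : 𝓞 k →+* 𝓞 k') := h3
        obtain ⟨z, hz, hz'⟩ := (Ideal.mem_map_iff_of_surjective (e' : 𝓞 k →+* 𝓞 k')
          e'.surjective).1 h4
        have h5 : z = x := e'.injective hz'
        rw [← h5]
        exact hz
    · rw [absNorm_equiv]
      exact h2 x
  refine ⟨h.ram, fun a ha h1 => ?_⟩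
  obtain ⟨b, rfl⟩ := e'.surjective a
  have hb : b ≠ 0 := by
    rintro rfl
    exact ha (map_zero e')
  have hb1 : (N : 𝓞 k) ∣ b - 1 := by
    obtain ⟨c, hc⟩ := h1
    refine ⟨e'.symm c, ?_⟩
    apply e'.injective
    rw [map_sub, map_one, hc, map_mul, map_natCast, e'.apply_symm_apply]
  obtain ⟨l, hl1, hl2, hl3⟩ := h.artin b hb hb1
  refine ⟨l.map fun x => (x.1.map (e' : 𝓞 k →+* 𝓞 k'), T x.2), ?_, ?_, ?_⟩
  · intro x hx
    obtain ⟨y, hy, rfl⟩ := List.mem_map.1 hx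
    obtain ⟨g1, g2, g3⟩ := hl1 y hy
    refine ⟨Ideal.map_isPrime_of_equiv e', ?_, hfrob _ _ g3⟩
    intro h0
    apply g2
    exact (Ideal.map_eq_bot_iff_of_injective e'.injective).1 h0
  · have h2 : (l.map fun x => (x.1.map (e' : 𝓞 k →+* 𝓞 k'), T x.2)).map Prod.fst =
        (l.map Prod.fst).map (Ideal.mapHom (e' : 𝓞 k →+* 𝓞 k')) := by
      rw [List.map_map, List.map_map]
      rfl
    rw [h2, ← map_list_prod, hl2]
    change (Ideal.span {b}).map (e' : 𝓞 k →+* 𝓞 k') = _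
    rw [Ideal.map_span, Set.image_singleton]
    rfl
  · have hmul : ∀ φ ψ, T (φ * ψ) = T φ * T ψ := fun _ _ => rfl
    have h2 : ∀ l' : List (Ideal (𝓞 k) × Gal(L/k)),
        ((l'.map fun x => (x.1.map (e' : 𝓞 k →+* 𝓞 k'), T x.2)).map Prod.snd).prod =
          T (l'.map Prod.snd).prod := by
      intro l'
      induction l' with
      | nil => rfl
      | cons x l' ih =>
        rw [List.map_cons, List.map_cons, List.prod_cons, List.map_cons, List.prod_cons, hmul, ih]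
    rw [h2, hl3]
    rfl

end base

end Pool.Agent.StarkRQ.Oct
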