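import Pool.Agent.StarkRQ.Oct.Defs
import Pool.Agent.StarkRQ.Branch2
import Pool.Agent.StarkRQ.ContLin

/-!
# The functions `psi` and `cN`

`Ω ⊇ L ⊇ k`, `k` quadratic, `L/k` abelian. `psi ι η g = (1/w) log |ι (g η)|`, `w` the number of roots
of unity of `L`; `cN f k L Ω n g` is the number of ideals of `k` of norm `n` with Artin symbol the
restriction of `g` to `L`, if `n` is prime to `f`.
-/

open NumberField Module

namespace Pool.Agent.StarkRQ.Oct

/-- `(1/w) log |ι (g η)|` -/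
noncomputable def psi {Ω L : Type} [Field Ω] [NumberField Ω] [Field L] [NumberField L]
    [Algebra L Ω] (ι : Ω →+* ℂ) (η : L) : Gal(Ω/ℚ) → ℝ :=
  fun g => (1 / (Units.torsionOrder L : ℝ)) * Real.log ‖ι (g (algebraMap L Ω η))‖

/-- the number of ideals of `k` of norm `n`, prime to `f`, with Artin symbol the restriction of `g` -/
noncomputable def cN (f : ℕ) (k L Ω : Type) [Field k] [NumberField k] [Field L] [NumberField L]
    [Field Ω] [NumberField Ω] [Algebra k L] [Algebra L Ω] [IsGalois ℚ L] (n : ℕ)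
    (g : Gal(Ω/ℚ)) : ℕ :=
  if n.Coprime f then cnt k L n (res L Ω g) else 0

section

variable {Ω k L : Type} [Field Ω] [NumberField Ω] [Field k] [NumberField k] [Field L]
  [NumberField L] [Algebra k L] [Algebra L Ω]

lemma psi_tr_ker [IsGalois ℚ L] (ι : Ω →+* ℂ) (η : L) {t : Gal(Ω/ℚ)} (ht : res L Ω t = 1) :
    tr t (psi ι η) = psi ι η := by
  ext g
  rw [tr_apply, psi, psi]
  have h1 : t (algebraMap L Ω η) = algebraMap L Ω η := by
    rw [← res_apply, ht]
    rfl
  have h2 : (g * t) (algebraMap L Ω η) = g (t (algebraMap L Ω η)) := rfl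
  rw [h2, h1]

lemma cN_eq_zero [IsGalois ℚ L] (f n : ℕ) {g : Gal(Ω/ℚ)} (hg : res L Ω g ∉ fixG k L) :
    cN f k L Ω n g = 0 := by
  unfold cN
  split_ifs
  · rw [cnt, Nat.card_eq_zero]
    left
    refine ⟨fun x => ?_⟩
    apply hg
    rw [← x.2.2]
    exact ⟨_, rfl⟩
  · rfl

lemma cN_mul_ker [IsGalois ℚ L] (f n : ℕ) (g : Gal(Ω/ℚ)) {t : Gal(Ω/ℚ)} (ht : res L Ω t = 1) :
    cN f k L Ω n (g * t) = cN f k L Ω n g := by
  unfold cN
  rw [map_mul, ht, mul_one]

end

end Pool.Agent.StarkRQ.Oct
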