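import Pool.Agent.StarkRQ.Oct.Centr

/-!
# The commutator subgroup is the product of `δ.range` and `⁅B, B⁆`

`G` is `Big`, `q : G →* ℤˣ` is trivial on the center, `q c = -1`, `B = q.ker`, `δ g = ⁅g, c⁆`.

* `δ.range ⊓ ⁅B, B⁆ = ⊥`: let `δ g ∈ ⁅B, B⁆`, `δ g ≠ 1`. Then `g ∉ Z ∪ Z c`, take `p` trivial on `Z`
  and `c` with `p g = -1` (`exists_sep` for the subgroup `Z ∪ Z c`), and `κ` from `hG.big p q`. `κ` is
  `1` on `⁅B, B⁆` (`wedge_of_ker`), but `κ (δ g) = wedge p q g c = q c = -1`.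
* `δ.range ⊔ ⁅B, B⁆ = commutator G`: every `g ∈ G` is in `B` or in `B c`, and `⁅b c, b' c⁆ =
  ⁅b, b'⁆ * ⁅b, c⁆ * ⁅c, b'⁆ * ⁅c, c⁆` etc. (`mul_left`, `mul_right`, `comm_symm`).

Everything is in the abelian group `commutator G` (`hG.central`). `sum_eq`: the map
`(t, n) ↦ t * n` from `δ.range × ⁅B, B⁆` to `commutator G` is a bijection.
`card_eq`: the same.
-/

open scoped commutatorElement

namespace Pool.Agent.StarkRQ.Oct

variable {G : Type*} [Group G]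

theorem Big.inf_eq [Finite G] (hG : Big G) {c : G} {δ : G →* G} (hδ : ∀ g, δ g = ⁅g, c⁆)
    {q : G →* ℤˣ} (hq : ∀ x ∈ Subgroup.center G, q x = 1) (hqc : q c = -1) :
    δ.range ⊓ ⁅q.ker, q.ker⁆ = ⊥ := by
  rw [eq_bot_iff]
  rintro _ ⟨⟨g, rfl⟩, ht⟩
  rw [Subgroup.mem_bot]
  by_contra hne
  have hZ : Subgroup.center G ≤ δ.ker := by
    intro z hz
    rw [MonoidHom.mem_ker, hδ, commutatorElement_eq_one_iff_mul_comm]
    exact (Subgroup.mem_center_iff.1 hz c).symm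
  obtain ⟨p, hp, hpg⟩ := exists_sep δ.ker
    (fun g => hZ (Subgroup.mem_center_iff.2 fun x => (hG.sq g x).symm))
    (fun g h => hZ (hG.comm_mem_center g h)) (x := g) hne
  have hpc : p c = 1 := by
    refine hp c ?_
    rw [MonoidHom.mem_ker, hδ, commutatorElement_self]
  obtain ⟨κ, hκ⟩ := hG.big p q (fun x hx => hp x (hZ hx)) hq
  have h1 : κ ⟨⁅g, c⁆, comm_mem g c⟩ = -1 := by
    rw [hκ]
    unfold wedge
    rw [if_pos hpg, hpc, if_neg (by decide), mul_one, hqc]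
  have hle : ⁅q.ker, q.ker⁆ ≤ κ.ker.map (commutator G).subtype := by
    rw [Subgroup.commutator_le]
    intro a ha b hb
    refine ⟨⟨⁅a, b⁆, comm_mem a b⟩, ?_, rfl⟩
    show κ ⟨⁅a, b⁆, comm_mem a b⟩ = 1
    rw [hκ]
    exact wedge_of_ker ha hb
  obtain ⟨x, hx, hxe⟩ := hle ht
  have h2 : x = ⟨⁅g, c⁆, comm_mem g c⟩ := by
    apply Subtype.ext
    show (x : G) = ⁅g, c⁆
    rw [← hδ g]
    exact hxe
  have h3 : κ x = 1 := hx
  rw [h2, h1] at h3
  exact absurd h3 (by decide)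

theorem Big.sup_eq [Finite G] (hG : Big G) {c : G} {δ : G →* G} (hδ : ∀ g, δ g = ⁅g, c⁆)
    {q : G →* ℤˣ} (hqc : q c = -1) : δ.range ⊔ ⁅q.ker, q.ker⁆ = commutator G := by
  apply le_antisymm
  · refine sup_le (range_le hδ) ?_
    rw [commutator_def]
    exact Subgroup.commutator_mono le_top le_top
  · rw [commutator_def, Subgroup.commutator_le]
    have hl : ∀ g, ⁅g, c⁆ ∈ δ.range ⊔ ⁅q.ker, q.ker⁆ := fun g =>
      (le_sup_left : δ.range ≤ _) ⟨g, hδ g⟩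
    have hr : ∀ g, ⁅c, g⁆ ∈ δ.range ⊔ ⁅q.ker, q.ker⁆ := fun g => by
      rw [hG.comm_symm]
      exact hl g
    have hdec : ∀ g : G, g ∈ q.ker ∨ ∃ b ∈ q.ker, g = b * c := by
      intro g
      rcases Int.units_eq_one_or (q g) with h | h
      · exact Or.inl h
      · refine Or.inr ⟨g * c⁻¹, ?_, by group⟩
        rw [MonoidHom.mem_ker, map_mul, map_inv, h, hqc]
        decide
    have h1 : ∀ b ∈ q.ker, ∀ h : G, ⁅b, h⁆ ∈ δ.range ⊔ ⁅q.ker, q.ker⁆ := by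
      intro b hb h
      rcases hdec h with h' | ⟨b', hb', rfl⟩
      · exact (le_sup_right : ⁅q.ker, q.ker⁆ ≤ _) (Subgroup.commutator_mem_commutator hb h')
      · rw [hG.mul_right]
        exact Subgroup.mul_mem _ ((le_sup_right : ⁅q.ker, q.ker⁆ ≤ _)
          (Subgroup.commutator_mem_commutator hb hb')) (hl b)
    intro g _ h _
    rcases hdec g with h' | ⟨b, hb, rfl⟩
    · exact h1 g h' h
    · rw [hG.mul_left]
      exact Subgroup.mul_mem _ (h1 b hb h) (hr h)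

private def smap {c : G} {δ : G →* G} (hδ : ∀ g, δ g = ⁅g, c⁆) (q : G →* ℤˣ)
    (x : δ.range × (⁅q.ker, q.ker⁆ : Subgroup G)) : commutator G :=
  ⟨(x.1 : G) * (x.2 : G), Subgroup.mul_mem _ (range_le hδ x.1.2)
    (by
      rw [commutator_def]
      exact Subgroup.commutator_mono le_top le_top x.2.2)⟩

private lemma smap_bij [Finite G] (hG : Big G) {c : G} {δ : G →* G} (hδ : ∀ g, δ g = ⁅g, c⁆)
    {q : G →* ℤˣ} (hq : ∀ x ∈ Subgroup.center G, q x = 1) (hqc : q c = -1) :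
    Function.Bijective (smap hδ q) := by
  constructor
  · rintro ⟨a, b⟩ ⟨a', b'⟩ h
    have h1 : (a : G) * (b : G) = (a' : G) * (b' : G) := congrArg Subtype.val h
    have h2 : (a' : G)⁻¹ * (a : G) = (b' : G) * (b : G)⁻¹ := by
      rw [eq_mul_inv_iff_mul_eq, mul_assoc, h1, inv_mul_cancel_left]
    have h3 : (a' : G)⁻¹ * (a : G) ∈ δ.range ⊓ ⁅q.ker, q.ker⁆ :=
      ⟨Subgroup.mul_mem _ (Subgroup.inv_mem _ a'.2) a.2, by
        show (a' : G)⁻¹ * (a : G) ∈ ⁅q.ker, q.ker⁆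
        rw [h2]
        exact Subgroup.mul_mem _ b'.2 (Subgroup.inv_mem _ b.2)⟩
    rw [hG.inf_eq hδ hq hqc, Subgroup.mem_bot] at h3
    have h4 : (a : G) = a' := (inv_mul_eq_one.1 h3).symm
    have h5 : (b : G) = b' := by
      rw [h4] at h1
      exact mul_left_cancel h1
    exact Prod.ext (Subtype.ext h4) (Subtype.ext h5)
  · rintro ⟨x, hx⟩
    have h1 : x ∈ ((δ.range ⊔ ⁅q.ker, q.ker⁆ : Subgroup G) : Set G) := by
      rw [hG.sup_eq hδ hqc]
      exact hx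
    rw [Subgroup.mul_normal] at h1
    obtain ⟨a, ha, b, hb, hab⟩ := h1
    exact ⟨(⟨a, ha⟩, ⟨b, hb⟩), Subtype.ext hab⟩

theorem Big.card_eq [Finite G] (hG : Big G) {c : G} {δ : G →* G} (hδ : ∀ g, δ g = ⁅g, c⁆)
    {q : G →* ℤˣ} (hq : ∀ x ∈ Subgroup.center G, q x = 1) (hqc : q c = -1) :
    Nat.card (commutator G) = Nat.card δ.range * Nat.card (⁅q.ker, q.ker⁆ : Subgroup G) := by
  rw [← Nat.card_prod]
  exact (Nat.card_eq_of_bijective _ (smap_bij hG hδ hq hqc)).symm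

theorem Big.sum_eq [Finite G] (hG : Big G) {c : G} {δ : G →* G} (hδ : ∀ g, δ g = ⁅g, c⁆)
    {q : G →* ℤˣ} (hq : ∀ x ∈ Subgroup.center G, q x = 1) (hqc : q c = -1)
    (φ : commutator G → ℝ)
    (hφ : ∀ t u : commutator G, (u : G) ∈ ⁅q.ker, q.ker⁆ → φ (t * u) = φ t) :
    ∑ᶠ t : commutator G, φ t =
      (Nat.card (⁅q.ker, q.ker⁆ : Subgroup G) : ℝ) * ∑ᶠ t : δ.range, φ ⟨t, range_le hδ t.2⟩ := by
  classical
  haveI : Fintype (commutator G) := Fintype.ofFinite _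
  haveI : Fintype δ.range := Fintype.ofFinite _
  haveI : Fintype (⁅q.ker, q.ker⁆ : Subgroup G) := Fintype.ofFinite _
  rw [finsum_eq_sum_of_fintype, finsum_eq_sum_of_fintype,
    ← Fintype.sum_bijective (smap hδ q) (smap_bij hG hδ hq hqc)
      (fun x => φ (smap hδ q x)) φ (fun _ => rfl), Fintype.sum_prod_type, Finset.mul_sum]
  refine Finset.sum_congr rfl fun t _ => ?_
  have h1 : ∀ u : (⁅q.ker, q.ker⁆ : Subgroup G),
      φ (smap hδ q (t, u)) = φ ⟨t, range_le hδ t.2⟩ := by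
    intro u
    have hu : (u : G) ∈ commutator G := by
      rw [commutator_def]
      exact Subgroup.commutator_mono le_top le_top u.2
    exact hφ ⟨t, range_le hδ t.2⟩ ⟨u, hu⟩ u.2
  rw [Finset.sum_congr rfl fun u _ => h1 u, Finset.sum_const, Finset.card_univ,
    Nat.card_eq_fintype_card, nsmul_eq_mul]

end Pool.Agent.StarkRQ.Oct
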