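import Pool.Agent.StarkRQ.Oct.Defs
import Pool.Agent.StarkRQ.Oct.SumC

/-!
# The function `Phi`
-/

open scoped commutatorElement

namespace Pool.Agent.StarkRQ.Oct

/-- `(1/|D|) ∑_e ∑_(t ∈ D) a(t) ψ_e(g t)` -/
noncomputable def Phi {G : Type*} [Group G] {D : Subgroup G} (a : D →* ℤˣ)
    (ψ : (D →* ℤˣ) → G → ℝ) : G → ℝ := fun g =>
  (1 / (Nat.card D : ℝ)) * ∑ᶠ e : D →* ℤˣ, ∑ᶠ t : D, (((a t : ℤˣ) : ℤ) : ℝ) * ψ e (g * t)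

/-- the twisted sums of `ψ e` and `ψ e'` over `D` agree -/
def HPair {G : Type*} [Group G] {D : Subgroup G} (ψ : (D →* ℤˣ) → G → ℝ) : Prop :=
  ∀ e e' : D →* ℤˣ, e ≠ e' → ∀ g : G,
    ∑ᶠ t : D, ((((e * e') t : ℤˣ) : ℤ) : ℝ) * ψ e (g * t) =
      ∑ᶠ t : D, ((((e * e') t : ℤˣ) : ℤ) : ℝ) * ψ e' (g * t)

/-- the twisted sums vanish where the two characters differ -/
def HVan {G : Type*} [Group G] (δ : G →* G) (ψ : (δ.range →* ℤˣ) → G → ℝ) : Prop :=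
  ∀ e e' : δ.range →* ℤˣ, e ≠ e' → ∀ g : G, (e * e') ⟨δ g, ⟨g, rfl⟩⟩ = -1 →
    ∑ᶠ t : δ.range, ((((e * e') t : ℤˣ) : ℤ) : ℝ) * ψ e (g * t) = 0

end Pool.Agent.StarkRQ.Oct
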