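import Pool.Agent.StarkRQ.Oct.SumC
import Pool.Agent.StarkRQ.Galois
import Pool.Agent.StarkRQ.Comm

/-!
# Group theoretic lemmas for the assembly
-/

open NumberField
open scoped commutatorElement

namespace Pool.Agent.StarkRQ.Oct

section

variable {G : Type*} [Group G]

lemma int_units_eq {u : ℤˣ} (h : u ≠ 1) : u = -1 := (Int.units_eq_one_or u).resolve_left h

lemma index_ker_of_neg {q : G →* ℤˣ} {x : G} (hx : q x = -1) : q.ker.index = 2 := by
  rw [Subgroup.index_ker]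
  have h1 : q.range = ⊤ := by
    rw [MonoidHom.range_eq_top]
    intro u
    rcases Int.units_eq_one_or u with h | h
    · exact ⟨1, by rw [map_one, h]⟩
    · exact ⟨x, by rw [hx, h]⟩
  rw [h1, Subgroup.card_top, Nat.card_eq_fintype_card]
  decide

/-- the character with kernel `A` factors through `δ` -/
lemma exists_a {δ : G →* G} {A : Subgroup G} (hA : A.index = 2) (h : ∀ g, δ g = 1 → g ∈ A) :
    ∃ a : δ.range →* ℤˣ, (a.comp δ.rangeRestrict).ker = A := by
  classical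
  let α : G →* ℤˣ :=
    { toFun := fun g => if g ∈ A then 1 else -1
      map_one' := if_pos A.one_mem
      map_mul' := by
        intro u v
        have := Subgroup.mul_mem_iff_of_index_two hA (a := u) (b := v)
        by_cases hu : u ∈ A <;> by_cases hv : v ∈ A <;> simp [this, hu, hv] }
  have hα : ∀ g, α g = 1 ↔ g ∈ A := by
    intro g
    change (if g ∈ A then (1 : ℤˣ) else -1) = 1 ↔ _
    by_cases hg : g ∈ A
    · simp [hg]
    · simp [hg]
  have hker : δ.rangeRestrict.ker ≤ α.ker := by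
    intro g hg
    rw [MonoidHom.mem_ker] at hg ⊢
    rw [hα]
    exact h g (by simpa using congrArg Subtype.val hg)
  let a := (QuotientGroup.lift δ.rangeRestrict.ker α hker).comp
    (QuotientGroup.quotientKerEquivOfSurjective δ.rangeRestrict
      δ.rangeRestrict_surjective).symm.toMonoidHom
  refine ⟨a, ?_⟩
  ext g
  rw [MonoidHom.mem_ker, ← hα]
  have h1 : (QuotientGroup.quotientKerEquivOfSurjective δ.rangeRestrict
      δ.rangeRestrict_surjective).symm (δ.rangeRestrict g) = (g : G ⧸ δ.rangeRestrict.ker) := by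
    rw [MulEquiv.symm_apply_eq]
    rfl
  have h2 : (a.comp δ.rangeRestrict) g = α g := by
    change QuotientGroup.lift δ.rangeRestrict.ker α hker
      ((QuotientGroup.quotientKerEquivOfSurjective δ.rangeRestrict
      δ.rangeRestrict_surjective).symm (δ.rangeRestrict g)) = α g
    rw [h1]
    rfl
  rw [h2]

lemma char_comm (q : G →* ℤˣ) (g h : G) : q ⁅g, h⁆ = 1 := by
  rw [map_commutatorElement, commutatorElement_eq_one_iff_commute]
  exact mul_comm _ _

lemma char_commutator (q : G →* ℤˣ) {t : G} (ht : t ∈ commutator G) : q t = 1 := by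
  have h1 : commutator G ≤ q.ker := by
    rw [commutator_def, Subgroup.commutator_le]
    intro g _ h _
    exact char_comm q g h
  exact h1 ht

variable (hG : Big G)

include hG

lemma Big.card_comm_eq [Finite G] {q₁ q₂ : G →* ℤˣ} (hq₁ : ∀ x ∈ Subgroup.center G, q₁ x = 1)
    (hq₂ : ∀ x ∈ Subgroup.center G, q₂ x = 1) {x y : G} (hx : q₁ x = -1) (hy : q₂ y = -1) :
    Nat.card (⁅q₁.ker, q₁.ker⁆ : Subgroup G) = Nat.card (⁅q₂.ker, q₂.ker⁆ : Subgroup G) := by
  obtain ⟨δ₁, hδ₁⟩ := hG.exists_delta x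
  obtain ⟨δ₂, hδ₂⟩ := hG.exists_delta y
  have hxc : x ∉ Subgroup.center G := fun h => by
    rw [hq₁ x h] at hx
    exact absurd hx (by decide)
  have hyc : y ∉ Subgroup.center G := fun h => by
    rw [hq₂ y h] at hy
    exact absurd hy (by decide)
  have e1 := hG.card_range hxc hδ₁
  have e2 := hG.card_range hyc hδ₂
  have e3 := hG.card_eq hδ₁ hq₁ hx
  have e4 := hG.card_eq hδ₂ hq₂ hy
  have e5 : Nat.card δ₁.range = Nat.card δ₂.range := by omega
  rw [e3, e5] at e4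
  exact Nat.eq_of_mul_eq_mul_left Nat.card_pos e4

/-- values of the characters `bch` -/
lemma Big.bch_center {c : G} {δ : G →* G} (hδ : ∀ g, δ g = ⁅g, c⁆) {b₀ : G →* ℤˣ}
    (hb₀ : ∀ x ∈ Subgroup.center G, b₀ x = 1) (e : δ.range →* ℤˣ) {x : G}
    (hx : x ∈ Subgroup.center G) : bch δ b₀ e x = 1 := by
  rw [bch_apply, hb₀ x hx, one_mul]
  have : (⟨δ x, ⟨x, rfl⟩⟩ : δ.range) = 1 := by
    apply Subtype.ext
    change δ x = 1
    rw [hδ, commutatorElement_eq_one_iff_mul_comm]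
    exact (Subgroup.mem_center_iff.1 hx c).symm
  rw [this, map_one]

omit hG in
lemma bch_c {c : G} {δ : G →* G} (hδ : ∀ g, δ g = ⁅g, c⁆) {b₀ : G →* ℤˣ}
    (hb₀c : b₀ c = -1) (e : δ.range →* ℤˣ) : bch δ b₀ e c = -1 := by
  rw [bch_apply, hb₀c]
  have : (⟨δ c, ⟨c, rfl⟩⟩ : δ.range) = 1 := by
    apply Subtype.ext
    change δ c = 1
    rw [hδ, commutatorElement_self]
  rw [this, map_one, mul_one]

omit hG in
/-- `κ` is trivial on `⁅q.ker, q.ker⁆` -/
lemma kappa_ker {p q : G →* ℤˣ} {κ : commutator G →* ℤˣ}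
    (hκ : ∀ (g h : G) (hm : ⁅g, h⁆ ∈ commutator G), κ ⟨⁅g, h⁆, hm⟩ = wedge p q g h)
    (t : commutator G) (ht : (t : G) ∈ ⁅q.ker, q.ker⁆) : κ t = 1 := by
  have h1 : (⁅q.ker, q.ker⁆ : Subgroup G) ≤ (κ.ker).map (commutator G).subtype := by
    rw [Subgroup.commutator_le]
    intro g hg h hh
    refine ⟨⟨⁅g, h⁆, comm_mem g h⟩, ?_, rfl⟩
    rw [SetLike.mem_coe, MonoidHom.mem_ker, hκ, wedge_of_ker hg hh]
  obtain ⟨t', ht', e⟩ := h1 ht
  have : t' = t := Subtype.ext e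
  rw [← this]
  exact ht'

omit hG in
/-- `κ` is trivial on `⁅p.ker, p.ker⁆` -/
lemma kappa_ker_left {p q : G →* ℤˣ} {κ : commutator G →* ℤˣ}
    (hκ : ∀ (g h : G) (hm : ⁅g, h⁆ ∈ commutator G), κ ⟨⁅g, h⁆, hm⟩ = wedge p q g h)
    (t : commutator G) (ht : (t : G) ∈ ⁅p.ker, p.ker⁆) : κ t = 1 := by
  have h1 : (⁅p.ker, p.ker⁆ : Subgroup G) ≤ (κ.ker).map (commutator G).subtype := by
    rw [Subgroup.commutator_le]
    intro g hg h hh
    refine ⟨⟨⁅g, h⁆, comm_mem g h⟩, ?_, rfl⟩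
    rw [SetLike.mem_coe, MonoidHom.mem_ker, hκ, wedge_of_ker_left hg hh]
  obtain ⟨t', ht', e⟩ := h1 ht
  have : t' = t := Subtype.ext e
  rw [← this]
  exact ht'

omit hG in
/-- `wedge (α) (bch δ b₀ e)` is symmetric under `e ↦ e'` when `α = (e * e') ∘ δ` -/
lemma wedge_symm_of {δ : G →* G} {b₀ : G →* ℤˣ} (e e' : δ.range →* ℤˣ) (g h : G) :
    wedge ((e * e').comp δ.rangeRestrict) (bch δ b₀ e) g h =
      wedge ((e * e').comp δ.rangeRestrict) (bch δ b₀ e') g h := by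
  unfold wedge
  have h1 : ∀ x : G, ((e * e').comp δ.rangeRestrict) x = e ⟨δ x, ⟨x, rfl⟩⟩ * e' ⟨δ x, ⟨x, rfl⟩⟩ :=
    fun x => rfl
  rw [h1, h1, bch_apply, bch_apply, bch_apply, bch_apply]
  rcases Int.units_eq_one_or (e ⟨δ g, ⟨g, rfl⟩⟩) with h2 | h2 <;>
  rcases Int.units_eq_one_or (e' ⟨δ g, ⟨g, rfl⟩⟩) with h3 | h3 <;>
  rcases Int.units_eq_one_or (e ⟨δ h, ⟨h, rfl⟩⟩) with h4 | h4 <;>
  rcases Int.units_eq_one_or (e' ⟨δ h, ⟨h, rfl⟩⟩) with h5 | h5 <;>
  rcases Int.units_eq_one_or (b₀ g) with h6 | h6 <;>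
  rcases Int.units_eq_one_or (b₀ h) with h7 | h7 <;>
  rw [h2, h3, h4, h5, h6, h7] <;> decide

end

/-- commutators fix the roots of unity -/
lemma commutator_root {Ω : Type} [Field Ω] [NumberField Ω] {t : Gal(Ω/ℚ)}
    (ht : t ∈ commutator Gal(Ω/ℚ)) (ξ : Ω) (m : ℕ) (hm : 0 < m) (hξ : ξ ^ m = 1) : t ξ = ξ := by
  have : NeZero m := ⟨hm.ne'⟩
  rw [commutator_def] at ht
  refine Subgroup.closure_induction (p := fun t _ => t ξ = ξ) ?_ ?_ ?_ ?_ ht
  · rintro x ⟨g, -, h, -, rfl⟩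
    rw [commutatorElement_def]
    exact commutator_fixes g h ξ hξ
  · rfl
  · intro x y _ _ h1 h2
    change x (y ξ) = ξ
    rw [h2, h1]
  · intro x _ h1
    have h2 : x⁻¹ (x ξ) = ξ := by
      change (x⁻¹ * x) ξ = ξ
      rw [inv_mul_cancel]
      rfl
    rw [h1] at h2
    exact h2

end Pool.Agent.StarkRQ.Oct
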