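import Pool.Agent.StarkRQ.Oct.Inst
import Pool.Agent.StarkRQ.Root

/-!
# Transport of Stark units along an isomorphism
-/

open NumberField Module
open scoped commutatorElement

namespace Pool.Agent.StarkRQ.Oct

section

variable {k L L' : Type} [Field k] [NumberField k] [Field L] [NumberField L] [Field L']
  [NumberField L'] [Algebra k L] [Algebra k L']

lemma isFrob_transport (φ : L ≃ₐ[k] L') {𝔭 : Ideal (𝓞 k)} {σ : Gal(L/k)} (h : IsFrob 𝔭 σ) :
    IsFrob 𝔭 (φ.autCongr σ) := by
  obtain ⟨𝔓, hP, h1, h2⟩ := h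
  let ψ : 𝓞 L' →+* 𝓞 L := RingOfIntegers.mapRingHom (φ.symm : L' →+* L)
  have hψ : ∀ x : 𝓞 L', ((ψ x : 𝓞 L) : L) = φ.symm (x : L') := fun x => rfl
  refine ⟨𝔓.comap ψ, Ideal.comap_isPrime _ _, ?_, fun x => ?_⟩
  · rw [Ideal.comap_comap, ← h1]
    congr 1
    ext x
    change ((ψ (algebraMap (𝓞 k) (𝓞 L') x) : 𝓞 L) : L) = _
    rw [hψ]
    change φ.symm (algebraMap k L' (x : k)) = algebraMap k L (x : k)
    exact φ.symm.commutes _
  · rw [Ideal.mem_comap, map_sub, map_pow]
    have h3 : ψ (φ.autCongr σ • x) = σ • ψ x := by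
      apply RingOfIntegers.ext
      change φ.symm (φ (σ (φ.symm (x : L')))) = σ (φ.symm (x : L'))
      rw [AlgEquiv.symm_apply_apply]
    rw [h3]
    exact h2 _

lemma hasArtin_transport (φ : L ≃ₐ[k] L') {𝔞 : Ideal (𝓞 k)} {σ : Gal(L/k)}
    (h : HasArtinSymbol 𝔞 σ) : HasArtinSymbol 𝔞 (φ.autCongr σ) := by
  obtain ⟨l, h1, h2, h3⟩ := h
  refine ⟨l.map fun x => (x.1, φ.autCongr x.2), ?_, ?_, ?_⟩
  · intro x hx
    obtain ⟨y, hy, rfl⟩ := List.mem_map.1 hx
    obtain ⟨a, b, c⟩ := h1 y hy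
    exact ⟨a, b, isFrob_transport φ c⟩
  · rw [List.map_map, ← h2]
    rfl
  · rw [← h3, map_list_prod, List.map_map, List.map_map]
    rfl

lemma zcoeff_transport (φ : L ≃ₐ[k] L') (N : ℕ) (σ : Gal(L/k)) (n : ℕ) :
    zcoeff N σ n = zcoeff N (φ.autCongr σ) n := by
  unfold zcoeff
  split_ifs
  · refine Nat.card_congr (Equiv.subtypeEquivRight fun 𝔞 => and_congr_right fun _ => ?_)
    refine ⟨hasArtin_transport φ, fun h => ?_⟩
    have h1 := hasArtin_transport φ.symm h
    have h2 : φ.symm.autCongr (φ.autCongr σ) = σ := by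
      ext x
      change φ.symm (φ (σ (φ.symm (φ x)))) = σ x
      rw [AlgEquiv.symm_apply_apply, AlgEquiv.symm_apply_apply]
    rwa [h2] at h1
  · rfl

lemma torsionOrder_dvd (φ : L →+* L') : Units.torsionOrder L ∣ Units.torsionOrder L' := by
  have : NeZero (Units.torsionOrder L) := ⟨Units.torsionOrder_ne_zero L⟩
  obtain ⟨ω, hω⟩ := exists_primRoot L
  exact Units.dvd_torsionOrder_of_isPrimitiveRoot (hω.map_of_injective φ.injective)

theorem isStarkUnit_transport (φ : L ≃ₐ[k] L') {ι : L →+* ℂ} {ι' : L' →+* ℂ}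
    (h : ∀ x, ι' (φ x) = ι x) {N : ℕ} {η : L} (hη : IsStarkUnit k ι N η) :
    IsStarkUnit k ι' N (φ η) := by
  have hw : Units.torsionOrder L' = Units.torsionOrder L :=
    Nat.dvd_antisymm (torsionOrder_dvd (φ.symm : L' →+* L)) (torsionOrder_dvd (φ : L →+* L'))
  refine ⟨?_, ?_, ?_, ?_⟩
  · exact (map_ne_zero_iff φ φ.injective).2 hη.ne_zero
  · intro g
    let g' : L ≃+* L := (φ.toRingEquiv.trans g).trans φ.toRingEquiv.symm
    have h1 := hη.isIntegral g'
    have h2 : g (φ η) / φ η = φ (g' η / η) := by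
      rw [map_div₀]
      congr 1
      exact (φ.apply_symm_apply _).symm
    rw [h2]
    exact h1.map (φ : L →+* L').toIntAlgHom
  · intro σ
    obtain ⟨Z, hZ, hd⟩ := hη.deriv_zeta (φ.symm.autCongr σ)
    have h2 : φ.autCongr (φ.symm.autCongr σ) = σ := by
      ext x
      change φ (φ.symm (σ (φ (φ.symm x)))) = σ x
      rw [AlgEquiv.apply_symm_apply, AlgEquiv.apply_symm_apply]
    refine ⟨Z, ⟨hZ.1, fun s hs => ?_⟩, ?_⟩
    · rw [hZ.2 s hs]
      congr 1
      funext n
      rw [zcoeff_transport φ, h2]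
    · rw [hd, hw]
      have h3 : ι ((φ.symm.autCongr σ) η) = ι' (σ (φ η)) := by
        rw [← h]
        congr 1
        change φ (φ.symm (σ (φ η))) = _
        rw [AlgEquiv.apply_symm_apply]
      rw [h3]
  · obtain ⟨E, _, _, _, _, hE, y, hy⟩ := hη.abelian
    let _ : Algebra L' E := ((algebraMap L E).comp (φ.symm : L' →+* L)).toAlgebra
    have hL' : ∀ x : L', algebraMap L' E x = algebraMap L E (φ.symm x) := fun _ => rfl
    refine ⟨E, inferInstance, inferInstance, inferInstance, IsScalarTower.of_algebraMap_eq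
      fun x => ?_, hE, y, ?_⟩
    · rw [hL', AlgEquiv.commutes, ← IsScalarTower.algebraMap_apply]
    · rw [hw, hL', AlgEquiv.symm_apply_apply, hy]

end

section

variable {Ω : Type} [Field Ω] [NumberField Ω] [IsGalois ℚ Ω]

/-- the maximal subfield of `Ω` abelian over the fixed field of `B` -/
theorem mem_fixed_iff (B : Subgroup Gal(Ω/ℚ)) (x : Ω) :
    x ∈ IntermediateField.fixedField
        (commutator Gal(Ω/(IntermediateField.fixedField B : IntermediateField ℚ Ω))) ↔
      x ∈ IntermediateField.fixedField (⁅B, B⁆ : Subgroup Gal(Ω/ℚ)) := by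
  set k : IntermediateField ℚ Ω := IntermediateField.fixedField B with hk
  have h1 : (toG k Ω).range = B := by
    ext g
    change g ∈ fixG k Ω ↔ _
    rw [mem_fixG]
    have h := IntermediateField.fixingSubgroup_fixedField B
    constructor
    · intro hg
      rw [← h, IntermediateField.mem_fixingSubgroup_iff]
      intro x hx
      exact hg ⟨x, hx⟩
    · intro hg x
      rw [← h, IntermediateField.mem_fixingSubgroup_iff] at hg
      exact hg _ x.2
  have h2 : (commutator Gal(Ω/k)).map (toG k Ω) = ⁅B, B⁆ := by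
    rw [commutator_def, Subgroup.map_commutator, ← MonoidHom.range_eq_map, h1]
  rw [IntermediateField.mem_fixedField_iff, IntermediateField.mem_fixedField_iff, ← h2]
  constructor
  · rintro h _ ⟨g, hg, rfl⟩
    exact h g hg
  · intro h g hg
    exact h (toG k Ω g) ⟨g, hg, rfl⟩

theorem stark_of_fixed {ι : Ω →+* ℂ} {f : ℕ} (B : Subgroup Gal(Ω/ℚ))
    {η : IntermediateField.fixedField
      (commutator Gal(Ω/(IntermediateField.fixedField B : IntermediateField ℚ Ω)))}
    (hη : IsStarkUnit (IntermediateField.fixedField B : IntermediateField ℚ Ω)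
      (ι.comp (algebraMap (IntermediateField.fixedField
      (commutator Gal(Ω/(IntermediateField.fixedField B : IntermediateField ℚ Ω)))) Ω)) f η) :
    ∃ η' : LF B, IsStarkUnit (kF B) (ι.comp (algebraMap (LF B) Ω)) f η' := by
  let L := IntermediateField.fixedField
      (commutator Gal(Ω/(IntermediateField.fixedField B : IntermediateField ℚ Ω)))
  let _ : Algebra (kF B) L :=
    inferInstanceAs (Algebra (IntermediateField.fixedField B : IntermediateField ℚ Ω) L)
  let ψ : L ≃+* LF B :=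
    { toFun := fun x => (⟨(x : Ω), (mem_fixed_iff B (x : Ω)).1 x.2⟩ :
        ↥(IntermediateField.fixedField (⁅B, B⁆ : Subgroup Gal(Ω/ℚ))))
      invFun := fun x => ⟨x.1, (mem_fixed_iff B x.1).2 x.2⟩
      left_inv := fun _ => rfl
      right_inv := fun _ => rfl
      map_mul' := fun _ _ => rfl
      map_add' := fun _ _ => rfl }
  let φ : L ≃ₐ[kF B] LF B := AlgEquiv.ofRingEquiv (f := ψ) (fun _ => rfl)
  exact ⟨φ η, isStarkUnit_transport (k := kF B) φ (fun _ => rfl) hη⟩

end

end Pool.Agent.StarkRQ.Oct
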