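import Pool.Agent.StarkRQ.Oct.PDefs
import Pool.Agent.StarkRQ.Oct.GDefs
import Pool.Agent.StarkRQ.KleinCoeff

/-!
# Restriction of the counting functions to a subfield, and sums twisted by `κ`

`cnt_sum_ker` (`Ω ⊇ L ⊇ M ⊇ k`): if `res L Ω g ∉ fixG k L` (iff `res M Ω g ∉ fixG k M`) both sides are `0`.
Otherwise `res L Ω g = toG k L s`, `zcoeff_restrict` (with `H = M`, `M = L`) and `zcoeff_eq_cnt` say that
`cnt k M n (res M Ω g)` is the sum of `cnt k L n (toG k L s')` over the `s' ∈ Gal(L/k)` with the same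
restriction to `M` as `s`, i.e. over `s' = s * s''`, `s''` in the kernel of `Gal(L/k) → Gal(M/k)`, and
`u ↦ res L Ω u` maps `(res M Ω).ker` onto this kernel (all elements of `Gal(L/ℚ)` fixing `M` fix `k`), every
fibre has `|(res L Ω).ker|` elements.

`twist_one`: the `t` in the commutator subgroup `C` with `κ t = 1` are the elements of `(res M Ω).ker`
(`hκ`, `hM`), those with `κ t = -1` are the `t₀ u` with `u ∈ (res M Ω).ker`. So the left side is
`∑_u cnt k L n (res (g u)) - ∑_u cnt k L n (res (g t₀ u))`; use `cnt_sum_ker` twice;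
`res M Ω (g t₀) = res M Ω t₀ * res M Ω g` (`hcen`).
-/

open NumberField Module

namespace Pool.Agent.StarkRQ.Oct

variable {Ω k L M : Type} [Field Ω] [NumberField Ω] [IsGalois ℚ Ω] [Field k] [NumberField k]
  [Field L] [NumberField L] [IsGalois ℚ L] [Field M] [NumberField M] [IsGalois ℚ M]
  [Algebra k L] [Algebra k M] [Algebra M L] [Algebra L Ω] [Algebra M Ω] [IsScalarTower k M L]
  [IsScalarTower M L Ω] [IsAbelianGalois k L]

private lemma Twist_cnt_zero {F M' : Type*} [Field F] [NumberField F] [Field M'] [NumberField M']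
    [Algebra F M'] (n : ℕ) {g : Gal(M'/ℚ)} (hg : g ∉ fixG F M') : cnt F M' n g = 0 := by
  rw [cnt, Nat.card_eq_zero]
  left
  refine ⟨fun x => ?_⟩
  apply hg
  rw [← x.2.2]
  exact ⟨_, rfl⟩

omit [IsGalois ℚ Ω] in
private lemma Twist_res_res (g : Gal(Ω/ℚ)) : res M L (res L Ω g) = res M Ω g := by
  ext y
  apply (algebraMap M Ω).injective
  rw [res_apply, IsScalarTower.algebraMap_apply M L Ω, res_apply, res_apply,
    ← IsScalarTower.algebraMap_apply]

theorem cnt_sum_ker {f : ℕ} (hram : ∀ p : ℕ, p.Prime → (p : ℤ) ∣ discr Ω → p ∣ f) {n : ℕ}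
    (hn : n ≠ 0) (hnf : n.Coprime f) (g : Gal(Ω/ℚ)) :
    (Nat.card (res L Ω).ker : ℤ) * (cnt k M n (res M Ω g) : ℤ) =
      ∑ᶠ u : (res M Ω).ker, (cnt k L n (res L Ω (g * (u : Gal(Ω/ℚ)))) : ℤ) := by
  classical
  have hA : ∀ σ τ : Gal(L/k), σ * τ = τ * σ := fun σ τ => mul_comm' σ τ
  have : IsGalois k M := IsGalois.tower_top_of_isGalois ℚ k M
  have hramL : ∀ p : ℕ, p.Prime → (p : ℤ) ∣ discr L → p ∣ f := fun p hp h =>
    hram p hp (h.trans (discr_dvd_discr L Ω))
  have hramM : ∀ p : ℕ, p.Prime → (p : ℤ) ∣ discr M → p ∣ f := fun p hp h =>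
    hram p hp (h.trans (discr_dvd_discr M Ω))
  have hsurjM : ∀ σ : Gal(M/k), ∃ s : Gal(L/k), AlgEquiv.restrictNormalHom M s = σ :=
    AlgEquiv.restrictNormalHom_surjective (F := k) (K₁ := M) L
  have hAM : ∀ σ τ : Gal(M/k), σ * τ = τ * σ := by
    intro σ τ
    obtain ⟨s, rfl⟩ := hsurjM σ
    obtain ⟨t, rfl⟩ := hsurjM τ
    rw [← map_mul, hA, map_mul]
  have htoG : ∀ s : Gal(L/k), toG k M (AlgEquiv.restrictNormalHom M s) = res M L (toG k L s) := by
    intro s
    ext y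
    apply (algebraMap M L).injective
    rw [res_apply, toG_apply, toG_apply]
    exact AlgEquiv.restrictNormal_commutes s M y
  -- the right-hand side as a sum over the elements with the same restriction to `M`
  have hR : ∑ᶠ u : (res M Ω).ker, (cnt k L n (res L Ω (g * (u : Gal(Ω/ℚ)))) : ℤ) =
      (Nat.card (res L Ω).ker : ℤ) * ∑ x ∈ Finset.univ.filter (fun x : Gal(L/ℚ) =>
        res M L x = res M Ω g), (cnt k L n x : ℤ) := by
    rw [finsum_eq_sum_of_fintype]
    have e1 : ∑ u : (res M Ω).ker, (cnt k L n (res L Ω (g * (u : Gal(Ω/ℚ)))) : ℤ) =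
        ∑ y ∈ Finset.univ.filter (fun y : Gal(Ω/ℚ) => res M Ω y = res M Ω g),
          (cnt k L n (res L Ω y) : ℤ) := by
      refine Finset.sum_bij (fun u _ => g * (u : Gal(Ω/ℚ))) ?_ ?_ ?_ ?_
      · intro u _
        rw [Finset.mem_filter]
        refine ⟨Finset.mem_univ _, ?_⟩
        rw [map_mul, MonoidHom.mem_ker.1 u.2, mul_one]
      · intro u _ v _ h
        exact Subtype.ext (mul_left_cancel h)
      · intro y hy
        refine ⟨⟨g⁻¹ * y, ?_⟩, Finset.mem_univ _, mul_inv_cancel_left _ _⟩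
        rw [MonoidHom.mem_ker, map_mul, map_inv, (Finset.mem_filter.1 hy).2, inv_mul_cancel]
      · intro u _
        rfl
    rw [e1, ← Finset.sum_fiberwise_of_maps_to (t := Finset.univ.filter (fun x : Gal(L/ℚ) =>
        res M L x = res M Ω g)) (g := res L Ω) (fun y hy => by
        rw [Finset.mem_filter] at hy ⊢
        exact ⟨Finset.mem_univ _, by rw [Twist_res_res, hy.2]⟩), Finset.mul_sum]
    apply Finset.sum_congr rfl
    intro x hx
    have hx' := (Finset.mem_filter.1 hx).2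
    have e2 : (Finset.univ.filter (fun y : Gal(Ω/ℚ) => res M Ω y = res M Ω g)).filter
        (fun y => res L Ω y = x) = Finset.univ.filter (fun y : Gal(Ω/ℚ) => res L Ω y = x) := by
      ext y
      simp only [Finset.mem_filter, Finset.mem_univ, true_and, and_iff_right_iff_imp]
      intro h
      rw [← Twist_res_res (L := L), h, hx']
    rw [e2, Finset.sum_congr rfl (g := fun _ => (cnt k L n x : ℤ)) (fun y hy => by
      rw [(Finset.mem_filter.1 hy).2]), Finset.sum_const, nsmul_eq_mul]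
    congr 1
    have hs : Function.Surjective (res L Ω) := AlgEquiv.restrictNormalHom_surjective (F := ℚ)
      (K₁ := L) Ω
    have e3 := MonoidHom.card_fiber_eq_of_mem_range (res L Ω) (hs x) (hs 1)
    have e4 : Nat.card (res L Ω).ker = Nat.card {y : Gal(Ω/ℚ) // res L Ω y = 1} :=
      Nat.card_congr (Equiv.subtypeEquivRight fun y => MonoidHom.mem_ker)
    rw [e3, e4, Nat.card_eq_fintype_card, Fintype.card_subtype]
  rw [hR]
  congr 1
  by_cases hg : res L Ω g ∈ fixG k L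
  · obtain ⟨s, hs⟩ := hg
    have h1 : res M Ω g = toG k M (AlgEquiv.restrictNormalHom M s) := by
      rw [htoG, hs, Twist_res_res]
    have h2 : (cnt k M n (res M Ω g) : ℤ) = ∑ t ∈ Finset.univ.filter (fun t : Gal(L/k) =>
        AlgEquiv.restrictNormalHom M t = AlgEquiv.restrictNormalHom M s),
          (cnt k L n (toG k L t) : ℤ) := by
      rw [h1, ← zcoeff_eq_cnt hAM hramM hn hnf, zcoeff_restrict (M := L) hA hramL _ n hn,
        finsum_eq_sum_of_fintype]
      push_cast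
      symm
      rw [← Finset.sum_subtype (Finset.univ.filter fun t : Gal(L/k) =>
        AlgEquiv.restrictNormalHom M t = AlgEquiv.restrictNormalHom M s) (by simp)
        (fun t => (zcoeff f t n : ℤ))]
      refine Finset.sum_congr rfl fun t _ => ?_
      rw [zcoeff_eq_cnt hA hramL hn hnf]
    rw [h2]
    refine Finset.sum_bij (fun t _ => toG k L t) ?_ ?_ ?_ ?_
    · intro t ht
      rw [Finset.mem_filter] at ht ⊢
      refine ⟨Finset.mem_univ _, ?_⟩
      rw [← htoG, ht.2, ← h1]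
    · intro t _ t' _ h
      exact toG_injective h
    · intro x hx
      have hx' := (Finset.mem_filter.1 hx).2
      have h3 : x ∈ fixG k L := by
        rw [mem_fixG_iff_res (M₁ := M), hx', h1]
        exact ⟨_, rfl⟩
      obtain ⟨t, rfl⟩ := h3
      refine ⟨t, ?_, rfl⟩
      rw [Finset.mem_filter]
      refine ⟨Finset.mem_univ _, toG_injective ?_⟩
      rw [htoG, hx', h1]
    · intro t _
      rfl
  · have h1 : res M Ω g ∉ fixG k M := by
      rw [← Twist_res_res (L := L), ← mem_fixG_iff_res]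
      exact hg
    rw [Twist_cnt_zero n h1]
    symm
    push_cast
    apply Finset.sum_eq_zero
    intro x hx
    have hx' := (Finset.mem_filter.1 hx).2
    rw [Twist_cnt_zero, Nat.cast_zero]
    intro h2
    rw [mem_fixG_iff_res (M₁ := M), hx'] at h2
    exact h1 h2

theorem twist_one {f : ℕ} (hram : ∀ p : ℕ, p.Prime → (p : ℤ) ∣ discr Ω → p ∣ f)
    (hcen : ∀ t ∈ commutator Gal(Ω/ℚ), ∀ x, t * x = x * t)
    (κ : commutator Gal(Ω/ℚ) →* ℤˣ) (hM : (res M Ω).ker ≤ commutator Gal(Ω/ℚ))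
    (hκ : ∀ t : commutator Gal(Ω/ℚ), κ t = 1 ↔ res M Ω (t : Gal(Ω/ℚ)) = 1)
    {t₀ : commutator Gal(Ω/ℚ)} (ht₀ : κ t₀ = -1) {n : ℕ} (hn : n ≠ 0) (hnf : n.Coprime f)
    (g : Gal(Ω/ℚ)) :
    ∑ᶠ t : commutator Gal(Ω/ℚ), ((κ t : ℤˣ) : ℤ) *
        (cnt k L n (res L Ω (g * (t : Gal(Ω/ℚ)))) : ℤ) =
      (Nat.card (res L Ω).ker : ℤ) * dcnt k M (res M Ω (t₀ : Gal(Ω/ℚ))) n (res M Ω g) := by
  classical
  have key : ∀ h : Gal(Ω/ℚ), ∑ t ∈ Finset.univ.filter (fun t : commutator Gal(Ω/ℚ) => κ t = 1),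
      (cnt k L n (res L Ω (h * (t : Gal(Ω/ℚ)))) : ℤ) =
        (Nat.card (res L Ω).ker : ℤ) * (cnt k M n (res M Ω h) : ℤ) := by
    intro h
    rw [cnt_sum_ker hram hn hnf h, finsum_eq_sum_of_fintype]
    symm
    refine Finset.sum_bij (fun u _ => (⟨u, hM u.2⟩ : commutator Gal(Ω/ℚ))) ?_ ?_ ?_ ?_
    · intro u _
      rw [Finset.mem_filter]
      exact ⟨Finset.mem_univ _, (hκ _).2 (MonoidHom.mem_ker.1 u.2)⟩
    · intro u _ v _ h
      exact Subtype.ext (congrArg (fun t : commutator Gal(Ω/ℚ) => (t : Gal(Ω/ℚ))) h)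
    · intro t ht
      exact ⟨⟨t, MonoidHom.mem_ker.2 ((hκ t).1 (Finset.mem_filter.1 ht).2)⟩, Finset.mem_univ _, rfl⟩
    · intro u _
      rfl
  rw [finsum_eq_sum_of_fintype, ← Finset.sum_filter_add_sum_filter_not Finset.univ
    (fun t : commutator Gal(Ω/ℚ) => κ t = 1)]
  have h1 : ∑ t ∈ Finset.univ.filter (fun t : commutator Gal(Ω/ℚ) => κ t = 1),
      ((κ t : ℤˣ) : ℤ) * (cnt k L n (res L Ω (g * (t : Gal(Ω/ℚ)))) : ℤ) =
      (Nat.card (res L Ω).ker : ℤ) * (cnt k M n (res M Ω g) : ℤ) := by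
    rw [← key g]
    refine Finset.sum_congr rfl fun t ht => ?_
    rw [(Finset.mem_filter.1 ht).2, Units.val_one, one_mul]
  have h2 : ∑ t ∈ Finset.univ.filter (fun t : commutator Gal(Ω/ℚ) => ¬ κ t = 1),
      ((κ t : ℤˣ) : ℤ) * (cnt k L n (res L Ω (g * (t : Gal(Ω/ℚ)))) : ℤ) =
      - ((Nat.card (res L Ω).ker : ℤ) *
        (cnt k M n (res M Ω (g * (t₀ : Gal(Ω/ℚ)))) : ℤ)) := by
    rw [← key (g * (t₀ : Gal(Ω/ℚ))), ← Finset.sum_neg_distrib]
    symm
    refine Finset.sum_bij (fun t _ => t₀ * t) ?_ ?_ ?_ ?_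
    · intro t ht
      rw [Finset.mem_filter] at ht ⊢
      refine ⟨Finset.mem_univ _, ?_⟩
      rw [map_mul, ht.2, ht₀]
      decide
    · intro t _ t' _ h
      exact mul_left_cancel h
    · intro t ht
      have ht' := (Finset.mem_filter.1 ht).2
      refine ⟨t₀⁻¹ * t, ?_, mul_inv_cancel_left _ _⟩
      rw [Finset.mem_filter]
      refine ⟨Finset.mem_univ _, ?_⟩
      rw [map_mul, map_inv, ht₀, (Int.units_eq_one_or (κ t)).resolve_left ht']
      decide
    · intro t ht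
      rw [map_mul κ, (Finset.mem_filter.1 ht).2, ht₀, Subgroup.coe_mul, ← mul_assoc]
      simp
  rw [h1, h2, dcnt, ← map_mul, hcen _ t₀.2]
  ring

end Pool.Agent.StarkRQ.Oct
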